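import Pool.Agent.N932.FL.PolyArc

/-! # Polygons as walks: the law has a bounded density -/

set_option autoImplicit false

namespace Pool.Agent.N932.FL.Poly

open scoped Classical

theorem loops_dens : ∃ K : ℝ, 0 < K ∧ ∀ n : ℕ, 2 ≤ n →
    0 < (loops n).ncard ∧ ∀ B : Set (Fin (2 * n - 1 + 1) → ℤ × ℤ),
    ((loops n ∩ {f | e n f ∈ B}).ncard : ℝ) / (loops n).ncard ≤
      Real.exp (K * Real.log n ^ 2) *
        (((sqLat.walks (2 * n - 1) ∩ B).ncard : ℝ) / (sqLat.walks (2 * n - 1)).ncard) := by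
  have hμ := H981.one_le_mu
  have hμ0 := H981.mu_pos
  obtain ⟨Ku, hKu, hup⟩ := Pool.Agent.TH508.LT.sq_upper2
  obtain ⟨Kp, hKp, hpp⟩ := Pool.Agent.TH508.LT.sq_PP2
  refine ⟨4 * |Ku| + |Kp| + 1, by positivity, fun n hn => ?_⟩
  have hn1 : 1 ≤ n := by omega
  have : NeZero (2 * n) := ⟨by omega⟩
  have hn2 : (2 : ℝ) ≤ n := by exact_mod_cast hn
  have hl2 := Real.log_two_gt_d9
  have hlog : Real.log 2 ≤ Real.log n := Real.log_le_log (by norm_num) hn2
  have hcast : ((2 * n - 1 : ℕ) : ℝ) = 2 * n - 1 := by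
    rw [Nat.cast_sub (by omega)]
    push_cast
    ring
  have hlN : Real.log ((2 * n - 1 : ℕ) : ℝ) ^ 2 ≤ 4 * Real.log n ^ 2 := by
    have h5 : Real.log ((2 * n - 1 : ℕ) : ℝ) ≤ 2 * Real.log n := by
      have h6 : ((2 * n - 1 : ℕ) : ℝ) ≤ n ^ 2 := by
        rw [hcast]
        nlinarith [sq_nonneg ((n : ℝ) - 1)]
      have h7 := Real.log_le_log (by rw [hcast]; linarith) h6
      rwa [Real.log_pow] at h7
    have h6 : 0 ≤ Real.log ((2 * n - 1 : ℕ) : ℝ) :=
      Real.log_nonneg (by rw [hcast]; linarith)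
    nlinarith
  obtain ⟨E, hE⟩ : ∃ E : ℝ, E = (4 * |Ku| + |Kp| + 1) * Real.log n ^ 2 := ⟨_, rfl⟩
  rw [← hE]
  have hc0 : (0 : ℝ) < (sqLat.walks (2 * n - 1)).ncard := sqLat.card0 _
  have hlow : Real.exp (-E) * ((sqLat.walks (2 * n - 1)).ncard : ℝ) ≤ (loops n).ncard := by
    have h5 := (hpp n hn).1
    rw [PP_eq, le_div_iff₀ (by positivity)] at h5
    refine le_trans ?_ h5
    rw [cr_eq]
    have h6 := hup (2 * n - 1) (by omega)
    have h7 : H981.mu ^ (2 * n - 1) ≤ H981.mu ^ (2 * n) := pow_le_pow_right₀ hμ (by omega)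
    have h8 : Real.exp (-E) * H981.cr' (2 * n - 1) ≤
        Real.exp (-E) * (H981.mu ^ (2 * n) *
          Real.exp (Ku * Real.log ((2 * n - 1 : ℕ) : ℝ) ^ 2)) := by
      refine mul_le_mul_of_nonneg_left (h6.trans ?_) (Real.exp_pos _).le
      exact mul_le_mul_of_nonneg_right h7 (Real.exp_pos _).le
    refine h8.trans ?_
    have h9 : Real.exp (-E) * (H981.mu ^ (2 * n) *
        Real.exp (Ku * Real.log ((2 * n - 1 : ℕ) : ℝ) ^ 2)) =
        H981.mu ^ (2 * n) *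
          Real.exp (-E + Ku * Real.log ((2 * n - 1 : ℕ) : ℝ) ^ 2) := by
      rw [Real.exp_add]
      ring
    rw [h9]
    have h10 : -E + Ku * Real.log ((2 * n - 1 : ℕ) : ℝ) ^ 2 ≤ -(Kp * Real.log n ^ 2) := by
      rw [hE]
      have h11 : Ku * Real.log ((2 * n - 1 : ℕ) : ℝ) ^ 2 ≤ |Ku| * (4 * Real.log n ^ 2) :=
        (mul_le_mul_of_nonneg_right (le_abs_self Ku) (sq_nonneg _)).trans
          (mul_le_mul_of_nonneg_left hlN (abs_nonneg _))
      have h12 : Kp * Real.log n ^ 2 ≤ |Kp| * Real.log n ^ 2 :=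
        mul_le_mul_of_nonneg_right (le_abs_self Kp) (sq_nonneg _)
      nlinarith [sq_nonneg (Real.log (n : ℝ))]
    calc H981.mu ^ (2 * n) * Real.exp (-E + Ku * Real.log ((2 * n - 1 : ℕ) : ℝ) ^ 2) ≤
          H981.mu ^ (2 * n) * Real.exp (-(Kp * Real.log n ^ 2)) :=
          mul_le_mul_of_nonneg_left (Real.exp_le_exp.2 h10) (by positivity)
      _ = H981.mu ^ (2 * n) * Real.exp (-(Kp * Real.log n ^ 2)) * 1 := (mul_one _).symm
      _ ≤ H981.mu ^ (2 * n) * Real.exp (-(Kp * Real.log n ^ 2)) * (4 * n) :=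
          mul_le_mul_of_nonneg_left (by linarith) (by positivity)
  have hpos : (0 : ℝ) < (loops n).ncard := lt_of_lt_of_le (mul_pos (Real.exp_pos _) hc0) hlow
  refine ⟨by exact_mod_cast hpos, fun B => ?_⟩
  have hcount : ((loops n ∩ {f | e n f ∈ B}).ncard : ℝ) ≤
      (sqLat.walks (2 * n - 1) ∩ B).ncard := by
    have h3 := Set.ncard_le_ncard_of_injOn (s := loops n ∩ {f | e n f ∈ B})
      (t := sqLat.walks (2 * n - 1) ∩ B) (e n)
      (fun g hg => ⟨e_mem hn1 hg.1, hg.2⟩) ((e_inj hn1).injOn)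
      ((sqLat.finite _).subset Set.inter_subset_left)
    exact_mod_cast h3
  rw [div_le_iff₀ hpos]
  calc ((loops n ∩ {f | e n f ∈ B}).ncard : ℝ) ≤ (sqLat.walks (2 * n - 1) ∩ B).ncard := hcount
    _ = Real.exp E * (((sqLat.walks (2 * n - 1) ∩ B).ncard : ℝ) /
          (sqLat.walks (2 * n - 1)).ncard) *
        (Real.exp (-E) * (sqLat.walks (2 * n - 1)).ncard) := by
        rw [Real.exp_neg]
        have := Real.exp_pos E
        field_simp
    _ ≤ _ := mul_le_mul_of_nonneg_left hlow (by positivity)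

end Pool.Agent.N932.FL.Poly
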