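import Mathlib

/-! # Decompositions of self-avoiding trajectories -/

set_option autoImplicit false

namespace Pool.Agent.N932.FL

open scoped Classical

section defs

variable {V : Type}

/-- the self-avoiding trajectories in `D` from `a` to `b` -/
def trj (Adj : V → V → Prop) (D : Set V) (a b : V) : Set (List V) :=
  {l | l.head? = some a ∧ l.getLast? = some b ∧ l.Nodup ∧ l.IsChain Adj ∧ ∀ v ∈ l, v ∈ D}

/-- those which start at `a` -/
def strt (Adj : V → V → Prop) (D : Set V) (a : V) : Set (List V) :=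
  {l | l.head? = some a ∧ l.Nodup ∧ l.IsChain Adj ∧ ∀ v ∈ l, v ∈ D}

/-- those which end at `b` -/
def ends (Adj : V → V → Prop) (D : Set V) (b : V) : Set (List V) :=
  {l | l.getLast? = some b ∧ l.Nodup ∧ l.IsChain Adj ∧ ∀ v ∈ l, v ∈ D}

/-- the vertices which are not in `p` and not in `q` -/
def cutD (D : Set V) (p q : List V) : Set V := {v | v ∈ D ∧ v ∉ p ∧ v ∉ q}

end defs

variable {V : Type}

theorem nodup_fin {D : Set V} (hD : D.Finite) : {l : List V | l.Nodup ∧ ∀ v ∈ l, v ∈ D}.Finite := by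
  have : Fintype D := hD.fintype
  have h1 : (Set.range (fun l : {l : List D // l.Nodup} => l.1.map Subtype.val)).Finite :=
    Set.finite_range _
  refine h1.subset ?_
  rintro l ⟨h2, h3⟩
  refine ⟨⟨l.pmap Subtype.mk h3, ?_⟩, ?_⟩
  · exact h2.pmap (fun a _ b _ h => by simpa using h)
  · show (l.pmap Subtype.mk h3).map Subtype.val = l
    rw [List.map_pmap]
    simp

theorem trj_fin {Adj : V → V → Prop} {D : Set V} (hD : D.Finite) (a b : V) :
    (trj Adj D a b).Finite :=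
  (nodup_fin hD).subset (fun _ h => ⟨h.2.2.1, h.2.2.2.2⟩)

theorem strt_fin {Adj : V → V → Prop} {D : Set V} (hD : D.Finite) (a : V) :
    (strt Adj D a).Finite :=
  (nodup_fin hD).subset (fun _ h => ⟨h.2.1, h.2.2.2⟩)

theorem ends_fin {Adj : V → V → Prop} {D : Set V} (hD : D.Finite) (b : V) :
    (ends Adj D b).Finite :=
  (nodup_fin hD).subset (fun _ h => ⟨h.2.1, h.2.2.2⟩)

theorem cutD_sub (D : Set V) (p q : List V) : cutD D p q ⊆ D := fun _ h => h.1

/-- the decomposition -/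
theorem decomp {Adj : V → V → Prop} {D : Set V} {a b : V} {l p m q : List V}
    (hl : l ∈ trj Adj D a b) (h : l = p ++ m ++ q) {u v : V} (hu : m.head? = some u)
    (hv : m.getLast? = some v) :
    p ++ [u] ∈ strt Adj D a ∧ v :: q ∈ ends Adj D b ∧ m ∈ trj Adj (cutD D p q) u v := by
  obtain ⟨h1, h2, h3, h4, h5⟩ := hl
  subst h
  have hm : m ≠ [] := by
    rintro rfl
    simp at hu
  obtain ⟨m', rfl⟩ : ∃ m', m = u :: m' := by
    cases m with
    | nil => exact absurd rfl hm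
    | cons x xs =>
      simp only [List.head?_cons, Option.some.injEq] at hu
      exact ⟨xs, by rw [hu]⟩
  obtain ⟨m'', hm''⟩ : ∃ m'', u :: m' = m'' ++ [v] := by
    refine ⟨(u :: m').dropLast, ?_⟩
    have h6 := List.dropLast_append_getLast? v (by rw [hv]; rfl)
    exact h6.symm
  refine ⟨⟨?_, ?_, ?_, ?_⟩, ⟨?_, ?_, ?_, ?_⟩, ⟨hu, hv, ?_, ?_, ?_⟩⟩
  · cases p with
    | nil => simpa using h1
    | cons x xs => simpa using h1
  · have h6 : List.Sublist (p ++ [u]) (p ++ u :: m' ++ q) := by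
      rw [List.append_assoc]
      refine List.Sublist.append_left ?_ p
      simp
    exact h3.sublist h6
  · have h6 : p ++ (u :: m') ++ q = (p ++ [u]) ++ (m' ++ q) := by simp
    rw [h6] at h4
    exact (List.isChain_append.1 h4).1
  · intro w hw
    refine h5 w ?_
    simp only [List.mem_append, List.mem_cons, List.not_mem_nil, or_false] at hw ⊢
    tauto
  · cases q with
    | nil => simpa [hv] using h2
    | cons x xs =>
      rw [List.getLast?_append] at h2
      simpa using h2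
  · have h6 : List.Sublist (v :: q) (p ++ u :: m' ++ q) := by
      rw [hm'']
      simp only [List.append_assoc]
      exact (List.sublist_append_right _ _).trans (List.sublist_append_right _ _)
    exact h3.sublist h6
  · have h6 : p ++ (u :: m') ++ q = (p ++ m'') ++ (v :: q) := by
      rw [hm'']
      simp
    rw [h6] at h4
    exact (List.isChain_append.1 h4).2.1
  · intro w hw
    refine h5 w ?_
    rw [hm'']
    simp only [List.mem_append, List.mem_cons, List.not_mem_nil, or_false] at hw ⊢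
    tauto
  · have h6 := (List.nodup_append.1 h3).1
    exact (List.nodup_append.1 h6).2.1
  · exact (List.isChain_append.1 (List.isChain_append.1 h4).1).2.1
  · intro w hw
    refine ⟨h5 w (by simp only [List.mem_append]; tauto), ?_, ?_⟩
    · intro hp
      have h6 := (List.nodup_append.1 h3).1
      exact (List.nodup_append.1 h6).2.2 w hp w hw rfl
    · intro hq
      exact (List.nodup_append.1 h3).2.2 w (List.mem_append_right _ hw) w hq rfl

theorem sum_image_le {α β : Type} [DecidableEq β] (S : Finset α) (g : α → β) {w : β → ℝ} (hw : ∀ b, 0 ≤ w b) :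
    ∑ b ∈ S.image g, w b ≤ ∑ s ∈ S, w (g s) := by
  rw [Finset.sum_comp w g]
  refine Finset.sum_le_sum (fun b hb => ?_)
  rw [nsmul_eq_mul]
  have h1 : 1 ≤ (S.filter (fun a => g a = b)).card := by
    rw [Nat.one_le_iff_ne_zero, Finset.card_ne_zero]
    obtain ⟨a, ha, h⟩ := Finset.mem_image.1 hb
    exact ⟨a, Finset.mem_filter.2 ⟨ha, h⟩⟩
  exact le_mul_of_one_le_left (hw b) (by exact_mod_cast h1)

/-- **the general bound**: weights `w l ≤ f p * g m * ...` -/
theorem bad_le {Adj : V → V → Prop} {D : Set V} (hD : D.Finite) (a b : V)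
    (w : List V → ℝ) (hw : ∀ l, 0 ≤ w l) (Q : List V → List V → V → V → Prop) (θ : ℝ)
    (W : List V → List V → ℝ) (hW : ∀ p q, 0 ≤ W p q)
    (hθ : ∀ p q u v, p ++ [u] ∈ strt Adj D a → v :: q ∈ ends Adj D b →
      (∀ x ∈ p ++ [u], x ∉ q) → (∀ x ∈ v :: q, x ∉ p) → Q p q u v →
      ∑ᶠ m ∈ trj Adj (cutD D p q) u v, w (p ++ m ++ q) ≤ θ * W p q) (hθ0 : 0 ≤ θ) :
    ∑ᶠ l ∈ trj Adj D a b ∩ {l | ∃ p m q u v, l = p ++ m ++ q ∧ m.head? = some u ∧
      m.getLast? = some v ∧ Q p q u v}, w l ≤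
      θ * ∑ᶠ α ∈ strt Adj D a, ∑ᶠ β ∈ ends Adj D b,
        (if (∀ x ∈ α, x ∉ β.tail) ∧ (∀ x ∈ β, x ∉ α.dropLast) then W α.dropLast β.tail else 0) := by
  obtain ⟨Sa, hSa⟩ : ∃ S : Finset (List V), (S : Set (List V)) = strt Adj D a :=
    ⟨(strt_fin hD a).toFinset, (strt_fin hD a).coe_toFinset⟩
  obtain ⟨Sb, hSb⟩ : ∃ S : Finset (List V), (S : Set (List V)) = ends Adj D b :=
    ⟨(ends_fin hD b).toFinset, (ends_fin hD b).coe_toFinset⟩
  have hcf : ∀ p q u v, (trj Adj (cutD D p q) u v).Finite := fun p q u v =>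
    trj_fin (hD.subset (cutD_sub D p q)) u v
  obtain ⟨B, hB⟩ : ∃ B : Set (List V), B = trj Adj D a b ∩ {l | ∃ p m q u v, l = p ++ m ++ q ∧
      m.head? = some u ∧ m.getLast? = some v ∧ Q p q u v} := ⟨_, rfl⟩
  have hBf : B.Finite := by
    rw [hB]
    exact (trj_fin hD a b).subset Set.inter_subset_left
  rw [← hB, finsum_mem_eq_finite_toFinset_sum _ hBf, ← hSa, ← hSb]
  simp only [finsum_mem_coe_finset]
  -- the keys
  obtain ⟨Ky, hKy⟩ : ∃ Ky : Finset (((List V × V) × (List V × V)) × (List V × List V)),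
      Ky = (((Sa ×ˢ Sb).biUnion (fun αβ =>
        (αβ.1.getLast?.toFinset ×ˢ αβ.2.head?.toFinset).image
          (fun uv => (((αβ.1.dropLast, uv.1), (αβ.2.tail, uv.2)), αβ)))).filter
        (fun k => ((∀ x ∈ k.2.1, x ∉ k.2.2.tail) ∧ (∀ x ∈ k.2.2, x ∉ k.2.1.dropLast)) ∧
          Q k.1.1.1 k.1.2.1 k.1.1.2 k.1.2.2)) := ⟨_, rfl⟩
  have hmem : ∀ k ∈ Ky, k.2.1 ∈ Sa ∧ k.2.2 ∈ Sb ∧ k.2.1 = k.1.1.1 ++ [k.1.1.2] ∧
      k.2.2 = k.1.2.2 :: k.1.2.1 ∧
      ((∀ x ∈ k.2.1, x ∉ k.2.2.tail) ∧ (∀ x ∈ k.2.2, x ∉ k.2.1.dropLast)) ∧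
      Q k.1.1.1 k.1.2.1 k.1.1.2 k.1.2.2 := by
    intro k hk
    rw [hKy, Finset.mem_filter, Finset.mem_biUnion] at hk
    obtain ⟨⟨αβ, h1, h2⟩, h3, h4⟩ := hk
    rw [Finset.mem_image] at h2
    obtain ⟨uv, h5, rfl⟩ := h2
    rw [Finset.mem_product] at h1 h5
    simp only [Option.mem_toFinset, Option.mem_def] at h5
    refine ⟨h1.1, h1.2, ?_, ?_, h3, h4⟩
    · exact (List.dropLast_append_getLast? _ (by rw [h5.1]; rfl)).symm
    · show αβ.2 = uv.2 :: αβ.2.tail
      cases h6 : αβ.2 with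
      | nil => rw [h6] at h5; simp at h5
      | cons x xs =>
        rw [h6] at h5
        simp only [List.head?_cons, Option.some.injEq] at h5
        rw [h5.2]
        rfl
  obtain ⟨Sg, hSg⟩ : ∃ Sg : Finset (Σ _ : (((List V × V) × (List V × V)) × (List V × List V)),
      List V), Sg = Ky.sigma (fun k => (hcf k.1.1.1 k.1.2.1 k.1.1.2 k.1.2.2).toFinset) := ⟨_, rfl⟩
  have hsub : hBf.toFinset ⊆ Sg.image (fun s => s.1.1.1.1 ++ s.2 ++ s.1.1.2.1) := by
    intro l hl
    rw [Set.Finite.mem_toFinset, hB] at hl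
    obtain ⟨hl, p, m, q, u, v, h1, h2, h3, h4⟩ := hl
    obtain ⟨h5, h6, h7⟩ := decomp hl h1 h2 h3
    rw [Finset.mem_image]
    refine ⟨⟨(((p, u), (q, v)), (p ++ [u], v :: q)), m⟩, ?_, h1.symm⟩
    rw [hSg, Finset.mem_sigma]
    have hnd : (p ++ m ++ q).Nodup := by
      rw [← h1]
      exact hl.2.2.1
    have hu : u ∈ m := List.mem_of_mem_head? h2
    have hv : v ∈ m := List.mem_of_mem_getLast? h3
    refine ⟨?_, (Set.Finite.mem_toFinset _).2 h7⟩
    rw [hKy, Finset.mem_filter, Finset.mem_biUnion]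
    refine ⟨⟨(p ++ [u], v :: q), ?_, ?_⟩, ⟨?_, ?_⟩, h4⟩
    · rw [Finset.mem_product, ← Finset.mem_coe, ← Finset.mem_coe, hSa, hSb]
      exact ⟨h5, h6⟩
    · rw [Finset.mem_image]
      refine ⟨(u, v), ?_, ?_⟩
      · rw [Finset.mem_product]
        simp
      · simp
    · intro x hx hq
      have hq' : x ∈ q := hq
      have hx' : x ∈ p ++ m := by
        have hx2 : x ∈ p ++ [u] := hx
        rw [List.mem_append, List.mem_singleton] at hx2
        rw [List.mem_append]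
        rcases hx2 with h | h
        · exact Or.inl h
        · rw [h]; exact Or.inr hu
      exact (List.nodup_append.1 hnd).2.2 x hx' x hq' rfl
    · intro x hx hp
      have hp' : x ∈ p := by simpa using hp
      have hx' : x ∈ m ++ q := by
        have hx2 : x ∈ v :: q := hx
        rw [List.mem_cons] at hx2
        rw [List.mem_append]
        rcases hx2 with h | h
        · rw [h]; exact Or.inl hv
        · exact Or.inr h
      rw [List.append_assoc] at hnd
      exact (List.nodup_append.1 hnd).2.2 x hp' x hx' rfl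
  refine (Finset.sum_le_sum_of_subset_of_nonneg hsub (fun l _ _ => hw l)).trans ?_
  refine le_trans (sum_image_le Sg _ hw) ?_
  rw [hSg, Finset.sum_sigma]
  have h1 : ∀ k ∈ Ky, ∑ m ∈ (hcf k.1.1.1 k.1.2.1 k.1.1.2 k.1.2.2).toFinset,
      w (k.1.1.1 ++ m ++ k.1.2.1) ≤ θ * W k.2.1.dropLast k.2.2.tail := by
    intro k hk
    obtain ⟨h2, h3, h4, h5, ⟨h6, h7⟩, h8⟩ := hmem k hk
    rw [← Finset.mem_coe, hSa] at h2
    rw [← Finset.mem_coe, hSb] at h3
    have h9 := hθ k.1.1.1 k.1.2.1 k.1.1.2 k.1.2.2 (h4 ▸ h2) (h5 ▸ h3)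
      (by intro x hx hq; exact h6 x (h4 ▸ hx) (by rw [h5]; exact hq))
      (by intro x hx hp; exact h7 x (h5 ▸ hx) (by rw [h4]; simpa using hp)) h8
    rw [finsum_mem_eq_finite_toFinset_sum _ (hcf _ _ _ _)] at h9
    rw [h4, h5]
    simpa using h9
  refine (Finset.sum_le_sum h1).trans ?_
  rw [← Finset.mul_sum]
  refine mul_le_mul_of_nonneg_left ?_ hθ0
  -- forget the end points
  rw [← Finset.sum_product']
  have hinj : Set.InjOn (fun k : (((List V × V) × (List V × V)) × (List V × List V)) => k.2)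
      (Ky : Set _) := by
    intro k hk k' hk' h
    obtain ⟨-, -, h4, h5, -⟩ := hmem k hk
    obtain ⟨-, -, h4', h5', -⟩ := hmem k' hk'
    have h' : k.2 = k'.2 := h
    rw [h'] at h4 h5
    rw [h4] at h4'
    rw [h5] at h5'
    have e1 := List.append_inj' h4' rfl
    have e2 := List.cons.inj h5'
    obtain ⟨⟨⟨x1, x2⟩, ⟨x3, x4⟩⟩, x5⟩ := k
    obtain ⟨⟨⟨y1, y2⟩, ⟨y3, y4⟩⟩, y5⟩ := k'
    simp only [List.cons.injEq, and_true] at e1 e2 h' ⊢
    obtain ⟨e3, e4⟩ := e1
    obtain ⟨e5, e6⟩ := e2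
    subst e3 e4 e5 e6 h'
    rfl
  have h2 : ∑ k ∈ Ky, W k.2.1.dropLast k.2.2.tail = ∑ αβ ∈ Ky.image (fun k => k.2),
      W αβ.1.dropLast αβ.2.tail := by
    rw [Finset.sum_image hinj]
  rw [h2]
  have h3 : ∀ αβ ∈ Ky.image (fun k => k.2), W αβ.1.dropLast αβ.2.tail =
      (if (∀ x ∈ αβ.1, x ∉ αβ.2.tail) ∧ (∀ x ∈ αβ.2, x ∉ αβ.1.dropLast) then
        W αβ.1.dropLast αβ.2.tail else 0) := by
    intro αβ h
    rw [Finset.mem_image] at h
    obtain ⟨k, hk, rfl⟩ := h
    rw [if_pos (hmem k hk).2.2.2.2.1]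
  rw [Finset.sum_congr rfl h3]
  refine Finset.sum_le_sum_of_subset_of_nonneg ?_ (fun αβ _ _ => ?_)
  · intro αβ h
    rw [Finset.mem_image] at h
    obtain ⟨k, hk, rfl⟩ := h
    rw [Finset.mem_product]
    exact ⟨(hmem k hk).1, (hmem k hk).2.1⟩
  · split_ifs
    · exact hW _ _
    · exact le_rfl

end Pool.Agent.N932.FL
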