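import Pool.Agent.N932.FL.Geo

/-! # The universal growth law when `c_n ≤ μ^n exp (K (log n)²)` -/

set_option autoImplicit false

namespace Pool.Agent.N932.FL

open scoped Classical

variable {V : Type} [AddCommGroup V]

theorem Lat.card0 (L : Lat V) (n : ℕ) : (0 : ℝ) < (L.walks n).ncard := by
  rw [← L.card]
  exact @cnP_pos (SP V) L.sys n

theorem Lat.bd_logsq (L : Lat V) {mu K : ℝ} (h0 : 0 < mu)
    (hlow : ∀ n, mu ^ n ≤ ((L.walks n).ncard : ℝ))
    (hup : ∀ n, 2 ≤ n → ((L.walks n).ncard : ℝ) ≤ mu ^ n * Real.exp (K * Real.log n ^ 2)) :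
    ∃ K1 : ℝ, 0 ≤ K1 ∧ @Bd (SP V) L.sys mu (fun n => K1 * Real.log (n + 2) ^ 2) := by
  have hl2 : 0 < Real.log 2 := Real.log_pos (by norm_num)
  obtain ⟨a, ha⟩ : ∃ a : ℝ, a = (L.walks 0).ncard := ⟨_, rfl⟩
  obtain ⟨b, hb⟩ : ∃ b : ℝ, b = (L.walks 1).ncard := ⟨_, rfl⟩
  have ha0 : 0 < a := by rw [ha]; exact L.card0 0
  have hb0 : 0 < b := by rw [hb]; exact L.card0 1
  have hla : 0 ≤ Real.log (1 + a) := Real.log_nonneg (by linarith)
  have hlb : 0 ≤ Real.log (1 + b / mu) := Real.log_nonneg (by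
    have : 0 < b / mu := by positivity
    linarith)
  obtain ⟨K1, hK1⟩ : ∃ K1 : ℝ, K1 = |K| + (Real.log (1 + a) + Real.log (1 + b / mu)) /
    Real.log 2 ^ 2 := ⟨_, rfl⟩
  have hq : 0 ≤ (Real.log (1 + a) + Real.log (1 + b / mu)) / Real.log 2 ^ 2 := by positivity
  have hK10 : 0 ≤ K1 := by
    rw [hK1]
    have := abs_nonneg K
    linarith
  have hlog2 : ∀ n : ℕ, Real.log 2 ≤ Real.log ((n : ℝ) + 2) := by
    intro n
    refine Real.log_le_log (by norm_num) ?_
    have : (0 : ℝ) ≤ n := Nat.cast_nonneg n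
    linarith
  have hs : ∀ n : ℕ, Real.log (1 + a) + Real.log (1 + b / mu) ≤ K1 * Real.log ((n : ℝ) + 2) ^ 2 := by
    intro n
    have h1 : Real.log 2 ^ 2 ≤ Real.log ((n : ℝ) + 2) ^ 2 := pow_le_pow_left₀ hl2.le (hlog2 n) 2
    calc Real.log (1 + a) + Real.log (1 + b / mu) =
          (Real.log (1 + a) + Real.log (1 + b / mu)) / Real.log 2 ^ 2 * Real.log 2 ^ 2 := by
          field_simp
      _ ≤ K1 * Real.log 2 ^ 2 := by
          refine mul_le_mul_of_nonneg_right ?_ (sq_nonneg _)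
          rw [hK1]
          have := abs_nonneg K
          linarith
      _ ≤ _ := mul_le_mul_of_nonneg_left h1 hK10
  refine ⟨K1, hK10, L.bd h0 (fun n => by positivity) ?_ hlow ?_⟩
  · intro m n hmn
    show K1 * Real.log ((m : ℝ) + 2) ^ 2 ≤ K1 * Real.log ((n : ℝ) + 2) ^ 2
    refine mul_le_mul_of_nonneg_left ?_ hK10
    refine pow_le_pow_left₀ (hl2.le.trans (hlog2 m)) (Real.log_le_log ?_ ?_) 2
    · have : (0 : ℝ) ≤ m := Nat.cast_nonneg m
      linarith
    · have : (m : ℝ) ≤ n := by exact_mod_cast hmn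
      linarith
  · intro n
    rcases Nat.lt_or_ge n 2 with h | h
    · interval_cases n
      · have h3 := hs 0
        rw [← ha, pow_zero, one_mul]
        have h4 : 1 + a ≤ Real.exp (K1 * Real.log ((0 : ℕ) + 2) ^ 2) := by
          rw [← Real.exp_log (show 0 < 1 + a by linarith)]
          exact Real.exp_le_exp.2 (le_trans (le_add_of_nonneg_right hlb) h3)
        linarith
      · have h3 := hs 1
        rw [← hb, pow_one]
        have h4 : 1 + b / mu ≤ Real.exp (K1 * Real.log ((1 : ℕ) + 2) ^ 2) := by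
          have h5 : 0 < 1 + b / mu := by positivity
          rw [← Real.exp_log h5]
          refine Real.exp_le_exp.2 ?_
          linarith
        calc b ≤ mu * (1 + b / mu) := by
              rw [mul_add, mul_div_cancel₀ _ h0.ne']
              linarith
          _ ≤ _ := mul_le_mul_of_nonneg_left h4 h0.le
    · refine (hup n h).trans ?_
      refine mul_le_mul_of_nonneg_left (Real.exp_le_exp.2 ?_) (by positivity)
      have hn0 : (2 : ℝ) ≤ n := by exact_mod_cast h
      have h1 : 0 ≤ Real.log (n : ℝ) := Real.log_nonneg (by linarith)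
      have h2 : Real.log (n : ℝ) ^ 2 ≤ Real.log ((n : ℝ) + 2) ^ 2 :=
        pow_le_pow_left₀ h1 (Real.log_le_log (by linarith) (by linarith)) 2
      calc K * Real.log n ^ 2 ≤ K1 * Real.log n ^ 2 := by
            refine mul_le_mul_of_nonneg_right ?_ (sq_nonneg _)
            rw [hK1]
            have := le_abs_self K
            linarith
        _ ≤ _ := mul_le_mul_of_nonneg_left h2 hK10

theorem log_add_two_le {M : ℕ} (hM : 2 ≤ M) : Real.log ((M : ℝ) + 2) ≤ 2 * Real.log M := by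
  have hM' : (2 : ℝ) ≤ M := by exact_mod_cast hM
  have h1 : (M : ℝ) + 2 ≤ M ^ 2 := by nlinarith
  have h2 := Real.log_le_log (by linarith) h1
  rwa [Real.log_pow] at h2

theorem log_le_sq {M : ℕ} (hM : 2 ≤ M) : Real.log M ≤ 2 * Real.log M ^ 2 := by
  have h2 : Real.log 2 ≤ Real.log M := Real.log_le_log (by norm_num) (by exact_mod_cast hM)
  have := Real.log_two_gt_d9
  nlinarith

/-- **the universal growth law** -/
theorem Lat.universal_logsq (L : Lat V) {mu K : ℝ} (h0 : 0 < mu)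
    (hlow : ∀ n, mu ^ n ≤ ((L.walks n).ncard : ℝ))
    (hup : ∀ n, 2 ≤ n → ((L.walks n).ncard : ℝ) ≤ mu ^ n * Real.exp (K * Real.log n ^ 2)) :
    ∃ K2 : ℝ, 0 < K2 ∧ ∀ n : ℕ, 2 ≤ n →
    ∀ A : Set (Fin (n + 1) → V), A ⊆ L.walks n → A.Nonempty →
    ∀ E : ℝ, Real.exp (-E) * (L.walks n).ncard ≤ A.ncard →
    (∀ M l : ℕ, 1 ≤ l → 2 * l ≤ M → M ≤ n →
      ∑ t ∈ Finset.Icc M (n - M), gmean A (L.KL A M l t) ≤
        K2 * (l / M) * (n * Real.log M ^ 2 + M * E)) ∧
    ∀ x : ℝ, 0 ≤ x →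
      gprob A {ω | ¬ ∀ M l : ℕ, 1 ≤ l → 2 * l ≤ M → M ≤ n →
        ∑ t ∈ Finset.Icc M (n - M), L.TV A M l t ω ^ 2 ≤
          K2 * (l / M) * (n * Real.log M ^ 2 + M * (E + x))} ≤ Real.exp (-x) := by
  obtain ⟨K1, hK1, hB⟩ := L.bd_logsq h0 hlow hup
  refine ⟨512 * K1 + 256, by positivity, fun n hn A hA hne E hE => ?_⟩
  obtain ⟨h1, h2⟩ := L.universal hB hn A hA hne E hE
  have hE0 : 0 ≤ E := by
    have hfin : A.Finite := (L.finite n).subset hA
    have hle : (A.ncard : ℝ) ≤ (L.walks n).ncard := by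
      exact_mod_cast Set.ncard_le_ncard hA (L.finite n)
    have hc := L.card0 n
    have h3 : Real.exp (-E) ≤ 1 := by
      by_contra hcon
      push Not at hcon
      have := mul_lt_mul_of_pos_right hcon hc
      linarith
    have := Real.exp_le_one_iff.1 h3
    linarith
  have key : ∀ M : ℕ, 2 ≤ M → K1 * Real.log ((M : ℝ) + 2) ^ 2 ≤ 4 * K1 * Real.log M ^ 2 := by
    intro M hM
    have h3 : 0 ≤ Real.log ((M : ℝ) + 2) := Real.log_nonneg (by
      have : (0 : ℝ) ≤ M := Nat.cast_nonneg M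
      linarith)
    have h4 := pow_le_pow_left₀ h3 (log_add_two_le hM) 2
    have := mul_le_mul_of_nonneg_left h4 hK1
    linarith
  refine ⟨fun M l hl hlM hMn => (h1 M l hl hlM hMn).trans ?_, fun x hx => ?_⟩
  · have h3 := key M (by omega)
    have h5 : (n : ℝ) * (K1 * Real.log ((M : ℝ) + 2) ^ 2) ≤ n * (4 * K1 * Real.log M ^ 2) :=
      mul_le_mul_of_nonneg_left h3 (Nat.cast_nonneg n)
    have h6 : 0 ≤ (n : ℝ) * Real.log M ^ 2 := by positivity
    have h7 : 0 ≤ (M : ℝ) * E := by positivity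
    have h8 : 0 ≤ K1 * ((n : ℝ) * Real.log M ^ 2) := by positivity
    have h9 : 0 ≤ K1 * ((M : ℝ) * E) := by positivity
    have h4 : 6 * ((n : ℝ) * (K1 * Real.log ((M : ℝ) + 2) ^ 2) + M * E) ≤
        (512 * K1 + 256) * (n * Real.log M ^ 2 + M * E) := by
      linarith
    calc 6 * ((l : ℝ) / M) * (n * (K1 * Real.log ((M : ℝ) + 2) ^ 2) + M * E)
        = ((l : ℝ) / M) * (6 * (n * (K1 * Real.log ((M : ℝ) + 2) ^ 2) + M * E)) := by ring
      _ ≤ ((l : ℝ) / M) * ((512 * K1 + 256) * (n * Real.log M ^ 2 + M * E)) :=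
          mul_le_mul_of_nonneg_left h4 (by positivity)
      _ = _ := by ring
  · refine le_trans ?_ (h2 x hx)
    have hfin : A.Finite := (L.finite n).subset hA
    unfold gprob gmean
    refine div_le_div_of_nonneg_right ?_ (Nat.cast_nonneg _)
    rw [finsum_mem_eq_finite_toFinset_sum _ hfin, finsum_mem_eq_finite_toFinset_sum _ hfin]
    refine Finset.sum_le_sum (fun ω _ => ?_)
    by_cases hP : ω ∈ {ω | ¬ ∀ M l : ℕ, 1 ≤ l → 2 * l ≤ M → M ≤ n →
        ∑ t ∈ Finset.Icc M (n - M), L.TV A M l t ω ^ 2 ≤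
          128 * (l / M) * (n * (K1 * Real.log (M + 2) ^ 2 + Real.log M) + M * (E + x))}
    · rw [if_pos hP]
      split_ifs
      · exact le_rfl
      · exact zero_le_one
    · rw [if_neg hP, if_neg]
      intro hbad
      apply hbad
      intro M l hl hlM hMn
      have hP' := not_not.1 hP M l hl hlM hMn
      refine hP'.trans ?_
      have h3 := key M (by omega)
      have h4 := log_le_sq (M := M) (by omega)
      have h5 : (n : ℝ) * (K1 * Real.log ((M : ℝ) + 2) ^ 2 + Real.log M) ≤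
          n * (4 * K1 * Real.log M ^ 2 + 2 * Real.log M ^ 2) :=
        mul_le_mul_of_nonneg_left (by linarith) (Nat.cast_nonneg n)
      have h6 : 0 ≤ (n : ℝ) * Real.log M ^ 2 := by positivity
      have h7 : 0 ≤ (M : ℝ) * (E + x) := by positivity
      have h8 : 0 ≤ K1 * ((n : ℝ) * Real.log M ^ 2) := by positivity
      have h9 : 0 ≤ K1 * ((M : ℝ) * (E + x)) := by positivity
      have h10 : 128 * ((n : ℝ) * (K1 * Real.log ((M : ℝ) + 2) ^ 2 + Real.log M) + M * (E + x)) ≤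
          (512 * K1 + 256) * (n * Real.log M ^ 2 + M * (E + x)) := by
        linarith
      calc 128 * ((l : ℝ) / M) * (n * (K1 * Real.log ((M : ℝ) + 2) ^ 2 + Real.log M) + M * (E + x))
          = ((l : ℝ) / M) * (128 * (n * (K1 * Real.log ((M : ℝ) + 2) ^ 2 + Real.log M) +
            M * (E + x))) := by ring
        _ ≤ ((l : ℝ) / M) * ((512 * K1 + 256) * (n * Real.log M ^ 2 + M * (E + x))) :=
            mul_le_mul_of_nonneg_left h10 (by positivity)
        _ = _ := by ring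

end Pool.Agent.N932.FL
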