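import Pool.Agent.N932.FL.Multi
import Pool.Agent.N932.FL.LogSq

/-! # The sum over all self-avoiding paths in a finite set -/

set_option autoImplicit false

namespace Pool.Agent.N932.FL

open scoped Classical

variable {V : Type} [AddCommGroup V]

theorem Lat.card_paths (L : Lat V) {D : Set V} (hD : D.Finite) (v : V) (n : ℕ) :
    {l : List V | l ∈ sall L.Adj D ∧ l.head? = some v ∧ l.length - 1 = n}.ncard ≤
      (L.walks n).ncard := by
  refine Set.ncard_le_ncard_of_injOn
    (fun l => fun i : Fin (n + 1) => L.s v • (l.getD i.1 v - v)) ?_ ?_ (L.finite n)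
  · rintro l ⟨⟨h1, h2, h3, h4⟩, h5, h6⟩
    have hlen : l.length = n + 1 := by
      have := List.length_pos_iff.2 h1
      omega
    have hg : ∀ i : Fin (n + 1), l.getD i.1 v = l[i.1]'(by have := i.2; omega) := by
      intro i
      rw [List.getD_eq_getElem]
    refine ⟨?_, ?_, ?_⟩
    · have h7 : l.getD 0 v = v := by
        cases l with
        | nil => exact absurd rfl h1
        | cons x xs =>
          simp only [List.head?_cons, Option.some.injEq] at h5
          simpa using h5
      show L.s v • (l.getD (0 : Fin (n + 1)).1 v - v) = 0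
      rw [show ((0 : Fin (n + 1)).1) = 0 from rfl, h7, sub_self, smul_zero]
    · intro i j hij
      have h7 := L.smul_inj hij
      have h8 : l.getD i.1 v = l.getD j.1 v := by
        simpa using h7
      rw [hg, hg] at h8
      have h9 := (List.Nodup.getElem_inj_iff h2).1 h8
      exact Fin.ext h9
    · intro i
      refine L.adj v _ _ ?_
      have h7 := List.isChain_iff_getElem.1 h3 i.1 (by have := i.2; omega)
      rw [hg, hg]
      exact h7
  · rintro l ⟨⟨h1, h2, h3, h4⟩, h5, h6⟩ l' ⟨⟨h1', h2', h3', h4'⟩, h5', h6'⟩ h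
    have hlen : l.length = n + 1 := by
      have := List.length_pos_iff.2 h1
      omega
    have hlen' : l'.length = n + 1 := by
      have := List.length_pos_iff.2 h1'
      omega
    refine List.ext_getElem (by omega) (fun i h7 h8 => ?_)
    have h9 := congrFun h ⟨i, by omega⟩
    have h10 := L.smul_inj h9
    have h11 : l.getD i v = l'.getD i v := by
      simpa using h10
    rwa [List.getD_eq_getElem _ _ h7, List.getD_eq_getElem _ _ h8] at h11

/-- the sum over all self-avoiding paths in `D` -/
theorem Lat.chi (L : Lat V) {D : Set V} (hD : D.Finite) {x : ℝ} (hx : 0 ≤ x) :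
    ∑ᶠ l ∈ sall L.Adj D, x ^ (l.length - 1) ≤
      D.ncard * ∑ n ∈ Finset.range D.ncard, ((L.walks n).ncard : ℝ) * x ^ n := by
  obtain ⟨S, hS⟩ : ∃ S : Finset (List V), (S : Set (List V)) = sall L.Adj D :=
    ⟨(sall_fin hD).toFinset, (sall_fin hD).coe_toFinset⟩
  obtain ⟨Df, hDf⟩ : ∃ Df : Finset V, (Df : Set V) = D := ⟨hD.toFinset, hD.coe_toFinset⟩
  rw [← hS, finsum_mem_coe_finset]
  have hmem : ∀ l ∈ S, l ∈ sall L.Adj D := by
    intro l hl
    rw [← hS]
    exact hl
  have hmaps : ∀ l ∈ S, (l.head?, l.length - 1) ∈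
      (Df.image some) ×ˢ Finset.range D.ncard := by
    intro l hl
    have h1 := hmem l hl
    have h2 := sall_length hD h1
    have h3 := List.length_pos_iff.2 h1.1
    rw [Finset.mem_product, Finset.mem_range, Finset.mem_image]
    refine ⟨?_, by show l.length - 1 < D.ncard; omega⟩
    obtain ⟨u, v, m', m'', h4, h5, h6, h7⟩ := ends_of h1.1
    refine ⟨u, ?_, h4.symm⟩
    rw [← Finset.mem_coe, hDf]
    refine h1.2.2.2 u ?_
    rw [h6]
    exact List.mem_cons_self
  rw [← Finset.sum_fiberwise_of_maps_to hmaps, Finset.sum_product]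
  have hinj : Set.InjOn (some : V → Option V) Df := fun _ _ _ _ h => Option.some.inj h
  rw [Finset.sum_image hinj]
  have h1 : (D.ncard : ℝ) * ∑ n ∈ Finset.range D.ncard, ((L.walks n).ncard : ℝ) * x ^ n =
      ∑ v ∈ Df, ∑ n ∈ Finset.range D.ncard, ((L.walks n).ncard : ℝ) * x ^ n := by
    rw [Finset.sum_const, nsmul_eq_mul, ← hDf, Set.ncard_coe_finset]
  rw [h1]
  refine Finset.sum_le_sum (fun v _ => Finset.sum_le_sum (fun n _ => ?_))
  have h2 : ∑ l ∈ S.filter (fun l => (l.head?, l.length - 1) = (some v, n)),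
      x ^ (l.length - 1) = ((S.filter (fun l => (l.head?, l.length - 1) = (some v, n))).card : ℝ) *
        x ^ n := by
    rw [← nsmul_eq_mul, ← Finset.sum_const]
    refine Finset.sum_congr rfl (fun l hl => ?_)
    rw [Finset.mem_filter] at hl
    rw [(Prod.mk.inj hl.2).2]
  rw [h2]
  refine mul_le_mul_of_nonneg_right ?_ (pow_nonneg hx n)
  have h3 := L.card_paths hD v n
  have h4 : {l : List V | l ∈ sall L.Adj D ∧ l.head? = some v ∧ l.length - 1 = n} =
      (S.filter (fun l => (l.head?, l.length - 1) = (some v, n)) : Set (List V)) := by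
    rw [Finset.coe_filter]
    ext l
    simp only [Set.mem_ofPred_eq, Prod.mk.injEq]
    rw [← Finset.mem_coe, hS]
  rw [h4, Set.ncard_coe_finset] at h3
  exact_mod_cast h3

end Pool.Agent.N932.FL
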