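import Pool.Agent.N932.FL.Rer

/-! # Rerouting with a general cost function -/

set_option autoImplicit false

namespace Pool.Agent.N932.FL

open scoped Classical

/-- the cost `Φ k m` of `k` runs with `m` steps in total -/
structure Cost {V : Type} [AddCommGroup V] (L : Lat V) (μ : ℝ) (B : Finset V) (n : ℕ)
    (Φ : ℕ → ℕ → ℝ) : Prop where
  one : ∀ m, m ≤ n → (B.card : ℝ) * (L.walks m).ncard ≤ μ ^ m * Real.exp (Φ 1 m)
  mono : ∀ k k' m m', k ≤ k' → m ≤ m' → Φ k m ≤ Φ k' m'
  add : ∀ k r l m, r + l ≤ m → Φ k r + Φ 1 l ≤ Φ (k + 1) m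
  zero : 0 ≤ Φ 0 0

variable {V : Type} [AddCommGroup V]

theorem Cost.classes {L : Lat V} {μ : ℝ} (hμ : 1 ≤ μ) {n : ℕ} {B : Finset V} {Φ : ℕ → ℕ → ℝ}
    (hB : ∀ m, m ≤ n → ∀ ω ∈ L.walks m, ∀ i, ω i ∈ B)
    (C : Cost L μ B n Φ)
    (S : Finset ℕ) (hS : 0 ∉ S) : ∀ m, m ≤ n →
      ((er S '' (L.walks m)).ncard : ℝ) * μ ^ (sn m S) ≤
        μ ^ m * Real.exp (Φ (kn m S + 1) m) := by
  have hμ0 : 0 < μ := by linarith
  have hB1 : (1 : ℝ) ≤ B.card := by
    obtain ⟨ω, hω⟩ := L.nonempty 0
    have h1 : 0 < B.card := Finset.card_pos.2 ⟨ω 0, hB 0 (Nat.zero_le _) ω hω 0⟩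
    exact_mod_cast h1
  intro m
  induction m using Nat.strong_induction_on with
  | _ m ih =>
    intro hm
    have hc := C.one m hm
    have hc0 : (0 : ℝ) ≤ (L.walks m).ncard := Nat.cast_nonneg _
    by_cases hE : ∃ j ∈ S, j ≤ m
    · -- the largest element of `S` up to `m`
      obtain ⟨r, hr⟩ : ∃ r, r = (S.filter (fun j => j ≤ m)).max' (by
        obtain ⟨j, h1, h2⟩ := hE
        exact ⟨j, Finset.mem_filter.2 ⟨h1, h2⟩⟩) := ⟨_, rfl⟩
      have hrm := Finset.mem_filter.1 (hr ▸ Finset.max'_mem (S.filter (fun j => j ≤ m)) _)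
      have hmax : ∀ j ∈ S, j ≤ m → j ≤ r := by
        intro j h1 h2
        rw [hr]
        exact Finset.le_max' _ _ (Finset.mem_filter.2 ⟨h1, h2⟩)
      have hr0 : r ≠ 0 := fun h => hS (h ▸ hrm.1)
      by_cases hrm' : r = m
      · -- the last time is erased
        obtain ⟨k, rfl⟩ : ∃ k, m = k + 1 := ⟨m - 1, by omega⟩
        have hsub : er S '' (L.walks (k + 1)) ⊆ er S '' (L.walks k) := by
          rintro _ ⟨ω, hω, rfl⟩
          refine ⟨L.piece 0 k ω, L.mem hω (by omega), ?_⟩
          funext i
          unfold er
          by_cases hi : i ∈ S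
          · rw [if_pos (Or.inl hi), if_pos (Or.inl hi)]
          · by_cases hi2 : i ≤ k
            · rw [if_neg (by rw [not_or]; exact ⟨hi, by omega⟩),
                if_neg (by rw [not_or]; exact ⟨hi, by omega⟩)]
              exact xt_tr L hω hi2
            · have hi3 : i ≠ k + 1 := fun h => hi (h ▸ hrm' ▸ hrm.1)
              rw [if_pos (Or.inr (by omega)), if_pos (Or.inr (by omega))]
        have h1 : ((er S '' (L.walks (k + 1))).ncard : ℝ) ≤ (er S '' (L.walks k)).ncard := by
          exact_mod_cast Set.ncard_le_ncard hsub ((L.finite k).image _)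
        have h2 := ih k (by omega) (by omega)
        have h3 : sn (k + 1) S = sn k S + 1 := by
          unfold sn
          have : S.filter (fun j => j ≤ k + 1) = insert (k + 1) (S.filter (fun j => j ≤ k)) := by
            ext j
            rw [Finset.mem_insert, Finset.mem_filter, Finset.mem_filter]
            constructor
            · rintro ⟨h4, h5⟩
              by_cases h6 : j = k + 1
              · left; exact h6
              · right; exact ⟨h4, by omega⟩
            · rintro (h4 | ⟨h4, h5⟩)
              · rw [h4]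
                exact ⟨hrm' ▸ hrm.1, le_rfl⟩
              · exact ⟨h4, by omega⟩
          rw [this, Finset.card_insert_of_notMem]
          rw [Finset.mem_filter]
          omega
        have h4 : kn k S ≤ kn (k + 1) S := by
          unfold kn
          refine Finset.card_le_card (fun j hj => ?_)
          rw [Finset.mem_filter] at hj ⊢
          exact ⟨hj.1, by omega, hj.2.2⟩
        have h4' : (kn k S : ℝ) ≤ kn (k + 1) S := by exact_mod_cast h4
        rw [h3, pow_succ, pow_succ]
        calc ((er S '' (L.walks (k + 1))).ncard : ℝ) * (μ ^ (sn k S) * μ)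
            ≤ ((er S '' (L.walks k)).ncard : ℝ) * (μ ^ (sn k S) * μ) :=
              mul_le_mul_of_nonneg_right h1 (by positivity)
          _ = ((er S '' (L.walks k)).ncard : ℝ) * μ ^ (sn k S) * μ := by ring
          _ ≤ μ ^ k * Real.exp (Φ (kn k S + 1) k) * μ := mul_le_mul_of_nonneg_right h2 hμ0.le
          _ ≤ μ ^ k * Real.exp (Φ (kn (k + 1) S + 1) (k + 1)) * μ :=
            mul_le_mul_of_nonneg_right (mul_le_mul_of_nonneg_left (Real.exp_le_exp.2
              (C.mono _ _ _ _ (by omega) (by omega))) (by positivity)) hμ0.le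
          _ = _ := by ring
      · -- a kept run
        have hrlt : r < m := lt_of_le_of_ne hrm.2 hrm'
        have hkeep : ∀ i, r < i → i ≤ m → i ∉ S := by
          intro i h1 h2 h3
          have := hmax i h3 h2
          omega
        obtain ⟨G, hG⟩ : ∃ G : ((ℕ → V) × V) × (Fin (m - r - 1 + 1) → V) → (ℕ → V),
            G = fun q i => if i ≤ r then q.1.1 i else
              if i ≤ m then q.1.2 + L.s q.1.2 • xt q.2 (i - r - 1) else 0 := ⟨_, rfl⟩
        have hsub : er S '' (L.walks m) ⊆
            G '' (((er S '' (L.walks r)) ×ˢ (B : Set V)) ×ˢ (L.walks (m - r - 1))) := by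
          rintro _ ⟨ω, hω, rfl⟩
          refine ⟨((er S (L.piece 0 r ω), xt ω (r + 1)), L.piece (r + 1) (m - r - 1) ω),
            ⟨⟨⟨L.piece 0 r ω, L.mem hω (by omega), rfl⟩, ?_⟩, L.mem hω (by omega)⟩, ?_⟩
          · rw [Finset.mem_coe]
            exact hB m hm ω hω _
          · rw [hG]
            funext i
            show (if i ≤ r then er S (L.piece 0 r ω) i else
              if i ≤ m then xt ω (r + 1) + L.s (xt ω (r + 1)) •
                xt (L.piece (r + 1) (m - r - 1) ω) (i - r - 1) else 0) = er S ω i
            by_cases hi : i ≤ r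
            · rw [if_pos hi]
              unfold er
              by_cases hi2 : i ∈ S
              · rw [if_pos (Or.inl hi2), if_pos (Or.inl hi2)]
              · rw [if_neg (by rw [not_or]; exact ⟨hi2, by omega⟩),
                  if_neg (by rw [not_or]; exact ⟨hi2, by omega⟩)]
                exact xt_tr L hω hi
            · rw [if_neg hi]
              by_cases hi2 : i ≤ m
              · rw [if_pos hi2, xt_piece L ω (by omega), smul_smul, L.ss, one_smul]
                unfold er
                rw [if_neg (by rw [not_or]; exact ⟨hkeep i (by omega) hi2, by omega⟩)]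
                rw [show r + 1 + (i - r - 1) = i by omega]
                abel
              · rw [if_neg hi2]
                unfold er
                rw [if_pos (Or.inr (by omega))]
        have hfin1 : (er S '' (L.walks r)).Finite := (L.finite r).image _
        have hfin : (((er S '' (L.walks r)) ×ˢ (B : Set V)) ×ˢ (L.walks (m - r - 1))).Finite :=
          (hfin1.prod B.finite_toSet).prod (L.finite _)
        have h1 : ((er S '' (L.walks m)).ncard : ℝ) ≤
            (er S '' (L.walks r)).ncard * B.card * (L.walks (m - r - 1)).ncard := by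
          have h2 := (Set.ncard_le_ncard hsub (hfin.image _)).trans (Set.ncard_image_le hfin)
          rw [Set.ncard_prod, Set.ncard_prod, Set.ncard_coe_finset] at h2
          exact_mod_cast h2
        have h2 := ih r hrlt (by omega)
        have h3 : sn m S = sn r S := by
          unfold sn
          congr 1
          ext j
          rw [Finset.mem_filter, Finset.mem_filter]
          constructor
          · rintro ⟨h4, h5⟩
            exact ⟨h4, hmax j h4 h5⟩
          · rintro ⟨h4, h5⟩
            exact ⟨h4, by omega⟩
        have h4 : kn r S + 1 ≤ kn m S := by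
          unfold kn
          have hins : insert r (S.filter (fun j => j < r ∧ j + 1 ∉ S)) ⊆
              S.filter (fun j => j < m ∧ j + 1 ∉ S) := by
            intro j hj
            rw [Finset.mem_insert, Finset.mem_filter] at hj
            rw [Finset.mem_filter]
            rcases hj with h5 | ⟨h5, h6, h7⟩
            · rw [h5]
              exact ⟨hrm.1, hrlt, hkeep (r + 1) (by omega) (by omega)⟩
            · exact ⟨h5, by omega, h7⟩
          have h5 := Finset.card_le_card hins
          rwa [Finset.card_insert_of_notMem (by rw [Finset.mem_filter]; omega)] at h5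
        have h4' : (kn r S : ℝ) + 1 ≤ kn m S := by exact_mod_cast h4
        have h5 := C.one (m - r - 1) (by omega)
        have h6 : μ ^ r * μ ^ (m - r - 1) ≤ μ ^ m := by
          rw [← pow_add]
          exact pow_le_pow_right₀ hμ (by omega)
        rw [h3]
        calc ((er S '' (L.walks m)).ncard : ℝ) * μ ^ (sn r S)
            ≤ ((er S '' (L.walks r)).ncard * B.card * (L.walks (m - r - 1)).ncard) *
              μ ^ (sn r S) := mul_le_mul_of_nonneg_right h1 (by positivity)
          _ = (((er S '' (L.walks r)).ncard : ℝ) * μ ^ (sn r S)) *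
              (B.card * (L.walks (m - r - 1)).ncard) := by ring
          _ ≤ (μ ^ r * Real.exp (Φ (kn r S + 1) r)) *
              (μ ^ (m - r - 1) * Real.exp (Φ 1 (m - r - 1))) :=
              mul_le_mul h2 h5 (by positivity) (by positivity)
          _ = (μ ^ r * μ ^ (m - r - 1)) *
              Real.exp (Φ (kn r S + 1) r + Φ 1 (m - r - 1)) := by
              rw [Real.exp_add]; ring
          _ ≤ μ ^ m * Real.exp (Φ (kn m S + 1) m) := by
              refine mul_le_mul h6 (Real.exp_le_exp.2 ?_) (Real.exp_pos _).le (by positivity)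
              exact (C.add (kn r S + 1) r (m - r - 1) m (by omega)).trans
                (C.mono _ _ _ _ (by omega) le_rfl)
    · -- nothing is erased
      push Not at hE
      have h1 : sn m S = 0 := by
        unfold sn
        rw [Finset.card_eq_zero, Finset.filter_eq_empty_iff]
        intro j hj
        have := hE j hj
        omega
      rw [h1, pow_zero, mul_one]
      have h2 : ((er S '' (L.walks m)).ncard : ℝ) ≤ (L.walks m).ncard := by
        exact_mod_cast Set.ncard_image_le (L.finite m)
      have h3 : (0 : ℝ) ≤ kn m S := Nat.cast_nonneg _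
      calc ((er S '' (L.walks m)).ncard : ℝ) ≤ (L.walks m).ncard := h2
        _ ≤ B.card * (L.walks m).ncard := by nlinarith
        _ ≤ μ ^ m * Real.exp (Φ 1 m) := hc
        _ ≤ μ ^ m * Real.exp (Φ (kn m S + 1) m) := by
          refine mul_le_mul_of_nonneg_left (Real.exp_le_exp.2 ?_) (by positivity)
          exact C.mono _ _ _ _ (by omega) le_rfl

/-- **all sets of times at once** -/
theorem Cost.reroute {L : Lat V} {μ : ℝ} (hμ : 1 ≤ μ) {n : ℕ} (hn : 1 ≤ n) {B : Finset V}
    {Φ : ℕ → ℕ → ℝ}
    (hB : ∀ m, m ≤ n → ∀ ω ∈ L.walks m, ∀ i, ω i ∈ B)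
    (C : Cost L μ B n Φ)
    {A : Set (Fin (n + 1) → V)} (hA : A ⊆ L.walks n) (hne : A.Nonempty) {E : ℝ}
    (hE : Real.exp (-E) * μ ^ n ≤ A.ncard) (x : ℝ) :
    gprob A {ω | ¬ ∀ S : Finset ℕ, S ⊆ Finset.Icc 1 n → S.Nonempty →
      μ ^ S.card * Real.exp (-(Φ ((swt n S).card + 1) n + Real.log (2 * n) * (swt n S).card + E + x)) ≤
        (fill A S ω).ncard} ≤ Real.exp (-x) := by
  have hμ0 : 0 < μ := by linarith
  have hn' : (1 : ℝ) ≤ n := by exact_mod_cast hn
  obtain ⟨F, rfl⟩ : ∃ F : Finset (Fin (n + 1) → V), A = (F : Set (Fin (n + 1) → V)) :=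
    ⟨((L.finite n).subset hA).toFinset, ((L.finite n).subset hA).coe_toFinset.symm⟩
  rw [Set.ncard_coe_finset] at hE
  have hF0 : (0 : ℝ) < F.card := by
    have : F.Nonempty := by exact_mod_cast hne
    exact_mod_cast Finset.card_pos.2 this
  have hfill : ∀ (S : Finset ℕ) (ω : Fin (n + 1) → V),
      ((F.filter (fun η => er S η = er S ω)).card : ℝ) ≤ (fill (F : Set _) S ω).ncard := by
    intro S ω
    rw [← Set.ncard_coe_finset]
    have hf : (fill (F : Set (Fin (n + 1) → V)) S ω).Finite :=
      F.finite_toSet.subset (fun η hη => hη.1)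
    have := Set.ncard_le_ncard (s := ((F.filter (fun η => er S η = er S ω) :
      Finset (Fin (n + 1) → V)) : Set (Fin (n + 1) → V))) (t := fill (F : Set _) S ω) (by
        intro η hη
        rw [Finset.mem_coe, Finset.mem_filter] at hη
        exact ⟨hη.1, fun i hi => er_eq hη.2 i hi⟩) hf
    exact_mod_cast this
  obtain ⟨θ, hθ⟩ : ∃ θ : Finset ℕ → ℝ, θ = fun S => Real.exp (-x) *
      (1 / (2 * (n : ℝ))) ^ (swt n S).card * F.card / (F.image (er S)).card := ⟨_, rfl⟩
  have himg : ∀ S, (0 : ℝ) < (F.image (er S)).card := by
    intro S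
    have : (F.image (er S)).Nonempty := by
      rw [Finset.image_nonempty]
      exact_mod_cast hne
    exact_mod_cast Finset.card_pos.2 this
  have hθ0 : ∀ S, 0 ≤ θ S := by
    intro S
    rw [hθ]
    have := himg S
    positivity
  obtain ⟨Q, hQ⟩ : ∃ Q : (Fin (n + 1) → V) → Prop,
    Q = fun ω => ∃ S ∈ ((Finset.Icc 1 n).powerset).erase ∅,
      ((F.filter (fun η => er S η = er S ω)).card : ℝ) < θ S := ⟨_, rfl⟩
  refine gprob_le F _ Q (fun ω hω hbad => ?_) hF0 ?_
  · rw [hQ]
    by_contra hcon
    push Not at hcon
    apply hbad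
    intro S hS hSne
    have h0 : 0 ∉ S := fun h => by
      have := Finset.mem_Icc.1 (hS h)
      omega
    have h1 := hcon S (Finset.mem_erase.2 ⟨hSne.ne_empty, Finset.mem_powerset.2 hS⟩)
    refine le_trans ?_ (h1.trans (hfill S ω))
    -- compare with the threshold
    have h2 := Cost.classes hμ hB C S h0 n le_rfl
    have h3 : sn n S = S.card := by
      unfold sn
      congr 1
      rw [Finset.filter_eq_self]
      intro j hj
      exact (Finset.mem_Icc.1 (hS hj)).2
    rw [h3] at h2
    have h4 : ((F.image (er S)).card : ℝ) ≤ (er S '' (L.walks n)).ncard := by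
      have h5 : ((F.image (er S) : Finset (ℕ → V)) : Set (ℕ → V)) ⊆ er S '' (L.walks n) := by
        rw [Finset.coe_image]
        exact Set.image_mono hA
      have h6 := Set.ncard_le_ncard h5 ((L.finite n).image _)
      rw [Set.ncard_coe_finset] at h6
      exact_mod_cast h6
    have h5 : ((F.image (er S)).card : ℝ) * μ ^ S.card ≤
        μ ^ n * Real.exp (Φ (kn n S + 1) n) :=
      (mul_le_mul_of_nonneg_right h4 (by positivity)).trans h2
    have h6 : Φ (kn n S + 1) n ≤ Φ ((swt n S).card + 1) n :=
      C.mono _ _ _ _ (Nat.succ_le_succ kn_le) le_rfl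
    have h7 : ((F.image (er S)).card : ℝ) * μ ^ S.card ≤
        μ ^ n * Real.exp (Φ ((swt n S).card + 1) n) :=
      h5.trans (mul_le_mul_of_nonneg_left (Real.exp_le_exp.2 h6) (by positivity))
    rw [hθ]
    show _ ≤ Real.exp (-x) * (1 / (2 * (n : ℝ))) ^ (swt n S).card * F.card /
      (F.image (er S)).card
    rw [le_div_iff₀ (himg S)]
    have h8 : (1 / (2 * (n : ℝ))) ^ (swt n S).card =
        Real.exp (-(Real.log (2 * n) * (swt n S).card)) := by
      rw [one_div, inv_pow, Real.exp_neg, mul_comm (Real.log (2 * (n : ℝ))), Real.exp_nat_mul,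
        Real.exp_log (by positivity)]
    rw [h8]
    calc μ ^ S.card * Real.exp (-(Φ ((swt n S).card + 1) n + Real.log (2 * n) * (swt n S).card + E + x)) *
          (F.image (er S)).card
        = (((F.image (er S)).card : ℝ) * μ ^ S.card) * Real.exp (-(Φ ((swt n S).card + 1) n)) *
          (Real.exp (-x) * Real.exp (-(Real.log (2 * n) * (swt n S).card))) * Real.exp (-E) := by
          rw [show -(Φ ((swt n S).card + 1) n + Real.log (2 * n) * (swt n S).card + E + x) =
            -(Φ ((swt n S).card + 1) n) + (-x + -(Real.log (2 * n) * (swt n S).card)) + -E by ring,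
            Real.exp_add, Real.exp_add, Real.exp_add]
          ring
      _ ≤ (μ ^ n * Real.exp (Φ ((swt n S).card + 1) n)) * Real.exp (-(Φ ((swt n S).card + 1) n)) *
          (Real.exp (-x) * Real.exp (-(Real.log (2 * n) * (swt n S).card))) * Real.exp (-E) := by
          gcongr
      _ = (Real.exp (-x) * Real.exp (-(Real.log (2 * n) * (swt n S).card))) *
          (Real.exp (-E) * μ ^ n) := by
          rw [mul_assoc (μ ^ n), ← Real.exp_add, add_neg_cancel, Real.exp_zero]
          ring
      _ ≤ (Real.exp (-x) * Real.exp (-(Real.log (2 * n) * (swt n S).card))) * F.card :=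
          mul_le_mul_of_nonneg_left hE (by positivity)
  · have h1 : F.filter Q ⊆
        (((Finset.Icc 1 n).powerset).erase ∅).biUnion (fun S => F.filter (fun ω =>
          ((F.filter (fun η => er S η = er S ω)).card : ℝ) < θ S)) := by
      intro ω hω
      rw [Finset.mem_filter, hQ] at hω
      obtain ⟨h2, S, h3, h4⟩ := hω
      rw [Finset.mem_biUnion]
      exact ⟨S, h3, Finset.mem_filter.2 ⟨h2, h4⟩⟩
    have h2 := (Finset.card_le_card h1).trans Finset.card_biUnion_le
    have h3 : ((F.filter Q).card : ℝ) ≤
        ∑ S ∈ ((Finset.Icc 1 n).powerset).erase ∅, ((F.filter (fun ω =>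
          ((F.filter (fun η => er S η = er S ω)).card : ℝ) < θ S)).card : ℝ) := by
      exact_mod_cast h2
    refine h3.trans ?_
    have h4 : ∀ S ∈ ((Finset.Icc 1 n).powerset).erase ∅, ((F.filter (fun ω =>
          ((F.filter (fun η => er S η = er S ω)).card : ℝ) < θ S)).card : ℝ) ≤
          (1 / (2 * (n : ℝ))) ^ (swt n S).card * (Real.exp (-x) * F.card) := by
      intro S _
      refine (fiber_le F (er S) (hθ0 S)).trans (le_of_eq ?_)
      rw [hθ]
      show ((F.image (er S)).card : ℝ) * (Real.exp (-x) *
        (1 / (2 * (n : ℝ))) ^ (swt n S).card * F.card / (F.image (er S)).card) = _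
      rw [mul_div_cancel₀ _ (himg S).ne']
      ring
    refine (Finset.sum_le_sum h4).trans ?_
    rw [← Finset.sum_mul]
    have h5 := mul_le_mul_of_nonneg_right (sum_ne_le hn)
      (show (0 : ℝ) ≤ Real.exp (-x) * F.card by positivity)
    rwa [one_mul] at h5

/-- the deterministic upper bound -/
theorem Cost.fill_le {L : Lat V} {μ : ℝ} (hμ : 1 ≤ μ) {n : ℕ} {B : Finset V}
    (hB : B.Nonempty) {Φ : ℕ → ℕ → ℝ} (C : Cost L μ B n Φ)
    (S : Finset ℕ) (hS : 0 ∉ S) : ∀ m, m ≤ n → ∀ ω ∈ L.walks m,
      ((fill (L.walks m) S ω).ncard : ℝ) ≤ μ ^ (sn m S) * Real.exp (Φ (fn m S) m) := by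
  have hD : ∀ m, m ≤ n → ((L.walks m).ncard : ℝ) ≤ μ ^ m * Real.exp (Φ 1 m) := by
    intro m hm
    refine le_trans ?_ (C.one m hm)
    have h1 : (1 : ℝ) ≤ B.card := by exact_mod_cast Finset.card_pos.2 hB
    exact le_mul_of_one_le_left (Nat.cast_nonneg _) h1
  have hμ0 : 0 < μ := by linarith
  have hffin : ∀ (m : ℕ) (ω : Fin (m + 1) → V), (fill (L.walks m) S ω).Finite := fun m ω =>
    (L.finite m).subset (fun η hη => hη.1)
  intro m
  induction m using Nat.strong_induction_on with
  | _ m ih =>
    intro hm ω hω
    by_cases hmS : m ∈ S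
    · -- a free run
      obtain ⟨r, hr⟩ : ∃ r, r = ((Finset.range m).filter (fun j => j ∉ S)).max' (by
        refine ⟨0, Finset.mem_filter.2 ⟨Finset.mem_range.2 ?_, hS⟩⟩
        exact Nat.pos_of_ne_zero (fun h => hS (h ▸ hmS))) := ⟨_, rfl⟩
      have hrm := Finset.mem_filter.1 (hr ▸ Finset.max'_mem
        ((Finset.range m).filter (fun j => j ∉ S)) _)
      have hrlt := Finset.mem_range.1 hrm.1
      have hfree : ∀ i, r < i → i ≤ m → i ∈ S := by
        intro i h1 h2
        by_contra h3
        have h4 : i < m := lt_of_le_of_ne h2 (fun h => h3 (h ▸ hmS))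
        have h5 := Finset.le_max' ((Finset.range m).filter (fun j => j ∉ S)) i
          (Finset.mem_filter.2 ⟨Finset.mem_range.2 h4, h3⟩)
        rw [← hr] at h5
        omega
      have h1 : ((fill (L.walks m) S ω).ncard : ℝ) ≤
          (fill (L.walks r) S (L.piece 0 r ω)).ncard * (L.walks (m - r)).ncard := by
        have h2 : (fill (L.walks m) S ω).ncard ≤
            ((fill (L.walks r) S (L.piece 0 r ω)) ×ˢ (L.walks (m - r))).ncard := by
          refine Set.ncard_le_ncard_of_injOn (fun η => (L.piece 0 r η, L.piece r (m - r) η))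
            ?_ ?_ ((hffin _ _).prod (L.finite _))
          · intro η hη
            refine ⟨⟨L.mem hη.1 (by omega), fun i hi => ?_⟩, L.mem hη.1 (by omega)⟩
            have hi2 := i.2
            have h3 := xt_tr L hη.1 (m := r) (k := i.1) (by omega)
            have h4 := xt_tr L hω (m := r) (k := i.1) (by omega)
            rw [xt_eq _ (by omega)] at h3 h4
            refine h3.trans (Eq.trans ?_ h4.symm)
            rw [xt_eq _ (by omega), xt_eq _ (by omega)]
            exact hη.2 ⟨i.1, by omega⟩ hi
          · intro η hη η' hη' he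
            simp only [Prod.mk.injEq] at he
            exact L.piece_inj hη.1 hη'.1 (show r + (m - r) = m by omega) he.1 he.2
        rw [Set.ncard_prod] at h2
        exact_mod_cast h2
      have h2 := ih r hrlt (by omega) (L.piece 0 r ω) (L.mem hω (by omega))
      have h3 := hD (m - r) (by omega)
      have h4 : sn m S = sn r S + (m - r) := by
        unfold sn
        have : S.filter (fun j => j ≤ m) = (S.filter (fun j => j ≤ r)) ∪
            (Finset.Icc (r + 1) m) := by
          ext j
          rw [Finset.mem_union, Finset.mem_filter, Finset.mem_filter, Finset.mem_Icc]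
          constructor
          · rintro ⟨h5, h6⟩
            by_cases h7 : j ≤ r
            · left; exact ⟨h5, h7⟩
            · right; omega
          · rintro (⟨h5, h6⟩ | ⟨h5, h6⟩)
            · exact ⟨h5, by omega⟩
            · exact ⟨hfree j (by omega) h6, h6⟩
        rw [this, Finset.card_union_of_disjoint, Nat.card_Icc]
        · omega
        · rw [Finset.disjoint_left]
          intro j h5 h6
          rw [Finset.mem_filter] at h5
          rw [Finset.mem_Icc] at h6
          omega
      have h5 : fn r S + 1 ≤ fn m S := by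
        unfold fn
        have hins : insert (r + 1) (S.filter (fun j => j ≤ r ∧ j - 1 ∉ S)) ⊆
            S.filter (fun j => j ≤ m ∧ j - 1 ∉ S) := by
          intro j hj
          rw [Finset.mem_insert, Finset.mem_filter] at hj
          rw [Finset.mem_filter]
          rcases hj with h5 | ⟨h5, h6, h7⟩
          · rw [h5]
            exact ⟨hfree (r + 1) (by omega) (by omega), by omega, by
              rw [Nat.add_sub_cancel]; exact hrm.2⟩
          · exact ⟨h5, by omega, h7⟩
        have h5 := Finset.card_le_card hins
        rwa [Finset.card_insert_of_notMem (by rw [Finset.mem_filter]; omega)] at h5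
      rw [h4, pow_add]
      calc ((fill (L.walks m) S ω).ncard : ℝ)
          ≤ (fill (L.walks r) S (L.piece 0 r ω)).ncard * (L.walks (m - r)).ncard := h1
        _ ≤ (μ ^ (sn r S) * Real.exp (Φ (fn r S) r)) *
            (μ ^ (m - r) * Real.exp (Φ 1 (m - r))) :=
            mul_le_mul h2 h3 (Nat.cast_nonneg _) (by positivity)
        _ = (μ ^ (sn r S) * μ ^ (m - r)) * Real.exp (Φ (fn r S) r + Φ 1 (m - r)) := by
            rw [Real.exp_add]; ring
        _ ≤ (μ ^ (sn r S) * μ ^ (m - r)) * Real.exp (Φ (fn m S) m) := by
            refine mul_le_mul_of_nonneg_left (Real.exp_le_exp.2 ?_) (by positivity)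
            exact (C.add _ _ _ m (by omega)).trans (C.mono _ _ _ _ h5 le_rfl)
    · -- the last time is kept
      rcases Nat.eq_zero_or_pos m with h0 | h0
      · subst h0
        have h1 : (fill (L.walks 0) S ω).ncard ≤ 1 := by
          rw [Set.ncard_le_one (hffin _ _)]
          intro a ha b hb
          funext i
          have hi : i = 0 := by
            apply Fin.ext
            have := i.2
            simp only [Fin.val_zero]
            omega
          rw [hi, ha.1.1, hb.1.1]
        have h2 : sn 0 S = 0 := by
          unfold sn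
          rw [Finset.card_eq_zero, Finset.filter_eq_empty_iff]
          intro j hj h3
          exact hS ((Nat.le_zero.1 h3) ▸ hj)
        have h3 : fn 0 S = 0 := by
          unfold fn
          rw [Finset.card_eq_zero, Finset.filter_eq_empty_iff]
          rintro j hj ⟨h3, -⟩
          exact hS ((Nat.le_zero.1 h3) ▸ hj)
        rw [h2, h3, pow_zero, one_mul]
        have h4 : (1 : ℝ) ≤ Real.exp (Φ 0 0) := Real.one_le_exp C.zero
        refine le_trans ?_ h4
        exact_mod_cast h1
      · obtain ⟨k, rfl⟩ : ∃ k, m = k + 1 := ⟨m - 1, by omega⟩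
        have h1 : ((fill (L.walks (k + 1)) S ω).ncard : ℝ) ≤
            (fill (L.walks k) S (L.piece 0 k ω)).ncard := by
          have h2 : (fill (L.walks (k + 1)) S ω).ncard ≤
              (fill (L.walks k) S (L.piece 0 k ω)).ncard := by
            refine Set.ncard_le_ncard_of_injOn (fun η => L.piece 0 k η) ?_ ?_ (hffin _ _)
            · intro η hη
              refine ⟨L.mem hη.1 (by omega), fun i hi => ?_⟩
              have hi2 := i.2
              have h3 := xt_tr L hη.1 (m := k) (k := i.1) (by omega)
              have h4 := xt_tr L hω (m := k) (k := i.1) (by omega)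
              rw [xt_eq _ (by omega)] at h3 h4
              refine h3.trans (Eq.trans ?_ h4.symm)
              rw [xt_eq _ (by omega), xt_eq _ (by omega)]
              exact hη.2 ⟨i.1, by omega⟩ hi
            · intro η hη η' hη' he
              funext i
              have hi2 := i.2
              by_cases hi : i.1 ≤ k
              · have h3 := xt_tr L hη.1 (m := k) (k := i.1) hi
                have h4 := xt_tr L hη'.1 (m := k) (k := i.1) hi
                have h5 : xt (L.piece 0 k η) i.1 = xt (L.piece 0 k η') i.1 := by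
                  rw [show L.piece 0 k η = L.piece 0 k η' from he]
                rw [h3, h4, xt_eq _ (by omega), xt_eq _ (by omega)] at h5
                exact h5
              · have h3 : i.1 = k + 1 := by omega
                rw [hη.2 i (by rw [h3]; exact hmS), hη'.2 i (by rw [h3]; exact hmS)]
          exact_mod_cast h2
        have h2 := ih k (by omega) (by omega) (L.piece 0 k ω) (L.mem hω (by omega))
        have h3 : sn (k + 1) S = sn k S := by
          unfold sn
          congr 1
          ext j
          rw [Finset.mem_filter, Finset.mem_filter]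
          constructor
          · rintro ⟨h4, h5⟩
            have h6 : j ≠ k + 1 := fun h => hmS (h ▸ h4)
            exact ⟨h4, by omega⟩
          · rintro ⟨h4, h5⟩
            exact ⟨h4, by omega⟩
        have h4 : fn (k + 1) S = fn k S := by
          unfold fn
          congr 1
          ext j
          rw [Finset.mem_filter, Finset.mem_filter]
          constructor
          · rintro ⟨h4, h5, h7⟩
            have h6 : j ≠ k + 1 := fun h => hmS (h ▸ h4)
            exact ⟨h4, by omega, h7⟩
          · rintro ⟨h4, h5, h7⟩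
            exact ⟨h4, by omega, h7⟩
        rw [h3, h4]
        refine (h1.trans h2).trans (mul_le_mul_of_nonneg_left (Real.exp_le_exp.2
          (C.mono _ _ _ _ le_rfl (by omega))) (by positivity))

end Pool.Agent.N932.FL
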