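import Pool.Agent.N932.FL.Chi

/-! # Critical self-avoiding walk in a finite set: the part which remains -/

set_option autoImplicit false

namespace Pool.Agent.N932.FL

open scoped Classical

variable {V : Type} [AddCommGroup V]

theorem Lat.chi_log (L : Lat V) {mu K : ℝ} (h0 : 0 < mu)
    (hlow : ∀ n, mu ^ n ≤ ((L.walks n).ncard : ℝ))
    (hup : ∀ n, 2 ≤ n → ((L.walks n).ncard : ℝ) ≤ mu ^ n * Real.exp (K * Real.log n ^ 2)) :
    ∃ K1 : ℝ, 0 < K1 ∧ ∀ D : Set V, D.Finite → 2 ≤ D.ncard → ∀ x : ℝ, 0 < x → x * mu ≤ 1 →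
      ∑ᶠ l ∈ sall L.Adj D, x ^ (l.length - 1) ≤ Real.exp (K1 * Real.log D.ncard ^ 2) := by
  obtain ⟨K1, hK1, hB⟩ := L.bd_logsq h0 hlow hup
  refine ⟨4 * K1 + 4, by linarith, fun D hD hN x hx hxm => ?_⟩
  refine (L.chi hD hx.le).trans ?_
  obtain ⟨N, hNe⟩ : ∃ N : ℕ, N = D.ncard := ⟨_, rfl⟩
  rw [← hNe] at hN ⊢
  have hN' : (2 : ℝ) ≤ N := by exact_mod_cast hN
  have h1 : ∀ n ∈ Finset.range N, ((L.walks n).ncard : ℝ) * x ^ n ≤
      Real.exp (K1 * Real.log ((N : ℝ) + 2) ^ 2) := by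
    intro n hn
    have h2 := @Bd.up (SP V) L.sys _ _ hB n
    rw [L.card] at h2
    have h3 : K1 * Real.log ((n : ℝ) + 2) ^ 2 ≤ K1 * Real.log ((N : ℝ) + 2) ^ 2 :=
      @Bd.mono (SP V) L.sys _ _ hB n N (Finset.mem_range.1 hn).le
    have h4 : (x * mu) ^ n ≤ 1 := pow_le_one₀ (by positivity) hxm
    calc ((L.walks n).ncard : ℝ) * x ^ n ≤ mu ^ n * Real.exp (K1 * Real.log ((n : ℝ) + 2) ^ 2) *
          x ^ n := mul_le_mul_of_nonneg_right h2 (by positivity)
      _ = (x * mu) ^ n * Real.exp (K1 * Real.log ((n : ℝ) + 2) ^ 2) := by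
          rw [mul_pow]; ring
      _ ≤ 1 * Real.exp (K1 * Real.log ((N : ℝ) + 2) ^ 2) := by
          refine mul_le_mul h4 (Real.exp_le_exp.2 h3) (Real.exp_pos _).le zero_le_one
      _ = _ := one_mul _
  have h5 := Finset.sum_le_sum h1
  rw [Finset.sum_const, Finset.card_range, nsmul_eq_mul] at h5
  have hl := Real.log_two_gt_d9
  have hlN : Real.log 2 ≤ Real.log N := Real.log_le_log (by norm_num) hN'
  have h6 : Real.log ((N : ℝ) + 2) ^ 2 ≤ 4 * Real.log N ^ 2 := by
    have h7 := log_add_two_le hN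
    have h8 : 0 ≤ Real.log ((N : ℝ) + 2) := Real.log_nonneg (by linarith)
    have := pow_le_pow_left₀ h8 h7 2
    linarith
  have h9 : (N : ℝ) * (N * Real.exp (K1 * Real.log ((N : ℝ) + 2) ^ 2)) ≤
      Real.exp ((4 * K1 + 4) * Real.log N ^ 2) := by
    have h10 : (N : ℝ) = Real.exp (Real.log N) := (Real.exp_log (by linarith)).symm
    calc (N : ℝ) * (N * Real.exp (K1 * Real.log ((N : ℝ) + 2) ^ 2)) =
          Real.exp (Real.log N) * (Real.exp (Real.log N) *
            Real.exp (K1 * Real.log ((N : ℝ) + 2) ^ 2)) := by rw [← h10]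
      _ = Real.exp (Real.log N + (Real.log N + K1 * Real.log ((N : ℝ) + 2) ^ 2)) := by
          rw [Real.exp_add, Real.exp_add]
      _ ≤ _ := by
          refine Real.exp_le_exp.2 ?_
          have h11 := log_le_sq hN
          have h12 := mul_le_mul_of_nonneg_left h6 hK1
          nlinarith
  calc (N : ℝ) * ∑ n ∈ Finset.range N, ((L.walks n).ncard : ℝ) * x ^ n ≤
        N * (N * Real.exp (K1 * Real.log ((N : ℝ) + 2) ^ 2)) :=
        mul_le_mul_of_nonneg_left h5 (by linarith)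
    _ ≤ _ := h9

theorem prod_pow (x : ℝ) (A : List (List V)) :
    (A.map (fun α => x ^ (α.length - 1))).prod = x ^ (A.map (fun α => α.length - 1)).sum := by
  induction A with
  | nil => simp
  | cons α A ih => simp [ih, pow_add]

theorem geom_half (N : ℕ) {r : ℝ} (hr0 : 0 ≤ r) (hr : r ≤ 1 / 2) :
    ∑ k ∈ Finset.range N, r ^ (k + 1) ≤ 1 := by
  have h : ∑ k ∈ Finset.range N, r ^ (k + 1) ≤ 1 - (1 / 2 : ℝ) ^ N := by
    induction N with
    | zero => simp
    | succ N ih =>
      rw [Finset.sum_range_succ]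
      have h1 : r ^ (N + 1) ≤ (1 / 2 : ℝ) ^ (N + 1) := pow_le_pow_left₀ hr0 hr _
      have h2 : (1 / 2 : ℝ) ^ (N + 1) = (1 / 2 : ℝ) ^ N * (1 / 2) := pow_succ _ _
      linarith
  have h1 : (0 : ℝ) < (1 / 2 : ℝ) ^ N := by positivity
  linarith

/-- **the critical walk leaves room for every part of it** -/
theorem Lat.crit (L : Lat V) {mu K : ℝ} (h0 : 0 < mu)
    (hlow : ∀ n, mu ^ n ≤ ((L.walks n).ncard : ℝ))
    (hup : ∀ n, 2 ≤ n → ((L.walks n).ncard : ℝ) ≤ mu ^ n * Real.exp (K * Real.log n ^ 2)) :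
    ∃ K2 : ℝ, 0 < K2 ∧ ∀ D : Set V, D.Finite → 2 ≤ D.ncard → ∀ x : ℝ, 0 < x → x * mu ≤ 1 →
      ∀ (a b : V) (Z : ℝ), 0 ≤ Z → ∀ y : ℝ,
      ∑ᶠ l ∈ trj L.Adj D a b ∩ {l | ∃ p M, l = glue p M ∧ (∀ s ∈ M, s.1 ≠ []) ∧
        ∑ᶠ l' ∈ other L.Adj D a b p M, x ^ (l'.length - 1) ≤
          Real.exp (-(K2 * (M.length + 1) * Real.log D.ncard ^ 2 + y)) *
            x ^ (l.length - 1 - (M.map (fun s => s.1.length - 1)).sum) * Z},
        x ^ (l.length - 1) ≤ Real.exp (-y) * Z := by
  obtain ⟨K1, hK1, hchi⟩ := L.chi_log h0 hlow hup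
  refine ⟨K1 + 2, by linarith, fun D hD hN x hx hxm a b Z hZ y => ?_⟩
  obtain ⟨T, hT⟩ : ∃ T : ℝ, T = ∑ᶠ l ∈ sall L.Adj D, x ^ (l.length - 1) := ⟨_, rfl⟩
  have hT1 := hchi D hD hN x hx hxm
  rw [← hT] at hT1
  obtain ⟨θ, hθ⟩ : ∃ θ : ℕ → ℝ, ∀ j, θ j =
    Real.exp (-((K1 + 2) * j * Real.log D.ncard ^ 2 + y)) := ⟨_, fun _ => rfl⟩
  have hmain := multi_le (Adj := L.Adj) hD a b (fun l => x ^ (l.length - 1))
    (fun l => by positivity)
    (fun A => θ A.length * (A.map (fun α => x ^ (α.length - 1))).prod * Z) (fun A => by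
      refine mul_nonneg (mul_nonneg ?_ ?_) hZ
      · rw [hθ]
        positivity
      · rw [prod_pow]
        positivity)
  have hset : trj L.Adj D a b ∩ {l | ∃ p M, l = glue p M ∧ (∀ s ∈ M, s.1 ≠ []) ∧
        ∑ᶠ l' ∈ other L.Adj D a b p M, x ^ (l'.length - 1) ≤
          Real.exp (-((K1 + 2) * (M.length + 1) * Real.log D.ncard ^ 2 + y)) *
            x ^ (l.length - 1 - (M.map (fun s => s.1.length - 1)).sum) * Z} =
      trj L.Adj D a b ∩ {l | ∃ p M, l = glue p M ∧ (∀ s ∈ M, s.1 ≠ []) ∧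
        ∑ᶠ l' ∈ other L.Adj D a b p M, x ^ (l'.length - 1) ≤
          θ (alph p (key M)).length *
            ((alph p (key M)).map (fun α => x ^ (α.length - 1))).prod * Z} := by
    ext l
    simp only [Set.mem_inter_iff, Set.mem_ofPred_eq]
    refine and_congr_right (fun hl => exists_congr (fun p => exists_congr (fun M => ?_)))
    refine and_congr_right (fun h1 => and_congr_right (fun h2 => ?_))
    have h3 : glue p M ≠ [] := by
      rw [← h1]
      rintro rfl
      have := hl.1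
      simp at this
    have h4 := alph_steps M p h2 h3
    have h5 : l.length - 1 - (M.map (fun s => s.1.length - 1)).sum =
        ((alph p (key M)).map (fun α => α.length - 1)).sum := by
      rw [h1]
      omega
    rw [prod_pow, hθ, alph_length, key_length, h5]
    push_cast
    rfl
  rw [hset]
  refine hmain.trans ?_
  obtain ⟨S, hS⟩ : ∃ S : Finset (List V), (S : Set (List V)) = sall L.Adj D :=
    ⟨(sall_fin hD).toFinset, (sall_fin hD).coe_toFinset⟩
  rw [finsum_mem_eq_finite_toFinset_sum _ (alphs_fin hD a b)]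
  have hTS : T = ∑ α ∈ S, x ^ (α.length - 1) := by
    rw [hT, ← hS, finsum_mem_coe_finset]
  have hT0 : 0 ≤ T := by
    rw [hTS]
    exact Finset.sum_nonneg (fun α _ => by positivity)
  have hnn : ∀ A : List (List V), 0 ≤
      θ A.length * (A.map (fun α => x ^ (α.length - 1))).prod * Z := by
    intro A
    refine mul_nonneg (mul_nonneg ?_ ?_) hZ
    · rw [hθ]
      positivity
    · rw [prod_pow]
      positivity
  have hN' : (2 : ℝ) ≤ D.ncard := by exact_mod_cast hN
  have hl := Real.log_two_gt_d9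
  have hlN : Real.log 2 ≤ Real.log D.ncard := Real.log_le_log (by norm_num) hN'
  obtain ⟨r, hr⟩ : ∃ r : ℝ, r = Real.exp (-((K1 + 2) * Real.log D.ncard ^ 2)) * T := ⟨_, rfl⟩
  have hr0 : 0 ≤ r := by rw [hr]; positivity
  have hr1 : r ≤ 1 / 2 := by
    have h1 : r ≤ Real.exp (-((K1 + 2) * Real.log D.ncard ^ 2)) *
        Real.exp (K1 * Real.log D.ncard ^ 2) := by
      rw [hr]
      exact mul_le_mul_of_nonneg_left hT1 (Real.exp_pos _).le
    rw [← Real.exp_add] at h1
    refine h1.trans ?_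
    have h2 : (1 / 2 : ℝ) = Real.exp (-Real.log 2) := by
      rw [Real.exp_neg, Real.exp_log (by norm_num)]
      norm_num
    rw [h2]
    refine Real.exp_le_exp.2 ?_
    nlinarith
  calc ∑ A ∈ (alphs_fin hD a b).toFinset,
        θ A.length * (A.map (fun α => x ^ (α.length - 1))).prod * Z
      ≤ ∑ A ∈ (Finset.range (D.ncard + 1)).biUnion (fun k => LL S (k + 1)),
        θ A.length * (A.map (fun α => x ^ (α.length - 1))).prod * Z := by
        refine Finset.sum_le_sum_of_subset_of_nonneg (fun A hA => ?_) (fun A _ _ => hnn A)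
        rw [Set.Finite.mem_toFinset] at hA
        exact alphs_sub hD hS hA
    _ = ∑ k ∈ Finset.range (D.ncard + 1), ∑ A ∈ LL S (k + 1),
        θ A.length * (A.map (fun α => x ^ (α.length - 1))).prod * Z := by
        rw [Finset.sum_biUnion]
        intro i _ j _ hij
        rw [Function.onFun, Finset.disjoint_left]
        intro A h1 h2
        rw [mem_LL] at h1 h2
        exact hij (by omega)
    _ = ∑ k ∈ Finset.range (D.ncard + 1), Real.exp (-y) * Z * r ^ (k + 1) := by
        refine Finset.sum_congr rfl (fun k _ => ?_)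
        have h1 : ∀ A ∈ LL S (k + 1), θ A.length *
            (A.map (fun α => x ^ (α.length - 1))).prod * Z =
            θ (k + 1) * Z * (A.map (fun α => x ^ (α.length - 1))).prod := by
          intro A hA
          rw [mem_LL] at hA
          rw [hA.1]
          ring
        rw [Finset.sum_congr rfl h1, ← Finset.mul_sum, sum_LL S (fun α => x ^ (α.length - 1)),
          ← hTS, hθ, hr, mul_pow, ← Real.exp_nat_mul]
        have h2 : Real.exp (-((K1 + 2) * ((k + 1 : ℕ) : ℝ) * Real.log D.ncard ^ 2 + y)) =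
            Real.exp (-y) * Real.exp (((k + 1 : ℕ) : ℝ) *
              (-((K1 + 2) * Real.log D.ncard ^ 2))) := by
          rw [← Real.exp_add]
          congr 1
          ring
        rw [h2]
        ring
    _ = Real.exp (-y) * Z * ∑ k ∈ Finset.range (D.ncard + 1), r ^ (k + 1) := by
        rw [Finset.mul_sum]
    _ ≤ Real.exp (-y) * Z * 1 := by
        refine mul_le_mul_of_nonneg_left (geom_half _ hr0 hr1) ?_
        have := Real.exp_pos (-y)
        positivity
    _ = _ := mul_one _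

end Pool.Agent.N932.FL
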