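import Pool.Agent.N932.FL.Crit

/-! # Critical self-avoiding walk in a finite set: the piece given the rest -/

set_option autoImplicit false

namespace Pool.Agent.N932.FL

open scoped Classical

section gen

variable {V : Type}

theorem key_one {m q : List V} {M : List (List V × List V)} (h : key M = key [(m, q)]) :
    ∃ m', M = [(m', q)] ∧ m'.head? = m.head? ∧ m'.getLast? = m.getLast? := by
  have h1 : M.length = 1 := by
    rw [← key_length, h, key_length]
    rfl
  obtain ⟨s, rfl⟩ := List.length_eq_one_iff.1 h1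
  obtain ⟨m', q'⟩ := s
  simp only [key, List.map_cons, List.map_nil, List.cons.injEq, Prod.mk.injEq, and_true] at h
  exact ⟨m', by rw [h.2.2], h.1, h.2.1⟩

theorem other_one {Adj : V → V → Prop} {D : Set V} (hD : D.Finite) {a b : V} {p m q : List V}
    {u v : V} (h1 : m.head? = some u) (h2 : m.getLast? = some v) {x : ℝ} (hx : 0 ≤ x) :
    ∑ᶠ l ∈ other Adj D a b p [(m, q)], x ^ (l.length - 1) ≤
      x ^ ((p ++ m ++ q).length - 1 - (m.length - 1)) *
        ∑ᶠ l ∈ trj Adj (cutD D p q) u v, x ^ (l.length - 1) := by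
  have hf1 : (other Adj D a b p [(m, q)]).Finite := (trj_fin hD a b).subset (fun l hl => hl.1)
  have hf2 : (trj Adj (cutD D p q) u v).Finite := trj_fin (hD.subset (cutD_sub D p q)) u v
  rw [finsum_mem_eq_finite_toFinset_sum _ hf1, finsum_mem_eq_finite_toFinset_sum _ hf2]
  have hsub : hf1.toFinset ⊆ hf2.toFinset.image (fun m' => p ++ m' ++ q) := by
    intro l hl
    rw [Set.Finite.mem_toFinset] at hl
    obtain ⟨h3, M, h4, h5⟩ := hl
    obtain ⟨m', rfl, h6, h7⟩ := key_one h4
    rw [Finset.mem_image]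
    refine ⟨m', ?_, ?_⟩
    · rw [Set.Finite.mem_toFinset]
      exact (decomp h3 (by rw [h5]; simp [glue]) (h6.trans h1) (h7.trans h2)).2.2
    · rw [h5]
      simp [glue]
  refine (Finset.sum_le_sum_of_subset_of_nonneg hsub (fun l _ _ => by positivity)).trans ?_
  refine le_trans (sum_image_le _ _ (fun l => by positivity)) ?_
  rw [Finset.mul_sum]
  refine Finset.sum_le_sum (fun m' hm' => le_of_eq ?_)
  rw [Set.Finite.mem_toFinset] at hm'
  have h8 := List.length_pos_iff.2 (trj_sall hm').1
  have h9 : 0 < m.length := by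
    rw [List.length_pos_iff]
    rintro rfl
    simp at h1
  rw [← pow_add]
  congr 1
  simp only [List.length_append]
  omega

/-- the `n`-step self-avoiding walks from `v`, as lists -/
def sws (Adj : V → V → Prop) (v : V) (n : ℕ) : Set (List V) :=
  {l | l.length = n + 1 ∧ l.head? = some v ∧ l.IsChain Adj ∧ l.Nodup}

end gen

variable {V : Type} [AddCommGroup V]

theorem Lat.sws_map (L : Lat V) (v : V) (n : ℕ) :
    Set.MapsTo (fun l : List V => fun i : Fin (n + 1) => L.s v • (l.getD i.1 v - v))
      (sws L.Adj v n) (L.walks n) := by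
  rintro l ⟨hlen, h5, h3, h2⟩
  have h1 : l ≠ [] := by
    rintro rfl
    simp at hlen
  have hg : ∀ i : Fin (n + 1), l.getD i.1 v = l[i.1]'(by have := i.2; omega) := by
    intro i
    rw [List.getD_eq_getElem]
  refine ⟨?_, ?_, ?_⟩
  · have h7 : l.getD 0 v = v := by
      cases l with
      | nil => exact absurd rfl h1
      | cons x xs =>
        simp only [List.head?_cons, Option.some.injEq] at h5
        simpa using h5
    show L.s v • (l.getD (0 : Fin (n + 1)).1 v - v) = 0
    rw [show ((0 : Fin (n + 1)).1) = 0 from rfl, h7, sub_self, smul_zero]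
  · intro i j hij
    have h7 := L.smul_inj hij
    have h8 : l.getD i.1 v = l.getD j.1 v := by
      simpa using h7
    rw [hg, hg] at h8
    have h9 := (List.Nodup.getElem_inj_iff h2).1 h8
    exact Fin.ext h9
  · intro i
    refine L.adj v _ _ ?_
    have h7 := List.isChain_iff_getElem.1 h3 i.1 (by have := i.2; omega)
    rw [hg, hg]
    exact h7

theorem Lat.sws_inj (L : Lat V) (v : V) (n : ℕ) :
    Set.InjOn (fun l : List V => fun i : Fin (n + 1) => L.s v • (l.getD i.1 v - v))
      (sws L.Adj v n) := by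
  rintro l ⟨hlen, _, _, _⟩ l' ⟨hlen', _, _, _⟩ h
  refine List.ext_getElem (by omega) (fun i h7 h8 => ?_)
  have h9 := congrFun h ⟨i, by omega⟩
  have h10 := L.smul_inj h9
  have h11 : l.getD i v = l'.getD i v := by
    simpa using h10
  rwa [List.getD_eq_getElem _ _ h7, List.getD_eq_getElem _ _ h8] at h11

theorem Lat.sws_fin (L : Lat V) (v : V) (n : ℕ) : (sws L.Adj v n).Finite :=
  Set.Finite.of_injOn (L.sws_map v n) (L.sws_inj v n) (L.finite n)

theorem Lat.sws_card (L : Lat V) (v : V) (n : ℕ) :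
    (sws L.Adj v n).ncard ≤ (L.walks n).ncard :=
  Set.ncard_le_ncard_of_injOn _ (L.sws_map v n) (L.sws_inj v n) (L.finite n)

/-- pieces with `n` steps -/
theorem Lat.piece_n (L : Lat V) {D : Set V} (hD : D.Finite) {u v : V} {x : ℝ} (hx : 0 ≤ x)
    (B : Set (List V)) (n : ℕ) {c : ℝ} (hc0 : 0 ≤ c)
    (hc : n < D.ncard → ((L.walks n).ncard : ℝ) * x ^ n ≤ c) :
    ∑ᶠ l ∈ trj L.Adj D u v ∩ {l | l ∈ B ∧ l.length - 1 = n}, x ^ (l.length - 1) ≤
      c * ((B ∩ sws L.Adj u n).ncard / (sws L.Adj u n).ncard) := by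
  have hf : (trj L.Adj D u v ∩ {l | l ∈ B ∧ l.length - 1 = n}).Finite :=
    (trj_fin hD u v).subset Set.inter_subset_left
  rw [finsum_mem_eq_finite_toFinset_sum _ hf]
  have hsub : (hf.toFinset : Set (List V)) ⊆ B ∩ sws L.Adj u n := by
    intro l hl
    rw [Set.Finite.coe_toFinset] at hl
    obtain ⟨h1, h2, h3⟩ := hl
    have h4 := List.length_pos_iff.2 (trj_sall h1).1
    exact ⟨h2, by omega, h1.1, h1.2.2.2.1, h1.2.2.1⟩
  have h1 : ∑ l ∈ hf.toFinset, x ^ (l.length - 1) = (hf.toFinset.card : ℝ) * x ^ n := by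
    rw [← nsmul_eq_mul, ← Finset.sum_const]
    refine Finset.sum_congr rfl (fun l hl => ?_)
    rw [Set.Finite.mem_toFinset] at hl
    rw [hl.2.2]
  rw [h1]
  have hfin : (B ∩ sws L.Adj u n).Finite := (L.sws_fin u n).subset Set.inter_subset_right
  rcases Nat.lt_or_ge n D.ncard with hn | hn
  · have h2 : (hf.toFinset.card : ℝ) ≤ (B ∩ sws L.Adj u n).ncard := by
      have := Set.ncard_le_ncard hsub hfin
      rw [Set.ncard_coe_finset] at this
      exact_mod_cast this
    rcases Nat.eq_zero_or_pos (sws L.Adj u n).ncard with h3 | h3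
    · have h4 : (B ∩ sws L.Adj u n).ncard ≤ (sws L.Adj u n).ncard :=
        Set.ncard_le_ncard Set.inter_subset_right (L.sws_fin u n)
      have h5 : (hf.toFinset.card : ℝ) ≤ 0 := by
        refine h2.trans ?_
        exact_mod_cast (by omega : (B ∩ sws L.Adj u n).ncard ≤ 0)
      have h6 : (hf.toFinset.card : ℝ) * x ^ n ≤ 0 :=
        mul_nonpos_of_nonpos_of_nonneg h5 (by positivity)
      exact h6.trans (by positivity)
    · have h3' : (0 : ℝ) < (sws L.Adj u n).ncard := by exact_mod_cast h3
      have h4 : ((sws L.Adj u n).ncard : ℝ) * x ^ n ≤ c := by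
        refine le_trans (mul_le_mul_of_nonneg_right ?_ (by positivity)) (hc hn)
        exact_mod_cast L.sws_card u n
      calc (hf.toFinset.card : ℝ) * x ^ n ≤ (B ∩ sws L.Adj u n).ncard * x ^ n :=
            mul_le_mul_of_nonneg_right h2 (by positivity)
        _ = (((sws L.Adj u n).ncard : ℝ) * x ^ n) *
            ((B ∩ sws L.Adj u n).ncard / (sws L.Adj u n).ncard) := by
            field_simp
        _ ≤ _ := mul_le_mul_of_nonneg_right h4 (by positivity)
  · have h2 : hf.toFinset = ∅ := by
      rw [Finset.eq_empty_iff_forall_notMem]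
      intro l hl
      rw [Set.Finite.mem_toFinset] at hl
      have h3 := sall_length hD (trj_sall hl.1)
      have h4 := List.length_pos_iff.2 (trj_sall hl.1).1
      have h5 := hl.2.2
      omega
    rw [h2, Finset.card_empty, Nat.cast_zero, zero_mul]
    positivity

end Pool.Agent.N932.FL
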