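import Pool.Agent.N932.FL.LogSq
import Pool.Agent.TH508.LT.Fin2
import Pool.Agent.H982R3.Plain
import Pool.Agent.H978R2.Hex.Lower
import Pool.Agent.H978R2.Hex.Conn

/-! # The square, the triangular and the honeycomb lattice -/

set_option autoImplicit false

namespace Pool.Agent.N932.FL

open scoped Classical

/-- the square lattice -/
def AdjS (p q : ℤ × ℤ) : Prop := |p.1 - q.1| + |p.2 - q.2| = 1

/-- the triangular lattice -/
def AdjT (p q : ℤ × ℤ) : Prop :=
  q - p ∈ ({(1, 0), (-1, 0), (0, 1), (0, -1), (1, -1), (-1, 1)} : Set (ℤ × ℤ))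

/-- the honeycomb lattice -/
def AdjH (p q : ℤ × ℤ) : Prop :=
  q - p = (1, 0) ∨ q - p = (-1, 0) ∨
    (q - p = (0, 1) ∧ Even (p.1 + p.2)) ∨ (q - p = (0, -1) ∧ Even (q.1 + q.2))

/-- the sign of a vertex of the honeycomb lattice -/
def sgnH (v : ℤ × ℤ) : ℤ := if Even (v.1 + v.2) then 1 else -1

theorem fin_box {S : Set (ℤ × ℤ)} (v : ℤ × ℤ)
    (h : ∀ x ∈ S, |x.1 - v.1| ≤ 1 ∧ |x.2 - v.2| ≤ 1) : S.Finite := by
  refine ((Set.finite_Icc (v.1 - 1) (v.1 + 1)).prod (Set.finite_Icc (v.2 - 1) (v.2 + 1))).subset ?_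
  intro x hx
  obtain ⟨h1, h2⟩ := h x hx
  rw [abs_le] at h1 h2
  refine Set.mem_prod.2 ⟨?_, ?_⟩ <;> rw [Set.mem_Icc] <;> omega

/-- the square lattice -/
def sqLat : Lat (ℤ × ℤ) where
  Adj := AdjS
  s := fun _ => 1
  s0 := rfl
  ss := fun _ => rfl
  sw := fun _ _ => rfl
  adj := by
    intro v x y h
    unfold AdjS at h ⊢
    simp only [one_smul, Prod.fst_sub, Prod.snd_sub]
    rw [show x.1 - v.1 - (y.1 - v.1) = x.1 - y.1 by ring,
      show x.2 - v.2 - (y.2 - v.2) = x.2 - y.2 by ring]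
    exact h
  fin := by
    intro v
    refine fin_box v (fun x hx => ?_)
    have hx' : |v.1 - x.1| + |v.2 - x.2| = 1 := hx
    have h1 := abs_nonneg (v.1 - x.1)
    have h2 := abs_nonneg (v.2 - x.2)
    rw [abs_sub_comm x.1, abs_sub_comm x.2]
    omega
  line := fun k => ((k : ℤ), 0)
  line0 := rfl
  lineInj := by
    intro i j h
    simpa using h
  lineAdj := by
    intro k
    unfold AdjS
    simp

/-- the triangular lattice -/
def triLat : Lat (ℤ × ℤ) where
  Adj := AdjT
  s := fun _ => 1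
  s0 := rfl
  ss := fun _ => rfl
  sw := fun _ _ => rfl
  adj := by
    intro v x y h
    unfold AdjT at h ⊢
    simp only [one_smul]
    rw [sub_sub_sub_cancel_right]
    exact h
  fin := by
    intro v
    refine fin_box v (fun x hx => ?_)
    have hx' : x - v ∈ ({(1, 0), (-1, 0), (0, 1), (0, -1), (1, -1), (-1, 1)} : Set (ℤ × ℤ)) := hx
    simp only [Set.mem_insert_iff, Set.mem_singleton_iff, Prod.ext_iff, Prod.fst_sub,
      Prod.snd_sub] at hx'
    rw [abs_le, abs_le]
    omega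
  line := fun k => ((k : ℤ), 0)
  line0 := rfl
  lineInj := by
    intro i j h
    simpa using h
  lineAdj := by
    intro k
    unfold AdjT
    left
    simp

theorem sgnH_sq (v : ℤ × ℤ) : sgnH v * sgnH v = 1 := by
  unfold sgnH
  split_ifs <;> rfl

/-- the honeycomb lattice -/
def hexLat : Lat (ℤ × ℤ) where
  Adj := AdjH
  s := sgnH
  s0 := by
    unfold sgnH
    simp
  ss := sgnH_sq
  sw := by
    intro v w
    unfold sgnH
    by_cases h : Even (v.1 + v.2)
    · rw [if_pos h]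
      simp only [one_smul, Prod.fst_sub, Prod.snd_sub, mul_one]
      have : Even (w.1 - v.1 + (w.2 - v.2)) ↔ Even (w.1 + w.2) := by
        rw [show w.1 - v.1 + (w.2 - v.2) = (w.1 + w.2) - (v.1 + v.2) by ring, Int.even_sub]
        exact iff_true_right h
      simp only [this]
    · rw [if_neg h]
      simp only [neg_smul, one_smul, Prod.fst_neg, Prod.snd_neg, Prod.fst_sub, Prod.snd_sub]
      have : Even (-(w.1 - v.1) + -(w.2 - v.2)) ↔ ¬ Even (w.1 + w.2) := by
        rw [show -(w.1 - v.1) + -(w.2 - v.2) = (v.1 + v.2) - (w.1 + w.2) by ring, Int.even_sub]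
        constructor
        · intro h1 h2
          exact h (h1.2 h2)
        · intro h1
          exact ⟨fun h2 => absurd h2 h, fun h2 => absurd h2 h1⟩
      simp only [this]
      by_cases h2 : Even (w.1 + w.2)
      · rw [if_neg (not_not.2 h2), if_pos h2]
        rfl
      · rw [if_pos h2, if_neg h2]
        rfl
  adj := by
    intro v x y h
    unfold AdjH at h ⊢
    unfold sgnH
    have ev : ∀ z : ℤ × ℤ, Even (v.1 + v.2) →
        (Even (z.1 - v.1 + (z.2 - v.2)) ↔ Even (z.1 + z.2)) := by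
      intro z hv
      rw [show z.1 - v.1 + (z.2 - v.2) = (z.1 + z.2) - (v.1 + v.2) by ring, Int.even_sub]
      exact iff_true_right hv
    have od : ∀ z : ℤ × ℤ, ¬ Even (v.1 + v.2) →
        (Even (-(z.1 - v.1) + -(z.2 - v.2)) ↔ ¬ Even (z.1 + z.2)) := by
      intro z hv
      rw [show -(z.1 - v.1) + -(z.2 - v.2) = (v.1 + v.2) - (z.1 + z.2) by ring, Int.even_sub]
      constructor
      · intro h1 h2
        exact hv (h1.2 h2)
      · intro h1
        exact ⟨fun h2 => absurd h2 hv, fun h2 => absurd h2 h1⟩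
    have par : ∀ z w : ℤ × ℤ, w - z = (0, 1) ∨ w - z = (0, -1) →
        (Even (z.1 + z.2) ↔ ¬ Even (w.1 + w.2)) := by
      intro z w hzw
      have h1 : w.1 + w.2 = z.1 + z.2 + 1 ∨ w.1 + w.2 = z.1 + z.2 - 1 := by
        rcases hzw with h | h <;> simp only [Prod.ext_iff, Prod.fst_sub, Prod.snd_sub] at h
        · left; omega
        · right; omega
      rcases h1 with h | h <;> rw [h]
      · rw [Int.even_add_one, not_not]
      · rw [Int.even_sub_one, not_not]
    by_cases hv : Even (v.1 + v.2)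
    · rw [if_pos hv]
      simp only [one_smul, sub_sub_sub_cancel_right, Prod.fst_sub, Prod.snd_sub, ev x hv, ev y hv]
      exact h
    · rw [if_neg hv]
      simp only [neg_smul, one_smul, Prod.fst_neg, Prod.snd_neg, Prod.fst_sub, Prod.snd_sub,
        od x hv, od y hv]
      have e : -(y - v) - -(x - v) = -(y - x) := by abel
      rw [e]
      rcases h with h | h | ⟨h, h'⟩ | ⟨h, h'⟩
      · right; left; rw [h]; rfl
      · left; rw [h]; rfl
      · right; right; right
        refine ⟨by rw [h]; rfl, ?_⟩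
        exact (par x y (Or.inl h)).1 h'
      · right; right; left
        refine ⟨by rw [h]; rfl, ?_⟩
        intro h2
        exact (par x y (Or.inr h)).1 h2 h'
  fin := by
    intro v
    refine fin_box v (fun x hx => ?_)
    have hx' : x - v = (1, 0) ∨ x - v = (-1, 0) ∨
      (x - v = (0, 1) ∧ Even (v.1 + v.2)) ∨ (x - v = (0, -1) ∧ Even (x.1 + x.2)) := hx
    simp only [Prod.ext_iff, Prod.fst_sub, Prod.snd_sub] at hx'
    rw [abs_le, abs_le]
    rcases hx' with h | h | ⟨h, _⟩ | ⟨h, _⟩ <;> omega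
  line := fun k => ((k : ℤ), 0)
  line0 := rfl
  lineInj := by
    intro i j h
    simpa using h
  lineAdj := by
    intro k
    unfold AdjH
    left
    simp

/-- the bounds for a graph which has coordinates in one of the word models -/
theorem bounds_word [L : H982.Lat] {Adj : ℤ × ℤ → ℤ × ℤ → Prop} {φ : ℤ × ℤ → ℤ × ℤ}
    {R : ℕ → ℤ × ℤ → Prop} (H : H982.Coord Adj φ R) :
    ∃ mu K : ℝ, 0 < mu ∧
      (mu = (⨅ n : {n : ℕ // 1 ≤ n},
        ((({f : Fin (n.1 + 1) → ℤ × ℤ | f 0 = 0 ∧ Function.Injective f ∧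
            ∀ i : Fin n.1, Adj (f i.castSucc) (f i.succ)}.ncard : ℕ) : ℝ) ^ ((1 : ℝ) / (n.1 : ℝ))))) ∧
      (∀ n : ℕ, mu ^ n ≤ (({f : Fin (n + 1) → ℤ × ℤ | f 0 = 0 ∧ Function.Injective f ∧
            ∀ i : Fin n, Adj (f i.castSucc) (f i.succ)}.ncard : ℕ) : ℝ)) ∧
      (∀ n : ℕ, 2 ≤ n → (({f : Fin (n + 1) → ℤ × ℤ | f 0 = 0 ∧ Function.Injective f ∧
            ∀ i : Fin n, Adj (f i.castSucc) (f i.succ)}.ncard : ℕ) : ℝ) ≤
        mu ^ n * Real.exp (K * Real.log n ^ 2)) := by
  obtain ⟨K, -, hK⟩ := Pool.Agent.TH508.LT.cr'_upper2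
  refine ⟨H982.mu, K, ?_, ?_, ?_, ?_⟩
  · exact H982.mu_pos
  · exact (H982.mu_eq_iInf H).symm
  · intro n
    refine (H982.mu_pow_le n).trans (le_of_eq ?_)
    exact (H982.ncard_walks H n).symm
  · intro n hn
    refine le_trans (le_of_eq ?_) (hK n hn)
    exact H982.ncard_walks H n

end Pool.Agent.N932.FL
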