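import Pool.Agent.N932.FL.Gibbs
import Pool.Agent.N932.FL.Three

/-! # The law of a piece given the rest has a bounded density -/

set_option autoImplicit false

namespace Pool.Agent.N932.FL

open scoped Classical

/-- conditional probabilities given the rest -/
theorem Lat.dens (L : Lat (ℤ × ℤ)) {n s m : ℕ} (h : s + m ≤ n) {S : Finset ℕ}
    (hS : ∀ i ∈ S, s < i ∧ i ≤ s + m) (ω : Fin (n + 1) → ℤ × ℤ) {E : ℝ}
    (hE : Real.exp (-E) * (L.walks m).ncard ≤ (L.oth s m S ω).ncard)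
    (B : Set (Fin (m + 1) → ℤ × ℤ)) :
    (({η ∈ fill (L.walks n) S ω | L.piece s m η ∈ B}).ncard : ℝ) /
      ((fill (L.walks n) S ω).ncard : ℝ) ≤
      Real.exp E * (((L.walks m ∩ B).ncard : ℝ) / (L.walks m).ncard) := by
  have hc := L.card0 m
  have hfin : (fill (L.walks n) S ω).Finite := (L.finite n).subset (fun η hη => hη.1)
  rw [L.oth_card h hS ω] at hE
  have h1 : (({η ∈ fill (L.walks n) S ω | L.piece s m η ∈ B}).ncard : ℝ) ≤
      (L.walks m ∩ B).ncard := by
    have h2 : Set.InjOn (fun η => L.piece s m η) (fill (L.walks n) S ω) := by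
      intro η hη η' hη' he
      have hcard := L.oth_card h hS ω
      unfold Lat.oth at hcard
      exact (Set.ncard_image_iff hfin).1 hcard hη hη' he
    have h3 := Set.ncard_le_ncard_of_injOn (s := {η ∈ fill (L.walks n) S ω | L.piece s m η ∈ B})
      (t := L.walks m ∩ B) (fun η => L.piece s m η)
      (fun η hη => ⟨L.mem hη.1.1 h, hη.2⟩) (h2.mono (fun η hη => hη.1))
      ((L.finite m).subset Set.inter_subset_left)
    exact_mod_cast h3
  have h4 : 0 < ((fill (L.walks n) S ω).ncard : ℝ) :=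
    lt_of_lt_of_le (mul_pos (Real.exp_pos _) hc) hE
  rw [div_le_iff₀ h4]
  have h5 : (0 : ℝ) ≤ (L.walks m ∩ B).ncard := Nat.cast_nonneg _
  calc (({η ∈ fill (L.walks n) S ω | L.piece s m η ∈ B}).ncard : ℝ) ≤ (L.walks m ∩ B).ncard := h1
    _ = Real.exp E * (((L.walks m ∩ B).ncard : ℝ) / (L.walks m).ncard) *
        (Real.exp (-E) * (L.walks m).ncard) := by
        rw [Real.exp_neg]
        have := Real.exp_pos E
        field_simp
    _ ≤ _ := mul_le_mul_of_nonneg_left hE (by positivity)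

theorem le_count {u : ℝ} (hu : 0 ≤ u) {M : ℕ} (hM : u ≤ M) (k1 : ℕ) :
    u ≤ 1 + k1 + ∑ j ∈ Finset.range M, (if ((k1 + (j + 1) : ℕ) : ℝ) ≤ u then (1 : ℝ) else 0) := by
  obtain ⟨f, hf⟩ : ∃ f : ℕ, f = ⌊u⌋₊ := ⟨_, rfl⟩
  have h1 : u < f + 1 := by rw [hf]; exact Nat.lt_floor_add_one u
  have h2 : (f : ℝ) ≤ u := by rw [hf]; exact Nat.floor_le hu
  have h3 : f ≤ M := by exact_mod_cast h2.trans hM
  have h4 : ((f - k1 : ℕ) : ℝ) ≤
      ∑ j ∈ Finset.range M, (if ((k1 + (j + 1) : ℕ) : ℝ) ≤ u then (1 : ℝ) else 0) := by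
    have h6 : (Finset.range (f - k1)).card ≤
        ((Finset.range M).filter (fun j => ((k1 + (j + 1) : ℕ) : ℝ) ≤ u)).card := by
      refine Finset.card_le_card (fun j hj => ?_)
      rw [Finset.mem_range] at hj
      rw [Finset.mem_filter, Finset.mem_range]
      refine ⟨by omega, le_trans ?_ h2⟩
      exact_mod_cast (by omega : k1 + (j + 1) ≤ f)
    rw [Finset.card_range] at h6
    rw [Finset.sum_boole]
    exact_mod_cast h6
  have h5 : (f : ℝ) ≤ ((f - k1 : ℕ) : ℝ) + k1 := by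
    have : f ≤ (f - k1) + k1 := by omega
    exact_mod_cast this
  linarith

/-- the mean from the tail -/
theorem mean_tail {ι : Type} (A : Finset ι) (hA : A.Nonempty) (d : ι → ℝ) (hd : ∀ i ∈ A, 0 ≤ d i)
    {q a c : ℝ} (hq : 0 < q) (ha : Real.log 2 ≤ a) (hc : 0 ≤ c)
    (h : ∀ k : ℕ, 1 ≤ k → ((A.filter (fun i => k * q ≤ d i)).card : ℝ) / A.card ≤
      Real.exp (c - a * k)) :
    (∑ i ∈ A, d i) / A.card ≤ q * (3 + c / a) := by
  have hl2 : 0 < Real.log 2 := Real.log_pos (by norm_num)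
  have ha0 : 0 < a := by linarith
  have hcard : (0 : ℝ) < A.card := by exact_mod_cast Finset.card_pos.2 hA
  obtain ⟨M, hM⟩ : ∃ M : ℕ, ∀ i ∈ A, d i / q ≤ M := by
    obtain ⟨M, hM⟩ := exists_nat_ge (∑ i ∈ A, d i / q)
    refine ⟨M, fun i hi => le_trans ?_ hM⟩
    exact Finset.single_le_sum (f := fun i => d i / q) (fun i hi => div_nonneg (hd i hi) hq.le) hi
  obtain ⟨k1, hk1⟩ : ∃ k1 : ℕ, k1 = ⌈c / a⌉₊ := ⟨_, rfl⟩
  have h1 : c / a ≤ k1 := by rw [hk1]; exact Nat.le_ceil _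
  have h2 : (k1 : ℝ) < c / a + 1 := by
    rw [hk1]
    exact Nat.ceil_lt_add_one (by positivity)
  have h3 : ∀ i ∈ A, d i ≤ q * (1 + k1 + ∑ j ∈ Finset.range M,
      (if ((k1 + (j + 1) : ℕ) : ℝ) * q ≤ d i then (1 : ℝ) else 0)) := by
    intro i hi
    have h4 := le_count (div_nonneg (hd i hi) hq.le) (hM i hi) k1
    have h5 : ∀ j : ℕ, (((k1 + (j + 1) : ℕ) : ℝ) ≤ d i / q ↔
        ((k1 + (j + 1) : ℕ) : ℝ) * q ≤ d i) := fun j => le_div_iff₀ hq
    simp only [h5] at h4
    rw [div_le_iff₀ hq] at h4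
    linarith
  have h4 : ∑ i ∈ A, d i ≤ q * ((1 + k1) * A.card + ∑ j ∈ Finset.range M,
      ((A.filter (fun i => ((k1 + (j + 1) : ℕ) : ℝ) * q ≤ d i)).card : ℝ)) := by
    refine (Finset.sum_le_sum h3).trans (le_of_eq ?_)
    rw [← Finset.mul_sum, Finset.sum_add_distrib, Finset.sum_const, nsmul_eq_mul,
      Finset.sum_comm]
    congr 1
    congr 1
    · ring
    · refine Finset.sum_congr rfl (fun j _ => ?_)
      rw [Finset.sum_boole]
  have h5 : ∑ j ∈ Finset.range M,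
      ((A.filter (fun i => ((k1 + (j + 1) : ℕ) : ℝ) * q ≤ d i)).card : ℝ) ≤ A.card := by
    have h6 : ∀ j ∈ Finset.range M,
        ((A.filter (fun i => ((k1 + (j + 1) : ℕ) : ℝ) * q ≤ d i)).card : ℝ) ≤
        A.card * (1 / 2) ^ (j + 1) := by
      intro j _
      have h7 := h (k1 + (j + 1)) (by omega)
      rw [div_le_iff₀ hcard] at h7
      refine h7.trans ?_
      rw [mul_comm]
      refine mul_le_mul_of_nonneg_left ?_ hcard.le
      have h8 : (1 / 2 : ℝ) ^ (j + 1) = Real.exp (-(((j + 1 : ℕ) : ℝ) * Real.log 2)) := by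
        rw [Real.exp_neg, Real.exp_nat_mul, Real.exp_log (by norm_num), one_div, inv_pow]
      rw [h8]
      refine Real.exp_le_exp.2 ?_
      have h9 : c ≤ a * k1 := by
        have := mul_le_mul_of_nonneg_left h1 ha0.le
        rwa [mul_div_cancel₀ _ ha0.ne'] at this
      have h10 : ((j + 1 : ℕ) : ℝ) * Real.log 2 ≤ ((j + 1 : ℕ) : ℝ) * a :=
        mul_le_mul_of_nonneg_left ha (Nat.cast_nonneg _)
      push_cast at h10 ⊢
      nlinarith
    refine (Finset.sum_le_sum h6).trans ?_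
    rw [← Finset.mul_sum]
    have h7 : ∑ j ∈ Finset.range M, (1 / 2 : ℝ) ^ (j + 1) ≤ 1 := by
      have h8 : ∑ j ∈ Finset.range M, (1 / 2 : ℝ) ^ (j + 1) = 1 - (1 / 2 : ℝ) ^ M := by
        induction M with
        | zero => simp
        | succ M _ =>
          have : ∀ N : ℕ, ∑ j ∈ Finset.range N, (1 / 2 : ℝ) ^ (j + 1) = 1 - (1 / 2 : ℝ) ^ N := by
            intro N
            induction N with
            | zero => simp
            | succ N ih => rw [Finset.sum_range_succ, ih, pow_succ]; ring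
          exact this _
      rw [h8]
      have : (0 : ℝ) < (1 / 2 : ℝ) ^ M := by positivity
      linarith
    exact mul_le_of_le_one_right hcard.le h7
  rw [div_le_iff₀ hcard]
  have h6 : q * ((1 + k1) * A.card + ∑ j ∈ Finset.range M,
      ((A.filter (fun i => ((k1 + (j + 1) : ℕ) : ℝ) * q ≤ d i)).card : ℝ)) ≤
      q * ((1 + k1) * A.card + A.card) := mul_le_mul_of_nonneg_left (by linarith) hq.le
  refine h4.trans (h6.trans ?_)
  have h7 : q * ((1 + k1) * A.card + A.card) = (q * (2 + k1)) * A.card := by ring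
  rw [h7]
  refine mul_le_mul_of_nonneg_right ?_ hcard.le
  exact mul_le_mul_of_nonneg_left (by linarith) hq.le

end Pool.Agent.N932.FL
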