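import Pool.Agent.N932.FL.Scales

/-! # Influence of the past and of side information, for families of conditioned walks -/

set_option autoImplicit false

namespace Pool.Agent.N932.FL

open scoped Classical
open Pool.Agent.N932.RP (kl tv)

variable {P : ℕ → Type} [Sys P]
open Sys (pc)

theorem cn_zero : cnP P 0 = 1 := by
  unfold cnP
  rw [Finset.card_eq_one]
  obtain ⟨ω, hω⟩ := W_ne (P := P) 0
  refine ⟨ω, ?_⟩
  ext η
  rw [Finset.mem_singleton]
  constructor
  · intro hη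
    have h1 := pc_zero_self hη
    have h2 := pc_zero_self hω
    rw [← h1, ← h2]
    exact pc00 _ _
  · rintro rfl
    exact hω

theorem EA_zero {n : ℕ} {A : Finset (P n)} : EA A 0 = 0 := by
  unfold EA
  refine Finset.sum_eq_zero (fun ω hω => ?_)
  have h1 : NA A 0 ω = A.card := by
    unfold NA
    refine Pool.Agent.N932.RP.cl_eq_card (fun η _ => ?_)
    exact pc00 _ _
  have h2 : (0 : ℝ) < A.card := by exact_mod_cast Finset.card_pos.2 ⟨ω, hω⟩
  rw [h1, div_self h2.ne', Real.log_one]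

theorem EA_full {n : ℕ} {A : Finset (P n)} (hA : A ⊆ Sys.W n) (hne : A.Nonempty) :
    A.card * Real.log A.card ≤ EA A n := by
  have h := EA_ge (t := n) hA hne le_rfl
  rw [Nat.sub_self, cn_zero, Nat.cast_one, Real.log_one, sub_zero] at h
  exact h

/-- one conditioned set -/
theorem one_kl {n a r : ℕ} {τ : ℕ → ℕ} {A : Finset (P n)} (hA : A ⊆ Sys.W n) (hne : A.Nonempty)
    (hτ : Monotone τ) (h0 : τ 0 = a) (hr : τ r ≤ n) :
    ∑ ω ∈ A, ∑ j ∈ Finset.range r, kl (Sys.W (P := P) (τ (j + 1) - τ j))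
      (PA A (τ j) (τ (j + 1) - τ j) ω) (GG n a (τ j) (τ (j + 1) - τ j) ω) ≤
      A.card * Real.log (cnP P a * cnP P (n - a) / A.card) := by
  have ha : a ≤ n := by
    have := hτ (Nat.zero_le r)
    omega
  have hge : ∀ j, a ≤ τ j := fun j => by
    rw [← h0]
    exact hτ (Nat.zero_le j)
  have hcA : (0 : ℝ) < A.card := by exact_mod_cast Finset.card_pos.2 hne
  have hca := cnP_pos P a
  have hcb := cnP_pos P (n - a)
  have h1 := window_klA (b := a) (M := n - a) (p := r) (σ := fun j => τ j - a) hA hne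
    (fun i j hij => Nat.sub_le_sub_right (hτ hij) a) (by show τ 0 - a = 0; omega)
    (by show τ r - a ≤ n - a; omega) (by omega)
  have h2 : ∀ ω ∈ A, ∀ j ∈ Finset.range r, kl (Sys.W (P := P) (τ (j + 1) - τ j))
      (PA A (τ j) (τ (j + 1) - τ j) ω) (GG n a (τ j) (τ (j + 1) - τ j) ω) =
      kl (Sys.W (P := P) (τ (j + 1) - a - (τ j - a)))
      (PA A (a + (τ j - a)) (τ (j + 1) - a - (τ j - a)) ω)
      (GQ n a (n - a) (τ j - a) (τ (j + 1) - a - (τ j - a)) ω) := by
    intro ω _ j _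
    have e1 := hge j
    have e2 := hge (j + 1)
    have e3 : τ j ≤ τ (j + 1) := hτ (Nat.le_succ j)
    rw [show τ (j + 1) - a - (τ j - a) = τ (j + 1) - τ j by omega,
      show a + (τ j - a) = τ j by omega]
    rfl
  rw [Finset.sum_congr rfl (fun ω hω => Finset.sum_congr rfl (h2 ω hω))]
  refine h1.trans ?_
  have h3 := EA_full hA hne
  have h4 := EA_le (t := a) hA hne ha
  rw [show a + (n - a) = n by omega, Real.log_div (by positivity) hcA.ne',
    Real.log_mul hca.ne' hcb.ne']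
  linarith

/-- the exponential moment for one conditioned set -/
theorem one_exp {n a r : ℕ} {τ : ℕ → ℕ} {A : Finset (P n)} (hA : A ⊆ Sys.W n) (hne : A.Nonempty)
    (hτ : Monotone τ) (h0 : τ 0 = a) (hr : τ r ≤ n) :
    ∑ ω ∈ A, Real.exp (1 / 4 * ∑ j ∈ Finset.range r, tv (Sys.W (P := P) (τ (j + 1) - τ j))
      (PA A (τ j) (τ (j + 1) - τ j) ω) (GG n a (τ j) (τ (j + 1) - τ j) ω) ^ 2) ≤
      A.card * (cnP P a * cnP P (n - a) / A.card) ^ (1 / 4 : ℝ) := by
  have ha : a ≤ n := by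
    have := hτ (Nat.zero_le r)
    omega
  have hge : ∀ j, a ≤ τ j := fun j => by
    rw [← h0]
    exact hτ (Nat.zero_le j)
  -- the partition extended to the end
  obtain ⟨σ, hσ⟩ : ∃ σ : ℕ → ℕ, σ = fun j => if j ≤ r then τ j - a else n - a := ⟨_, rfl⟩
  have hmono : Monotone σ := by
    intro i j hij
    rw [hσ]
    simp only
    by_cases hj : j ≤ r
    · rw [if_pos hj, if_pos (hij.trans hj)]
      exact Nat.sub_le_sub_right (hτ hij) a
    · rw [if_neg hj]
      split_ifs with hi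
      · have := hτ hi
        omega
      · exact le_rfl
  have hs0 : σ 0 = 0 := by
    rw [hσ]
    simp only
    rw [if_pos (Nat.zero_le r), h0, Nat.sub_self]
  have hsr : σ (r + 1) = n - a := by
    rw [hσ]
    simp only
    rw [if_neg (by omega)]
  have h1 := exp_windows (r := a) (M := n - a) (v := 1) hA hne hmono hs0 hsr (by omega)
  have e0 : n - (a + 1 * (n - a)) = 0 := by omega
  rw [e0, cn_zero, Nat.cast_one, mul_one, pow_one] at h1
  refine le_trans (Finset.sum_le_sum (fun ω _ => ?_)) h1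
  refine Real.exp_le_exp.2 (mul_le_mul_of_nonneg_left ?_ (by norm_num))
  rw [Finset.sum_range_one, zero_mul, add_zero]
  unfold SB
  rw [Finset.sum_range_succ]
  have h3 : ∀ j ∈ Finset.range r, tv (Sys.W (P := P) (τ (j + 1) - τ j))
      (PA A (τ j) (τ (j + 1) - τ j) ω) (GG n a (τ j) (τ (j + 1) - τ j) ω) ^ 2 =
      TVA A a (n - a) (σ j) (σ (j + 1) - σ j) ω ^ 2 := by
    intro j hj
    rw [Finset.mem_range] at hj
    have e1 := hge j
    have e2 := hge (j + 1)
    have e3 : τ j ≤ τ (j + 1) := hτ (Nat.le_succ j)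
    have s1 : σ j = τ j - a := by
      rw [hσ]
      simp only
      rw [if_pos (by omega)]
    have s2 : σ (j + 1) = τ (j + 1) - a := by
      rw [hσ]
      simp only
      rw [if_pos (by omega)]
    unfold TVA
    rw [s1, s2, show τ (j + 1) - a - (τ j - a) = τ (j + 1) - τ j by omega,
      show a + (τ j - a) = τ j by omega]
    rfl
  rw [Finset.sum_congr rfl h3]
  have := sq_nonneg (TVA A a (n - a) (σ r) (σ (r + 1) - σ r) ω)
  linarith

/-- the squared distances of all windows of length `L` after time `a` -/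
theorem one_windows {n a L : ℕ} {A : Finset (P n)} (hL : 1 ≤ L) (haL : a + L ≤ n) {x : ℝ}
    {ω : P n} (h : ∀ s < L, SB A a (n - a) (sig (n - a) L s) ((n - a - s) / L + 2) ω ≤ x) :
    ∑ t ∈ Finset.Icc a (n - L), tv (Sys.W (P := P) L) (PA A t L ω) (GG n a t L ω) ^ 2 ≤
      L * x := by
  have h1 : ∑ t ∈ Finset.Icc a (n - L), tv (Sys.W (P := P) L) (PA A t L ω) (GG n a t L ω) ^ 2 =
      ∑ i ∈ Finset.range (n - a + 1 - L), TVA A a (n - a) i L ω ^ 2 := by
    symm
    refine Finset.sum_nbij' (fun i => a + i) (fun t => t - a) ?_ ?_ ?_ ?_ ?_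
    · intro i hi
      rw [Finset.mem_range] at hi
      rw [Finset.mem_Icc]
      omega
    · intro t ht
      rw [Finset.mem_Icc] at ht
      rw [Finset.mem_range]
      omega
    · intro i _
      show a + i - a = i
      omega
    · intro t ht
      rw [Finset.mem_Icc] at ht
      show a + (t - a) = t
      omega
    · intro i _
      show TVA A a (n - a) i L ω ^ 2 =
        tv (Sys.W (P := P) L) (PA A (a + i) L ω) (GG n a (a + i) L ω) ^ 2
      unfold TVA GG GQ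
      rw [show a + i - a = i by omega]
  rw [h1, sum_residue L (n - a) hL]
  have h2 : ∀ s ∈ Finset.range L, ∑ i ∈ Finset.range ((n - a - s) / L),
      TVA A a (n - a) (s + i * L) L ω ^ 2 ≤ x := by
    intro s hs
    rw [Finset.mem_range] at hs
    exact (S_le_SB (by omega) ω).trans (h s hs)
  refine (Finset.sum_le_sum h2).trans (le_of_eq ?_)
  rw [Finset.sum_const, Finset.card_range, nsmul_eq_mul]

/-- the exponential moment of one `SB` -/
theorem one_SB {n a L s : ℕ} {A : Finset (P n)} (hA : A ⊆ Sys.W n) (hne : A.Nonempty)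
    (hL : 1 ≤ L) (ha : a ≤ n) :
    ∑ ω ∈ A, Real.exp (1 / 4 * SB A a (n - a) (sig (n - a) L s) ((n - a - s) / L + 2) ω) ≤
      A.card * (cnP P a * cnP P (n - a) / A.card) ^ (1 / 4 : ℝ) := by
  have h1 := exp_windows (r := a) (M := n - a) (v := 1) hA hne (sig_mono (n - a) L s) rfl
    (sig_last (M := n - a) (L := L) (s := s) hL) (by omega)
  have e0 : n - (a + 1 * (n - a)) = 0 := by omega
  rw [e0, cn_zero, Nat.cast_one, mul_one, pow_one] at h1
  refine le_trans (Finset.sum_le_sum (fun ω _ => ?_)) h1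
  rw [Finset.sum_range_one, zero_mul, add_zero]

/-! ### families -/

theorem rpow_tangent {x q : ℝ} (hx : 0 ≤ x) (hq : 0 < q) :
    x ^ (1 / 4 : ℝ) ≤ 3 / 4 * q + x / (4 * q ^ 3) := by
  obtain ⟨y, hy⟩ : ∃ y : ℝ, y = x ^ (1 / 4 : ℝ) := ⟨_, rfl⟩
  have hy0 : 0 ≤ y := by rw [hy]; exact Real.rpow_nonneg hx _
  have hy4 : x = y ^ 4 := by
    rw [hy, ← Real.rpow_natCast, ← Real.rpow_mul hx]
    norm_num
  rw [← hy, hy4]
  have h1 : 3 / 4 * q + y ^ 4 / (4 * q ^ 3) - y =
      (y - q) ^ 2 * (y ^ 2 + 2 * q * y + 3 * q ^ 2) / (4 * q ^ 3) := by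
    field_simp
    ring
  have h2 : 0 ≤ (y - q) ^ 2 * (y ^ 2 + 2 * q * y + 3 * q ^ 2) / (4 * q ^ 3) := by positivity
  linarith

theorem fam_rpow {Z : Type} (S : Finset Z) (w : Z → ℝ) (hw : ∀ z ∈ S, 0 < w z) (hS : S.Nonempty)
    {B : ℝ} (hB : 0 < B) :
    ∑ z ∈ S, w z * (B / w z) ^ (1 / 4 : ℝ) ≤
      (∑ z ∈ S, w z) * (B * S.card / ∑ z ∈ S, w z) ^ (1 / 4 : ℝ) := by
  obtain ⟨N, hN⟩ : ∃ N : ℝ, N = ∑ z ∈ S, w z := ⟨_, rfl⟩
  have hN0 : 0 < N := by rw [hN]; exact Finset.sum_pos hw hS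
  have hc : (0 : ℝ) < S.card := by exact_mod_cast Finset.card_pos.2 hS
  obtain ⟨q, hq⟩ : ∃ q : ℝ, q = (B * S.card / N) ^ (1 / 4 : ℝ) := ⟨_, rfl⟩
  have hq0 : 0 < q := by rw [hq]; exact Real.rpow_pos_of_pos (by positivity) _
  have hq4 : q ^ 4 = B * S.card / N := by
    rw [hq, ← Real.rpow_natCast, ← Real.rpow_mul (by positivity)]
    norm_num
  rw [← hN, ← hq]
  have h1 : ∀ z ∈ S, w z * (B / w z) ^ (1 / 4 : ℝ) ≤ w z * (3 / 4 * q) + B / (4 * q ^ 3) := by
    intro z hz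
    have hz0 := hw z hz
    have h2 := mul_le_mul_of_nonneg_left (rpow_tangent (x := B / w z) (by positivity) hq0) hz0.le
    refine h2.trans (le_of_eq ?_)
    field_simp
  refine (Finset.sum_le_sum h1).trans (le_of_eq ?_)
  rw [Finset.sum_add_distrib, ← Finset.sum_mul, ← hN, Finset.sum_const, nsmul_eq_mul]
  have h2 : (S.card : ℝ) * (B / (4 * q ^ 3)) = N * (1 / 4 * q) := by
    have h3 : B * S.card = N * q ^ 4 := by
      rw [hq4]
      field_simp
    have h4 : (S.card : ℝ) * (B / (4 * q ^ 3)) = B * S.card / (4 * q ^ 3) := by ring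
    rw [h4, h3]
    field_simp
  rw [h2]
  ring

theorem fam_log {Z : Type} (S : Finset Z) (w : Z → ℝ) (hw : ∀ z ∈ S, 0 < w z) (hS : S.Nonempty)
    {B : ℝ} (hB : 0 < B) :
    ∑ z ∈ S, w z * Real.log (B / w z) ≤
      (∑ z ∈ S, w z) * Real.log (B * S.card / ∑ z ∈ S, w z) := by
  obtain ⟨N, hN⟩ : ∃ N : ℝ, N = ∑ z ∈ S, w z := ⟨_, rfl⟩
  have hN0 : 0 < N := by rw [hN]; exact Finset.sum_pos hw hS
  have hc : (0 : ℝ) < S.card := by exact_mod_cast Finset.card_pos.2 hS
  rw [← hN]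
  have h1 : ∀ z ∈ S, w z * Real.log (B / w z) ≤
      w z * Real.log (B * S.card / N) + (N / S.card - w z) := by
    intro z hz
    have hz0 := hw z hz
    have h2 := Real.log_le_sub_one_of_pos (show 0 < N / (w z * S.card) by positivity)
    have h3 : Real.log (N / (w z * S.card)) = Real.log (B / w z) - Real.log (B * S.card / N) := by
      rw [← Real.log_div (by positivity) (by positivity)]
      congr 1
      field_simp
    rw [h3] at h2
    have h4 := mul_le_mul_of_nonneg_left h2 hz0.le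
    have h5 : w z * (N / (w z * S.card) - 1) = N / S.card - w z := by
      field_simp
    rw [h5] at h4
    linarith
  refine (Finset.sum_le_sum h1).trans (le_of_eq ?_)
  rw [Finset.sum_add_distrib, ← Finset.sum_mul, ← hN, Finset.sum_sub_distrib, ← hN,
    Finset.sum_const, nsmul_eq_mul, mul_div_cancel₀ _ hc.ne']
  ring

section family

variable {Z : Type} {n : ℕ} {S : Finset Z} {A : Z → Finset (P n)}

/-- **relative entropies** -/
theorem fam_kl (hA : ∀ z ∈ S, A z ⊆ Sys.W n) (hne : ∀ z ∈ S, (A z).Nonempty) (hS : S.Nonempty)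
    {a r : ℕ} {τ : ℕ → ℕ} (hτ : Monotone τ) (h0 : τ 0 = a) (hr : τ r ≤ n) :
    ∑ z ∈ S, ∑ ω ∈ A z, ∑ j ∈ Finset.range r, kl (Sys.W (P := P) (τ (j + 1) - τ j))
      (PA (A z) (τ j) (τ (j + 1) - τ j) ω) (GG n a (τ j) (τ (j + 1) - τ j) ω) ≤
      (∑ z ∈ S, ((A z).card : ℝ)) *
        Real.log (cnP P a * cnP P (n - a) * S.card / ∑ z ∈ S, ((A z).card : ℝ)) := by
  refine (Finset.sum_le_sum (fun z hz => one_kl (hA z hz) (hne z hz) hτ h0 hr)).trans ?_
  exact fam_log S (fun z => ((A z).card : ℝ))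
    (fun z hz => by exact_mod_cast Finset.card_pos.2 (hne z hz)) hS
    (mul_pos (cnP_pos P a) (cnP_pos P (n - a)))

/-- **exponential moment** -/
theorem fam_exp (hA : ∀ z ∈ S, A z ⊆ Sys.W n) (hne : ∀ z ∈ S, (A z).Nonempty) (hS : S.Nonempty)
    {a r : ℕ} {τ : ℕ → ℕ} (hτ : Monotone τ) (h0 : τ 0 = a) (hr : τ r ≤ n) :
    ∑ z ∈ S, ∑ ω ∈ A z, Real.exp (1 / 4 * ∑ j ∈ Finset.range r,
      tv (Sys.W (P := P) (τ (j + 1) - τ j))
      (PA (A z) (τ j) (τ (j + 1) - τ j) ω) (GG n a (τ j) (τ (j + 1) - τ j) ω) ^ 2) ≤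
      (∑ z ∈ S, ((A z).card : ℝ)) *
        (cnP P a * cnP P (n - a) * S.card / ∑ z ∈ S, ((A z).card : ℝ)) ^ (1 / 4 : ℝ) := by
  refine (Finset.sum_le_sum (fun z hz => one_exp (hA z hz) (hne z hz) hτ h0 hr)).trans ?_
  exact fam_rpow S (fun z => ((A z).card : ℝ))
    (fun z hz => by exact_mod_cast Finset.card_pos.2 (hne z hz)) hS
    (mul_pos (cnP_pos P a) (cnP_pos P (n - a)))

theorem fam_SB (hA : ∀ z ∈ S, A z ⊆ Sys.W n) (hne : ∀ z ∈ S, (A z).Nonempty) (hS : S.Nonempty)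
    {a L s : ℕ} (hL : 1 ≤ L) (ha : a ≤ n) {lr : ℝ}
    (hlr : Real.log (cnP P a * cnP P (n - a) * S.card / ∑ z ∈ S, ((A z).card : ℝ)) ≤ lr)
    (y : ℝ) :
    ∑ z ∈ S, (((A z).filter (fun ω => lr + 4 * y <
      SB (A z) a (n - a) (sig (n - a) L s) ((n - a - s) / L + 2) ω)).card : ℝ) ≤
      Real.exp (-y) * ∑ z ∈ S, ((A z).card : ℝ) := by
  have hN0 : 0 < ∑ z ∈ S, ((A z).card : ℝ) :=
    Finset.sum_pos (fun z hz => by exact_mod_cast Finset.card_pos.2 (hne z hz)) hS
  obtain ⟨N, hN⟩ : ∃ N : ℝ, N = ∑ z ∈ S, ((A z).card : ℝ) := ⟨_, rfl⟩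
  rw [← hN] at hN0 hlr ⊢
  have hca := cnP_pos P a
  have hcb := cnP_pos P (n - a)
  have hc : (0 : ℝ) < S.card := by exact_mod_cast Finset.card_pos.2 hS
  have h1 : ∑ z ∈ S, ∑ ω ∈ A z, Real.exp (1 / 4 * SB (A z) a (n - a) (sig (n - a) L s)
      ((n - a - s) / L + 2) ω) ≤
      N * (cnP P a * cnP P (n - a) * S.card / N) ^ (1 / 4 : ℝ) := by
    refine (Finset.sum_le_sum (fun z hz => one_SB (hA z hz) (hne z hz) hL ha)).trans ?_
    rw [hN]
    exact fam_rpow S (fun z => ((A z).card : ℝ))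
      (fun z hz => by exact_mod_cast Finset.card_pos.2 (hne z hz)) hS (mul_pos hca hcb)
  have h2 : Real.exp (y + 1 / 4 * lr) * ∑ z ∈ S, (((A z).filter (fun ω => lr + 4 * y <
      SB (A z) a (n - a) (sig (n - a) L s) ((n - a - s) / L + 2) ω)).card : ℝ) ≤
      ∑ z ∈ S, ∑ ω ∈ A z, Real.exp (1 / 4 * SB (A z) a (n - a) (sig (n - a) L s)
      ((n - a - s) / L + 2) ω) := by
    rw [Finset.mul_sum]
    refine Finset.sum_le_sum (fun z _ => ?_)
    rw [mul_comm, ← nsmul_eq_mul, ← Finset.sum_const]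
    refine (Finset.sum_le_sum (fun ω hω => ?_)).trans
      (Finset.sum_le_sum_of_subset_of_nonneg (Finset.filter_subset _ _)
        (fun ω _ _ => (Real.exp_pos _).le))
    rw [Finset.mem_filter] at hω
    refine Real.exp_le_exp.2 ?_
    linarith [hω.2]
  have h3 : (cnP P a * cnP P (n - a) * S.card / N) ^ (1 / 4 : ℝ) ≤ Real.exp (1 / 4 * lr) := by
    rw [Real.rpow_def_of_pos (by positivity)]
    refine Real.exp_le_exp.2 ?_
    linarith
  have h4 := h2.trans (h1.trans (mul_le_mul_of_nonneg_left h3 hN0.le))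
  rw [Real.exp_add, mul_assoc, mul_comm (Real.exp (1 / 4 * lr)), ← mul_assoc] at h4
  have h5 := Real.exp_pos (1 / 4 * lr)
  have h6 := le_of_mul_le_mul_right h4 h5
  rw [Real.exp_neg, inv_mul_eq_div, le_div_iff₀ (Real.exp_pos y), mul_comm]
  exact h6

/-- **all windows simultaneously** -/
theorem fam_windows (hA : ∀ z ∈ S, A z ⊆ Sys.W n) (hne : ∀ z ∈ S, (A z).Nonempty)
    (hS : S.Nonempty) (hn : 1 ≤ n) {R : ℝ}
    (hR : ∀ a, a ≤ n →
      Real.log (cnP P a * cnP P (n - a) * S.card / ∑ z ∈ S, ((A z).card : ℝ)) ≤ R) (x : ℝ) :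
    ∑ z ∈ S, (((A z).filter (fun ω => ¬ ∀ a L : ℕ, 1 ≤ L → a + L ≤ n →
      ∑ t ∈ Finset.Icc a (n - L), tv (Sys.W (P := P) L) (PA (A z) t L ω) (GG n a t L ω) ^ 2 ≤
        L * (R + 12 * Real.log n + 4 * x))).card : ℝ) ≤
      Real.exp (-x) * ∑ z ∈ S, ((A z).card : ℝ) := by
  have hn0 : (0 : ℝ) < n := by exact_mod_cast hn
  obtain ⟨y, hy⟩ : ∃ y, y = x + 3 * Real.log n := ⟨_, rfl⟩
  obtain ⟨N, hN⟩ : ∃ N : ℝ, N = ∑ z ∈ S, ((A z).card : ℝ) := ⟨_, rfl⟩
  have h1 : ∀ z ∈ S, (((A z).filter (fun ω => ¬ ∀ a L : ℕ, 1 ≤ L → a + L ≤ n →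
      ∑ t ∈ Finset.Icc a (n - L), tv (Sys.W (P := P) L) (PA (A z) t L ω) (GG n a t L ω) ^ 2 ≤
        L * (R + 12 * Real.log n + 4 * x))).card : ℝ) ≤
      ∑ p ∈ (Finset.range n ×ˢ (Finset.range n ×ˢ Finset.range n)),
        (((A z).filter (fun ω => R + 4 * y < SB (A z) p.1 (n - p.1)
          (sig (n - p.1) (p.2.1 + 1) p.2.2) ((n - p.1 - p.2.2) / (p.2.1 + 1) + 2) ω)).card : ℝ) := by
    intro z _
    have hsub : (A z).filter (fun ω => ¬ ∀ a L : ℕ, 1 ≤ L → a + L ≤ n →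
      ∑ t ∈ Finset.Icc a (n - L), tv (Sys.W (P := P) L) (PA (A z) t L ω) (GG n a t L ω) ^ 2 ≤
        L * (R + 12 * Real.log n + 4 * x)) ⊆
      (Finset.range n ×ˢ (Finset.range n ×ˢ Finset.range n)).biUnion (fun p =>
        (A z).filter (fun ω => R + 4 * y < SB (A z) p.1 (n - p.1)
          (sig (n - p.1) (p.2.1 + 1) p.2.2) ((n - p.1 - p.2.2) / (p.2.1 + 1) + 2) ω)) := by
      intro ω hω
      rw [Finset.mem_filter] at hω
      obtain ⟨hω, hbad⟩ := hω
      by_contra hcon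
      apply hbad
      intro a L hL haL
      have h2 : R + 12 * Real.log n + 4 * x = R + 4 * y := by rw [hy]; ring
      rw [h2]
      refine one_windows hL haL (fun s hs => ?_)
      by_contra h3
      push Not at h3
      apply hcon
      rw [Finset.mem_biUnion]
      refine ⟨(a, (L - 1, s)), ?_, ?_⟩
      · rw [Finset.mem_product, Finset.mem_product]
        simp only [Finset.mem_range]
        omega
      · rw [Finset.mem_filter]
        refine ⟨hω, ?_⟩
        show R + 4 * y < SB (A z) a (n - a)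
          (sig (n - a) (L - 1 + 1) s) ((n - a - s) / (L - 1 + 1) + 2) ω
        rw [show L - 1 + 1 = L by omega]
        exact h3
    exact_mod_cast (Finset.card_le_card hsub).trans Finset.card_biUnion_le
  refine (Finset.sum_le_sum h1).trans ?_
  rw [Finset.sum_comm]
  have h2 : ∀ p ∈ (Finset.range n ×ˢ (Finset.range n ×ˢ Finset.range n)),
      ∑ z ∈ S, (((A z).filter (fun ω => R + 4 * y < SB (A z) p.1 (n - p.1)
          (sig (n - p.1) (p.2.1 + 1) p.2.2) ((n - p.1 - p.2.2) / (p.2.1 + 1) + 2) ω)).card : ℝ) ≤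
      Real.exp (-y) * N := by
    intro p hp
    rw [Finset.mem_product, Finset.mem_range] at hp
    rw [hN]
    exact fam_SB hA hne hS (by omega) hp.1.le (hR _ hp.1.le) y
  refine (Finset.sum_le_sum h2).trans (le_of_eq ?_)
  rw [Finset.sum_const, Finset.card_product, Finset.card_product, Finset.card_range, nsmul_eq_mul,
    hy, neg_add, Real.exp_add, ← hN]
  have e : Real.exp (-(3 * Real.log n)) = ((n : ℝ) * (n * n))⁻¹ := by
    rw [Real.exp_neg]
    congr 1
    rw [show 3 * Real.log (n : ℝ) = Real.log (n * (n * n) : ℝ) by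
      rw [Real.log_mul hn0.ne' (by positivity), Real.log_mul hn0.ne' hn0.ne']; ring]
    exact Real.exp_log (by positivity)
  rw [e]
  push_cast
  field_simp

end family

end Pool.Agent.N932.FL
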