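import Pool.Agent.N932.FL.Lat

/-! # The results for conditioned self-avoiding walks on a lattice -/

set_option autoImplicit false

namespace Pool.Agent.N932.FL

open scoped Classical

section defs

variable {V : Type} [AddCommGroup V]

/-- mean under the uniform probability measure on `A` -/
noncomputable def gmean {n : ℕ} (A : Set (Fin (n + 1) → V)) (f : (Fin (n + 1) → V) → ℝ) : ℝ :=
  (∑ᶠ ω ∈ A, f ω) / A.ncard

/-- probability under the uniform probability measure on `A` -/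
noncomputable def gprob {n : ℕ} (A B : Set (Fin (n + 1) → V)) : ℝ :=
  gmean A (fun ω => if ω ∈ B then 1 else 0)

noncomputable def Lat.cont (L : Lat V) {N : ℕ} (A : Set (Fin (N + 1) → V)) (i l : ℕ)
    (u : Fin (i + 1) → V) (ζ : Fin (l + 1) → V) : ℝ :=
  (({η ∈ A | L.piece 0 i η = u ∧ L.piece i l η = ζ}).ncard : ℝ) /
    (({η ∈ A | L.piece 0 i η = u}).ncard : ℝ)

noncomputable def Lat.growth (L : Lat V) {n : ℕ} (A : Set (Fin (n + 1) → V)) (t l : ℕ)
    (ω : Fin (n + 1) → V) (ζ : Fin (l + 1) → V) : ℝ :=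
  L.cont A t l (L.piece 0 t ω) ζ

noncomputable def Lat.kernel (L : Lat V) (M l : ℕ) (v : Fin (M + 1) → V) (ζ : Fin (l + 1) → V) :
    ℝ :=
  (∑ i ∈ Finset.range (M + 1 - l), L.cont (L.walks M) i l (L.piece (M - i) i v) ζ) /
    ((M + 1 - l : ℕ) : ℝ)

noncomputable def Lat.KL (L : Lat V) {n : ℕ} (A : Set (Fin (n + 1) → V)) (M l t : ℕ)
    (ω : Fin (n + 1) → V) : ℝ :=
  ∑ᶠ ζ ∈ L.walks l, L.growth A t l ω ζ *
    Real.log (L.growth A t l ω ζ / L.kernel M l (L.piece (t - M) M ω) ζ)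

noncomputable def Lat.TV (L : Lat V) {n : ℕ} (A : Set (Fin (n + 1) → V)) (M l t : ℕ)
    (ω : Fin (n + 1) → V) : ℝ :=
  1 / 2 * ∑ᶠ ζ ∈ L.walks l, |L.growth A t l ω ζ - L.kernel M l (L.piece (t - M) M ω) ζ|

end defs

section

variable {V : Type} [AddCommGroup V]

theorem gmean_eq {n : ℕ} (A : Finset (Fin (n + 1) → V)) (f : (Fin (n + 1) → V) → ℝ) :
    gmean (A : Set (Fin (n + 1) → V)) f = (∑ ω ∈ A, f ω) / A.card := by
  unfold gmean
  rw [Set.ncard_coe_finset, finsum_mem_coe_finset]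

theorem Lat.walks_eq (L : Lat V) (n : ℕ) : (L.walks n : Set (SP V n)) = (L.W n : Set (SP V n)) :=
  (L.coe_W n).symm

theorem Lat.finsum_walks (L : Lat V) (l : ℕ) (f : (Fin (l + 1) → V) → ℝ) :
    ∑ᶠ ζ ∈ L.walks l, f ζ = ∑ ζ ∈ L.W l, f ζ :=
  finsum_mem_eq_finite_toFinset_sum f (L.finite l)

theorem gprob_le {n : ℕ} (A : Finset (Fin (n + 1) → V)) (B : Set (Fin (n + 1) → V))
    (Q : (Fin (n + 1) → V) → Prop) [DecidablePred Q] (h : ∀ ω ∈ A, ω ∈ B → Q ω) {y : ℝ} (hA : (0 : ℝ) < A.card)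
    (hy : ((A.filter Q).card : ℝ) ≤ y * A.card) : gprob (A : Set (Fin (n + 1) → V)) B ≤ y := by
  unfold gprob
  rw [gmean_eq, div_le_iff₀ hA]
  refine le_trans ?_ hy
  rw [Finset.card_filter]
  push_cast
  refine Finset.sum_le_sum (fun ω hω => ?_)
  by_cases hB : ω ∈ B
  · rw [if_pos hB, if_pos (h ω hω hB)]
  · rw [if_neg hB]
    split_ifs
    · exact zero_le_one
    · exact le_rfl

theorem Lat.cont_eqA (L : Lat V) {N i l : ℕ} (A : Finset (SP V N)) (ω : SP V N) (ζ : SP V l) :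
    L.cont (A : Set (SP V N)) i l (L.piece 0 i ω) ζ = @PA (SP V) L.sys N A i l ω ζ := by
  letI := L.sys
  unfold Lat.cont PA Pool.Agent.N932.RP.cond
  rw [Pool.Agent.N932.RP.cl_ncard, Pool.Agent.N932.RP.cl2_ncard]
  rfl

theorem Lat.growth_eq (L : Lat V) {n t l : ℕ} (A : Finset (SP V n)) (ω : SP V n) (ζ : SP V l) :
    L.growth (A : Set (SP V n)) t l ω ζ = @PA (SP V) L.sys n A t l ω ζ := by
  unfold Lat.growth
  rw [L.cont_eqA A]

theorem Lat.kernel_eq (L : Lat V) {n M l t : ℕ} (hL : 1 ≤ l) (hLM : l ≤ M) (hM : M ≤ t)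
    (ω : SP V n) (ζ : SP V l) :
    L.kernel M l (L.piece (t - M) M ω) ζ = @KQ (SP V) L.sys n M l t ω ζ := by
  letI := L.sys
  unfold Lat.kernel KQ
  congr 1
  refine Finset.sum_congr rfl (fun i hi => ?_)
  rw [Finset.mem_range] at hi
  unfold GQ
  have h1 : G0 M i l (Sys.pc (P := SP V) (t - i) M ω) ζ =
    PA (P := SP V) (L.W M) i l (Sys.pc (P := SP V) (t - i) M ω) ζ := rfl
  have h2 : L.piece (M - i) i (L.piece (t - M) M ω) = L.piece 0 i (L.piece (t - i) M ω) := by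
    rw [L.piece_piece ω (by omega), L.piece_piece ω (by omega), add_zero,
      show t - M + (M - i) = t - i by omega]
  rw [h1, h2, ← L.cont_eqA (L.W M), L.coe_W]
  rfl

theorem Lat.KL_eq (L : Lat V) {n M l t : ℕ} (A : Finset (SP V n)) (hL : 1 ≤ l) (hLM : l ≤ M)
    (hM : M ≤ t) (ω : SP V n) :
    L.KL (A : Set (SP V n)) M l t ω =
      Pool.Agent.N932.RP.kl (L.W l) (@PA (SP V) L.sys n A t l ω)
        (@KQ (SP V) L.sys n M l t ω) := by
  unfold Lat.KL Pool.Agent.N932.RP.kl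
  rw [L.finsum_walks]
  refine Finset.sum_congr rfl (fun ζ _ => ?_)
  rw [L.growth_eq A, L.kernel_eq hL hLM hM]

theorem Lat.TV_eq (L : Lat V) {n M l t : ℕ} (A : Finset (SP V n)) (hL : 1 ≤ l) (hLM : l ≤ M)
    (hM : M ≤ t) (ω : SP V n) :
    L.TV (A : Set (SP V n)) M l t ω =
      Pool.Agent.N932.RP.tv (L.W l) (@PA (SP V) L.sys n A t l ω)
        (@KQ (SP V) L.sys n M l t ω) := by
  unfold Lat.TV Pool.Agent.N932.RP.tv
  rw [L.finsum_walks]
  congr 1
  refine Finset.sum_congr rfl (fun ζ _ => ?_)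
  rw [L.growth_eq A, L.kernel_eq hL hLM hM]

/-- bounds for the numbers of walks -/
theorem Lat.bd (L : Lat V) {mu : ℝ} {F : ℕ → ℝ} (h0 : 0 < mu) (hF0 : ∀ n, 0 ≤ F n)
    (hF : Monotone F) (hlow : ∀ n, mu ^ n ≤ ((L.walks n).ncard : ℝ))
    (hup : ∀ n, ((L.walks n).ncard : ℝ) ≤ mu ^ n * Real.exp (F n)) :
    @Bd (SP V) L.sys mu F := by
  letI := L.sys
  refine ⟨h0, hF0, hF, fun n => ?_, fun n => ?_⟩
  · rw [L.card]; exact hlow n
  · rw [L.card]; exact hup n

/-- **conditioned self-avoiding walks have one growth law with finite memory** -/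
theorem Lat.universal (L : Lat V) {mu : ℝ} {F : ℕ → ℝ} (hB : @Bd (SP V) L.sys mu F) {n : ℕ}
    (hn : 2 ≤ n) (A' : Set (Fin (n + 1) → V)) (hA' : A' ⊆ L.walks n) (hne' : A'.Nonempty) (E : ℝ)
    (hE' : Real.exp (-E) * (L.walks n).ncard ≤ A'.ncard) :
    (∀ M l : ℕ, 1 ≤ l → 2 * l ≤ M → M ≤ n →
      ∑ t ∈ Finset.Icc M (n - M), gmean A' (L.KL A' M l t) ≤
        6 * (l / M) * (n * F M + M * E)) ∧
    ∀ x : ℝ, 0 ≤ x →
      gprob A' {ω | ¬ ∀ M l : ℕ, 1 ≤ l → 2 * l ≤ M → M ≤ n →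
        ∑ t ∈ Finset.Icc M (n - M), L.TV A' M l t ω ^ 2 ≤
          128 * (l / M) * (n * (F M + Real.log M) + M * (E + x))} ≤ Real.exp (-x) := by
  letI := L.sys
  have hfin : A'.Finite := (L.finite n).subset hA'
  obtain ⟨A, rfl⟩ : ∃ A : Finset (SP V n), A' = (A : Set (SP V n)) :=
    ⟨hfin.toFinset, hfin.coe_toFinset.symm⟩
  have hA : A ⊆ L.W n := by
    intro ω hω
    exact L.mem_W.2 (hA' hω)
  have hne : A.Nonempty := by
    obtain ⟨ω, hω⟩ := hne'
    exact ⟨ω, hω⟩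
  have hcA : (0 : ℝ) < A.card := by exact_mod_cast Finset.card_pos.2 hne
  have hcn := cnP_pos (SP V) n
  have hcard : ((A : Set (SP V n)).ncard : ℝ) = A.card := by rw [Set.ncard_coe_finset]
  have hE2 : Real.exp (-E) * cnP (SP V) n ≤ A.card := by
    rw [L.card, ← hcard]
    exact hE'
  have hle : (A.card : ℝ) ≤ cnP (SP V) n := by
    unfold cnP
    exact_mod_cast Finset.card_le_card hA
  have hE0 : 0 ≤ E := by
    have h3 : Real.exp (-E) ≤ 1 := by
      by_contra hcon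
      push Not at hcon
      have := mul_lt_mul_of_pos_right hcon hcn
      linarith
    have := Real.exp_le_one_iff.1 h3
    linarith
  have hE : n * Real.log mu - E ≤ Real.log A.card := by
    have h3 := Real.log_le_log (by positivity) hE2
    rw [Real.log_mul (Real.exp_pos _).ne' hcn.ne', Real.log_exp] at h3
    have h4 := hB.logn n
    linarith
  refine ⟨fun M l hl hlM hMn => ?_, fun x hx => ?_⟩
  · have h3 : ∀ t ∈ Finset.Icc M (n - M), gmean (A : Set (SP V n)) (L.KL (A : Set (SP V n)) M l t) =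
        (∑ ω ∈ A, Pool.Agent.N932.RP.kl (L.W l) (@PA (SP V) L.sys n A t l ω)
        (@KQ (SP V) L.sys n M l t ω)) / A.card := by
      intro t ht
      rw [Finset.mem_Icc] at ht
      refine (gmean_eq (V := V) A _).trans ?_
      congr 1
      refine Finset.sum_congr rfl (fun ω _ => ?_)
      exact L.KL_eq A hl (by omega) ht.1 ω
    have h4 := sum_kl_KQ hB hl hlM hMn hA hne hE0 hE
    calc ∑ t ∈ Finset.Icc M (n - M), gmean (A : Set (SP V n)) (L.KL (A : Set (SP V n)) M l t)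
        = (∑ t ∈ Finset.Icc M (n - M), ∑ ω ∈ A, Pool.Agent.N932.RP.kl (L.W l)
            (@PA (SP V) L.sys n A t l ω) (@KQ (SP V) L.sys n M l t ω)) / A.card := by
          rw [Finset.sum_congr rfl h3, ← Finset.sum_div]
      _ ≤ _ := by
          rw [div_le_iff₀ hcA]
          refine h4.trans (le_of_eq ?_)
          ring
  · refine gprob_le (V := V) A _ _ ?_ hcA (all_scales_KQ hB hn hA hne hE0 hE hx)
    intro ω _ hbad hP
    apply hbad
    intro M l hl hlM hMn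
    have h4 : ∀ t ∈ Finset.Icc M (n - M), L.TV (A : Set (SP V n)) M l t ω ^ 2 =
        Pool.Agent.N932.RP.tv (L.W l) (@PA (SP V) L.sys n A t l ω)
      (@KQ (SP V) L.sys n M l t ω) ^ 2 := by
      intro t ht
      rw [Finset.mem_Icc] at ht
      rw [L.TV_eq A hl (by omega) ht.1]
    rw [Finset.sum_congr rfl h4]
    exact hP M l hl hlM hMn

end

end Pool.Agent.N932.FL
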