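import Pool.Agent.N932.FL.Geo
import Pool.Agent.N932.FL.Fam

/-! # Influence of the past and of side information: walks on a lattice -/

set_option autoImplicit false

namespace Pool.Agent.N932.FL

open scoped Classical

section defs

variable {V : Type} [AddCommGroup V]

noncomputable def Lat.free (L : Lat V) {n : ℕ} (a t l : ℕ)
    (ω : Fin (n + 1) → V) (ζ : Fin (l + 1) → V) : ℝ :=
  L.cont (L.walks (n - a)) (t - a) l (L.piece a (t - a) ω) ζ

noncomputable def Lat.KLf (L : Lat V) {n : ℕ} (A : Set (Fin (n + 1) → V)) (a t l : ℕ)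
    (ω : Fin (n + 1) → V) : ℝ :=
  ∑ᶠ ζ ∈ L.walks l, L.growth A t l ω ζ * Real.log (L.growth A t l ω ζ / L.free a t l ω ζ)

noncomputable def Lat.TVf (L : Lat V) {n : ℕ} (A : Set (Fin (n + 1) → V)) (a t l : ℕ)
    (ω : Fin (n + 1) → V) : ℝ :=
  1 / 2 * ∑ᶠ ζ ∈ L.walks l, |L.growth A t l ω ζ - L.free a t l ω ζ|

end defs

variable {V : Type} [AddCommGroup V]

theorem Lat.free_eq (L : Lat V) {n a t l : ℕ} (ht : t ≤ n) (ω : SP V n)
    (ζ : SP V l) : L.free a t l ω ζ = @GG (SP V) L.sys n a t l ω ζ := by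
  let _ := L.sys
  have h1 : GG (P := SP V) n a t l ω ζ =
    PA (P := SP V) (L.W (n - a)) (t - a) l (Sys.pc (P := SP V) a (n - a) ω) ζ := rfl
  have h2 : L.piece a (t - a) ω = L.piece 0 (t - a) (L.piece a (n - a) ω) := by
    rw [L.piece_piece ω (by omega), add_zero]
  rw [h1, ← L.cont_eqA (L.W (n - a)), L.coe_W]
  unfold Lat.free
  rw [h2]
  rfl

theorem Lat.KLf_eq (L : Lat V) {n a t l : ℕ} (A : Finset (SP V n)) (ht : t ≤ n) (ω : SP V n) :
    L.KLf (A : Set (SP V n)) a t l ω =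
      Pool.Agent.N932.RP.kl (L.W l) (@PA (SP V) L.sys n A t l ω)
        (@GG (SP V) L.sys n a t l ω) := by
  unfold Lat.KLf Pool.Agent.N932.RP.kl
  rw [L.finsum_walks]
  refine Finset.sum_congr rfl (fun ζ _ => ?_)
  rw [L.growth_eq A, L.free_eq ht]

theorem Lat.TVf_eq (L : Lat V) {n a t l : ℕ} (A : Finset (SP V n)) (ht : t ≤ n) (ω : SP V n) :
    L.TVf (A : Set (SP V n)) a t l ω =
      Pool.Agent.N932.RP.tv (L.W l) (@PA (SP V) L.sys n A t l ω)
        (@GG (SP V) L.sys n a t l ω) := by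
  unfold Lat.TVf Pool.Agent.N932.RP.tv
  rw [L.finsum_walks]
  congr 1
  refine Finset.sum_congr rfl (fun ζ _ => ?_)
  rw [L.growth_eq A, L.free_eq ht]

/-! ### families -/

section family

variable {Z : Type} {n : ℕ}

/-- the pairs -/
def prs (S : Set Z) (A : Z → Set (Fin (n + 1) → V)) : Set (Z × (Fin (n + 1) → V)) :=
  {p | p.1 ∈ S ∧ p.2 ∈ A p.1}

/-- mean over a finite set -/
noncomputable def smean {ι : Type} (S : Set ι) (f : ι → ℝ) : ℝ := (∑ᶠ p ∈ S, f p) / S.ncard

/-- probability -/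
noncomputable def sprob {ι : Type} (S B : Set ι) : ℝ := smean S (fun p => if p ∈ B then 1 else 0)

theorem prs_eq (S : Finset Z) (A : Z → Finset (Fin (n + 1) → V)) :
    prs (S : Set Z) (fun z => (A z : Set (Fin (n + 1) → V))) =
      ((S.sigma A).map ⟨fun q => (q.1, q.2), fun q q' h => by
        obtain ⟨z, w⟩ := q
        obtain ⟨z', w'⟩ := q'
        simp only [Prod.mk.injEq] at h
        obtain ⟨rfl, rfl⟩ := h
        rfl⟩ : Finset (Z × (Fin (n + 1) → V))) := by
  ext p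
  rw [Finset.mem_coe, Finset.mem_map]
  constructor
  · rintro ⟨h1, h2⟩
    exact ⟨⟨p.1, p.2⟩, Finset.mem_sigma.2 ⟨h1, h2⟩, rfl⟩
  · rintro ⟨q, hq, rfl⟩
    exact Finset.mem_sigma.1 hq

theorem smean_prs (S : Finset Z) (A : Z → Finset (Fin (n + 1) → V))
    (f : Z × (Fin (n + 1) → V) → ℝ) :
    smean (prs (S : Set Z) (fun z => (A z : Set (Fin (n + 1) → V)))) f =
      (∑ z ∈ S, ∑ w ∈ A z, f (z, w)) / ∑ z ∈ S, ((A z).card : ℝ) := by
  unfold smean
  rw [prs_eq, finsum_mem_coe_finset, Set.ncard_coe_finset, Finset.sum_map, Finset.card_map,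
    Finset.sum_sigma, Finset.card_sigma]
  push_cast
  rfl

theorem card_prs (S : Finset Z) (A : Z → Finset (Fin (n + 1) → V)) :
    ((prs (S : Set Z) (fun z => (A z : Set (Fin (n + 1) → V)))).ncard : ℝ) =
      ∑ z ∈ S, ((A z).card : ℝ) := by
  rw [prs_eq, Set.ncard_coe_finset, Finset.card_map, Finset.card_sigma]
  push_cast
  rfl

/-- **relative entropies, exponential moment and all windows, for families of conditioned
walks** -/
theorem Lat.family (L : Lat V) {S' : Set Z} (hSf : S'.Finite) {A' : Z → Set (Fin (n + 1) → V)}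
    (hA' : ∀ z ∈ S', A' z ⊆ L.walks n) (hne' : (prs S' A').Nonempty) :
    (∀ (a r : ℕ) (τ : ℕ → ℕ), Monotone τ → τ 0 = a → τ r ≤ n →
      smean (prs S' A') (fun p => ∑ j ∈ Finset.range r,
        L.KLf (A' p.1) a (τ j) (τ (j + 1) - τ j) p.2) ≤
        Real.log (((L.walks a).ncard : ℝ) * (L.walks (n - a)).ncard * S'.ncard /
          (prs S' A').ncard) ∧
      smean (prs S' A') (fun p => Real.exp (1 / 4 * ∑ j ∈ Finset.range r,
        L.TVf (A' p.1) a (τ j) (τ (j + 1) - τ j) p.2 ^ 2)) ≤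
        (((L.walks a).ncard : ℝ) * (L.walks (n - a)).ncard * S'.ncard /
          (prs S' A').ncard) ^ (1 / 4 : ℝ)) ∧
    (∀ R : ℝ, 1 ≤ n → (∀ a, a ≤ n → Real.log (((L.walks a).ncard : ℝ) *
        (L.walks (n - a)).ncard * S'.ncard / (prs S' A').ncard) ≤ R) → ∀ x : ℝ,
      sprob (prs S' A') {p | ¬ ∀ a l : ℕ, 1 ≤ l → a + l ≤ n →
        ∑ t ∈ Finset.Icc a (n - l), L.TVf (A' p.1) a t l p.2 ^ 2 ≤
          l * (R + 12 * Real.log n + 4 * x)} ≤ Real.exp (-x)) ∧
    ∀ x : ℝ, sprob (prs S' A') {p | ((A' p.1).ncard : ℝ) * S'.ncard <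
      Real.exp (-x) * (prs S' A').ncard} ≤ Real.exp (-x) := by
  let _ := L.sys
  -- pass to finite sets, and drop the empty fibres
  obtain ⟨T, hT⟩ : ∃ T : Finset Z, (T : Set Z) = S' := ⟨hSf.toFinset, hSf.coe_toFinset⟩
  obtain ⟨A, hA⟩ : ∃ A : Z → Finset (SP V n), ∀ z ∈ T, (A z : Set (SP V n)) = A' z := by
    refine ⟨fun z => if h : z ∈ T then
      Set.Finite.toFinset (s := (A' z : Set (Fin (n + 1) → V)))
        ((L.finite n).subset (hA' z (by rw [← hT]; exact h))) else ∅, fun z hz => ?_⟩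
    simp only [dif_pos hz]
    exact Set.Finite.coe_toFinset _
  obtain ⟨S, hS⟩ : ∃ S : Finset Z, S = T.filter (fun z => (A z).Nonempty) := ⟨_, rfl⟩
  have hST : S ⊆ T := by rw [hS]; exact Finset.filter_subset _ _
  have hpr : prs S' A' = prs (S : Set Z) (fun z => ((A z : Set (SP V n)) :
      Set (Fin (n + 1) → V))) := by
    ext p
    constructor
    · rintro ⟨h1, h2⟩
      have h3 : p.1 ∈ T := by rw [← hT] at h1; exact h1
      have h4 : p.2 ∈ (A p.1 : Set (SP V n)) := by rw [hA p.1 h3]; exact h2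
      refine ⟨?_, h4⟩
      rw [hS, Finset.mem_coe, Finset.mem_filter]
      exact ⟨h3, ⟨p.2, h4⟩⟩
    · rintro ⟨h1, h2⟩
      have h3 : p.1 ∈ T := hST h1
      refine ⟨by rw [← hT]; exact h3, ?_⟩
      rw [← hA p.1 h3]
      exact h2
  have hAW : ∀ z ∈ S, A z ⊆ L.W n := by
    intro z hz ω hω
    refine L.mem_W.2 (hA' z (by rw [← hT]; exact hST hz) ?_)
    rw [← hA z (hST hz)]
    exact hω
  have hAne : ∀ z ∈ S, (A z).Nonempty := by
    intro z hz
    rw [hS, Finset.mem_filter] at hz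
    exact hz.2
  have hSne : S.Nonempty := by
    obtain ⟨p, hp⟩ := hne'
    rw [hpr] at hp
    exact ⟨p.1, hp.1⟩
  obtain ⟨N, hN⟩ : ∃ N : ℝ, N = ∑ z ∈ S, ((A z).card : ℝ) := ⟨_, rfl⟩
  have hN0 : 0 < N := by
    rw [hN]
    exact Finset.sum_pos (fun z hz => by exact_mod_cast Finset.card_pos.2 (hAne z hz)) hSne
  have hcard : ((prs S' A').ncard : ℝ) = N := by
    rw [hpr, hN]
    exact card_prs S A
  have hmean : ∀ f : Z × (Fin (n + 1) → V) → ℝ, smean (prs S' A') f =
      (∑ z ∈ S, ∑ w ∈ A z, f (z, w)) / N := by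
    intro f
    rw [hpr, hN]
    exact smean_prs S A f
  have hSS : (S.card : ℝ) ≤ S'.ncard := by
    rw [← hT, Set.ncard_coe_finset]
    exact_mod_cast Finset.card_le_card hST
  have hSc : (0 : ℝ) < S.card := by exact_mod_cast Finset.card_pos.2 hSne
  have hB : ∀ a, (0 : ℝ) < cnP (SP V) a * cnP (SP V) (n - a) * S.card / N ∧
      cnP (SP V) a * cnP (SP V) (n - a) * S.card / N ≤
      ((L.walks a).ncard : ℝ) * (L.walks (n - a)).ncard * S'.ncard / (prs S' A').ncard := by
    intro a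
    have h1 := cnP_pos (SP V) a
    have h2 := cnP_pos (SP V) (n - a)
    refine ⟨by positivity, ?_⟩
    rw [hcard, ← L.card, ← L.card]
    gcongr
  refine ⟨fun a r τ hτ h0 hr => ⟨?_, ?_⟩, fun R hn hR x => ?_, fun x => ?_⟩
  · have h1 := fam_kl hAW hAne hSne hτ h0 hr
    rw [← hN] at h1
    rw [hmean, div_le_iff₀ hN0]
    have h2 : ∑ z ∈ S, ∑ w ∈ A z, ∑ j ∈ Finset.range r,
        L.KLf (A' z) a (τ j) (τ (j + 1) - τ j) w =
        ∑ z ∈ S, ∑ ω ∈ A z, ∑ j ∈ Finset.range r,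
        Pool.Agent.N932.RP.kl (Sys.W (P := SP V) (τ (j + 1) - τ j))
          (PA (A z) (τ j) (τ (j + 1) - τ j) ω) (GG n a (τ j) (τ (j + 1) - τ j) ω) := by
      refine Finset.sum_congr rfl (fun z hz => Finset.sum_congr rfl (fun ω _ =>
        Finset.sum_congr rfl (fun j hj => ?_)))
      rw [Finset.mem_range] at hj
      have h3 : τ j ≤ τ r := hτ hj.le
      rw [← hA z (hST hz)]
      exact L.KLf_eq (A z) (by omega) ω
    refine (le_of_eq h2).trans (h1.trans ?_)
    rw [mul_comm]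
    exact mul_le_mul_of_nonneg_right (Real.log_le_log (hB a).1 (hB a).2) hN0.le
  · have h1 := fam_exp hAW hAne hSne hτ h0 hr
    rw [← hN] at h1
    rw [hmean, div_le_iff₀ hN0]
    have h2 : ∑ z ∈ S, ∑ w ∈ A z, Real.exp (1 / 4 * ∑ j ∈ Finset.range r,
        L.TVf (A' z) a (τ j) (τ (j + 1) - τ j) w ^ 2) =
        ∑ z ∈ S, ∑ ω ∈ A z, Real.exp (1 / 4 * ∑ j ∈ Finset.range r,
        Pool.Agent.N932.RP.tv (Sys.W (P := SP V) (τ (j + 1) - τ j))
          (PA (A z) (τ j) (τ (j + 1) - τ j) ω) (GG n a (τ j) (τ (j + 1) - τ j) ω) ^ 2) := by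
      refine Finset.sum_congr rfl (fun z hz => Finset.sum_congr rfl (fun ω _ => ?_))
      congr 2
      refine Finset.sum_congr rfl (fun j hj => ?_)
      rw [Finset.mem_range] at hj
      have h3 : τ j ≤ τ r := hτ hj.le
      rw [← hA z (hST hz), L.TVf_eq (A z) (by omega) ω]
      rfl
    refine (le_of_eq h2).trans (h1.trans ?_)
    rw [mul_comm]
    exact mul_le_mul_of_nonneg_right
      (Real.rpow_le_rpow (hB a).1.le (hB a).2 (by norm_num)) hN0.le
  · have h1 := fam_windows hAW hAne hSne hn (R := R)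
      (fun a ha => by
        rw [← hN]
        exact (Real.log_le_log (hB a).1 (hB a).2).trans (hR a ha)) x
    rw [← hN] at h1
    unfold sprob
    rw [hmean, div_le_iff₀ hN0]
    refine le_trans (Finset.sum_le_sum (fun z hz => ?_)) h1
    rw [Finset.card_filter]
    push_cast
    refine Finset.sum_le_sum (fun ω _ => ?_)
    by_cases hP : ∀ a l : ℕ, 1 ≤ l → a + l ≤ n →
        ∑ t ∈ Finset.Icc a (n - l), Pool.Agent.N932.RP.tv (Sys.W (P := SP V) l)
          (PA (A z) t l ω) (GG n a t l ω) ^ 2 ≤ l * (R + 12 * Real.log n + 4 * x)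
    · rw [if_neg (not_not.2 hP), if_neg]
      intro hbad
      apply hbad
      intro a l hl hal
      refine le_trans (le_of_eq ?_) (hP a l hl hal)
      refine Finset.sum_congr rfl (fun t ht => ?_)
      rw [Finset.mem_Icc] at ht
      show L.TVf (A' z) a t l ω ^ 2 = _
      rw [← hA z (hST hz), L.TVf_eq (A z) (by omega) ω]
      rfl
    · rw [if_pos hP]
      split_ifs
      · exact le_rfl
      · exact zero_le_one
  · unfold sprob
    rw [hmean, div_le_iff₀ hN0, hcard]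
    have hS0 : (0 : ℝ) < S'.ncard := hSc.trans_le hSS
    have h1 : ∀ z ∈ S, ∑ ω ∈ A z, (if (z, ω) ∈ {p : Z × (Fin (n + 1) → V) |
        ((A' p.1).ncard : ℝ) * S'.ncard < Real.exp (-x) * N} then (1 : ℝ) else 0) ≤
        Real.exp (-x) * N / S'.ncard := by
      intro z hz
      by_cases h : ((A' z).ncard : ℝ) * S'.ncard < Real.exp (-x) * N
      · have h2 : ∀ ω ∈ A z, (if (z, ω) ∈ {p : Z × (Fin (n + 1) → V) |
            ((A' p.1).ncard : ℝ) * S'.ncard < Real.exp (-x) * N} then (1 : ℝ) else 0) = 1 :=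
          fun ω _ => if_pos h
        refine (le_of_eq (Finset.sum_congr rfl h2)).trans ?_
        rw [Finset.sum_const, nsmul_eq_mul, mul_one, le_div_iff₀ hS0]
        have h3 : ((A' z).ncard : ℝ) = (A z).card := by
          rw [← hA z (hST hz)]
          exact congrArg _ (Set.ncard_coe_finset (A z))
        rw [← h3]
        exact h.le
      · have h2 : ∀ ω ∈ A z, (if (z, ω) ∈ {p : Z × (Fin (n + 1) → V) |
            ((A' p.1).ncard : ℝ) * S'.ncard < Real.exp (-x) * N} then (1 : ℝ) else 0) = 0 :=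
          fun ω _ => if_neg h
        refine (le_of_eq (Finset.sum_congr rfl h2)).trans ?_
        rw [Finset.sum_const_zero]
        positivity
    refine (Finset.sum_le_sum h1).trans ?_
    rw [Finset.sum_const, nsmul_eq_mul, mul_div_assoc', div_le_iff₀ hS0]
    have := mul_le_mul_of_nonneg_right hSS (mul_pos (Real.exp_pos (-x)) hN0).le
    linarith

end family

end Pool.Agent.N932.FL
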