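import Pool.Agent.N932.FL.Past

/-! # Influence of the past: one conditioned set -/

set_option autoImplicit false

namespace Pool.Agent.N932.FL

open scoped Classical

variable {V : Type} [AddCommGroup V] {n : ℕ}

theorem smean_unit (A : Finset (Fin (n + 1) → V)) (f : (Fin (n + 1) → V) → ℝ) :
    smean (prs (Set.univ : Set Unit) (fun _ => (A : Set (Fin (n + 1) → V)))) (fun p => f p.2) =
      gmean (A : Set (Fin (n + 1) → V)) f := by
  have h := smean_prs (V := V) (n := n) (Finset.univ : Finset Unit) (fun _ => A)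
    (fun p => f p.2)
  rw [Finset.coe_univ] at h
  rw [h, gmean_eq]
  simp

theorem sprob_unit (A : Finset (Fin (n + 1) → V)) (B : Set (Fin (n + 1) → V)) :
    sprob (prs (Set.univ : Set Unit) (fun _ => (A : Set (Fin (n + 1) → V))))
      {p | p.2 ∈ B} = gprob (A : Set (Fin (n + 1) → V)) B := by
  unfold sprob gprob
  rw [← smean_unit A (fun ω => if ω ∈ B then 1 else 0)]
  rfl

theorem card_unit (A : Finset (Fin (n + 1) → V)) :
    ((prs (Set.univ : Set Unit) (fun _ => (A : Set (Fin (n + 1) → V)))).ncard : ℝ) =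
      (A : Set (Fin (n + 1) → V)).ncard := by
  have h := card_prs (V := V) (n := n) (Finset.univ : Finset Unit) (fun _ => A)
  rw [Finset.coe_univ] at h
  rw [h, Set.ncard_coe_finset]
  simp

/-- **one conditioned set, quasi-polynomial case** -/
theorem Lat.one_sq (L : Lat V) {B : ℝ} (hB : L.Quasi B) {A : Set (Fin (n + 1) → V)}
    (hA : A ⊆ L.walks n) (hne : A.Nonempty) {E : ℝ}
    (hE : Real.exp (-E) * (L.walks n).ncard ≤ A.ncard) (hn : 2 ≤ n) :
    (∀ (a r : ℕ) (τ : ℕ → ℕ), Monotone τ → τ 0 = a → τ r ≤ n →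
      gmean A (fun ω => ∑ j ∈ Finset.range r, L.KLf A a (τ j) (τ (j + 1) - τ j) ω) ≤
        B * Real.log (((min a (n - a) : ℕ) : ℝ) + 1) ^ 2 + E ∧
      gmean A (fun ω => Real.exp (1 / 4 * ∑ j ∈ Finset.range r,
        L.TVf A a (τ j) (τ (j + 1) - τ j) ω ^ 2)) ≤
        Real.exp (1 / 4 * (B * Real.log (((min a (n - a) : ℕ) : ℝ) + 1) ^ 2 + E))) ∧
    ∀ x : ℝ, 0 ≤ x →
      gprob A {ω | ¬ ∀ a l : ℕ, 1 ≤ l → a + l ≤ n →
        ∑ t ∈ Finset.Icc a (n - l), L.TVf A a t l ω ^ 2 ≤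
          (4 * B + 24) * l * (Real.log n ^ 2 + E + x)} ≤ Real.exp (-x) := by
  obtain ⟨F, rfl⟩ : ∃ F : Finset (Fin (n + 1) → V), A = (F : Set (Fin (n + 1) → V)) :=
    ⟨((L.finite n).subset hA).toFinset, ((L.finite n).subset hA).coe_toFinset.symm⟩
  have hne' : (prs (Set.univ : Set Unit) (fun _ => (F : Set (Fin (n + 1) → V)))).Nonempty := by
    obtain ⟨ω, hω⟩ := hne
    exact ⟨((), ω), Set.mem_univ _, hω⟩
  have h1 := L.family_sq (n := n) hB (S' := (Set.univ : Set Unit)) Set.finite_univ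
    (A' := fun _ => (F : Set (Fin (n + 1) → V))) (fun _ _ => hA) hne' (D := E) (by
      rw [card_unit, Set.ncard_univ, Nat.card_unique, Nat.cast_one, one_mul]
      exact hE) hn
  obtain ⟨h2, h3⟩ := h1
  refine ⟨fun a r τ hτ h0 hr => ?_, fun x hx => ?_⟩
  · obtain ⟨h4, h5⟩ := h2 a r τ hτ h0 hr
    rw [← smean_unit F, ← smean_unit F]
    exact ⟨h4, h5⟩
  · rw [← sprob_unit F]
    exact h3 x hx

end Pool.Agent.N932.FL
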