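import Pool.Agent.N932.FL.Rer2
import Pool.Agent.N932.FL.One

/-! # The pieces of a walk given all the rest -/

set_option autoImplicit false

namespace Pool.Agent.N932.FL

open scoped Classical

/-- the walks which may replace the piece with `m` steps after time `s` -/
def Lat.oth {V : Type} [AddCommGroup V] (L : Lat V) {n : ℕ} (s m : ℕ) (S : Finset ℕ)
    (ω : Fin (n + 1) → V) : Set (Fin (m + 1) → V) :=
  (fun η => L.piece s m η) '' (fill (L.walks n) S ω)

theorem Lat.oth_sub {V : Type} [AddCommGroup V] (L : Lat V) {n s m : ℕ} (h : s + m ≤ n)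
    (S : Finset ℕ) (ω : Fin (n + 1) → V) : L.oth s m S ω ⊆ L.walks m := by
  rintro _ ⟨η, hη, rfl⟩
  exact L.mem hη.1 h

theorem Lat.oth_card {V : Type} [AddCommGroup V] (L : Lat V) {n s m : ℕ} (h : s + m ≤ n)
    {S : Finset ℕ} (hS : ∀ i ∈ S, s < i ∧ i ≤ s + m) (ω : Fin (n + 1) → V) :
    (L.oth s m S ω).ncard = (fill (L.walks n) S ω).ncard := by
  unfold Lat.oth
  refine Set.InjOn.ncard_image ?_
  intro η hη η' hη' he
  have he' : L.piece s m η = L.piece s m η' := he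
  funext i
  have hi := i.2
  by_cases hiS : i.1 ∈ S
  · obtain ⟨h1, h2⟩ := hS i.1 hiS
    have hs : xt η s = xt η' s := by
      have hsS : s ∉ S := fun h3 => by
        have := (hS s h3).1
        omega
      rw [xt_eq _ (by omega), xt_eq _ (by omega), hη.2 ⟨s, by omega⟩ hsS,
        hη'.2 ⟨s, by omega⟩ hsS]
    have h3 := congrFun he' ⟨i.1 - s, by omega⟩
    rw [piece_def, piece_def, hs] at h3
    have h4 := sub_left_injective (L.smul_inj h3)
    simp only [show s + (i.1 - s) = i.1 by omega] at h4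
    rw [xt_eq _ (by omega), xt_eq _ (by omega)] at h4
    exact h4
  · rw [hη.2 i hiS, hη'.2 i hiS]

theorem swt_Ioo {n s t : ℕ} (ht : t ≤ n) : (swt n (Finset.Ioo s t)).card ≤ 2 := by
  have h : swt n (Finset.Ioo s t) ⊆ {s + 1, t} := by
    intro i hi
    unfold swt at hi
    rw [Finset.mem_filter, Finset.mem_Icc, Finset.mem_Ioo, Finset.mem_Ioo] at hi
    rw [Finset.mem_insert, Finset.mem_singleton]
    omega
  exact (Finset.card_le_card h).trans Finset.card_le_two

theorem swt_Ioc {n s t : ℕ} (ht : t = n) : (swt n (Finset.Ioc s t)).card ≤ 2 := by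
  have h : swt n (Finset.Ioc s t) ⊆ {s + 1, t} := by
    intro i hi
    unfold swt at hi
    rw [Finset.mem_filter, Finset.mem_Icc, Finset.mem_Ioc, Finset.mem_Ioc] at hi
    rw [Finset.mem_insert, Finset.mem_singleton]
    omega
  exact (Finset.card_le_card h).trans Finset.card_le_two

/-- **the pieces given all the rest** -/
theorem Lat.gibbs (L : Lat (ℤ × ℤ))
    (hb : ∀ x y, L.Adj x y → |y.1 - x.1| ≤ 1 ∧ |y.2 - x.2| ≤ 1) {μ K : ℝ} (hμ : 1 ≤ μ)
    (hlow : ∀ n, μ ^ n ≤ ((L.walks n).ncard : ℝ))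
    (hup : ∀ n, 2 ≤ n → ((L.walks n).ncard : ℝ) ≤ μ ^ n * Real.exp (K * Real.log n ^ 2)) :
    ∃ K2 : ℝ, 0 < K2 ∧ ∀ n : ℕ, 2 ≤ n → ∀ x : ℝ,
      gprob (L.walks n) {ω | ¬ ∀ (s t : ℕ) (S : Finset ℕ), s + 2 ≤ t → t ≤ n →
        (S = Finset.Ioo s t ∨ (t = n ∧ S = Finset.Ioc s t)) →
        Real.exp (-(K2 * Real.log n ^ 2 + x)) * (L.walks (t - s)).ncard ≤
          (L.oth s (t - s) S ω).ncard} ≤ Real.exp (-x) := by
  have hμ0 : 0 < μ := by linarith
  obtain ⟨K1, hK1, h1⟩ := L.reroute_sq hb hμ hup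
  obtain ⟨lm, hlm⟩ : ∃ lm : ℝ, lm = Real.log μ := ⟨_, rfl⟩
  have hlm0 : 0 ≤ lm := by rw [hlm]; exact Real.log_nonneg hμ
  refine ⟨2 * K1 + |K| + 3 * lm, by positivity, fun n hn x => ?_⟩
  have hn2 : (2 : ℝ) ≤ n := by exact_mod_cast hn
  have hl2 : (0.69 : ℝ) < Real.log 2 := by
    have := Real.log_two_gt_d9
    linarith
  have hlog : Real.log 2 ≤ Real.log n := Real.log_le_log (by norm_num) hn2
  have hlog0 : 0.69 < Real.log n := by linarith
  obtain ⟨-, h2⟩ := h1 n hn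
  have h3 := h2 (L.walks n) le_rfl (L.nonempty n) 0 (by
    rw [neg_zero, Real.exp_zero, one_mul]
    exact hlow n) x
  refine le_trans ?_ h3
  rw [gprob_ncard (L.finite n), gprob_ncard (L.finite n)]
  refine div_le_div_of_nonneg_right ?_ (Nat.cast_nonneg _)
  refine Nat.cast_le.2 (Set.ncard_le_ncard ?_ ((L.finite n).subset Set.inter_subset_left))
  rintro ω ⟨hω, hbad⟩
  refine ⟨hω, fun hgood => hbad (fun s t S hst htn hS => ?_)⟩
  -- the set of times
  have hSb : ∀ i ∈ S, s < i ∧ i ≤ s + (t - s) := by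
    intro i hi
    rcases hS with h | ⟨-, h⟩
    · rw [h, Finset.mem_Ioo] at hi
      omega
    · rw [h, Finset.mem_Ioc] at hi
      omega
  have hSn : S ⊆ Finset.Icc 1 n := by
    intro i hi
    have := hSb i hi
    rw [Finset.mem_Icc]
    omega
  have hSne : S.Nonempty := by
    refine ⟨s + 1, ?_⟩
    rcases hS with h | ⟨-, h⟩
    · rw [h, Finset.mem_Ioo]
      omega
    · rw [h, Finset.mem_Ioc]
      omega
  have hsw : (swt n S).card ≤ 2 := by
    rcases hS with h | ⟨h0, h⟩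
    · rw [h]; exact swt_Ioo htn
    · rw [h]; exact swt_Ioc h0
  have hcard : t - s ≤ S.card + 1 := by
    rcases hS with h | ⟨-, h⟩
    · rw [h, Nat.card_Ioo]
      omega
    · rw [h, Nat.card_Ioc]
      omega
  have h4 := hgood S hSn hSne
  rw [← L.oth_card (by omega : s + (t - s) ≤ n) hSb] at h4
  refine le_trans ?_ h4
  -- the number of walks
  have hts : 2 ≤ t - s := by omega
  have h5 := hup (t - s) hts
  have hts2 : (2 : ℝ) ≤ ((t - s : ℕ) : ℝ) := by exact_mod_cast hts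
  have h6 : Real.log ((t - s : ℕ) : ℝ) ^ 2 ≤ Real.log n ^ 2 := by
    refine pow_le_pow_left₀ (Real.log_nonneg (by linarith)) (Real.log_le_log (by linarith) ?_) 2
    exact_mod_cast (by omega : t - s ≤ n)
  have h7 : K * Real.log ((t - s : ℕ) : ℝ) ^ 2 ≤ |K| * Real.log n ^ 2 :=
    (mul_le_mul_of_nonneg_right (le_abs_self K) (sq_nonneg _)).trans
      (mul_le_mul_of_nonneg_left h6 (abs_nonneg K))
  have h8 : μ ^ (t - s) ≤ μ ^ S.card * Real.exp lm := by
    have h9 : μ ^ (t - s) ≤ μ ^ (S.card + 1) := pow_le_pow_right₀ hμ hcard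
    rw [pow_succ] at h9
    rwa [hlm, Real.exp_log hμ0]
  have h9 : lm ≤ 3 * lm * Real.log n ^ 2 := by
    have : (0.47 : ℝ) ≤ Real.log n ^ 2 := by nlinarith
    nlinarith
  have h10 : K1 * ((swt n S).card : ℝ) * Real.log n ^ 2 ≤ 2 * K1 * Real.log n ^ 2 := by
    have h11 : ((swt n S).card : ℝ) ≤ 2 := by exact_mod_cast hsw
    have h12 : 0 ≤ K1 * Real.log n ^ 2 := by positivity
    nlinarith
  calc Real.exp (-((2 * K1 + |K| + 3 * lm) * Real.log n ^ 2 + x)) * (L.walks (t - s)).ncard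
      ≤ Real.exp (-((2 * K1 + |K| + 3 * lm) * Real.log n ^ 2 + x)) *
        (μ ^ (t - s) * Real.exp (K * Real.log ((t - s : ℕ) : ℝ) ^ 2)) :=
        mul_le_mul_of_nonneg_left h5 (Real.exp_pos _).le
    _ ≤ Real.exp (-((2 * K1 + |K| + 3 * lm) * Real.log n ^ 2 + x)) *
        ((μ ^ S.card * Real.exp lm) * Real.exp (|K| * Real.log n ^ 2)) := by
        refine mul_le_mul_of_nonneg_left ?_ (Real.exp_pos _).le
        exact mul_le_mul h8 (Real.exp_le_exp.2 h7) (Real.exp_pos _).le (by positivity)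
    _ = μ ^ S.card * Real.exp (-((2 * K1 + |K| + 3 * lm) * Real.log n ^ 2 + x) + lm +
        |K| * Real.log n ^ 2) := by
        rw [Real.exp_add, Real.exp_add]
        ring
    _ ≤ μ ^ S.card * Real.exp (-(K1 * (swt n S).card * Real.log n ^ 2 + 0 + x)) := by
        refine mul_le_mul_of_nonneg_left (Real.exp_le_exp.2 ?_) (by positivity)
        linarith

end Pool.Agent.N932.FL
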