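import Pool.Agent.N932.FL.IsPath

/-! # The path of the O(1) model: one piece given the rest -/

set_option autoImplicit false

namespace Pool.Agent.N932.FL

open scoped Classical

variable {V : Type}

/-- **one piece** -/
theorem is_pair {Adj : V → V → Prop} (hs : ∀ x y, Adj x y → Adj y x) {x : ℝ} (hx : 0 < x)
    (hx1 : x ≤ 1) {D : Set V} (hD : D.Finite) (hN : 1 ≤ D.ncard) (a b : V) (Z : ℝ) (hZ : 0 ≤ Z)
    (y : ℝ) :
    ∑ᶠ l ∈ trj Adj D a b ∩ {l | ∃ p m q u v, l = p ++ m ++ q ∧ m.head? = some u ∧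
      m.getLast? = some v ∧
      (∑ᶠ l' ∈ trj Adj (cutD D p q) u v, wt Adj x (cutD D p q) l') / CC Adj x (cutD D p q) ∅ ≤
        Real.exp (-y) / (D.ncard : ℝ) ^ 2 * (Z / CC Adj x D ∅)},
      wt Adj x D l ≤ Real.exp (-y) * Z := by
  have hC := CC_pos (Adj := Adj) hx.le hD
  have hC0 : 0 < CC Adj x D ∅ := by linarith
  have hN' : (1 : ℝ) ≤ D.ncard := by exact_mod_cast hN
  have hcf : ∀ p q, (cutD D p q).Finite := fun p q => hD.subset (cutD_sub D p q)
  have hcp : ∀ p q, 0 < CC Adj x (cutD D p q) ∅ := fun p q => by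
    have := CC_pos (Adj := Adj) hx.le (hcf p q)
    linarith
  have hmain := bad_le (Adj := Adj) hD a b (fun l => wt Adj x D l)
    (fun l => wt_nonneg hx.le hD l)
    (fun p q u v => (∑ᶠ l' ∈ trj Adj (cutD D p q) u v, wt Adj x (cutD D p q) l') /
      CC Adj x (cutD D p q) ∅ ≤ Real.exp (-y) / (D.ncard : ℝ) ^ 2 * (Z / CC Adj x D ∅))
    (Real.exp (-y) / (D.ncard : ℝ) ^ 2 * (Z / CC Adj x D ∅))
    (fun p q => x ^ (p.length + q.length) * CC Adj x (cutD D p q) ∅)
    (fun p q => mul_nonneg (by positivity) (hcp p q).le)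
    (by
      intro p q u v _ _ _ _ hQ
      have h1 : ∀ m ∈ trj Adj (cutD D p q) u v, wt Adj x D (p ++ m ++ q) =
          x ^ (p.length + q.length) * wt Adj x (cutD D p q) m := by
        intro m hm
        have h2 := List.length_pos_iff.2 (trj_sall hm).1
        unfold wt
        have h3 : (p ++ m ++ q).length - 1 = (p.length + q.length) + (m.length - 1) := by
          simp only [List.length_append]
          omega
        have h4 : sdf D (p ++ m ++ q) = sdf (cutD D p q) m := by
          ext v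
          simp only [sdf, cutD, Set.mem_ofPred_eq, List.mem_append]
          tauto
        rw [h3, h4, pow_add]
        ring
      have h2 : (trj Adj (cutD D p q) u v).Finite := trj_fin (hcf p q) u v
      rw [finsum_mem_eq_finite_toFinset_sum _ h2] at hQ ⊢
      rw [Finset.sum_congr rfl (fun m hm => h1 m (by
        rw [Set.Finite.mem_toFinset] at hm
        exact hm)), ← Finset.mul_sum]
      rw [div_le_iff₀ (hcp p q)] at hQ
      have h3 := mul_le_mul_of_nonneg_left hQ
        (by positivity : (0 : ℝ) ≤ x ^ (p.length + q.length))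
      refine h3.trans (le_of_eq ?_)
      ring)
    (by positivity)
  refine hmain.trans ?_
  have h1 : ∀ α ∈ strt Adj D a, ∑ᶠ β ∈ ends Adj D b,
      (if (∀ x ∈ α, x ∉ β.tail) ∧ (∀ x ∈ β, x ∉ α.dropLast) then
        x ^ (α.dropLast.length + β.tail.length) * CC Adj x (cutD D α.dropLast β.tail) ∅
        else 0) ≤ D.ncard * (x ^ (α.length - 1) * CC Adj x (sdf D α.dropLast) ∅) := by
    intro α hα
    have hDa : (sdf D α.dropLast).Finite := hD.subset (sdf_sub D _)
    rw [finsum_mem_eq_finite_toFinset_sum _ (ends_fin hD b), ← Finset.sum_filter]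
    have h2 := peel_ends hs hx.le hx1 hDa b
    rw [finsum_mem_eq_finite_toFinset_sum _ (ends_fin hDa b)] at h2
    have h3 : ((sdf D α.dropLast).ncard : ℝ) ≤ D.ncard := by
      exact_mod_cast Set.ncard_le_ncard (sdf_sub D _) hD
    have h4 : 0 ≤ CC Adj x (sdf D α.dropLast) ∅ := CC_nonneg hx.le hDa _
    have h5 : ∑ β ∈ (ends_fin (Adj := Adj) hD b).toFinset.filter
        (fun β => (∀ x ∈ α, x ∉ β.tail) ∧ (∀ x ∈ β, x ∉ α.dropLast)),
        x ^ (α.dropLast.length + β.tail.length) * CC Adj x (cutD D α.dropLast β.tail) ∅ ≤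
        x ^ (α.length - 1) * ∑ β ∈ (ends_fin (Adj := Adj) hDa b).toFinset,
          x ^ (β.length - 1) * CC Adj x (sdf (sdf D α.dropLast) β.tail) ∅ := by
      rw [Finset.mul_sum]
      have h6 : ∀ β ∈ (ends_fin (Adj := Adj) hD b).toFinset.filter
          (fun β => (∀ x ∈ α, x ∉ β.tail) ∧ (∀ x ∈ β, x ∉ α.dropLast)),
          x ^ (α.dropLast.length + β.tail.length) * CC Adj x (cutD D α.dropLast β.tail) ∅ =
          x ^ (α.length - 1) *
            (x ^ (β.length - 1) * CC Adj x (sdf (sdf D α.dropLast) β.tail) ∅) := by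
        intro β _
        rw [List.length_dropLast, List.length_tail, pow_add]
        have h7 : cutD D α.dropLast β.tail = sdf (sdf D α.dropLast) β.tail := by
          ext v
          simp only [sdf, cutD, Set.mem_ofPred_eq]
          tauto
        rw [h7]
        ring
      rw [Finset.sum_congr rfl h6]
      refine Finset.sum_le_sum_of_subset_of_nonneg (fun β hβ => ?_) (fun β _ _ => ?_)
      · rw [Finset.mem_filter, Set.Finite.mem_toFinset] at hβ
        rw [Set.Finite.mem_toFinset]
        obtain ⟨⟨h8, h9, h10, h11⟩, _, h12⟩ := hβ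
        exact ⟨h8, h9, h10, fun v hv => ⟨h11 v hv, h12 v hv⟩⟩
      · exact mul_nonneg (by positivity) (wnn hx.le hDa _ _)
    refine h5.trans ?_
    have h6 := mul_le_mul_of_nonneg_left h2 (by positivity : (0 : ℝ) ≤ x ^ (α.length - 1))
    refine h6.trans ?_
    have h7 := mul_le_mul_of_nonneg_right h3 h4
    have h8 := mul_le_mul_of_nonneg_left h7 (by positivity : (0 : ℝ) ≤ x ^ (α.length - 1))
    refine h8.trans (le_of_eq ?_)
    ring
  have h2 : ∑ᶠ α ∈ strt Adj D a, ∑ᶠ β ∈ ends Adj D b,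
      (if (∀ x ∈ α, x ∉ β.tail) ∧ (∀ x ∈ β, x ∉ α.dropLast) then
        x ^ (α.dropLast.length + β.tail.length) * CC Adj x (cutD D α.dropLast β.tail) ∅
        else 0) ≤ (D.ncard : ℝ) ^ 2 * CC Adj x D ∅ := by
    rw [finsum_mem_eq_finite_toFinset_sum _ (strt_fin hD a)]
    refine (Finset.sum_le_sum (fun α hα => h1 α (by
      rw [Set.Finite.mem_toFinset] at hα
      exact hα))).trans ?_
    rw [← Finset.mul_sum]
    have h3 := peel_strt (Adj := Adj) hx.le hx1 hD a
    rw [finsum_mem_eq_finite_toFinset_sum _ (strt_fin hD a)] at h3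
    have h4 := mul_le_mul_of_nonneg_left h3 (by positivity : (0 : ℝ) ≤ (D.ncard : ℝ))
    refine h4.trans (le_of_eq ?_)
    ring
  have h3 : 0 ≤ Real.exp (-y) / (D.ncard : ℝ) ^ 2 * (Z / CC Adj x D ∅) := by positivity
  refine (mul_le_mul_of_nonneg_left h2 h3).trans (le_of_eq ?_)
  have h4 : (0 : ℝ) < D.ncard := by linarith
  field_simp

end Pool.Agent.N932.FL
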