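import Pool.Agent.N932.FL.Peel2
import Pool.Agent.N932.FL.Crit

/-! # The path of the O(1) model: the part which remains -/

set_option autoImplicit false

namespace Pool.Agent.N932.FL

open scoped Classical

section defs

variable {V : Type}

/-- the lists of paths which can be peeled off one after the other -/
def chOK (Adj : V → V → Prop) : Set V → List (List V) → Prop
  | _, [] => True
  | D, α :: A => α ∈ sall Adj D ∧ chOK Adj (sdf D α.tail.dropLast) A

/-- what remains -/
def rst : Set V → List (List V) → Set V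
  | D, [] => D
  | D, α :: A => rst (sdf D α.tail.dropLast) A

/-- the vertices which are in none of the pieces `p_i` -/
def out (D : Set V) (p : List V) (L : List (List V × List V)) : Set V :=
  {v | v ∈ D ∧ v ∉ p ∧ ∀ s ∈ L, v ∉ s.2}

/-- the weight of a path -/
noncomputable def wt (Adj : V → V → Prop) (x : ℝ) (D : Set V) (l : List V) : ℝ :=
  x ^ (l.length - 1) * CC Adj x (sdf D l) ∅

end defs

variable {V : Type}

theorem prod_pow1 (x : ℝ) (A : List (List V)) :
    (A.map (fun α => x ^ (α.length - 1))).prod = x ^ (A.map (fun α => α.length - 1)).sum := by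
  induction A with
  | nil => simp
  | cons α A ih => simp [ih, pow_add]

theorem rst_sub (D : Set V) (A : List (List V)) : rst D A ⊆ D := by
  induction A generalizing D with
  | nil => exact fun _ h => h
  | cons α A ih => exact fun _ h => sdf_sub D _ (ih _ h)

theorem td_sub (p : List V) (u : V) : (p ++ [u]).tail.dropLast = p.tail := by
  cases p with
  | nil => rfl
  | cons x p => simp

theorem ch_of {Adj : V → V → Prop} : ∀ (L : List (List V × List V)) (p : List V) (D : Set V),
    (∀ s ∈ L, s.1 ≠ []) → glue p L ∈ sall Adj D →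
    chOK Adj D (alph p (key L)) ∧
      ∀ v ∈ D, v ∉ p.tail → (∀ s ∈ L, v ∉ s.2) → v ∈ rst D (alph p (key L)) := by
  intro L
  induction L with
  | nil =>
    intro p D _ h
    refine ⟨⟨h, trivial⟩, fun v hv h1 _ => ⟨hv, fun h2 => h1 ?_⟩⟩
    exact List.dropLast_subset _ h2
  | cons s L ih =>
    intro p D hs h
    obtain ⟨u, v, m', m'', h1, h2, h3, h4⟩ := ends_of (hs s (List.mem_cons_self))
    have h5 : alph p (key (s :: L)) = (p ++ [u]) :: alph ([v] ++ s.2) (key L) := by
      simp only [key, List.map_cons, alph, h1, h2, Option.toList_some]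
    have h6 := alph_saw (s :: L) p hs h
    rw [h5] at h6 ⊢
    have hsuf : glue ([v] ++ s.2) L ∈ sall Adj (sdf D (p ++ [u]).tail.dropLast) := by
      rw [glue_append]
      have h7 : [v] ++ glue s.2 L ∈ sall Adj D := by
        refine sall_part h ?_ (by simp)
        refine ⟨p ++ m'', [], ?_⟩
        simp [glue, h4]
      refine ⟨h7.1, h7.2.1, h7.2.2.1, fun w hw => ⟨h7.2.2.2 w hw, ?_⟩⟩
      rw [td_sub]
      intro hwp
      have h8 : w ∈ p := List.mem_of_mem_tail hwp
      have h9 := h.2.1
      have h10 : glue p (s :: L) = p ++ (m'' ++ ([v] ++ glue s.2 L)) := by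
        simp [glue, h4]
      rw [h10] at h9
      exact (List.nodup_append.1 h9).2.2 w h8 w (List.mem_append_right _ hw) rfl
    obtain ⟨h7, h8⟩ := ih ([v] ++ s.2) (sdf D (p ++ [u]).tail.dropLast)
      (fun t ht => hs t (List.mem_cons_of_mem _ ht)) hsuf
    refine ⟨⟨h6 _ List.mem_cons_self, h7⟩, fun w hw hwp hwL => ?_⟩
    refine h8 w ⟨hw, by rw [td_sub]; exact hwp⟩ ?_ (fun t ht => hwL t (List.mem_cons_of_mem _ ht))
    exact hwL s List.mem_cons_self

/-- the sum over the lists of paths -/
theorem sum_ch {Adj : V → V → Prop} {x : ℝ} (hx : 0 ≤ x) (hx1 : x ≤ 1) {D0 : Set V}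
    (hD0 : D0.Finite) {S : Finset (List V)} (hS : (S : Set (List V)) = sall Adj D0) (j : ℕ) :
    ∀ D : Set V, D ⊆ D0 →
      ∑ A ∈ (LL S j).filter (fun A => chOK Adj D A),
        (A.map (fun α => x ^ (α.length - 1))).prod * CC Adj x (rst D A) ∅ ≤
      (D0.ncard : ℝ) ^ (3 * j) * CC Adj x D ∅ := by
  induction j with
  | zero =>
    intro D hD
    have h1 : (LL S 0).filter (fun A => chOK Adj D A) = {[]} := by
      ext A
      simp only [LL, Finset.mem_filter, Finset.mem_singleton]
      constructor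
      · exact fun h => h.1
      · rintro rfl
        exact ⟨rfl, trivial⟩
    rw [h1, Finset.sum_singleton]
    simp [rst]
  | succ j ih =>
    intro D hD
    have hDf : D.Finite := hD0.subset hD
    have hnn : ∀ (A : List (List V)) (D' : Set V), D' ⊆ D → 0 ≤
        (A.map (fun α => x ^ (α.length - 1))).prod * CC Adj x (rst D' A) ∅ := by
      intro A D' hD'
      refine mul_nonneg ?_ (CC_nonneg hx ((hDf.subset hD').subset (rst_sub _ _)) _)
      rw [prod_pow1]
      positivity
    have hsub : (LL S (j + 1)).filter (fun A => chOK Adj D A) ⊆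
        ((sall_fin (Adj := Adj) hDf).toFinset.sigma (fun α =>
          (LL S j).filter (fun A => chOK Adj (sdf D α.tail.dropLast) A))).image
          (fun z : (Σ _ : List V, List (List V)) => z.1 :: z.2) := by
      intro A hA
      rw [Finset.mem_filter, mem_LL] at hA
      obtain ⟨⟨h1, h2⟩, h3⟩ := hA
      cases A with
      | nil => simp at h1
      | cons α A =>
        obtain ⟨h4, h5⟩ := h3
        rw [Finset.mem_image]
        refine ⟨⟨α, A⟩, ?_, rfl⟩
        rw [Finset.mem_sigma, Set.Finite.mem_toFinset, Finset.mem_filter, mem_LL]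
        refine ⟨h4, ⟨by simpa using h1, fun z hz => h2 z (List.mem_cons_of_mem _ hz)⟩, h5⟩
    refine (Finset.sum_le_sum_of_subset_of_nonneg hsub (fun A _ _ =>
      hnn A D (fun _ h => h))).trans ?_
    refine le_trans (sum_image_le _ _ (fun A => hnn A D (fun _ h => h))) ?_
    rw [Finset.sum_sigma]
    have hN : (D.ncard : ℝ) ≤ D0.ncard := by exact_mod_cast Set.ncard_le_ncard hD hD0
    have h1 : ∀ α ∈ (sall_fin (Adj := Adj) hDf).toFinset,
        ∑ A ∈ (LL S j).filter (fun A => chOK Adj (sdf D α.tail.dropLast) A),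
          ((α :: A).map (fun α => x ^ (α.length - 1))).prod * CC Adj x (rst D (α :: A)) ∅ ≤
        (D0.ncard : ℝ) ^ (3 * j) *
          (x ^ (α.length - 1) * CC Adj x (sdf D α.tail.dropLast) ∅) := by
      intro α _
      have h2 := ih (sdf D α.tail.dropLast) (fun v hv => hD (sdf_sub D _ hv))
      have h3 : (0 : ℝ) ≤ x ^ (α.length - 1) := by positivity
      have h4 := mul_le_mul_of_nonneg_left h2 h3
      rw [Finset.mul_sum] at h4
      calc ∑ A ∈ (LL S j).filter (fun A => chOK Adj (sdf D α.tail.dropLast) A),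
          ((α :: A).map (fun α => x ^ (α.length - 1))).prod * CC Adj x (rst D (α :: A)) ∅
          = ∑ A ∈ (LL S j).filter (fun A => chOK Adj (sdf D α.tail.dropLast) A),
            x ^ (α.length - 1) * ((A.map (fun α => x ^ (α.length - 1))).prod *
              CC Adj x (rst (sdf D α.tail.dropLast) A) ∅) := by
            refine Finset.sum_congr rfl (fun A _ => ?_)
            rw [List.map_cons, List.prod_cons, rst]
            ring
        _ ≤ _ := h4
        _ = _ := by ring
    refine (Finset.sum_le_sum h1).trans ?_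
    rw [← Finset.mul_sum]
    have h2 := peel_sall (Adj := Adj) hx hx1 hDf
    rw [finsum_mem_eq_finite_toFinset_sum _ (sall_fin hDf)] at h2
    have h3 : (D.ncard : ℝ) ^ 3 ≤ (D0.ncard : ℝ) ^ 3 :=
      pow_le_pow_left₀ (Nat.cast_nonneg _) hN 3
    have h4 := CC_nonneg (Adj := Adj) hx hDf ∅
    calc (D0.ncard : ℝ) ^ (3 * j) * ∑ α ∈ (sall_fin (Adj := Adj) hDf).toFinset,
          x ^ (α.length - 1) * CC Adj x (sdf D α.tail.dropLast) ∅
        ≤ (D0.ncard : ℝ) ^ (3 * j) * ((D.ncard : ℝ) ^ 3 * CC Adj x D ∅) :=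
          mul_le_mul_of_nonneg_left h2 (by positivity)
      _ ≤ (D0.ncard : ℝ) ^ (3 * j) * ((D0.ncard : ℝ) ^ 3 * CC Adj x D ∅) :=
          mul_le_mul_of_nonneg_left (mul_le_mul_of_nonneg_right h3 h4) (by positivity)
      _ = _ := by
          rw [mul_add, pow_add]
          ring

theorem alphs_sub' {Adj : V → V → Prop} {D : Set V} (hD : D.Finite) {a b : V}
    {S : Finset (List V)} (hS : (S : Set (List V)) = sall Adj D) {A : List (List V)}
    (hA : A ∈ alphs Adj D a b) :
    A ∈ (Finset.range (D.ncard + 1)).biUnion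
      (fun k => (LL S (k + 1)).filter (fun A => chOK Adj D A)) := by
  have h1 := alphs_sub hD hS hA
  rw [Finset.mem_biUnion] at h1 ⊢
  obtain ⟨k, hk, h2⟩ := h1
  obtain ⟨p, L, h3, h4, rfl⟩ := hA
  exact ⟨k, hk, Finset.mem_filter.2 ⟨h2, (ch_of L p D h4 (trj_sall h3)).1⟩⟩

theorem wt_nonneg {Adj : V → V → Prop} {x : ℝ} (hx : 0 ≤ x) {D : Set V} (hD : D.Finite)
    (l : List V) : 0 ≤ wt Adj x D l := wnn hx hD _ _

/-- **all pieces** -/
theorem is_multi {Adj : V → V → Prop} {x : ℝ} (hx : 0 < x) (hx1 : x ≤ 1) {D : Set V}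
    (hD : D.Finite) (hN : 2 ≤ D.ncard) (a b : V) (Z : ℝ) (hZ : 0 ≤ Z) (y : ℝ) :
    ∑ᶠ l ∈ trj Adj D a b ∩ {l | ∃ p M, l = glue p M ∧ (∀ s ∈ M, s.1 ≠ []) ∧
      ∑ᶠ l' ∈ other Adj D a b p M, wt Adj x D l' ≤
        Real.exp (-y) * (1 / (D.ncard : ℝ) ^ (4 * (M.length + 1))) *
          x ^ (l.length - 1 - (M.map (fun s => s.1.length - 1)).sum) *
          (CC Adj x (out D p M) ∅ / CC Adj x D ∅) * Z},
      wt Adj x D l ≤ Real.exp (-y) * Z := by
  have hC := CC_pos (Adj := Adj) hx.le hD
  have hC0 : 0 < CC Adj x D ∅ := by linarith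
  have hN' : (2 : ℝ) ≤ D.ncard := by exact_mod_cast hN
  obtain ⟨W, hW⟩ : ∃ W : List (List V) → ℝ, ∀ A, W A =
      Real.exp (-y) * (1 / (D.ncard : ℝ) ^ (4 * A.length)) *
        (A.map (fun α => x ^ (α.length - 1))).prod * (CC Adj x (rst D A) ∅ / CC Adj x D ∅) * Z :=
    ⟨_, fun _ => rfl⟩
  have hWnn : ∀ A, 0 ≤ W A := by
    intro A
    rw [hW]
    have h1 := CC_nonneg (Adj := Adj) hx.le (hD.subset (rst_sub D A)) ∅
    rw [prod_pow1]
    positivity
  have hmain := multi_le (Adj := Adj) hD a b (fun l => wt Adj x D l)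
    (fun l => wt_nonneg hx.le hD l) W hWnn
  have hf : ∀ S : Set (List V), (trj Adj D a b ∩ S).Finite := fun S =>
    (trj_fin hD a b).subset Set.inter_subset_left
  refine le_trans ?_ (hmain.trans ?_)
  · rw [finsum_mem_eq_finite_toFinset_sum _ (hf _), finsum_mem_eq_finite_toFinset_sum _ (hf _)]
    refine Finset.sum_le_sum_of_subset_of_nonneg ?_ (fun l _ _ => wt_nonneg hx.le hD l)
    intro l hl
    rw [Set.Finite.mem_toFinset] at hl ⊢
    obtain ⟨h1, p, M, h2, h3, h4⟩ := hl
    refine ⟨h1, p, M, h2, h3, h4.trans ?_⟩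
    have h5 : glue p M ∈ sall Adj D := by
      rw [← h2]
      exact trj_sall h1
    have h6 := alph_steps M p h3 h5.1
    have h7 : l.length - 1 - (M.map (fun s => s.1.length - 1)).sum =
        ((alph p (key M)).map (fun α => α.length - 1)).sum := by
      rw [h2]
      omega
    rw [hW, prod_pow1, alph_length, key_length, h7]
    refine mul_le_mul_of_nonneg_right ?_ hZ
    refine mul_le_mul_of_nonneg_left ?_ (by positivity)
    refine div_le_div_of_nonneg_right ?_ hC0.le
    refine CC_mono hx.le (hD.subset (rst_sub D _)) ?_ _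
    rintro v ⟨h8, h9, h10⟩
    exact (ch_of M p D h3 h5).2 v h8 (fun h => h9 (List.mem_of_mem_tail h)) h10
  · obtain ⟨S, hS⟩ : ∃ S : Finset (List V), (S : Set (List V)) = sall Adj D :=
      ⟨(sall_fin hD).toFinset, (sall_fin hD).coe_toFinset⟩
    rw [finsum_mem_eq_finite_toFinset_sum _ (alphs_fin hD a b)]
    calc ∑ A ∈ (alphs_fin hD a b).toFinset, W A
        ≤ ∑ A ∈ (Finset.range (D.ncard + 1)).biUnion
            (fun k => (LL S (k + 1)).filter (fun A => chOK Adj D A)), W A := by
          refine Finset.sum_le_sum_of_subset_of_nonneg (fun A hA => ?_) (fun A _ _ => hWnn A)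
          rw [Set.Finite.mem_toFinset] at hA
          exact alphs_sub' hD hS hA
      _ = ∑ k ∈ Finset.range (D.ncard + 1),
            ∑ A ∈ (LL S (k + 1)).filter (fun A => chOK Adj D A), W A := by
          rw [Finset.sum_biUnion]
          intro i _ j _ hij
          rw [Function.onFun, Finset.disjoint_left]
          intro A h1 h2
          rw [Finset.mem_filter, mem_LL] at h1 h2
          exact hij (by omega)
      _ ≤ ∑ k ∈ Finset.range (D.ncard + 1),
            Real.exp (-y) * Z * (1 / (D.ncard : ℝ)) ^ (k + 1) := by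
          refine Finset.sum_le_sum (fun k _ => ?_)
          have h1 : ∀ A ∈ (LL S (k + 1)).filter (fun A => chOK Adj D A), W A =
              Real.exp (-y) * (1 / (D.ncard : ℝ) ^ (4 * (k + 1))) / CC Adj x D ∅ * Z *
                ((A.map (fun α => x ^ (α.length - 1))).prod * CC Adj x (rst D A) ∅) := by
            intro A hA
            rw [Finset.mem_filter, mem_LL] at hA
            rw [hW, hA.1.1]
            ring
          rw [Finset.sum_congr rfl h1, ← Finset.mul_sum]
          have h2 := sum_ch (Adj := Adj) hx.le hx1 hD hS (k + 1) D (fun _ h => h)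
          have h3 : 0 ≤ Real.exp (-y) * (1 / (D.ncard : ℝ) ^ (4 * (k + 1))) / CC Adj x D ∅ * Z := by
            positivity
          refine (mul_le_mul_of_nonneg_left h2 h3).trans (le_of_eq ?_)
          have h4 : (D.ncard : ℝ) ^ (4 * (k + 1)) =
              (D.ncard : ℝ) ^ (3 * (k + 1)) * (D.ncard : ℝ) ^ (k + 1) := by
            rw [← pow_add]
            congr 1
            ring
          have h5 : (0 : ℝ) < D.ncard := by linarith
          rw [h4, one_div_pow]
          field_simp
      _ = Real.exp (-y) * Z * ∑ k ∈ Finset.range (D.ncard + 1),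
            (1 / (D.ncard : ℝ)) ^ (k + 1) := by
          rw [Finset.mul_sum]
      _ ≤ Real.exp (-y) * Z * 1 := by
          refine mul_le_mul_of_nonneg_left (geom_half _ (by positivity) ?_) (by positivity)
          exact one_div_le_one_div_of_le (by norm_num) hN'
      _ = _ := mul_one _

end Pool.Agent.N932.FL
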