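import Pool.Agent.N932.FL.Scales

/-! # Self-avoiding walks on lattices in abelian groups as a system of paths -/

set_option autoImplicit false

namespace Pool.Agent.N932.FL

open scoped Classical

/-- A graph on an abelian group such that `x ↦ s v • (x - v)` is an automorphism for every `v`. -/
structure Lat (V : Type) [AddCommGroup V] where
  Adj : V → V → Prop
  s : V → ℤ
  s0 : s 0 = 1
  ss : ∀ v, s v * s v = 1
  sw : ∀ v w, s (s v • (w - v)) * s v = s w
  adj : ∀ v x y, Adj x y → Adj (s v • (x - v)) (s v • (y - v))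
  fin : ∀ v, {x | Adj v x}.Finite
  line : ℕ → V
  line0 : line 0 = 0
  lineInj : Function.Injective line
  lineAdj : ∀ k, Adj (line k) (line (k + 1))

variable {V : Type} [AddCommGroup V]

/-- the self-avoiding walks from the origin -/
def Lat.walks (L : Lat V) (n : ℕ) : Set (Fin (n + 1) → V) :=
  {f | f 0 = 0 ∧ Function.Injective f ∧ ∀ i : Fin n, L.Adj (f i.castSucc) (f i.succ)}

/-- the piece with `m` steps which starts at time `i` -/
def Lat.piece (L : Lat V) {n : ℕ} (i m : ℕ) (ω : Fin (n + 1) → V) : Fin (m + 1) → V :=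
  fun k => L.s (ω ⟨min i n, by omega⟩) •
    (ω ⟨min (i + k.1) n, by omega⟩ - ω ⟨min i n, by omega⟩)

/-- paths -/
def SP (V : Type) (n : ℕ) : Type := Fin (n + 1) → V

theorem Lat.finite (L : Lat V) (n : ℕ) : (L.walks n).Finite := by
  have h : ∀ n : ℕ, {f : Fin (n + 1) → V | f 0 = 0 ∧
      ∀ i : Fin n, L.Adj (f i.castSucc) (f i.succ)}.Finite := by
    intro n
    induction n with
    | zero =>
      refine Set.Finite.subset (Set.finite_singleton (fun _ => (0 : V))) ?_
      rintro f ⟨h0, _⟩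
      rw [Set.mem_singleton_iff]
      funext k
      have hk : k = 0 := by
        apply Fin.ext
        have := k.2
        simp only [Fin.val_zero]
        omega
      rw [hk, h0]
    | succ n ih =>
      have h1 : (⋃ g ∈ {f : Fin (n + 1) → V | f 0 = 0 ∧
          ∀ i : Fin n, L.Adj (f i.castSucc) (f i.succ)},
          (fun x => (Fin.snoc (α := fun _ => V) g x : Fin (n + 1 + 1) → V)) ''
            {x | L.Adj (g (Fin.last n)) x}).Finite :=
        ih.biUnion (fun g _ => (L.fin _).image _)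
      refine h1.subset ?_
      rintro f ⟨h0, hf⟩
      rw [Set.mem_iUnion₂]
      refine ⟨fun k => f k.castSucc, ⟨?_, fun i => ?_⟩, f (Fin.last _), ?_, ?_⟩
      · exact h0
      · have := hf i.castSucc
        rwa [Fin.succ_castSucc] at this
      · have := hf (Fin.last n)
        rwa [Fin.succ_last] at this
      · exact Fin.snoc_init_self f
  exact (h n).subset (fun f hf => ⟨hf.1, hf.2.2⟩)

/-- the extended path -/
def xt {n : ℕ} (ω : Fin (n + 1) → V) (i : ℕ) : V := ω ⟨min i n, by omega⟩

theorem xt_eq {n i : ℕ} (ω : Fin (n + 1) → V) (h : i ≤ n) : xt ω i = ω ⟨i, by omega⟩ := by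
  unfold xt
  congr 1
  apply Fin.ext
  show min i n = i
  omega

theorem piece_def (L : Lat V) {n i m : ℕ} (ω : Fin (n + 1) → V) (k : Fin (m + 1)) :
    L.piece i m ω k = L.s (xt ω i) • (xt ω (i + k.1) - xt ω i) := rfl

theorem xt_piece (L : Lat V) {n i m k : ℕ} (ω : Fin (n + 1) → V) (h : k ≤ m) :
    xt (L.piece i m ω) k = L.s (xt ω i) • (xt ω (i + k) - xt ω i) := by
  rw [xt_eq _ h]
  rfl

theorem Lat.smul_inj (L : Lat V) {v x y : V} (h : L.s v • x = L.s v • y) : x = y := by
  have h1 := congrArg (fun z => L.s v • z) h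
  simp only [smul_smul, L.ss, one_smul] at h1
  exact h1

theorem Lat.mem (L : Lat V) {n i m : ℕ} {ω : Fin (n + 1) → V} (h : ω ∈ L.walks n)
    (hi : i + m ≤ n) : L.piece i m ω ∈ L.walks m := by
  obtain ⟨_, h1, h2⟩ := h
  refine ⟨?_, ?_, ?_⟩
  · rw [piece_def]
    show L.s (xt ω i) • (xt ω (i + 0) - xt ω i) = 0
    rw [add_zero, sub_self, smul_zero]
  · intro j k hjk
    rw [piece_def, piece_def] at hjk
    have h3 := L.smul_inj hjk
    have h4 := sub_left_injective h3
    have hj := j.2
    have hk := k.2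
    rw [xt_eq _ (by omega), xt_eq _ (by omega)] at h4
    have h5 := h1 h4
    rw [Fin.mk.injEq] at h5
    apply Fin.ext
    omega
  · intro j
    have hj := j.2
    rw [piece_def, piece_def]
    refine L.adj _ _ _ ?_
    show L.Adj (xt ω (i + j.1)) (xt ω (i + (j.1 + 1)))
    rw [xt_eq _ (by omega), xt_eq _ (by omega)]
    exact h2 ⟨i + j.1, by omega⟩

theorem Lat.piece_piece (L : Lat V) {n i m k l : ℕ} (ω : Fin (n + 1) → V) (h : k + l ≤ m) :
    L.piece k l (L.piece i m ω) = L.piece (i + k) l ω := by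
  funext j
  have hj := j.2
  rw [piece_def, piece_def, xt_piece L ω (by omega), xt_piece L ω (by omega), ← smul_sub, smul_smul,
    L.sw, sub_sub_sub_cancel_right, add_assoc]

theorem Lat.piece_self (L : Lat V) {n : ℕ} {ω : Fin (n + 1) → V} (h : ω ∈ L.walks n) :
    L.piece 0 n ω = ω := by
  funext j
  have hj := j.2
  rw [piece_def, xt_eq _ (Nat.zero_le _), xt_eq _ (by omega)]
  have h0 : ω ⟨0, by omega⟩ = 0 := h.1
  rw [h0, L.s0, one_smul, sub_zero]
  congr 1
  apply Fin.ext
  simp

theorem Lat.piece_inj (L : Lat V) {n a b : ℕ} {ω η : Fin (n + 1) → V} (h : ω ∈ L.walks n)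
    (h' : η ∈ L.walks n) (hab : a + b = n) (h1 : L.piece 0 a ω = L.piece 0 a η)
    (h2 : L.piece a b ω = L.piece a b η) : ω = η := by
  have z1 : xt ω 0 = 0 := by rw [xt_eq _ (Nat.zero_le _)]; exact h.1
  have z2 : xt η 0 = 0 := by rw [xt_eq _ (Nat.zero_le _)]; exact h'.1
  have e1 : ∀ k ≤ a, xt ω k = xt η k := by
    intro k hk
    have h3 := congrFun h1 ⟨k, by omega⟩
    rw [piece_def, piece_def, z1, z2, L.s0, one_smul, one_smul, sub_zero, sub_zero, zero_add] at h3
    exact h3
  have e2 : ∀ k ≤ n, xt ω k = xt η k := by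
    intro k hk
    rcases Nat.le_total k a with hka | hka
    · exact e1 k hka
    · have h3 := congrFun h2 ⟨k - a, by omega⟩
      rw [piece_def, piece_def, e1 a le_rfl] at h3
      have h4 := L.smul_inj h3
      have h5 := sub_left_injective h4
      simp only [show a + (k - a) = k by omega] at h5
      exact h5
  funext k
  have hk := k.2
  have := e2 k.1 (by omega)
  rwa [xt_eq _ (by omega), xt_eq _ (by omega)] at this

theorem Lat.piece00 (L : Lat V) {n m i j : ℕ} (ω : Fin (n + 1) → V) (η : Fin (m + 1) → V) :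
    (L.piece i 0 ω : Fin (0 + 1) → V) = L.piece j 0 η := by
  have h : ∀ {n i : ℕ} (ω : Fin (n + 1) → V), (L.piece i 0 ω : Fin (0 + 1) → V) = fun _ => 0 := by
    intro n i ω
    funext k
    have hk : k = 0 := by
      apply Fin.ext
      have := k.2
      simp only [Fin.val_zero]
      omega
    subst hk
    rw [piece_def]
    show L.s (xt ω i) • (xt ω (i + 0) - xt ω i) = 0
    rw [add_zero, sub_self, smul_zero]
  rw [h, h]

theorem Lat.nonempty (L : Lat V) (n : ℕ) : (L.walks n).Nonempty := by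
  refine ⟨fun k => L.line k.1, L.line0, ?_, fun i => L.lineAdj i.1⟩
  intro j k hjk
  exact Fin.ext (L.lineInj hjk)

/-- the finite set of the walks -/
noncomputable def Lat.W (L : Lat V) (n : ℕ) : Finset (SP V n) :=
  Set.Finite.toFinset (s := (L.walks n : Set (Fin (n + 1) → V))) (L.finite n)

theorem Lat.mem_W (L : Lat V) {n : ℕ} {ω : SP V n} :
    ω ∈ L.W n ↔ (ω : Fin (n + 1) → V) ∈ L.walks n := Set.Finite.mem_toFinset (L.finite n)

theorem Lat.coe_W (L : Lat V) (n : ℕ) :
    (L.W n : Set (SP V n)) = (L.walks n : Set (Fin (n + 1) → V)) := (L.finite n).coe_toFinset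

/-- the system of the self-avoiding walks -/
noncomputable def Lat.sys (L : Lat V) : Sys (SP V) where
  W := L.W
  pc := fun i m ω => L.piece i m ω
  pcW := fun h hi => L.mem_W.2 (L.mem (L.mem_W.1 h) hi)
  pc_pc := fun ω h => L.piece_piece ω h
  pc_inj := fun h h' hab h1 h2 => L.piece_inj (L.mem_W.1 h) (L.mem_W.1 h') hab h1 h2
  pc_self := fun h => L.piece_self (L.mem_W.1 h)
  pc00 := fun ω η => L.piece00 ω η
  ne := fun n => by
    obtain ⟨ω, hω⟩ := L.nonempty n
    exact ⟨ω, L.mem_W.2 hω⟩

theorem Lat.card (L : Lat V) (n : ℕ) : @cnP (SP V) L.sys n = (L.walks n).ncard := by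
  rw [Set.ncard_eq_toFinset_card _ (L.finite n)]
  rfl

end Pool.Agent.N932.FL
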