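import Pool.Agent.N932.FL.Walk

/-! # The exponential moment of the influence of the first `a` steps (abstract version) -/

set_option autoImplicit false

namespace Pool.Agent.N932.FL

open scoped Classical
open Pool.Agent.N932.RP (cl cl2 cl_pos cl_congr cl2_congr cl_ncard cl2_ncard cl2_pos_iff
  cond_pos_iff cl_eq_card cl_eq_one cl_le_of_inj cond_self sum_cl2 sum_cond cond_nonneg avg_fiber
  sum_inv_cl kl tv af tv_nonneg tv_sq_le_af af_nonneg af_le kl_elem tv_sq_le_kl kl_nonneg af_pos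
  jensen_log)

variable {P : ℕ → Type} [Sys P]

open Sys (pc)

theorem pc0_mono {n s t : ℕ} {ω η : P n} (hs : s ≤ t) (h : pc 0 t η = pc 0 t ω) :
    pc 0 s η = pc 0 s ω := by
  have h1 := pc_pc (i := 0) (m := t) (k := 0) (l := s) η (by omega)
  have h2 := pc_pc (i := 0) (m := t) (k := 0) (l := s) ω (by omega)
  rw [h, h2] at h1
  exact h1.symm

theorem RR_congr {n a s t : ℕ} {ω η : P n} (ha : a ≤ s) (hs : s ≤ t) (ht : t ≤ n)
    (h : pc 0 t η = pc 0 t ω) : RR n a s η = RR n a s ω := by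
  unfold RR NN
  rw [N0_congr hs h, N0_congr (t := t - a) (by omega) (piece_congr (by omega) ht h)]

/-- the affinity of the two growth laws -/
noncomputable def AF (n a t m : ℕ) (ω : P n) : ℝ := af (Sys.W (P := P) m) (G0 n t m ω) (GG n a t m ω)

/-- the total variation distance of the two growth laws -/
noncomputable def TT (n a t m : ℕ) (ω : P n) : ℝ := tv (Sys.W (P := P) m) (G0 n t m ω) (GG n a t m ω)

theorem AF_pos {n a t m : ℕ} {ω : P n} (h : ω ∈ Sys.W (P := P) n) (ha : a ≤ t) (ht : t + m ≤ n) :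
    0 < AF n a t m ω :=
  af_pos (fun _ => GG_pos h ha ht) (G0_sum h ht)

theorem AF_le {n a t m : ℕ} {ω : P n} (h : ω ∈ Sys.W (P := P) n) (ha : a ≤ t) (ht : t + m ≤ n) :
    AF n a t m ω ≤ Real.exp (-(TT n a t m ω ^ 2 / 2)) :=
  af_le (G0_nonneg _ _ _ _) (GG_nonneg _ _ _ _ _) (G0_sum h ht) (GG_sum h ha ht)

/-- the martingale -/
noncomputable def ZZ (n a : ℕ) (τ : ℕ → ℕ) (r : ℕ) (ω : P n) : ℝ :=
  ∏ j ∈ Finset.range r, (Real.sqrt (RR n a (τ (j + 1)) ω / RR n a (τ j) ω) /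
    AF n a (τ j) (τ (j + 1) - τ j) ω)

theorem ZZ_congr {n a r : ℕ} {τ : ℕ → ℕ} (hτ : Monotone τ) (h0 : a ≤ τ 0) (hr : τ r ≤ n)
    {ω η : P n} (h : pc 0 (τ r) η = pc 0 (τ r) ω) : ZZ n a τ r η = ZZ n a τ r ω := by
  unfold ZZ
  refine Finset.prod_congr rfl (fun j hj => ?_)
  rw [Finset.mem_range] at hj
  have h1 : a ≤ τ j := h0.trans (hτ (Nat.zero_le j))
  have h2 : τ j ≤ τ (j + 1) := hτ (Nat.le_succ j)
  have h3 : τ (j + 1) ≤ τ r := hτ hj
  rw [RR_congr h1 (by omega) hr h, RR_congr (by omega) h3 hr h]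
  have h4 := pc0_mono (s := τ j) (by omega) h
  unfold AF
  rw [G0_congr h4, GG_congr h1 (by omega) h4]

theorem mul_sqrt_div {x y : ℝ} (hx : 0 ≤ x) : x * Real.sqrt (y / x) = Real.sqrt (x * y) := by
  rcases hx.eq_or_lt with h | h
  · rw [← h]; simp
  · rw [Real.sqrt_mul hx, Real.sqrt_div' _ hx]
    have h1 := Real.sqrt_pos.2 h
    have h2 := Real.mul_self_sqrt hx
    calc x * (Real.sqrt y / Real.sqrt x) =
        (Real.sqrt x * Real.sqrt x) * (Real.sqrt y / Real.sqrt x) := by rw [h2]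
      _ = _ := by field_simp

theorem sum_ZZ {n a : ℕ} {τ : ℕ → ℕ} (hτ : Monotone τ) (h0 : a ≤ τ 0) (r : ℕ) (hr : τ r ≤ n) :
    ∑ ω ∈ Sys.W (P := P) n, ZZ n a τ r ω = cnP P n := by
  induction r with
  | zero =>
    unfold ZZ
    simp only [Finset.range_zero, Finset.prod_empty, Finset.sum_const, nsmul_eq_mul, mul_one]
    rw [card_W]
  | succ r ih =>
    have h1 : a ≤ τ r := h0.trans (hτ (Nat.zero_le r))
    have h2 : τ r ≤ τ (r + 1) := hτ (Nat.le_succ r)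
    rw [← ih (h2.trans hr)]
    obtain ⟨m, hm⟩ : ∃ m, m = τ (r + 1) - τ r := ⟨_, rfl⟩
    have hm' : τ (r + 1) = τ r + m := by omega
    have h3 := avg_fiber (S := Sys.W (P := P) n) (T := Sys.W (P := P) m) (X := fun η => pc 0 (τ r) η)
      (Y := fun η => pc (τ r) m η) (fun η hη => pcW hη (by omega))
      (fun ω ζ => ZZ n a τ r ω / AF n a (τ r) m ω *
        Real.sqrt (GG n a (τ r) m ω ζ / G0 n (τ r) m ω ζ)) (by
        intro ω _ η _ e ζ
        have e' : pc 0 (τ r) η = pc 0 (τ r) ω := e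
        show ZZ n a τ r η / AF n a (τ r) m η *
          Real.sqrt (GG n a (τ r) m η ζ / G0 n (τ r) m η ζ) = _
        unfold AF
        rw [ZZ_congr hτ h0 (h2.trans hr) e', G0_congr e', GG_congr h1 (by omega) e'])
    have h4 : ∀ ω ∈ Sys.W (P := P) n, ZZ n a τ (r + 1) ω = ZZ n a τ r ω / AF n a (τ r) m ω *
        Real.sqrt (GG n a (τ r) m ω (pc (τ r) m ω) / G0 n (τ r) m ω (pc (τ r) m ω)) := by
      intro ω hω
      have e : GG n a (τ r) m ω (pc (τ r) m ω) / G0 n (τ r) m ω (pc (τ r) m ω) =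
          RR n a (τ r + m) ω / RR n a (τ r) ω := by
        have := ratio_self (m := m) hω h1 (by omega)
        rw [← inv_div, this, inv_div]
      rw [e]
      unfold ZZ
      rw [Finset.prod_range_succ, ← hm, hm']
      ring
    rw [Finset.sum_congr rfl h4, ← h3]
    refine Finset.sum_congr rfl (fun ω hω => ?_)
    have h5 : ∀ ζ ∈ Sys.W (P := P) m, Pool.Agent.N932.RP.cond (Sys.W (P := P) n) (fun η => pc 0 (τ r) η) (fun η => pc (τ r) m η) ω ζ *
        (ZZ n a τ r ω / AF n a (τ r) m ω *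
          Real.sqrt (GG n a (τ r) m ω ζ / G0 n (τ r) m ω ζ)) =
        ZZ n a τ r ω / AF n a (τ r) m ω *
          Real.sqrt (G0 n (τ r) m ω ζ * GG n a (τ r) m ω ζ) := by
      intro ζ _
      rw [← mul_sqrt_div (G0_nonneg n (τ r) m ω ζ)]
      unfold G0
      ring
    rw [Finset.sum_congr rfl h5, ← Finset.mul_sum]
    have h6 : ∑ ζ ∈ Sys.W (P := P) m, Real.sqrt (G0 n (τ r) m ω ζ * GG n a (τ r) m ω ζ) =
      AF n a (τ r) m ω := rfl
    rw [h6]
    have h7 := AF_pos (m := m) hω h1 (by omega)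
    field_simp

theorem prod_div_tele (f : ℕ → ℝ) (hf : ∀ j, 0 < f j) (r : ℕ) :
    ∏ j ∈ Finset.range r, (f (j + 1) / f j) = f r / f 0 := by
  induction r with
  | zero => simp [(hf 0).ne']
  | succ r ih =>
    rw [Finset.prod_range_succ, ih]
    have h1 := hf r
    have h2 := hf 0
    field_simp

theorem prod_sqrt (f : ℕ → ℝ) (hf : ∀ j, 0 ≤ f j) (r : ℕ) :
    ∏ j ∈ Finset.range r, Real.sqrt (f j) = Real.sqrt (∏ j ∈ Finset.range r, f j) := by
  induction r with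
  | zero => simp
  | succ r ih =>
    rw [Finset.prod_range_succ, Finset.prod_range_succ, ih,
      Real.sqrt_mul (Finset.prod_nonneg (fun j _ => hf j))]

/-- lower bound of the martingale -/
theorem ZZ_ge {n a r : ℕ} {τ : ℕ → ℕ} (hτ : Monotone τ) (h0 : τ 0 = a) (hr : τ r ≤ n)
    {ω : P n} (hω : ω ∈ Sys.W (P := P) n) :
    Real.exp (1 / 4 * ∑ j ∈ Finset.range r, TT n a (τ j) (τ (j + 1) - τ j) ω ^ 2) ^ 2 ≤
      ZZ n a τ r ω * Real.sqrt (RR n a a ω) := by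
  have ha : a ≤ n := by
    have := hτ (Nat.zero_le r)
    omega
  have hpos : ∀ t, 0 < RR n a t ω := fun t => RR_pos hω ha
  have h1 : ZZ n a τ r ω = Real.sqrt (RR n a (τ r) ω / RR n a a ω) *
      ∏ j ∈ Finset.range r, (1 / AF n a (τ j) (τ (j + 1) - τ j) ω) := by
    unfold ZZ
    have e : ∀ j ∈ Finset.range r, Real.sqrt (RR n a (τ (j + 1)) ω / RR n a (τ j) ω) /
        AF n a (τ j) (τ (j + 1) - τ j) ω =
        Real.sqrt (RR n a (τ (j + 1)) ω / RR n a (τ j) ω) *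
        (1 / AF n a (τ j) (τ (j + 1) - τ j) ω) := fun j _ => by ring
    rw [Finset.prod_congr rfl e, Finset.prod_mul_distrib,
      prod_sqrt (fun j => RR n a (τ (j + 1)) ω / RR n a (τ j) ω)
        (fun j => (div_pos (hpos _) (hpos _)).le),
      prod_div_tele (fun j => RR n a (τ j) ω) (fun j => hpos _), h0]
  have h2 : ∏ j ∈ Finset.range r, Real.exp (TT n a (τ j) (τ (j + 1) - τ j) ω ^ 2 / 2) ≤
      ∏ j ∈ Finset.range r, (1 / AF n a (τ j) (τ (j + 1) - τ j) ω) := by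
    refine Finset.prod_le_prod (fun j _ => (Real.exp_pos _).le) (fun j hj => ?_)
    rw [Finset.mem_range] at hj
    have h3 : a ≤ τ j := by rw [← h0]; exact hτ (Nat.zero_le j)
    have h4 : τ j ≤ τ (j + 1) := hτ (Nat.le_succ j)
    have h5 : τ (j + 1) ≤ τ r := hτ hj
    have h6 := AF_le (m := τ (j + 1) - τ j) hω h3 (by omega)
    have h7 := AF_pos (m := τ (j + 1) - τ j) hω h3 (by omega)
    rw [le_div_iff₀ h7]
    calc _ ≤ Real.exp (TT n a (τ j) (τ (j + 1) - τ j) ω ^ 2 / 2) *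
          Real.exp (-(TT n a (τ j) (τ (j + 1) - τ j) ω ^ 2 / 2)) :=
          mul_le_mul_of_nonneg_left h6 (Real.exp_pos _).le
      _ = 1 := by rw [← Real.exp_add, add_neg_cancel, Real.exp_zero]
  have h3 : Real.exp (1 / 4 * ∑ j ∈ Finset.range r, TT n a (τ j) (τ (j + 1) - τ j) ω ^ 2) ^ 2 =
      ∏ j ∈ Finset.range r, Real.exp (TT n a (τ j) (τ (j + 1) - τ j) ω ^ 2 / 2) := by
    rw [← Real.exp_sum, ← Real.exp_nat_mul, ← Finset.sum_div]
    congr 1
    push_cast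
    ring
  have h4 : a ≤ τ r := by rw [← h0]; exact hτ (Nat.zero_le r)
  have h5 := one_le_RR hω h4 hr
  have h6 : 1 ≤ Real.sqrt (RR n a (τ r) ω / RR n a a ω) * Real.sqrt (RR n a a ω) := by
    rw [← Real.sqrt_mul (div_pos (hpos _) (hpos _)).le, div_mul_cancel₀ _ (hpos a).ne']
    exact Real.one_le_sqrt.2 h5
  have h7 : 0 ≤ ∏ j ∈ Finset.range r, Real.exp (TT n a (τ j) (τ (j + 1) - τ j) ω ^ 2 / 2) :=
    Finset.prod_nonneg (fun j _ => (Real.exp_pos _).le)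
  rw [h3, h1]
  calc _ ≤ ∏ j ∈ Finset.range r, (1 / AF n a (τ j) (τ (j + 1) - τ j) ω) := h2
    _ = 1 * ∏ j ∈ Finset.range r, (1 / AF n a (τ j) (τ (j + 1) - τ j) ω) := (one_mul _).symm
    _ ≤ (Real.sqrt (RR n a (τ r) ω / RR n a a ω) * Real.sqrt (RR n a a ω)) *
        ∏ j ∈ Finset.range r, (1 / AF n a (τ j) (τ (j + 1) - τ j) ω) :=
        mul_le_mul_of_nonneg_right h6 (h7.trans h2)
    _ = _ := by ring

/-- the pointwise inequality -/
theorem amgm {E Z w q : ℝ} (hZ : 0 ≤ Z) (hw : 0 ≤ w) (hq : 0 < q)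
    (h : E ^ 2 ≤ Z * Real.sqrt w) :
    E ≤ q / 2 * Z + q / 4 + w / (4 * q ^ 3) := by
  obtain ⟨s, hs⟩ : ∃ s, s = Real.sqrt w := ⟨_, rfl⟩
  have hs0 : 0 ≤ s := by rw [hs]; exact Real.sqrt_nonneg _
  have hsw : w = s ^ 2 := by rw [hs, Real.sq_sqrt hw]
  rw [← hs] at h
  have h1 : E ≤ q / 2 * Z + s / (2 * q) := by
    have h2 : E ^ 2 ≤ (q / 2 * Z + s / (2 * q)) ^ 2 := by
      have h3 : 4 * (q / 2 * Z) * (s / (2 * q)) = Z * s := by
        field_simp
        ring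
      nlinarith [sq_nonneg (q / 2 * Z - s / (2 * q))]
    exact le_of_sq_le_sq h2 (by positivity)
  have h2 : s / (2 * q) ≤ q / 4 + w / (4 * q ^ 3) := by
    rw [hsw]
    have h3 : q / 4 + s ^ 2 / (4 * q ^ 3) - s / (2 * q) = (q ^ 2 - s) ^ 2 / (4 * q ^ 3) := by
      field_simp
      ring
    have h4 : 0 ≤ (q ^ 2 - s) ^ 2 / (4 * q ^ 3) := by positivity
    linarith
  linarith

/-- **the exponential moment** -/
theorem exp_moment {n a r : ℕ} {τ : ℕ → ℕ} (hτ : Monotone τ) (h0 : τ 0 = a) (hr : τ r ≤ n) :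
    ∑ ω ∈ Sys.W (P := P) n, Real.exp (1 / 4 * ∑ j ∈ Finset.range r, TT n a (τ j) (τ (j + 1) - τ j) ω ^ 2) ≤
      cnP P n * (cnP P a * cnP P (n - a) / cnP P n) ^ (1 / 4 : ℝ) := by
  have ha : a ≤ n := by
    have := hτ (Nat.zero_le r)
    omega
  have hcn := cnP_pos P n
  have hca := cnP_pos P a
  have hcb := cnP_pos P (n - a)
  obtain ⟨ρ, hρ⟩ : ∃ ρ : ℝ, ρ = cnP P a * cnP P (n - a) / cnP P n := ⟨_, rfl⟩
  have hρ0 : 0 < ρ := by rw [hρ]; positivity
  obtain ⟨q, hq⟩ : ∃ q : ℝ, q = ρ ^ (1 / 4 : ℝ) := ⟨_, rfl⟩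
  have hq0 : 0 < q := by rw [hq]; exact Real.rpow_pos_of_pos hρ0 _
  have hq4 : q ^ 4 = ρ := by
    rw [hq, ← Real.rpow_natCast, ← Real.rpow_mul hρ0.le]
    norm_num
  have h1 : ∀ ω ∈ Sys.W (P := P) n,
      Real.exp (1 / 4 * ∑ j ∈ Finset.range r, TT n a (τ j) (τ (j + 1) - τ j) ω ^ 2) ≤
      q / 2 * ZZ n a τ r ω + q / 4 + RR n a a ω / (4 * q ^ 3) := by
    intro ω hω
    refine amgm ?_ (RR_pos hω ha).le hq0 (ZZ_ge hτ h0 hr hω)
    refine Finset.prod_nonneg (fun j hj => div_nonneg (Real.sqrt_nonneg _) ?_)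
    rw [Finset.mem_range] at hj
    exact af_nonneg _ _ _
  refine (Finset.sum_le_sum h1).trans ?_
  rw [Finset.sum_add_distrib, Finset.sum_add_distrib, ← Finset.mul_sum,
    sum_ZZ hτ h0.ge r hr, Finset.sum_const, card_W, nsmul_eq_mul, ← Finset.sum_div, ← hρ, ← hq]
  have h2 : (∑ ω ∈ Sys.W (P := P) n, RR n a a ω) / (4 * q ^ 3) ≤ cnP P n * (q / 4) := by
    rw [div_le_iff₀ (by positivity)]
    refine (sum_RR ha).trans (le_of_eq ?_)
    have e : (cnP P (n - a) : ℝ) * cnP P a = cnP P n * ρ := by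
      rw [hρ]
      field_simp
    rw [e, ← hq4]
    ring
  linarith

end Pool.Agent.N932.FL
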