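import Pool.Agent.N932.FL.Bott

/-! # Decompositions of self-avoiding trajectories into several pieces -/

set_option autoImplicit false

namespace Pool.Agent.N932.FL

open scoped Classical

section defs

variable {V : Type}

/-- the list `p m₁ p₁ m₂ p₂ …` -/
def glue (p : List V) : List (List V × List V) → List V
  | [] => p
  | s :: L => p ++ s.1 ++ glue s.2 L

/-- the end points of the pieces `m_i`, and the pieces `p_i` -/
def key (L : List (List V × List V)) : List (Option V × Option V × List V) :=
  L.map (fun s => (s.1.head?, s.1.getLast?, s.2))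

/-- the paths which remain: the pieces `p_i` with the adjacent end points -/
def alph (p : List V) : List (Option V × Option V × List V) → List (List V)
  | [] => [p]
  | s :: L => (p ++ s.1.toList) :: alph (s.2.1.toList ++ s.2.2) L

/-- all self-avoiding paths in `D` -/
def sall (Adj : V → V → Prop) (D : Set V) : Set (List V) :=
  {l | l ≠ [] ∧ l.Nodup ∧ l.IsChain Adj ∧ ∀ v ∈ l, v ∈ D}

/-- the trajectories which arise when the pieces `m_i` are replaced -/
def other (Adj : V → V → Prop) (D : Set V) (a b : V) (p : List V)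
    (L : List (List V × List V)) : Set (List V) :=
  {l | l ∈ trj Adj D a b ∧ ∃ L', key L' = key L ∧ l = glue p L'}

end defs

variable {V : Type}

theorem sall_fin {Adj : V → V → Prop} {D : Set V} (hD : D.Finite) : (sall Adj D).Finite :=
  (nodup_fin hD).subset (fun _ h => ⟨h.2.1, h.2.2.2⟩)

theorem glue_append (r q : List V) (L : List (List V × List V)) :
    glue (r ++ q) L = r ++ glue q L := by
  cases L with
  | nil => rfl
  | cons s L => simp [glue]

theorem ends_of {m : List V} (hm : m ≠ []) : ∃ u v m' m'', m.head? = some u ∧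
    m.getLast? = some v ∧ m = u :: m' ∧ m = m'' ++ [v] := by
  cases m with
  | nil => exact absurd rfl hm
  | cons x xs =>
    refine ⟨x, (x :: xs).getLast hm, xs, (x :: xs).dropLast, rfl, ?_, rfl, ?_⟩
    · exact List.getLast?_eq_some_getLast hm
    · exact (List.dropLast_append_getLast hm).symm

theorem sall_part {Adj : V → V → Prop} {D : Set V} {l l' : List V} (h : l ∈ sall Adj D)
    (h1 : ∃ s t, s ++ l' ++ t = l) (h2 : l' ≠ []) : l' ∈ sall Adj D := by
  obtain ⟨s, t, rfl⟩ := h1
  obtain ⟨_, h3, h4, h5⟩ := h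
  exact ⟨h2, (List.nodup_append.1 (List.nodup_append.1 h3).1).2.1,
    (List.isChain_append.1 (List.isChain_append.1 h4).1).2.1, fun v hv => h5 v (by simp [hv])⟩

theorem alph_saw {Adj : V → V → Prop} {D : Set V} : ∀ (L : List (List V × List V)) (p : List V),
    (∀ s ∈ L, s.1 ≠ []) → glue p L ∈ sall Adj D → ∀ α ∈ alph p (key L), α ∈ sall Adj D := by
  intro L
  induction L with
  | nil =>
    intro p _ h α hα
    simp only [key, List.map_nil, alph, List.mem_singleton] at hα
    rw [hα]
    exact h
  | cons s L ih =>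
    intro p hs h α hα
    obtain ⟨u, v, m', m'', h1, h2, h3, h4⟩ := ends_of (hs s (List.mem_cons_self))
    simp only [key, List.map_cons, alph, h1, h2, Option.toList_some, List.mem_cons] at hα
    rcases hα with hα | hα
    · rw [hα]
      refine sall_part h ?_ (by simp)
      refine ⟨[], m' ++ glue s.2 L, ?_⟩
      simp [glue, h3]
    · refine ih ([v] ++ s.2) (fun t ht => hs t (List.mem_cons_of_mem _ ht)) ?_ α hα
      rw [glue_append]
      refine sall_part h ?_ (by simp)
      refine ⟨p ++ m'', [], ?_⟩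
      simp [glue, h4]

theorem alph_steps : ∀ (L : List (List V × List V)) (p : List V),
    (∀ s ∈ L, s.1 ≠ []) → glue p L ≠ [] →
    ((alph p (key L)).map (fun α => α.length - 1)).sum +
      (L.map (fun s => s.1.length - 1)).sum = (glue p L).length - 1 := by
  intro L
  induction L with
  | nil =>
    intro p _ _
    simp [key, alph, glue]
  | cons s L ih =>
    intro p hs _
    obtain ⟨u, v, m', m'', h1, h2, h3, h4⟩ := ends_of (hs s (List.mem_cons_self))
    have h5 := ih ([v] ++ s.2) (fun t ht => hs t (List.mem_cons_of_mem _ ht)) (by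
      rw [glue_append]; simp)
    rw [glue_append] at h5
    have h6 : s.1.length = m'.length + 1 := by rw [h3]; rfl
    have h7 : alph p (key (s :: L)) = (p ++ [u]) :: alph ([v] ++ s.2) (key L) := by
      simp only [key, List.map_cons, alph, h1, h2, Option.toList_some]
    have h8 : (glue p (s :: L)).length = p.length + s.1.length + (glue s.2 L).length := by
      simp only [glue, List.length_append]
    rw [h7, h8]
    simp only [List.map_cons, List.sum_cons, List.length_append, List.length_singleton] at h5 ⊢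
    omega

theorem alph_ne (p : List V) (κ : List (Option V × Option V × List V)) : alph p κ ≠ [] := by
  cases κ <;> simp [alph]

theorem alph_length (p : List V) (κ : List (Option V × Option V × List V)) :
    (alph p κ).length = κ.length + 1 := by
  induction κ generalizing p with
  | nil => rfl
  | cons s κ ih => simp [alph, ih]

theorem alph_inj : ∀ (κ κ' : List (Option V × Option V × List V)) (p p' : List V),
    (∀ s ∈ κ, s.1.isSome ∧ s.2.1.isSome) → (∀ s ∈ κ', s.1.isSome ∧ s.2.1.isSome) →
    alph p κ = alph p' κ' → p = p' ∧ κ = κ' := by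
  intro κ
  induction κ with
  | nil =>
    intro κ' p p' _ _ h
    cases κ' with
    | nil =>
      simp only [alph, List.cons.injEq, and_true] at h
      exact ⟨h, rfl⟩
    | cons s κ' =>
      simp only [alph, List.cons.injEq] at h
      exact absurd h.2.symm (alph_ne _ _)
  | cons s κ ih =>
    intro κ' p p' h1 h2 h
    cases κ' with
    | nil =>
      simp only [alph, List.cons.injEq] at h
      exact absurd h.2 (alph_ne _ _)
    | cons s' κ' =>
      obtain ⟨x, y, q⟩ := s
      obtain ⟨x', y', q'⟩ := s'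
      obtain ⟨h3, h4⟩ := h1 _ List.mem_cons_self
      obtain ⟨h5, h6⟩ := h2 _ List.mem_cons_self
      obtain ⟨x, rfl⟩ := Option.isSome_iff_exists.1 h3
      obtain ⟨y, rfl⟩ := Option.isSome_iff_exists.1 h4
      obtain ⟨x', rfl⟩ := Option.isSome_iff_exists.1 h5
      obtain ⟨y', rfl⟩ := Option.isSome_iff_exists.1 h6
      simp only [alph, Option.toList_some, List.cons.injEq] at h
      obtain ⟨h7, h8⟩ := h
      obtain ⟨h9, h10⟩ := ih κ' _ _ (fun t ht => h1 t (List.mem_cons_of_mem _ ht))
        (fun t ht => h2 t (List.mem_cons_of_mem _ ht)) h8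
      obtain ⟨h11, h12⟩ := List.append_inj' h7 rfl
      obtain ⟨h13, h14⟩ := List.cons.inj h9
      obtain ⟨h15, -⟩ := List.cons.inj h12
      refine ⟨h11, ?_⟩
      rw [h15, h13, h10]
      congr 3

theorem key_some {L : List (List V × List V)} (h : ∀ s ∈ L, s.1 ≠ []) :
    ∀ s ∈ key L, s.1.isSome ∧ s.2.1.isSome := by
  intro s hs
  rw [key, List.mem_map] at hs
  obtain ⟨t, ht, rfl⟩ := hs
  obtain ⟨u, v, m', m'', h1, h2, -⟩ := ends_of (h t ht)
  simp [h1, h2]

theorem key_length (L : List (List V × List V)) : (key L).length = L.length := by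
  simp [key]

theorem length_le_glue : ∀ (L : List (List V × List V)) (p : List V), (∀ s ∈ L, s.1 ≠ []) →
    L.length ≤ (glue p L).length := by
  intro L
  induction L with
  | nil => intro p _; simp
  | cons s L ih =>
    intro p h
    have h1 := ih s.2 (fun t ht => h t (List.mem_cons_of_mem _ ht))
    have h2 : 0 < s.1.length := List.length_pos_iff.2 (h s List.mem_cons_self)
    simp only [glue, List.length_append, List.length_cons]
    omega

/-- the lists with `j` entries in `S` -/
noncomputable def LL {β : Type} (S : Finset β) : ℕ → Finset (List β)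
  | 0 => {[]}
  | j + 1 => (S ×ˢ LL S j).image (fun z => z.1 :: z.2)

theorem mem_LL {β : Type} (S : Finset β) (j : ℕ) (A : List β) :
    A ∈ LL S j ↔ A.length = j ∧ ∀ x ∈ A, x ∈ S := by
  induction j generalizing A with
  | zero =>
    simp only [LL, Finset.mem_singleton]
    constructor
    · rintro rfl
      simp
    · rintro ⟨h, -⟩
      exact List.length_eq_zero_iff.1 h
  | succ j ih =>
    simp only [LL, Finset.mem_image, Finset.mem_product, Prod.exists]
    constructor
    · rintro ⟨x, B, ⟨h1, h2⟩, rfl⟩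
      rw [ih] at h2
      refine ⟨by simp [h2.1], ?_⟩
      intro y hy
      rw [List.mem_cons] at hy
      rcases hy with rfl | hy
      · exact h1
      · exact h2.2 y hy
    · rintro ⟨h1, h2⟩
      cases A with
      | nil => simp at h1
      | cons x B =>
        refine ⟨x, B, ⟨h2 x List.mem_cons_self, (ih B).2 ⟨by simpa using h1,
          fun y hy => h2 y (List.mem_cons_of_mem _ hy)⟩⟩, rfl⟩

theorem sum_LL {β : Type} (S : Finset β) (f : β → ℝ) (j : ℕ) :
    ∑ A ∈ LL S j, (A.map f).prod = (∑ x ∈ S, f x) ^ j := by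
  induction j with
  | zero => simp [LL]
  | succ j ih =>
    rw [LL, Finset.sum_image, Finset.sum_product, pow_succ', Finset.sum_mul]
    · refine Finset.sum_congr rfl (fun x _ => ?_)
      rw [← ih, Finset.mul_sum]
      refine Finset.sum_congr rfl (fun B _ => ?_)
      simp
    · rintro ⟨x, B⟩ _ ⟨y, C⟩ _ h
      have h' : x :: B = y :: C := h
      obtain ⟨h1, h2⟩ := List.cons.inj h'
      rw [h1, h2]

/-- the lists of paths which remain -/
def alphs (Adj : V → V → Prop) (D : Set V) (a b : V) : Set (List (List V)) :=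
  {A | ∃ p L, glue p L ∈ trj Adj D a b ∧ (∀ s ∈ L, s.1 ≠ []) ∧ A = alph p (key L)}

theorem trj_sall {Adj : V → V → Prop} {D : Set V} {a b : V} {l : List V}
    (h : l ∈ trj Adj D a b) : l ∈ sall Adj D := by
  obtain ⟨h1, h2, h3, h4, h5⟩ := h
  refine ⟨?_, h3, h4, h5⟩
  rintro rfl
  simp at h1

theorem sall_length {Adj : V → V → Prop} {D : Set V} (hD : D.Finite) {l : List V}
    (h : l ∈ sall Adj D) : l.length ≤ D.ncard := by
  have h1 : l.toFinset.card = l.length := List.toFinset_card_of_nodup h.2.1
  rw [← h1, ← Set.ncard_coe_finset]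
  refine Set.ncard_le_ncard (fun v hv => ?_) hD
  rw [Finset.mem_coe, List.mem_toFinset] at hv
  exact h.2.2.2 v hv

theorem alphs_sub {Adj : V → V → Prop} {D : Set V} (hD : D.Finite) {a b : V} {S : Finset (List V)}
    (hS : (S : Set (List V)) = sall Adj D) {A : List (List V)} (hA : A ∈ alphs Adj D a b) :
    A ∈ (Finset.range (D.ncard + 1)).biUnion (fun k => LL S (k + 1)) := by
  obtain ⟨p, L, h1, h2, rfl⟩ := hA
  rw [Finset.mem_biUnion]
  have h3 := trj_sall h1
  refine ⟨L.length, ?_, ?_⟩
  · rw [Finset.mem_range]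
    have := length_le_glue L p h2
    have := sall_length hD h3
    omega
  · rw [mem_LL, alph_length, key_length]
    refine ⟨rfl, fun α hα => ?_⟩
    rw [← Finset.mem_coe, hS]
    exact alph_saw L p h2 h3 α hα

theorem alphs_fin {Adj : V → V → Prop} {D : Set V} (hD : D.Finite) (a b : V) :
    (alphs Adj D a b).Finite := by
  obtain ⟨S, hS⟩ : ∃ S : Finset (List V), (S : Set (List V)) = sall Adj D :=
    ⟨(sall_fin hD).toFinset, (sall_fin hD).coe_toFinset⟩
  exact (Finset.finite_toSet _).subset (fun A hA => Finset.mem_coe.2 (alphs_sub hD hS hA))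

/-- **the general bound** -/
theorem multi_le {Adj : V → V → Prop} {D : Set V} (hD : D.Finite) (a b : V)
    (w : List V → ℝ) (hw : ∀ l, 0 ≤ w l) (W : List (List V) → ℝ) (hW : ∀ A, 0 ≤ W A) :
    ∑ᶠ l ∈ trj Adj D a b ∩ {l | ∃ p L, l = glue p L ∧ (∀ s ∈ L, s.1 ≠ []) ∧
      ∑ᶠ l' ∈ other Adj D a b p L, w l' ≤ W (alph p (key L))}, w l ≤
      ∑ᶠ A ∈ alphs Adj D a b, W A := by
  obtain ⟨T, hT⟩ : ∃ T : Finset (List V), (T : Set (List V)) = trj Adj D a b :=
    ⟨(trj_fin hD a b).toFinset, (trj_fin hD a b).coe_toFinset⟩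
  obtain ⟨AA, hAA⟩ : ∃ AA : Finset (List (List V)), (AA : Set _) = alphs Adj D a b :=
    ⟨(alphs_fin hD a b).toFinset, (alphs_fin hD a b).coe_toFinset⟩
  obtain ⟨R, hR⟩ : ∃ R : List (List V) → Set (List V), ∀ A, R A = {l | l ∈ trj Adj D a b ∧
      ∃ p L, l = glue p L ∧ (∀ s ∈ L, s.1 ≠ []) ∧ A = alph p (key L)} := ⟨_, fun _ => rfl⟩
  have hof : ∀ p L, (other Adj D a b p L).Finite := fun p L =>
    (trj_fin hD a b).subset (fun l hl => hl.1)
  have hRo : ∀ p L, (∀ s ∈ L, s.1 ≠ []) → R (alph p (key L)) ⊆ other Adj D a b p L := by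
    intro p L hL l hl
    rw [hR] at hl
    obtain ⟨h1, p', L', h2, h3, h4⟩ := hl
    obtain ⟨h5, h6⟩ := alph_inj _ _ _ _ (key_some hL) (key_some h3) h4
    exact ⟨h1, L', h6.symm, by rw [h5]; exact h2⟩
  obtain ⟨B, hB⟩ : ∃ B : Finset (List V), B = T.filter (fun l => ∃ p L, l = glue p L ∧
      (∀ s ∈ L, s.1 ≠ []) ∧ ∑ᶠ l' ∈ other Adj D a b p L, w l' ≤ W (alph p (key L))) := ⟨_, rfl⟩
  have hBs : trj Adj D a b ∩ {l | ∃ p L, l = glue p L ∧ (∀ s ∈ L, s.1 ≠ []) ∧
      ∑ᶠ l' ∈ other Adj D a b p L, w l' ≤ W (alph p (key L))} = (B : Set (List V)) := by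
    rw [hB, Finset.coe_filter, ← hT]
    rfl
  rw [hBs, finsum_mem_coe_finset, ← hAA, finsum_mem_coe_finset]
  obtain ⟨AB, hAB⟩ : ∃ AB : Finset (List (List V)), AB = AA.filter (fun A =>
      ∑ l ∈ T.filter (fun l => l ∈ R A), w l ≤ W A) := ⟨_, rfl⟩
  have h1 : ∀ l ∈ B, w l ≤ ∑ A ∈ AB, (if l ∈ R A then w l else 0) := by
    intro l hl
    rw [hB, Finset.mem_filter] at hl
    obtain ⟨hlT, p, L, h2, h3, h4⟩ := hl
    have hlT' : l ∈ trj Adj D a b := by
      rw [← hT]
      exact hlT
    have hlR : l ∈ R (alph p (key L)) := by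
      rw [hR]
      exact ⟨hlT', p, L, h2, h3, rfl⟩
    have hmem : alph p (key L) ∈ AB := by
      rw [hAB, Finset.mem_filter]
      refine ⟨?_, ?_⟩
      · rw [← Finset.mem_coe, hAA]
        exact ⟨p, L, by rw [← h2]; exact hlT', h3, rfl⟩
      · refine le_trans ?_ h4
        rw [finsum_mem_eq_finite_toFinset_sum _ (hof p L)]
        refine Finset.sum_le_sum_of_subset_of_nonneg (fun l' hl' => ?_) (fun l' _ _ => hw l')
        rw [Finset.mem_filter] at hl'
        rw [Set.Finite.mem_toFinset]
        exact hRo p L h3 hl'.2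
    calc w l = (if l ∈ R (alph p (key L)) then w l else 0) := by rw [if_pos hlR]
      _ ≤ _ := Finset.single_le_sum (f := fun A => if l ∈ R A then w l else 0)
          (fun A _ => by
            show (0 : ℝ) ≤ if l ∈ R A then w l else 0
            split_ifs
            · exact hw l
            · exact le_rfl) hmem
  calc ∑ l ∈ B, w l ≤ ∑ l ∈ B, ∑ A ∈ AB, (if l ∈ R A then w l else 0) := Finset.sum_le_sum h1
    _ ≤ ∑ l ∈ T, ∑ A ∈ AB, (if l ∈ R A then w l else 0) := by
        refine Finset.sum_le_sum_of_subset_of_nonneg ?_ (fun l _ _ => ?_)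
        · rw [hB]
          exact Finset.filter_subset _ _
        · refine Finset.sum_nonneg (fun A _ => ?_)
          split_ifs
          · exact hw l
          · exact le_rfl
    _ = ∑ A ∈ AB, ∑ l ∈ T, (if l ∈ R A then w l else 0) := Finset.sum_comm
    _ ≤ ∑ A ∈ AB, W A := by
        refine Finset.sum_le_sum (fun A hA => ?_)
        rw [← Finset.sum_filter]
        rw [hAB, Finset.mem_filter] at hA
        exact hA.2
    _ ≤ ∑ A ∈ AA, W A := by
        refine Finset.sum_le_sum_of_subset_of_nonneg ?_ (fun A _ _ => hW A)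
        rw [hAB]
        exact Finset.filter_subset _ _

end Pool.Agent.N932.FL
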