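import Pool.Agent.N932.FL.One

/-! # Pairs of self-avoiding walks which do not meet -/

set_option autoImplicit false

namespace Pool.Agent.N932.FL

open scoped Classical

section defs

variable {V : Type} [AddCommGroup V]

/-- the `n`-step walks whose steps `1, …, n` avoid `w'` -/
def Lat.av (L : Lat V) {m : ℕ} (n : ℕ) (w' : Fin (m + 1) → V) : Set (Fin (n + 1) → V) :=
  {w ∈ L.walks n | ∀ (i : Fin (m + 1)) (j : Fin (n + 1)), 1 ≤ j.1 → w j ≠ w' i}

/-- the reversed first piece -/
def Lat.rp (L : Lat V) {N : ℕ} (m : ℕ) (ω : Fin (N + 1) → V) : Fin (m + 1) → V :=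
  fun j => L.s (xt ω m) • (xt ω (m - j.1) - xt ω m)

end defs

variable {V : Type} [AddCommGroup V]

theorem Lat.rp_mem (L : Lat V) (hs : ∀ x y, L.Adj x y → L.Adj y x) {N m : ℕ}
    {ω : Fin (N + 1) → V} (h : ω ∈ L.walks N) (hm : m ≤ N) : L.rp m ω ∈ L.walks m := by
  obtain ⟨_, h1, h2⟩ := h
  refine ⟨?_, ?_, ?_⟩
  · show L.s (xt ω m) • (xt ω (m - 0) - xt ω m) = 0
    rw [Nat.sub_zero, sub_self, smul_zero]
  · intro j k hjk
    have h3 := L.smul_inj hjk
    have h4 := sub_left_injective h3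
    have hj := j.2
    have hk := k.2
    rw [xt_eq _ (by omega), xt_eq _ (by omega)] at h4
    have h5 := h1 h4
    rw [Fin.mk.injEq] at h5
    apply Fin.ext
    omega
  · intro j
    have hj := j.2
    refine L.adj _ _ _ (hs _ _ ?_)
    show L.Adj (xt ω (m - (j.1 + 1))) (xt ω (m - j.1))
    rw [xt_eq _ (by omega), xt_eq _ (by omega)]
    have h3 := h2 ⟨m - (j.1 + 1), by omega⟩
    have e1 : (⟨m - (j.1 + 1), by omega⟩ : Fin N).succ = ⟨m - j.1, by omega⟩ := by
      apply Fin.ext
      show m - (j.1 + 1) + 1 = m - j.1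
      omega
    rw [e1] at h3
    exact h3

theorem Lat.card_add_le (L : Lat V) (hs : ∀ x y, L.Adj x y → L.Adj y x) (m n : ℕ) :
    (L.walks (m + n)).ncard ≤ (prs (L.walks m) (fun w' => L.av n w')).ncard := by
  have hfin : (prs (L.walks m) (fun w' => L.av n w')).Finite :=
    ((L.finite m).prod (L.finite n)).subset (fun p hp => ⟨hp.1, hp.2.1⟩)
  refine Set.ncard_le_ncard_of_injOn (fun ω => (L.rp m ω, L.piece m n ω)) ?_ ?_ hfin
  · intro ω hω
    refine ⟨L.rp_mem hs hω (by omega), L.mem hω le_rfl, ?_⟩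
    intro i j hj he
    have hi' := i.2
    have hj' := j.2
    have h3 : xt ω (m + j.1) - xt ω m = xt ω (m - i.1) - xt ω m :=
      L.smul_inj (he : L.s (xt ω m) • (xt ω (m + j.1) - xt ω m) =
      L.s (xt ω m) • (xt ω (m - i.1) - xt ω m))
    have h4 : xt ω (m + j.1) = xt ω (m - i.1) := sub_left_injective h3
    rw [xt_eq _ (by omega), xt_eq _ (by omega)] at h4
    have h5 := hω.2.1 h4
    rw [Fin.mk.injEq] at h5
    omega
  · intro ω hω η hη he
    simp only [Prod.mk.injEq] at he
    obtain ⟨h1, h2⟩ := he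
    have z1 : xt ω 0 = 0 := by rw [xt_eq _ (Nat.zero_le _)]; exact hω.1
    have z2 : xt η 0 = 0 := by rw [xt_eq _ (Nat.zero_le _)]; exact hη.1
    have k1 := congrFun h1 (Fin.last m)
    have k2 : L.s (xt ω m) • (0 - xt ω m) = L.s (xt η m) • (0 - xt η m) := by
      have h3 : L.s (xt ω m) • (xt ω (m - m) - xt ω m) =
        L.s (xt η m) • (xt η (m - m) - xt η m) := k1
      rw [Nat.sub_self, z1, z2] at h3
      exact h3
    have sg : L.s (xt ω m) = L.s (xt η m) := by
      have e1 := L.sw (xt ω m) 0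
      have e2 := L.sw (xt η m) 0
      rw [k2] at e1
      have e3 : L.s (L.s (xt η m) • (0 - xt η m)) * L.s (xt ω m) =
        L.s (L.s (xt η m) • (0 - xt η m)) * L.s (xt η m) := e1.trans e2.symm
      have e4 := congrArg (fun z => L.s (L.s (xt η m) • (0 - xt η m)) * z) e3
      simp only [← mul_assoc, L.ss, one_mul] at e4
      exact e4
    have ve : xt ω m = xt η m := by
      rw [sg] at k2
      have e3 := L.smul_inj k2
      rw [zero_sub, zero_sub] at e3
      exact neg_injective e3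
    have e1 : ∀ k ≤ m, xt ω k = xt η k := by
      intro k hk
      have h3 : L.s (xt ω m) • (xt ω (m - (m - k)) - xt ω m) =
        L.s (xt η m) • (xt η (m - (m - k)) - xt η m) := congrFun h1 ⟨m - k, by omega⟩
      rw [ve] at h3
      have h4 := sub_left_injective (L.smul_inj h3)
      rw [show m - (m - k) = k by omega] at h4
      exact h4
    have e2 : ∀ k ≤ m + n, xt ω k = xt η k := by
      intro k hk
      rcases Nat.le_total k m with hka | hka
      · exact e1 k hka
      · have h3 : L.s (xt ω m) • (xt ω (m + (k - m)) - xt ω m) =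
          L.s (xt η m) • (xt η (m + (k - m)) - xt η m) := congrFun h2 ⟨k - m, by omega⟩
        rw [ve] at h3
        have h4 := sub_left_injective (L.smul_inj h3)
        rw [show m + (k - m) = k by omega] at h4
        exact h4
    funext k
    have hk := k.2
    have := e2 k.1 (by omega)
    rwa [xt_eq _ (by omega), xt_eq _ (by omega)] at this

theorem adjS_symm (x y : ℤ × ℤ) (h : sqLat.Adj x y) : sqLat.Adj y x := by
  show |y.1 - x.1| + |y.2 - x.2| = 1
  have h' : |x.1 - y.1| + |x.2 - y.2| = 1 := h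
  rw [abs_sub_comm y.1, abs_sub_comm y.2]
  exact h'

theorem adjT_symm (x y : ℤ × ℤ) (h : triLat.Adj x y) : triLat.Adj y x := by
  have h' : y - x ∈ ({(1, 0), (-1, 0), (0, 1), (0, -1), (1, -1), (-1, 1)} : Set (ℤ × ℤ)) := h
  show x - y ∈ ({(1, 0), (-1, 0), (0, 1), (0, -1), (1, -1), (-1, 1)} : Set (ℤ × ℤ))
  simp only [Set.mem_insert_iff, Set.mem_singleton_iff, Prod.ext_iff, Prod.fst_sub,
    Prod.snd_sub] at h' ⊢
  omega

theorem adjH_symm (x y : ℤ × ℤ) (h : hexLat.Adj x y) : hexLat.Adj y x := by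
  have h' : AdjH x y := h
  show AdjH y x
  unfold AdjH at h' ⊢
  have e : x - y = -(y - x) := by abel
  rcases h' with h | h | ⟨h, h2⟩ | ⟨h, h2⟩
  · right; left; rw [e, h]; rfl
  · left; rw [e, h]; rfl
  · right; right; right; exact ⟨by rw [e, h]; rfl, h2⟩
  · right; right; left; exact ⟨by rw [e, h]; rfl, h2⟩

/-- the lower bound for the number of the pairs -/
theorem Lat.pair_lower (L : Lat V) (hs : ∀ x y, L.Adj x y → L.Adj y x) {B : ℝ} (hB : L.Quasi B)
    (m n : ℕ) : Real.exp (-(B * Real.log (((min n m : ℕ) : ℝ) + 1) ^ 2)) *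
      ((L.walks m).ncard * (L.walks n).ncard) ≤
      (prs (L.walks m) (fun w' => L.av n w')).ncard := by
  have h1 : ((L.walks (m + n)).ncard : ℝ) ≤ (prs (L.walks m) (fun w' => L.av n w')).ncard := by
    exact_mod_cast L.card_add_le hs m n
  have h2 := hB.2 (m + n) m (by omega)
  rw [show m + n - m = n by omega, min_comm] at h2
  refine le_trans ?_ h1
  rw [Real.exp_neg, inv_mul_le_iff₀ (Real.exp_pos _)]
  exact h2

end Pool.Agent.N932.FL
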