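import Pool.Agent.N932.FL.Geo2
import Pool.Agent.N932.FL.Three
import Pool.Agent.Y943.SL.Uneq

/-! # Influence of the past: square, triangular and honeycomb lattice -/

set_option autoImplicit false

namespace Pool.Agent.N932.FL

open scoped Classical

/-- the bound for `c_a c_{n-a} / c_n` -/
def Lat.Quasi {V : Type} [AddCommGroup V] (L : Lat V) (B : ℝ) : Prop :=
  0 ≤ B ∧ ∀ n a : ℕ, a ≤ n → ((L.walks a).ncard : ℝ) * (L.walks (n - a)).ncard ≤
    Real.exp (B * Real.log (((min a (n - a) : ℕ) : ℝ) + 1) ^ 2) * (L.walks n).ncard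

theorem Lat.c0 {V : Type} [AddCommGroup V] (L : Lat V) : ((L.walks 0).ncard : ℝ) = 1 := by
  rw [← L.card, @cn_zero (SP V) L.sys]
  exact Nat.cast_one

theorem Lat.quasi_of (L : Lat (ℤ × ℤ)) {μ K c C : ℝ} (hμ : 0 < μ)
    (h : Pool.Agent.TH262.UL.Hy (fun n => ((L.walks n).ncard : ℝ) / μ ^ n) K c C) :
    ∃ B : ℝ, L.Quasi B := by
  obtain ⟨B, hB, hs⟩ := h.short
  refine ⟨B, hB, fun n a ha => ?_⟩
  have key : ∀ x y : ℕ, 1 ≤ x → x ≤ y → ((L.walks x).ncard : ℝ) * (L.walks y).ncard ≤
      Real.exp (B * Real.log ((x : ℝ) + 1) ^ 2) * (L.walks (x + y)).ncard := by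
    intro x y hx hxy
    have h1 := hs y x hx hxy
    unfold Pool.Agent.TH262.UL.p at h1
    have p1 := L.card0 x
    have p2 := L.card0 y
    have p3 := L.card0 (x + y)
    have e : ((L.walks (y + x)).ncard : ℝ) / μ ^ (y + x) /
        (((L.walks y).ncard : ℝ) / μ ^ y * (((L.walks x).ncard : ℝ) / μ ^ x)) =
        ((L.walks (x + y)).ncard : ℝ) / ((L.walks x).ncard * (L.walks y).ncard) := by
      rw [add_comm y x, pow_add]
      field_simp
    rw [e, Real.exp_neg, inv_le_comm₀ (Real.exp_pos _) (by positivity), inv_div,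
      div_le_iff₀ p3] at h1
    exact h1
  rcases Nat.eq_zero_or_pos a with h0 | h0
  · subst h0
    rw [L.c0, one_mul, Nat.sub_zero, Nat.zero_min, Nat.cast_zero, zero_add, Real.log_one]
    simp
  · rcases Nat.lt_or_ge a n with h1 | h1
    · rcases Nat.le_total a (n - a) with h2 | h2
      · have h3 := key a (n - a) h0 h2
        rw [show a + (n - a) = n by omega] at h3
        rw [min_eq_left h2]
        exact h3
      · have h3 := key (n - a) a (by omega) h2
        rw [show n - a + a = n by omega, mul_comm ((L.walks (n - a)).ncard : ℝ)] at h3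
        rw [min_eq_right h2]
        exact h3
    · have h2 : a = n := by omega
      subst h2
      rw [Nat.sub_self, L.c0, mul_one, Nat.min_zero, Nat.cast_zero, zero_add, Real.log_one]
      simp

theorem quasi_sq : ∃ B : ℝ, sqLat.Quasi B := by
  obtain ⟨mu, K', h0, hm, -, -⟩ := bounds_word (L := H982P.sqL) H982P.coord_sq
  obtain ⟨K, c, C, h⟩ := Pool.Agent.Y943.SL.hy_sq (fun n => (sqLat.walks n).ncard)
    (fun n => rfl) mu hm
  exact sqLat.quasi_of h0 h

theorem quasi_tri : ∃ B : ℝ, triLat.Quasi B := by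
  obtain ⟨mu, K', h0, hm, -, -⟩ := bounds_word (L := H982P.triL) H982P.coord_tri
  obtain ⟨K, c, C, h⟩ := Pool.Agent.Y943.SL.hy_tri (fun n => (triLat.walks n).ncard)
    (fun n => rfl) mu hm
  exact triLat.quasi_of h0 h

theorem quasi_hex : ∃ B : ℝ, hexLat.Quasi B := by
  obtain ⟨mu, K', h0, hm, -, -⟩ := bounds_word (L := H982P.hexL) H982P.coord_hex
  obtain ⟨K, c, C, h⟩ := Pool.Agent.Y943.SL.hy_hex (fun n => (hexLat.walks n).ncard)
    (fun n => rfl) mu hm
  exact hexLat.quasi_of h0 h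

variable {V : Type} [AddCommGroup V] {Z : Type} {n : ℕ}

theorem card_prs_le (L : Lat V) {S' : Set Z} (hSf : S'.Finite)
    {A' : Z → Set (Fin (n + 1) → V)} (hA' : ∀ z ∈ S', A' z ⊆ L.walks n) :
    (prs S' A').Finite ∧ ((prs S' A').ncard : ℝ) ≤ S'.ncard * (L.walks n).ncard := by
  have h1 : prs S' A' ⊆ S' ×ˢ L.walks n := fun p hp => ⟨hp.1, hA' _ hp.1 hp.2⟩
  have h2 : (S' ×ˢ L.walks n).Finite := hSf.prod (L.finite n)
  refine ⟨h2.subset h1, ?_⟩
  have h3 := Set.ncard_le_ncard h1 h2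
  rw [Set.ncard_prod] at h3
  exact_mod_cast h3

theorem smean_mono {ι : Type} {S : Set ι} (hS : S.Finite) {f g : ι → ℝ}
    (h : ∀ p ∈ S, f p ≤ g p) : smean S f ≤ smean S g := by
  unfold smean
  refine div_le_div_of_nonneg_right ?_ (Nat.cast_nonneg _)
  rw [finsum_mem_eq_finite_toFinset_sum _ hS, finsum_mem_eq_finite_toFinset_sum _ hS]
  exact Finset.sum_le_sum (fun p hp => h p (hS.mem_toFinset.1 hp))

theorem sprob_mono {ι : Type} {S B B' : Set ι} (hS : S.Finite)
    (h : ∀ p ∈ S, p ∈ B → p ∈ B') : sprob S B ≤ sprob S B' := by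
  refine smean_mono hS (fun p hp => ?_)
  by_cases hB : p ∈ B
  · rw [if_pos hB, if_pos (h p hp hB)]
  · rw [if_neg hB]
    split_ifs
    · exact zero_le_one
    · exact le_rfl

/-- **families of conditioned walks, quasi-polynomial case** -/
theorem Lat.family_sq (L : Lat V) {B : ℝ} (hB : L.Quasi B) {S' : Set Z} (hSf : S'.Finite)
    {A' : Z → Set (Fin (n + 1) → V)}
    (hA' : ∀ z ∈ S', A' z ⊆ L.walks n) (hne' : (prs S' A').Nonempty) {D : ℝ}
    (hD : Real.exp (-D) * (S'.ncard * (L.walks n).ncard) ≤ (prs S' A').ncard) (hn : 2 ≤ n) :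
    (∀ (a r : ℕ) (τ : ℕ → ℕ), Monotone τ → τ 0 = a → τ r ≤ n →
      smean (prs S' A') (fun p => ∑ j ∈ Finset.range r,
        L.KLf (A' p.1) a (τ j) (τ (j + 1) - τ j) p.2) ≤
        B * Real.log (((min a (n - a) : ℕ) : ℝ) + 1) ^ 2 + D ∧
      smean (prs S' A') (fun p => Real.exp (1 / 4 * ∑ j ∈ Finset.range r,
        L.TVf (A' p.1) a (τ j) (τ (j + 1) - τ j) p.2 ^ 2)) ≤
        Real.exp (1 / 4 * (B * Real.log (((min a (n - a) : ℕ) : ℝ) + 1) ^ 2 + D))) ∧
    ∀ x : ℝ, 0 ≤ x →
      sprob (prs S' A') {p | ¬ ∀ a l : ℕ, 1 ≤ l → a + l ≤ n →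
        ∑ t ∈ Finset.Icc a (n - l), L.TVf (A' p.1) a t l p.2 ^ 2 ≤
          (4 * B + 24) * l * (Real.log n ^ 2 + D + x)} ≤ Real.exp (-x) := by
  obtain ⟨h1, h2, -⟩ := L.family hSf hA' hne'
  obtain ⟨hB0, hB1⟩ := hB
  obtain ⟨hpf, hple⟩ := card_prs_le L hSf hA'
  have hc := L.card0 n
  have hpos : (0 : ℝ) < (prs S' A').ncard := by
    exact_mod_cast (Set.ncard_pos hpf).2 hne'
  have hS0 : (0 : ℝ) < S'.ncard := by
    by_contra hcon
    have h3 : (S'.ncard : ℝ) = 0 := le_antisymm (not_lt.1 hcon) (Nat.cast_nonneg _)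
    rw [h3, zero_mul] at hple
    linarith
  have hD0 : 0 ≤ D := by
    have h3 : Real.exp (-D) * (S'.ncard * (L.walks n).ncard) ≤
      1 * (S'.ncard * (L.walks n).ncard) := by
      rw [one_mul]
      exact hD.trans hple
    have h4 := le_of_mul_le_mul_right h3 (by positivity)
    have := Real.exp_le_one_iff.1 h4
    linarith
  -- the main quantity
  have hq : ∀ a, a ≤ n → ((L.walks a).ncard : ℝ) * (L.walks (n - a)).ncard * S'.ncard /
      (prs S' A').ncard ≤
      Real.exp (B * Real.log (((min a (n - a) : ℕ) : ℝ) + 1) ^ 2 + D) := by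
    intro a ha
    rw [div_le_iff₀ hpos]
    have h3 := hB1 n a ha
    have h4 : (S'.ncard : ℝ) * (L.walks n).ncard ≤ Real.exp D * (prs S' A').ncard := by
      have h5 := mul_le_mul_of_nonneg_left hD (Real.exp_pos D).le
      rw [← mul_assoc, ← Real.exp_add, add_neg_cancel, Real.exp_zero, one_mul] at h5
      exact h5
    calc ((L.walks a).ncard : ℝ) * (L.walks (n - a)).ncard * S'.ncard
        ≤ Real.exp (B * Real.log (((min a (n - a) : ℕ) : ℝ) + 1) ^ 2) * (L.walks n).ncard *
          S'.ncard := mul_le_mul_of_nonneg_right h3 hS0.le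
      _ = Real.exp (B * Real.log (((min a (n - a) : ℕ) : ℝ) + 1) ^ 2) *
          (S'.ncard * (L.walks n).ncard) := by ring
      _ ≤ Real.exp (B * Real.log (((min a (n - a) : ℕ) : ℝ) + 1) ^ 2) *
          (Real.exp D * (prs S' A').ncard) :=
          mul_le_mul_of_nonneg_left h4 (Real.exp_pos _).le
      _ = _ := by rw [Real.exp_add]; ring
  have hqp : ∀ a, 0 < ((L.walks a).ncard : ℝ) * (L.walks (n - a)).ncard * S'.ncard /
      (prs S' A').ncard := by
    intro a
    have := L.card0 a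
    have := L.card0 (n - a)
    positivity
  refine ⟨fun a r τ hτ h0 hr => ?_, fun x hx => ?_⟩
  · have ha : a ≤ n := by
      have := hτ (Nat.zero_le r)
      omega
    obtain ⟨h3, h4⟩ := h1 a r τ hτ h0 hr
    constructor
    · refine h3.trans ?_
      have h5 := Real.log_le_log (hqp a) (hq a ha)
      rwa [Real.log_exp] at h5
    · refine h4.trans ((Real.rpow_le_rpow (hqp a).le (hq a ha) (by norm_num)).trans
        (le_of_eq ?_))
      rw [← Real.exp_mul, mul_comm]
  · have hn2 : (2 : ℝ) ≤ n := by exact_mod_cast hn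
    have hlog : (0.69 : ℝ) < Real.log n := by
      have h3 : Real.log 2 ≤ Real.log n := Real.log_le_log (by norm_num) hn2
      have := Real.log_two_gt_d9
      linarith
    have hR : ∀ a, a ≤ n → Real.log (((L.walks a).ncard : ℝ) * (L.walks (n - a)).ncard *
        S'.ncard / (prs S' A').ncard) ≤ 4 * B * Real.log n ^ 2 + D := by
      intro a ha
      have h5 := Real.log_le_log (hqp a) (hq a ha)
      rw [Real.log_exp] at h5
      refine h5.trans ?_
      have h6 : Real.log (((min a (n - a) : ℕ) : ℝ) + 1) ≤ 2 * Real.log n := by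
        have h7 : (((min a (n - a) : ℕ) : ℝ) + 1) ≤ n ^ 2 := by
          have h8 : min a (n - a) ≤ n := (min_le_left _ _).trans ha
          have h9 : ((min a (n - a) : ℕ) : ℝ) ≤ n := by exact_mod_cast h8
          nlinarith
        have h8 := Real.log_le_log (by positivity) h7
        rwa [Real.log_pow] at h8
      have h9 : 0 ≤ Real.log (((min a (n - a) : ℕ) : ℝ) + 1) := Real.log_nonneg (by
        have : (0 : ℝ) ≤ ((min a (n - a) : ℕ) : ℝ) := Nat.cast_nonneg _
        linarith)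
      have h10 := mul_le_mul_of_nonneg_left (pow_le_pow_left₀ h9 h6 2) hB0
      linarith
    have h3 := h2 _ (by omega) hR x
    refine (sprob_mono hpf ?_).trans h3
    rintro p - hbad hgood
    apply hbad
    intro a l hl hal
    refine (hgood a l hl hal).trans ?_
    have h4 : 4 * B * Real.log n ^ 2 + D + 12 * Real.log n + 4 * x ≤
        (4 * B + 24) * (Real.log n ^ 2 + D + x) := by
      have h5 : 12 * Real.log n ≤ 24 * Real.log n ^ 2 := by nlinarith
      have h6 : 0 ≤ B * D := mul_nonneg hB0 hD0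
      have h7 : 0 ≤ B * x := mul_nonneg hB0 hx
      nlinarith
    calc (l : ℝ) * (4 * B * Real.log n ^ 2 + D + 12 * Real.log n + 4 * x)
        ≤ l * ((4 * B + 24) * (Real.log n ^ 2 + D + x)) :=
          mul_le_mul_of_nonneg_left h4 (Nat.cast_nonneg _)
      _ = _ := by ring

end Pool.Agent.N932.FL
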