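import Pool.Agent.N932.FL.Spin

/-! # Peeling paths off the even subgraphs -/

set_option autoImplicit false

namespace Pool.Agent.N932.FL

open scoped Classical

section defs

variable {V : Type}

/-- the vertices of `D` which are not in `l` -/
def sdf (D : Set V) (l : List V) : Set V := {v | v ∈ D ∧ v ∉ l}

end defs

variable {V : Type}

theorem sdf_sub (D : Set V) (l : List V) : sdf D l ⊆ D := fun _ h => h.1

theorem src_self (b : V) : src b b = ∅ := by
  ext v
  simp [src]

theorem dg_insert {ω : Finset (Sym2 V)} {e : Sym2 V} (h : e ∉ ω) (v : V) :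
    dg (insert e ω) v = dg ω v + if v ∈ e then 1 else 0 := by
  unfold dg
  rw [Finset.filter_insert]
  split_ifs with hv
  · rw [Finset.card_insert_of_notMem]
    intro h1
    exact h (Finset.mem_filter.1 h1).1
  · rfl

/-- adding the first edge -/
theorem CC_step {Adj : V → V → Prop} {x : ℝ} (hx : 0 ≤ x) {D : Set V} (hD : D.Finite)
    {b u : V} (hb : b ∈ D) (hbu : u ≠ b) (N : Finset V)
    (hN : ∀ c ∈ N, c ∈ D ∧ c ≠ b ∧ Adj b c) :
    ∑ c ∈ N, x * CC Adj x (sdf D [b]) (src c u) ≤ CC Adj x D (src b u) := by
  have hD' : (sdf D [b]).Finite := hD.subset (sdf_sub D [b])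
  have hcf : ∀ c, (cfg Adj (sdf D [b]) (src c u)).Finite := fun c => cfg_fin hD' _
  have hnb : ∀ c ω, ω ∈ cfg Adj (sdf D [b]) (src c u) → ∀ e ∈ ω, b ∉ e := by
    intro c ω hω e he hbe
    have := (edg_mem (hω.1 e he) hbe).2
    simp at this
  have h1 : ∀ c ∈ N, x * CC Adj x (sdf D [b]) (src c u) =
      ∑ ω ∈ (hcf c).toFinset, x ^ (insert s(b, c) ω).card := by
    intro c _
    unfold CC
    rw [finsum_mem_eq_finite_toFinset_sum _ (hcf c), Finset.mul_sum]
    refine Finset.sum_congr rfl (fun ω hω => ?_)
    rw [Set.Finite.mem_toFinset] at hω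
    rw [Finset.card_insert_of_notMem, pow_succ']
    intro h2
    exact hnb c ω hω _ h2 (Sym2.mem_mk_left b c)
  rw [Finset.sum_congr rfl h1, Finset.sum_sigma' N (fun c => (hcf c).toFinset)
    (fun c ω => x ^ (insert s(b, c) ω).card)]
  unfold CC
  rw [finsum_mem_eq_finite_toFinset_sum _ (cfg_fin hD (src b u))]
  have hinj : Set.InjOn (fun z : (Σ _ : V, Finset (Sym2 V)) => insert s(b, z.1) z.2)
      (N.sigma (fun c => (hcf c).toFinset) : Set _) := by
    rintro ⟨c, ω⟩ h2 ⟨c', ω'⟩ h3 h4
    have h4' : insert s(b, c) ω = insert s(b, c') ω' := h4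
    have h2' : c ∈ N ∧ ω ∈ (hcf c).toFinset := Finset.mem_sigma.1 h2
    have h3' : c' ∈ N ∧ ω' ∈ (hcf c').toFinset := Finset.mem_sigma.1 h3
    rw [Set.Finite.mem_toFinset] at h2' h3'
    have h5 : s(b, c) ∈ insert s(b, c') ω' := by
      rw [← h4']
      exact Finset.mem_insert_self _ _
    have h6 : s(b, c) = s(b, c') := by
      rcases Finset.mem_insert.1 h5 with h | h
      · exact h
      · exact absurd (Sym2.mem_mk_left b c) (hnb c' ω' h3'.2 _ h)
    have h7 : c = c' := by
      rw [Sym2.congr_right] at h6
      exact h6
    subst h7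
    have h8 : s(b, c) ∉ ω := fun h => hnb c ω h2'.2 _ h (Sym2.mem_mk_left b c)
    have h9 : s(b, c) ∉ ω' := fun h => hnb c ω' h3'.2 _ h (Sym2.mem_mk_left b c)
    have h10 : ω = ω' := by
      rw [← Finset.erase_insert h8, ← Finset.erase_insert h9, h4']
    rw [h10]
  rw [← Finset.sum_image (f := fun ω : Finset (Sym2 V) => x ^ ω.card) hinj]
  refine Finset.sum_le_sum_of_subset_of_nonneg (fun ω hω => ?_) (fun ω _ _ => by positivity)
  rw [Finset.mem_image] at hω
  obtain ⟨⟨c, ω'⟩, h2, rfl⟩ := hω
  have h2' : c ∈ N ∧ ω' ∈ (hcf c).toFinset := Finset.mem_sigma.1 h2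
  rw [Set.Finite.mem_toFinset] at h2'
  obtain ⟨hc, hω'⟩ := h2'
  obtain ⟨h3, h4, h5⟩ := hN c hc
  rw [Set.Finite.mem_toFinset]
  refine ⟨?_, ?_⟩
  · intro e he
    rcases Finset.mem_insert.1 he with rfl | he
    · exact ⟨b, c, hb, h3, h5, rfl⟩
    · exact edg_mono (sdf_sub D [b]) (hω'.1 e he)
  · intro v
    have h6 : s(b, c) ∉ ω' := fun h => hnb c ω' hω' _ h (Sym2.mem_mk_left b c)
    show Odd (dg (insert s(b, c) ω') v) ↔ v ∈ src b u
    rw [dg_insert h6]
    have h7 := hω'.2 v
    simp only [src, Set.mem_ofPred_eq] at h7 ⊢
    by_cases hvb : v = b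
    · have h8 : dg ω' v = 0 := by
        unfold dg
        rw [Finset.card_eq_zero, Finset.filter_eq_empty_iff]
        intro e he
        rw [hvb]
        exact hnb c ω' hω' e he
      rw [h8, hvb, if_pos (Sym2.mem_mk_left b c)]
      simp only [zero_add, true_iff]
      exact ⟨fun _ h => hbu h.symm, fun _ => odd_one⟩
    · by_cases hvc : v = c
      · have hmem : v ∈ s(b, c) := by
          rw [hvc]
          exact Sym2.mem_mk_right b c
        rw [if_pos hmem, Nat.odd_add_one, h7]
        simp only [hvc, h4, not_not, true_iff, false_iff]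
      · have hmem : v ∉ s(b, c) := by
          rw [Sym2.mem_iff]
          tauto
        rw [if_neg hmem, add_zero, h7]
        simp only [hvb, hvc]

/-- **peeling a path** -/
theorem peel {Adj : V → V → Prop} {x : ℝ} (hx : 0 ≤ x) (n : ℕ) :
    ∀ {D : Set V}, D.Finite → D.ncard = n → ∀ b u : V,
      ∑ᶠ l ∈ trj Adj D b u, x ^ (l.length - 1) * CC Adj x (sdf D l.dropLast) ∅ ≤
        CC Adj x D (src b u) := by
  induction n with
  | zero =>
    intro D hD hn b u
    have h1 : D = ∅ := (Set.ncard_eq_zero hD).1 hn
    have h2 : trj Adj D b u = ∅ := by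
      rw [Set.eq_empty_iff_forall_notMem]
      intro l hl
      obtain ⟨h3, h4, h5, h6, h7⟩ := hl
      have h8 := h7 b (List.mem_of_mem_head? h3)
      rw [h1] at h8
      exact h8
    rw [h2]
    simp only [Set.mem_empty_iff_false, finsum_false, finsum_zero]
    exact CC_nonneg hx hD _
  | succ n ih =>
    intro D hD hn b u
    by_cases hb : b ∈ D
    swap
    · have h2 : trj Adj D b u = ∅ := by
        rw [Set.eq_empty_iff_forall_notMem]
        intro l hl
        exact hb (hl.2.2.2.2 b (List.mem_of_mem_head? hl.1))
      rw [h2]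
      simp only [Set.mem_empty_iff_false, finsum_false, finsum_zero]
      exact CC_nonneg hx hD _
    by_cases hub : u = b
    · subst hub
      have h2 : trj Adj D u u = {[u]} := by
        ext l
        rw [Set.mem_singleton_iff]
        constructor
        · rintro ⟨h3, h4, h5, h6, h7⟩
          cases l with
          | nil => simp at h3
          | cons v l =>
            simp only [List.head?_cons, Option.some.injEq] at h3
            subst h3
            cases l with
            | nil => rfl
            | cons w l =>
              exfalso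
              have h8 : v ∈ w :: l := by
                have h9 : (w :: l).getLast? = some v := by
                  simpa using h4
                exact List.mem_of_mem_getLast? h9
              exact (List.nodup_cons.1 h5).1 h8
        · rintro rfl
          exact ⟨rfl, rfl, List.nodup_singleton u, List.isChain_singleton u, by simpa using hb⟩
      rw [h2, src_self, finsum_mem_singleton]
      have h3 : sdf D ([u] : List V).dropLast = D := by
        ext v
        simp [sdf]
      rw [h3]
      simp
    · obtain ⟨Nb, hNb⟩ : ∃ Nb : Finset V, Nb =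
          hD.toFinset.filter (fun c => c ≠ b ∧ Adj b c) := ⟨_, rfl⟩
      have hN : ∀ c ∈ Nb, c ∈ D ∧ c ≠ b ∧ Adj b c := by
        intro c hc
        rw [hNb, Finset.mem_filter, Set.Finite.mem_toFinset] at hc
        exact hc
      refine le_trans ?_ (CC_step hx hD hb hub Nb hN)
      have hD' : (sdf D [b]).Finite := hD.subset (sdf_sub D [b])
      have hn' : (sdf D [b]).ncard = n := by
        have h1 : sdf D [b] = D \ {b} := by
          ext v
          simp [sdf]
        rw [h1, Set.ncard_sdiff_singleton_of_mem hb, hn]
        rfl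
      have hf : ∀ c, (trj Adj (sdf D [b]) c u).Finite := fun c => trj_fin hD' c u
      rw [finsum_mem_eq_finite_toFinset_sum _ (trj_fin hD b u)]
      have hsub : (trj_fin (Adj := Adj) hD b u).toFinset ⊆
          (Nb.sigma (fun c => (hf c).toFinset)).image
            (fun z : (Σ _ : V, List V) => b :: z.2) := by
        intro l hl
        rw [Set.Finite.mem_toFinset] at hl
        obtain ⟨h3, h4, h5, h6, h7⟩ := hl
        cases l with
        | nil => simp at h3
        | cons v l =>
          simp only [List.head?_cons, Option.some.injEq] at h3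
          subst h3
          cases l with
          | nil =>
            exfalso
            simp only [List.getLast?_singleton, Option.some.injEq] at h4
            exact hub h4.symm
          | cons w l =>
            rw [Finset.mem_image]
            refine ⟨⟨w, w :: l⟩, ?_, rfl⟩
            rw [Finset.mem_sigma, Set.Finite.mem_toFinset]
            have h8 := List.nodup_cons.1 h5
            have h9 := List.isChain_cons_cons.1 h6
            refine ⟨?_, rfl, by simpa using h4, h8.2, h9.2, ?_⟩
            · rw [hNb, Finset.mem_filter, Set.Finite.mem_toFinset]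
              refine ⟨h7 w (by simp), ?_, h9.1⟩
              rintro rfl
              exact h8.1 List.mem_cons_self
            · intro z hz
              refine ⟨h7 z (List.mem_cons_of_mem _ hz), ?_⟩
              rw [List.mem_singleton]
              rintro rfl
              exact h8.1 hz
      refine (Finset.sum_le_sum_of_subset_of_nonneg hsub (fun l _ _ => ?_)).trans ?_
      · exact mul_nonneg (by positivity) (CC_nonneg hx (hD.subset (sdf_sub D _)) _)
      refine le_trans (sum_image_le _ _ (fun l => ?_)) ?_
      · exact mul_nonneg (by positivity) (CC_nonneg hx (hD.subset (sdf_sub D _)) _)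
      rw [Finset.sum_sigma]
      refine Finset.sum_le_sum (fun c hc => ?_)
      have h1 := mul_le_mul_of_nonneg_left (ih hD' hn' c u) hx
      refine le_trans (le_of_eq ?_) h1
      rw [finsum_mem_eq_finite_toFinset_sum _ (hf c), Finset.mul_sum]
      refine Finset.sum_congr rfl (fun l hl => ?_)
      rw [Set.Finite.mem_toFinset] at hl
      have h2 := (trj_sall hl).1
      have h3 : sdf D (b :: l).dropLast = sdf (sdf D [b]) l.dropLast := by
        rw [List.dropLast_cons_of_ne_nil h2]
        ext v
        simp only [sdf, Set.mem_ofPred_eq, List.mem_cons, List.not_mem_nil, or_false]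
        tauto
      have h4 : (b :: l).length - 1 = (l.length - 1) + 1 := by
        have := List.length_pos_iff.2 h2
        simp only [List.length_cons]
        omega
      show x ^ ((b :: l).length - 1) * CC Adj x (sdf D (b :: l).dropLast) ∅ = _
      rw [h3, h4, pow_succ']
      ring

end Pool.Agent.N932.FL
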