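import Pool.Agent.N932.FL.Peel
import Pool.Agent.N932.FL.Crit2

/-! # Sums over paths with the even subgraphs of the rest -/

set_option autoImplicit false

namespace Pool.Agent.N932.FL

open scoped Classical

variable {V : Type}

theorem peel1 {Adj : V → V → Prop} {x : ℝ} (hx : 0 ≤ x) (hx1 : x ≤ 1) {D : Set V} (hD : D.Finite)
    (b u : V) : ∑ᶠ l ∈ trj Adj D b u, x ^ (l.length - 1) * CC Adj x (sdf D l.dropLast) ∅ ≤
      CC Adj x D ∅ :=
  (peel hx D.ncard hD rfl b u).trans (CC_le hx hx1 hD _)

theorem wnn {Adj : V → V → Prop} {x : ℝ} (hx : 0 ≤ x) {D : Set V} (hD : D.Finite) (n : ℕ)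
    (l : List V) : 0 ≤ x ^ n * CC Adj x (sdf D l) ∅ :=
  mul_nonneg (by positivity) (CC_nonneg hx (hD.subset (sdf_sub D _)) _)

theorem peel_strt {Adj : V → V → Prop} {x : ℝ} (hx : 0 ≤ x) (hx1 : x ≤ 1) {D : Set V}
    (hD : D.Finite) (a : V) :
    ∑ᶠ l ∈ strt Adj D a, x ^ (l.length - 1) * CC Adj x (sdf D l.dropLast) ∅ ≤
      D.ncard * CC Adj x D ∅ := by
  obtain ⟨Df, hDf⟩ : ∃ Df : Finset V, (Df : Set V) = D := ⟨hD.toFinset, hD.coe_toFinset⟩
  rw [finsum_mem_eq_finite_toFinset_sum _ (strt_fin hD a)]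
  have hmaps : ∀ l ∈ (strt_fin (Adj := Adj) hD a).toFinset, l.getLast? ∈ Df.image some := by
    intro l hl
    rw [Set.Finite.mem_toFinset] at hl
    have h1 : l ≠ [] := by
      rintro rfl
      have := hl.1
      simp at this
    obtain ⟨u, v, m', m'', h4, h5, h6, h7⟩ := ends_of h1
    rw [Finset.mem_image]
    refine ⟨v, ?_, h5.symm⟩
    rw [← Finset.mem_coe, hDf]
    exact hl.2.2.2 v (List.mem_of_mem_getLast? h5)
  rw [← Finset.sum_fiberwise_of_maps_to hmaps,
    Finset.sum_image (fun _ _ _ _ h => Option.some.inj h)]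
  have h1 : (D.ncard : ℝ) * CC Adj x D ∅ = ∑ v ∈ Df, CC Adj x D ∅ := by
    rw [Finset.sum_const, nsmul_eq_mul, ← hDf, Set.ncard_coe_finset]
  rw [h1]
  refine Finset.sum_le_sum (fun v _ => le_trans ?_ (peel1 hx hx1 hD a v))
  rw [finsum_mem_eq_finite_toFinset_sum _ (trj_fin hD a v)]
  refine Finset.sum_le_sum_of_subset_of_nonneg (fun l hl => ?_) (fun l _ _ => wnn hx hD _ _)
  rw [Finset.mem_filter, Set.Finite.mem_toFinset] at hl
  rw [Set.Finite.mem_toFinset]
  exact ⟨hl.1.1, hl.2, hl.1.2.1, hl.1.2.2.1, hl.1.2.2.2⟩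

theorem rev_mem {Adj : V → V → Prop} (hs : ∀ x y, Adj x y → Adj y x) {D : Set V} {b : V}
    {l : List V} (h : l ∈ ends Adj D b) : l.reverse ∈ strt Adj D b := by
  obtain ⟨h1, h2, h3, h4⟩ := h
  refine ⟨by rw [List.head?_reverse]; exact h1, List.nodup_reverse.2 h2, ?_, ?_⟩
  · rw [List.isChain_reverse]
    exact h3.imp (fun _ _ h => hs _ _ h)
  · intro v hv
    exact h4 v (List.mem_reverse.1 hv)

theorem peel_ends {Adj : V → V → Prop} (hs : ∀ x y, Adj x y → Adj y x) {x : ℝ} (hx : 0 ≤ x)
    (hx1 : x ≤ 1) {D : Set V} (hD : D.Finite) (b : V) :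
    ∑ᶠ l ∈ ends Adj D b, x ^ (l.length - 1) * CC Adj x (sdf D l.tail) ∅ ≤
      D.ncard * CC Adj x D ∅ := by
  refine le_trans ?_ (peel_strt hx hx1 hD b)
  rw [finsum_mem_eq_finite_toFinset_sum _ (strt_fin hD b),
    finsum_mem_eq_finite_toFinset_sum _ (ends_fin hD b)]
  have h1 : ∀ l ∈ (ends_fin (Adj := Adj) hD b).toFinset,
      x ^ (l.length - 1) * CC Adj x (sdf D l.tail) ∅ =
      x ^ (l.reverse.length - 1) * CC Adj x (sdf D l.reverse.dropLast) ∅ := by
    intro l _
    rw [List.length_reverse]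
    congr 2
    ext v
    simp only [sdf, Set.mem_ofPred_eq]
    rw [List.dropLast_reverse, List.mem_reverse]
  rw [Finset.sum_congr rfl h1]
  rw [← Finset.sum_image (f := fun l : List V =>
    x ^ (l.length - 1) * CC Adj x (sdf D l.dropLast) ∅)
    (fun _ _ _ _ h => List.reverse_injective h)]
  refine Finset.sum_le_sum_of_subset_of_nonneg (fun l hl => ?_) (fun l _ _ => wnn hx hD _ _)
  rw [Finset.mem_image] at hl
  obtain ⟨l', h2, rfl⟩ := hl
  rw [Set.Finite.mem_toFinset] at h2 ⊢
  exact rev_mem hs h2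

/-- the second vertex, or the first one if there is only one -/
def sec (l : List V) : Option V :=
  match l with
  | [] => none
  | [v] => some v
  | _ :: w :: _ => some w

theorem peel_sall {Adj : V → V → Prop} {x : ℝ} (hx : 0 ≤ x) (hx1 : x ≤ 1) {D : Set V}
    (hD : D.Finite) :
    ∑ᶠ l ∈ sall Adj D, x ^ (l.length - 1) * CC Adj x (sdf D l.tail.dropLast) ∅ ≤
      (D.ncard : ℝ) ^ 3 * CC Adj x D ∅ := by
  obtain ⟨Df, hDf⟩ : ∃ Df : Finset V, (Df : Set V) = D := ⟨hD.toFinset, hD.coe_toFinset⟩
  rw [finsum_mem_eq_finite_toFinset_sum _ (sall_fin hD)]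
  have hmaps : ∀ l ∈ (sall_fin (Adj := Adj) hD).toFinset, (l.head?, sec l, l.getLast?) ∈
      (Df ×ˢ (Df ×ˢ Df)).image (fun z => (some z.1, some z.2.1, some z.2.2)) := by
    intro l hl
    rw [Set.Finite.mem_toFinset] at hl
    obtain ⟨h1, h2, h3, h4⟩ := hl
    have hmem : ∀ v ∈ l, v ∈ Df := by
      intro v hv
      rw [← Finset.mem_coe, hDf]
      exact h4 v hv
    rw [Finset.mem_image]
    cases l with
    | nil => exact absurd rfl h1
    | cons v l =>
      cases l with
      | nil =>
        refine ⟨(v, v, v), ?_, rfl⟩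
        rw [Finset.mem_product, Finset.mem_product]
        exact ⟨hmem v (by simp), hmem v (by simp), hmem v (by simp)⟩
      | cons w l =>
        refine ⟨(v, w, (v :: w :: l).getLast (by simp)), ?_, ?_⟩
        · rw [Finset.mem_product, Finset.mem_product]
          exact ⟨hmem v (by simp), hmem w (by simp), hmem _ (List.getLast_mem (by simp))⟩
        · show (some v, some w, some ((v :: w :: l).getLast (by simp))) =
            ((v :: w :: l).head?, sec (v :: w :: l), (v :: w :: l).getLast?)
          rw [List.getLast?_eq_some_getLast (by simp : v :: w :: l ≠ [])]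
          rfl
  rw [← Finset.sum_fiberwise_of_maps_to hmaps]
  have hinj : Set.InjOn (fun z : V × V × V => (some z.1, some z.2.1, some z.2.2))
      ((Df ×ˢ (Df ×ˢ Df) : Finset (V × V × V)) : Set (V × V × V)) := by
    rintro ⟨a, b, c⟩ _ ⟨a', b', c'⟩ _ h
    simpa using h
  rw [Finset.sum_image hinj]
  have h1 : (D.ncard : ℝ) ^ 3 * CC Adj x D ∅ = ∑ z ∈ Df ×ˢ (Df ×ˢ Df), CC Adj x D ∅ := by
    rw [Finset.sum_const, nsmul_eq_mul, ← hDf, Set.ncard_coe_finset, Finset.card_product,
      Finset.card_product]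
    push_cast
    ring
  rw [h1]
  refine Finset.sum_le_sum (fun z _ => ?_)
  obtain ⟨v, w, u⟩ := z
  by_cases hvw : w = v
  · -- one vertex
    have h2 : (sall_fin (Adj := Adj) hD).toFinset.filter (fun l =>
        (l.head?, sec l, l.getLast?) = (some v, some w, some u)) ⊆ {[v]} := by
      intro l hl
      rw [Finset.mem_filter, Set.Finite.mem_toFinset] at hl
      obtain ⟨⟨h3, h4, h5, h6⟩, h7⟩ := hl
      simp only [Prod.mk.injEq] at h7
      rw [Finset.mem_singleton]
      cases l with
      | nil => exact absurd rfl h3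
      | cons v' l =>
        have h8 : v' = v := by simpa using h7.1
        cases l with
        | nil => rw [h8]
        | cons w' l =>
          exfalso
          have h9 : w' = w := by simpa [sec] using h7.2.1
          rw [h8, h9, hvw] at h4
          exact (List.nodup_cons.1 h4).1 List.mem_cons_self
    refine (Finset.sum_le_sum_of_subset_of_nonneg h2 (fun l _ _ => wnn hx hD _ _)).trans ?_
    rw [Finset.sum_singleton]
    have h3 : sdf D ([v] : List V).tail.dropLast = D := by
      ext v
      simp [sdf]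
    rw [h3]
    simp
  · refine le_trans ?_ (peel1 hx hx1 hD w u)
    rw [finsum_mem_eq_finite_toFinset_sum _ (trj_fin hD w u)]
    have h2 : (sall_fin (Adj := Adj) hD).toFinset.filter (fun l =>
        (l.head?, sec l, l.getLast?) = (some v, some w, some u)) ⊆
        (trj_fin (Adj := Adj) hD w u).toFinset.image (fun l => v :: l) := by
      intro l hl
      rw [Finset.mem_filter, Set.Finite.mem_toFinset] at hl
      obtain ⟨⟨h3, h4, h5, h6⟩, h7⟩ := hl
      simp only [Prod.mk.injEq] at h7
      rw [Finset.mem_image]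
      cases l with
      | nil => exact absurd rfl h3
      | cons v' l =>
        have h8 : v' = v := by simpa using h7.1
        subst h8
        cases l with
        | nil =>
          exfalso
          have h9 : v' = w := by simpa [sec] using h7.2.1
          exact hvw h9.symm
        | cons w' l =>
          have h9 : w' = w := by simpa [sec] using h7.2.1
          subst h9
          refine ⟨w' :: l, ?_, rfl⟩
          rw [Set.Finite.mem_toFinset]
          refine ⟨rfl, ?_, (List.nodup_cons.1 h4).2, (List.isChain_cons_cons.1 h5).2,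
            fun z hz => h6 z (List.mem_cons_of_mem _ hz)⟩
          simpa using h7.2.2
    refine (Finset.sum_le_sum_of_subset_of_nonneg h2 (fun l _ _ => wnn hx hD _ _)).trans ?_
    refine le_trans (sum_image_le _ _ (fun l => wnn hx hD _ _)) ?_
    refine Finset.sum_le_sum (fun l hl => ?_)
    rw [Set.Finite.mem_toFinset] at hl
    have h3 := List.length_pos_iff.2 (trj_sall hl).1
    show x ^ ((v :: l).length - 1) * CC Adj x (sdf D (v :: l).tail.dropLast) ∅ ≤ _
    have h4 : (v :: l).length - 1 = (l.length - 1) + 1 := by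
      simp only [List.length_cons]
      omega
    rw [List.tail_cons, h4, pow_succ]
    have h5 := wnn (Adj := Adj) hx hD (l.length - 1) l.dropLast
    nlinarith

end Pool.Agent.N932.FL
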