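import Pool.Agent.N932.FL.Rer2

/-! # Rerouting: polygons on the square lattice -/

set_option autoImplicit false

namespace Pool.Agent.N932.FL.Poly

open scoped Classical

section defs

/-- closed nearest-neighbour loops without self-intersections -/
def IsPoly (n : ℕ) (f : ZMod (2 * n) → ℤ × ℤ) : Prop :=
  Function.Injective f ∧ ∀ i : ZMod (2 * n), |(f (i + 1)).1 - (f i).1| + |(f (i + 1)).2 - (f i).2| = 1

/-- the loops which start at the origin -/
def loops (n : ℕ) : Set (ZMod (2 * n) → ℤ × ℤ) := {f | f 0 = 0 ∧ IsPoly n f}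

/-- the loops which agree with `f` outside `S` -/
def rer (n : ℕ) (S : Set (ZMod (2 * n))) (f : ZMod (2 * n) → ℤ × ℤ) :
    Set (ZMod (2 * n) → ℤ × ℤ) :=
  {g | IsPoly n g ∧ ∀ i, i ∉ S → g i = f i}

/-- the number of the switches -/
noncomputable def bs (n : ℕ) (S : Set (ZMod (2 * n))) : ℕ :=
  Set.ncard {i : ZMod (2 * n) | ¬ (i ∈ S ↔ i - 1 ∈ S)}

/-- the sites in `{1, …, N}` -/
noncomputable def sf (n : ℕ) (S : Set (ZMod (2 * n))) : Finset ℕ :=
  (Finset.Icc 1 (2 * n - 1)).filter (fun i => (i : ZMod (2 * n)) ∈ S)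

/-- the loop as a walk -/
def e (n : ℕ) (f : ZMod (2 * n) → ℤ × ℤ) : Fin (2 * n - 1 + 1) → ℤ × ℤ :=
  fun i => f (i.1 : ZMod (2 * n))

/-- the rotated loop -/
def rot (n : ℕ) (k : ZMod (2 * n)) (f : ZMod (2 * n) → ℤ × ℤ) : ZMod (2 * n) → ℤ × ℤ :=
  fun i => f (i + k) - f k

/-- the rotated set -/
def rs (n : ℕ) (k : ZMod (2 * n)) (S : Set (ZMod (2 * n))) : Set (ZMod (2 * n)) :=
  {i | i + k ∈ S}

end defs

theorem cast_inj {n a b : ℕ} (ha : a < 2 * n) (hb : b < 2 * n)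
    (h : (a : ZMod (2 * n)) = (b : ZMod (2 * n))) : a = b := by
  rw [ZMod.natCast_eq_natCast_iff', Nat.mod_eq_of_lt ha, Nat.mod_eq_of_lt hb] at h
  exact h

theorem e_inj {n : ℕ} (hn : 1 ≤ n) : Function.Injective (e n) := by
  have : NeZero (2 * n) := ⟨by omega⟩
  intro f g h
  funext z
  have h1 := congrFun h ⟨z.val, by have := z.val_lt; omega⟩
  unfold e at h1
  simp only [ZMod.natCast_zmod_val] at h1
  exact h1

theorem e_mem {n : ℕ} (hn : 1 ≤ n) {f : ZMod (2 * n) → ℤ × ℤ} (h : f ∈ loops n) :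
    e n f ∈ sqLat.walks (2 * n - 1) := by
  obtain ⟨h0, h1, h2⟩ := h
  refine ⟨?_, ?_, ?_⟩
  · show f (((0 : Fin (2 * n - 1 + 1)).1 : ℕ) : ZMod (2 * n)) = 0
    rw [Fin.val_zero, Nat.cast_zero, h0]
  · intro i j hij
    have hi := i.2
    have hj := j.2
    exact Fin.ext (cast_inj (by omega) (by omega) (h1 hij))
  · intro i
    have h3 := h2 (i.1 : ZMod (2 * n))
    show |(f ((i.1 : ℕ) : ZMod (2 * n))).1 - (f ((i.1 + 1 : ℕ) : ZMod (2 * n))).1| +
      |(f ((i.1 : ℕ) : ZMod (2 * n))).2 - (f ((i.1 + 1 : ℕ) : ZMod (2 * n))).2| = 1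
    rw [Nat.cast_add, Nat.cast_one, abs_sub_comm, abs_sub_comm (f ((i.1 : ℕ) : ZMod (2 * n))).2]
    exact h3

theorem loops_fin {n : ℕ} (hn : 1 ≤ n) : (loops n).Finite :=
  ((sqLat.finite (2 * n - 1)).preimage (e_inj hn).injOn).subset (fun _ h => e_mem hn h)

theorem sf_sub {n : ℕ} (S : Set (ZMod (2 * n))) : sf n S ⊆ Finset.Icc 1 (2 * n - 1) :=
  Finset.filter_subset _ _

theorem mem_sf {n i : ℕ} (hn : 1 ≤ n) {S : Set (ZMod (2 * n))} (h0 : (0 : ZMod (2 * n)) ∉ S)
    (hi : i < 2 * n) : i ∈ sf n S ↔ (i : ZMod (2 * n)) ∈ S := by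
  unfold sf
  rw [Finset.mem_filter, Finset.mem_Icc]
  constructor
  · exact fun h => h.2
  · intro h
    refine ⟨⟨?_, by omega⟩, h⟩
    by_contra h1
    have h2 : i = 0 := by omega
    subst h2
    rw [Nat.cast_zero] at h
    exact h0 h

theorem sf_card {n : ℕ} (hn : 1 ≤ n) {S : Set (ZMod (2 * n))} (h0 : (0 : ZMod (2 * n)) ∉ S) :
    (sf n S).card = S.ncard := by
  have : NeZero (2 * n) := ⟨by omega⟩
  have h1 : S = (fun i : ℕ => (i : ZMod (2 * n))) '' (sf n S : Set ℕ) := by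
    ext z
    constructor
    · intro hz
      refine ⟨z.val, ?_, ZMod.natCast_zmod_val z⟩
      rw [Finset.mem_coe, mem_sf hn h0 z.val_lt, ZMod.natCast_zmod_val]
      exact hz
    · rintro ⟨i, hi, rfl⟩
      exact (Finset.mem_filter.1 hi).2
  have h2 : Set.InjOn (fun i : ℕ => (i : ZMod (2 * n))) (sf n S : Set ℕ) := by
    intro a ha b hb hab
    have ha' := Finset.mem_Icc.1 (sf_sub S ha)
    have hb' := Finset.mem_Icc.1 (sf_sub S hb)
    exact cast_inj (by omega) (by omega) hab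
  conv_rhs => rw [h1]
  rw [h2.ncard_image, Set.ncard_coe_finset]

theorem swt_sf {n : ℕ} (hn : 1 ≤ n) {S : Set (ZMod (2 * n))} (h0 : (0 : ZMod (2 * n)) ∉ S) :
    (swt (2 * n - 1) (sf n S)).card ≤ bs n S := by
  have : NeZero (2 * n) := ⟨by omega⟩
  unfold bs
  rw [← Set.ncard_coe_finset]
  refine Set.ncard_le_ncard_of_injOn (fun i : ℕ => (i : ZMod (2 * n))) ?_ ?_ (Set.toFinite _)
  · intro i hi
    unfold swt at hi
    rw [Finset.mem_coe, Finset.mem_filter, Finset.mem_Icc] at hi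
    obtain ⟨⟨h1, h2⟩, h3⟩ := hi
    rw [mem_sf hn h0 (by omega), mem_sf hn h0 (by omega), Nat.cast_sub h1, Nat.cast_one] at h3
    exact h3
  · intro a ha b hb hab
    unfold swt at ha hb
    rw [Finset.mem_coe, Finset.mem_filter, Finset.mem_Icc] at ha hb
    exact cast_inj (by omega) (by omega) hab

/-- rerouting of loops in terms of walks -/
theorem fill_e {n : ℕ} (hn : 1 ≤ n) {S : Set (ZMod (2 * n))} (h0 : (0 : ZMod (2 * n)) ∉ S)
    {f : ZMod (2 * n) → ℤ × ℤ} (hf : f ∈ loops n) :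
    fill (e n '' loops n) (sf n S) (e n f) = e n '' (rer n S f) := by
  have : NeZero (2 * n) := ⟨by omega⟩
  ext η
  constructor
  · rintro ⟨⟨g, hg, rfl⟩, h2⟩
    refine ⟨g, ⟨hg.2, fun i hi => ?_⟩, rfl⟩
    have hlt := i.val_lt
    have h3 := h2 ⟨i.val, by omega⟩ (by
      show i.val ∉ sf n S
      rw [mem_sf hn h0 hlt, ZMod.natCast_zmod_val]
      exact hi)
    have h4 : g ((i.val : ℕ) : ZMod (2 * n)) = f ((i.val : ℕ) : ZMod (2 * n)) := h3
    rw [ZMod.natCast_zmod_val] at h4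
    exact h4
  · rintro ⟨g, ⟨hg, hg2⟩, rfl⟩
    have hg0 : g 0 = 0 := (hg2 0 h0).trans hf.1
    refine ⟨⟨g, ⟨hg0, hg⟩, rfl⟩, fun i hi => ?_⟩
    have hi2 := i.2
    rw [mem_sf hn h0 (by omega)] at hi
    exact hg2 _ hi

theorem fill_mono {V : Type} [AddCommGroup V] {n : ℕ} {A B : Set (Fin (n + 1) → V)} (h : A ⊆ B)
    (S : Finset ℕ) (ω : Fin (n + 1) → V) : fill A S ω ⊆ fill B S ω :=
  fun _ hη => ⟨h hη.1, hη.2⟩

/-! ### rotations -/

theorem rot_mem {n : ℕ} (k : ZMod (2 * n)) {f : ZMod (2 * n) → ℤ × ℤ} (h : IsPoly n f) :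
    rot n k f ∈ loops n := by
  refine ⟨?_, ?_, ?_⟩
  · show f (0 + k) - f k = 0
    rw [zero_add, sub_self]
  · intro i j hij
    have h1 : f (i + k) = f (j + k) := sub_left_injective hij
    exact add_right_cancel (h.1 h1)
  · intro i
    show |(f (i + 1 + k) - f k).1 - (f (i + k) - f k).1| +
      |(f (i + 1 + k) - f k).2 - (f (i + k) - f k).2| = 1
    rw [Prod.fst_sub, Prod.snd_sub, Prod.fst_sub, Prod.snd_sub, sub_sub_sub_cancel_right,
      sub_sub_sub_cancel_right, add_right_comm]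
    exact h.2 (i + k)

theorem rot_rot {n : ℕ} (k : ZMod (2 * n)) {f : ZMod (2 * n) → ℤ × ℤ} (h : f 0 = 0) :
    rot n (-k) (rot n k f) = f := by
  funext i
  show (f (i + -k + k) - f k) - (f (-k + k) - f k) = f i
  rw [neg_add_cancel_right, neg_add_cancel, h]
  abel

theorem rs_card {n : ℕ} (hn : 1 ≤ n) (k : ZMod (2 * n)) (S : Set (ZMod (2 * n))) :
    (rs n k S).ncard = S.ncard := by
  have h1 : (rs n k S) = (Equiv.addRight k) ⁻¹' S := rfl
  rw [h1]
  exact Set.ncard_preimage_of_injective_subset_range (Equiv.addRight k).injective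
    (by rw [(Equiv.addRight k).surjective.range_eq]; exact Set.subset_univ _)

theorem bs_rs {n : ℕ} (hn : 1 ≤ n) (k : ZMod (2 * n)) (S : Set (ZMod (2 * n))) :
    bs n (rs n k S) = bs n S := by
  unfold bs
  have h1 : {i : ZMod (2 * n) | ¬ (i ∈ rs n k S ↔ i - 1 ∈ rs n k S)} =
      rs n k {i : ZMod (2 * n) | ¬ (i ∈ S ↔ i - 1 ∈ S)} := by
    ext i
    show ¬ (i + k ∈ S ↔ i - 1 + k ∈ S) ↔ ¬ (i + k ∈ S ↔ i + k - 1 ∈ S)
    rw [show i - 1 + k = i + k - 1 by ring]
  rw [h1, rs_card hn]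

theorem rer_rot {n : ℕ} (hn : 1 ≤ n) {k : ZMod (2 * n)} {S : Set (ZMod (2 * n))} (hk : k ∉ S)
    {f : ZMod (2 * n) → ℤ × ℤ} (hf : IsPoly n f) :
    (rer n S f).Finite ∧ (rer n S f).ncard = (rer n (rs n k S) (rot n k f)).ncard := by
  have h0 : (0 : ZMod (2 * n)) ∉ rs n k S := by
    show ¬ (0 + k ∈ S)
    rw [zero_add]
    exact hk
  -- the first map
  have m1 : ∀ g ∈ rer n S f, (fun i => g (i + k) - f k) ∈ rer n (rs n k S) (rot n k f) := by
    rintro g ⟨hg, hg2⟩
    have hgk : g k = f k := hg2 k hk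
    refine ⟨?_, fun i hi => ?_⟩
    · rw [← hgk]
      exact (rot_mem k hg).2
    · show g (i + k) - f k = f (i + k) - f k
      rw [hg2 _ hi]
  have m2 : ∀ g ∈ rer n (rs n k S) (rot n k f), (fun i => g (i - k) + f k) ∈ rer n S f := by
    rintro g ⟨hg, hg2⟩
    refine ⟨⟨?_, ?_⟩, fun i hi => ?_⟩
    · intro i j hij
      have h1 : g (i - k) = g (j - k) := add_right_cancel (b := f k) hij
      exact sub_left_injective (hg.1 h1)
    · intro i
      show |(g (i + 1 - k) + f k).1 - (g (i - k) + f k).1| +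
        |(g (i + 1 - k) + f k).2 - (g (i - k) + f k).2| = 1
      rw [Prod.fst_add, Prod.snd_add, Prod.fst_add, Prod.snd_add, add_sub_add_right_eq_sub,
        add_sub_add_right_eq_sub, show i + 1 - k = i - k + 1 by ring]
      exact hg.2 (i - k)
    · have h1 := hg2 (i - k) (by
        show ¬ (i - k + k ∈ S)
        rw [sub_add_cancel]
        exact hi)
      show g (i - k) + f k = f i
      rw [h1]
      show f (i - k + k) - f k + f k = f i
      rw [sub_add_cancel, sub_add_cancel]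
  have i1 : Set.InjOn (fun (g : ZMod (2 * n) → ℤ × ℤ) => fun i => g (i + k) - f k)
      (rer n S f) := by
    intro g _ g' _ h
    funext i
    have h1 := congrFun h (i - k)
    simp only [sub_add_cancel] at h1
    exact sub_left_injective h1
  have i2 : Set.InjOn (fun (g : ZMod (2 * n) → ℤ × ℤ) => fun i => g (i - k) + f k)
      (rer n (rs n k S) (rot n k f)) := by
    intro g _ g' _ h
    funext i
    have h1 := congrFun h (i + k)
    simp only [add_sub_cancel_right] at h1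
    exact add_right_cancel h1
  have hfin : (rer n (rs n k S) (rot n k f)).Finite := by
    refine (loops_fin hn).subset (fun g hg => ⟨?_, hg.1⟩)
    rw [hg.2 0 h0]
    exact (rot_mem k hf).1
  have hfin2 : (rer n S f).Finite := Set.Finite.of_injOn (fun g hg => m1 g hg) i1 hfin
  exact ⟨hfin2, le_antisymm (Set.ncard_le_ncard_of_injOn _ m1 i1 hfin)
    (Set.ncard_le_ncard_of_injOn _ m2 i2 hfin2)⟩

/-! ### the theorem -/

theorem cr_eq (n : ℕ) : ((sqLat.walks n).ncard : ℝ) = H981.cr' n := by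
  rw [H981.cr'_eq]
  unfold H981.C H981.IsSAW
  rw [← Nat.card_coe_set_eq]
  norm_cast
  apply Nat.card_congr
  apply Equiv.subtypeEquivRight
  intro f
  constructor
  · rintro ⟨h0, h1, h2⟩
    refine ⟨h0, fun i => ?_, h1⟩
    have h3 : |(f i.castSucc).1 - (f i.succ).1| + |(f i.castSucc).2 - (f i.succ).2| = 1 := h2 i
    rw [abs_sub_comm, abs_sub_comm (f i.succ).2]
    exact h3
  · rintro ⟨h0, h2, h1⟩
    refine ⟨h0, h1, fun i => ?_⟩
    show |(f i.castSucc).1 - (f i.succ).1| + |(f i.castSucc).2 - (f i.succ).2| = 1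
    rw [abs_sub_comm, abs_sub_comm (f i.castSucc).2]
    exact h2 i

theorem PP_eq (n : ℕ) : H981.PP n = ((loops n).ncard : ℝ) / (4 * (n : ℝ)) := by
  unfold H981.PP
  congr 2

theorem main : ∃ K : ℝ, 0 < K ∧ ∀ n : ℕ, 2 ≤ n →
    (∀ f ∈ loops n, ∀ S : Set (ZMod (2 * n)), S ≠ Set.univ →
      ((rer n S f).ncard : ℝ) ≤
        H981.mu ^ S.ncard * Real.exp (K * bs n S * Real.log n ^ 2)) ∧
    ∀ x : ℝ, ((loops n ∩ {f | ¬ ∀ S : Set (ZMod (2 * n)), S.Nonempty → S ≠ Set.univ →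
      H981.mu ^ S.ncard * Real.exp (-(K * bs n S * Real.log n ^ 2 + x)) ≤
        (rer n S f).ncard}).ncard : ℝ) ≤ Real.exp (-x) * (loops n).ncard := by
  have hμ := H981.one_le_mu
  have hμ0 := H981.mu_pos
  obtain ⟨Ku, hKu, hup⟩ := Pool.Agent.TH508.LT.sq_upper2
  obtain ⟨Kp, hKp, hpp⟩ := Pool.Agent.TH508.LT.sq_PP2
  obtain ⟨K2, hK2, h2⟩ := sqLat.reroute_sq box_sq hμ
    (fun n hn => by rw [cr_eq]; exact hup n hn)
  refine ⟨4 * K2 + 4 * K2 + Kp + 8, by positivity, fun n hn => ?_⟩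
  have hn1 : 1 ≤ n := by omega
  have : NeZero (2 * n) := ⟨by omega⟩
  have hn2 : (2 : ℝ) ≤ n := by exact_mod_cast hn
  have hl2 : (0.69 : ℝ) < Real.log 2 := by
    have := Real.log_two_gt_d9
    linarith
  have hlog : Real.log 2 ≤ Real.log n := Real.log_le_log (by norm_num) hn2
  have hlog0 : 0.69 < Real.log n := by linarith
  obtain ⟨h3, h4⟩ := h2 (2 * n - 1) (by omega)
  have hcast : ((2 * n - 1 : ℕ) : ℝ) = 2 * n - 1 := by
    rw [Nat.cast_sub (by omega)]
    push_cast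
    ring
  have hlN : Real.log ((2 * n - 1 : ℕ) : ℝ) ^ 2 ≤ 4 * Real.log n ^ 2 := by
    have h5 : Real.log ((2 * n - 1 : ℕ) : ℝ) ≤ 2 * Real.log n := by
      have h6 : ((2 * n - 1 : ℕ) : ℝ) ≤ n ^ 2 := by
        rw [hcast]
        nlinarith [sq_nonneg ((n : ℝ) - 1)]
      have h7 := Real.log_le_log (by rw [hcast]; linarith) h6
      rwa [Real.log_pow] at h7
    have h6 : 0 ≤ Real.log ((2 * n - 1 : ℕ) : ℝ) :=
      Real.log_nonneg (by rw [hcast]; linarith)
    nlinarith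
  have hA : e n '' loops n ⊆ sqLat.walks (2 * n - 1) := by
    rintro _ ⟨f, hf, rfl⟩
    exact e_mem hn1 hf
  have hcA : (e n '' loops n).ncard = (loops n).ncard :=
    Set.ncard_image_of_injective _ (e_inj hn1)
  have hE : Real.exp (-(Kp * Real.log n ^ 2)) * H981.mu ^ (2 * n - 1) ≤
      (e n '' loops n).ncard := by
    rw [hcA]
    have h5 := (hpp n hn).1
    rw [PP_eq, le_div_iff₀ (by positivity)] at h5
    refine le_trans ?_ h5
    have h6 : H981.mu ^ (2 * n - 1) ≤ H981.mu ^ (2 * n) := pow_le_pow_right₀ hμ (by omega)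
    calc Real.exp (-(Kp * Real.log n ^ 2)) * H981.mu ^ (2 * n - 1)
        ≤ Real.exp (-(Kp * Real.log n ^ 2)) * H981.mu ^ (2 * n) :=
          mul_le_mul_of_nonneg_left h6 (Real.exp_pos _).le
      _ = H981.mu ^ (2 * n) * Real.exp (-(Kp * Real.log n ^ 2)) * 1 := by ring
      _ ≤ H981.mu ^ (2 * n) * Real.exp (-(Kp * Real.log n ^ 2)) * (4 * n) :=
          mul_le_mul_of_nonneg_left (by linarith) (by positivity)
  have hpos : (0 : ℝ) < (e n '' loops n).ncard :=
    lt_of_lt_of_le (by positivity) hE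
  have hne : (e n '' loops n).Nonempty := by
    have : 0 < (e n '' loops n).ncard := by exact_mod_cast hpos
    exact (Set.ncard_pos ((sqLat.finite _).subset hA)).1 this
  refine ⟨fun f hf S hS => ?_, fun x => ?_⟩
  · -- upper bound
    obtain ⟨k, hk⟩ : ∃ k, k ∉ S := by
      by_contra hcon
      push Not at hcon
      exact hS (Set.eq_univ_of_forall hcon)
    have h0 : (0 : ZMod (2 * n)) ∉ rs n k S := by
      show ¬ (0 + k ∈ S)
      rw [zero_add]
      exact hk
    rw [(rer_rot hn1 hk hf.2).2]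
    have hrot := rot_mem k hf.2
    have h5 := h3 (e n (rot n k f)) (e_mem hn1 hrot) (sf n (rs n k S)) (sf_sub _)
    have h6 : (rer n (rs n k S) (rot n k f)).ncard ≤
        (fill (sqLat.walks (2 * n - 1)) (sf n (rs n k S)) (e n (rot n k f))).ncard := by
      rw [← Set.ncard_image_of_injective _ (e_inj hn1), ← fill_e hn1 h0 hrot]
      exact Set.ncard_le_ncard (fill_mono hA _ _) ((sqLat.finite _).subset (fun η hη => hη.1))
    have h6' : ((rer n (rs n k S) (rot n k f)).ncard : ℝ) ≤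
        (fill (sqLat.walks (2 * n - 1)) (sf n (rs n k S)) (e n (rot n k f))).ncard := by
      exact_mod_cast h6
    refine h6'.trans (h5.trans ?_)
    rw [sf_card hn1 h0, rs_card hn1]
    refine mul_le_mul_of_nonneg_left (Real.exp_le_exp.2 ?_) (by positivity)
    have h7 : ((swt (2 * n - 1) (sf n (rs n k S))).card : ℝ) ≤ bs n S := by
      have := swt_sf hn1 h0
      rw [bs_rs hn1] at this
      exact_mod_cast this
    have h8 : (0 : ℝ) ≤ bs n S := Nat.cast_nonneg _
    calc K2 * ((swt (2 * n - 1) (sf n (rs n k S))).card : ℝ) *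
          Real.log ((2 * n - 1 : ℕ) : ℝ) ^ 2
        ≤ K2 * (bs n S : ℝ) * (4 * Real.log n ^ 2) := by gcongr
      _ = 4 * K2 * bs n S * Real.log n ^ 2 := by ring
      _ ≤ (4 * K2 + 4 * K2 + Kp + 8) * bs n S * Real.log n ^ 2 := by
          have h9 : 4 * K2 ≤ 4 * K2 + 4 * K2 + Kp + 8 := by linarith
          exact mul_le_mul_of_nonneg_right (mul_le_mul_of_nonneg_right h9 h8) (sq_nonneg _)
  · -- lower bound
    obtain ⟨x', hx'⟩ : ∃ x' : ℝ, x' = x + Real.log (2 * n) := ⟨_, rfl⟩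
    have h5 := h4 (e n '' loops n) hA hne (Kp * Real.log n ^ 2) hE x'
    rw [gprob_ncard ((sqLat.finite _).subset hA), div_le_iff₀ hpos, hcA] at h5
    obtain ⟨B, hB⟩ : ∃ B : Set (Fin (2 * n - 1 + 1) → ℤ × ℤ), B =
        {ω | ¬ ∀ S : Finset ℕ, S ⊆ Finset.Icc 1 (2 * n - 1) → S.Nonempty →
          H981.mu ^ S.card * Real.exp (-(K2 * (swt (2 * n - 1) S).card *
            Real.log ((2 * n - 1 : ℕ) : ℝ) ^ 2 + Kp * Real.log n ^ 2 + x')) ≤
            (fill (e n '' loops n) S ω).ncard} := ⟨_, rfl⟩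
    rw [← hB] at h5
    have hBe : (e n '' loops n ∩ B).ncard = (loops n ∩ e n ⁻¹' B).ncard := by
      rw [← Set.ncard_image_of_injective _ (e_inj hn1), Set.image_inter_preimage]
    rw [hBe] at h5
    -- the bad event
    have hsub : (loops n ∩ {f | ¬ ∀ S : Set (ZMod (2 * n)), S.Nonempty → S ≠ Set.univ →
        H981.mu ^ S.ncard *
          Real.exp (-((4 * K2 + 4 * K2 + Kp + 8) * bs n S * Real.log n ^ 2 + x)) ≤
          (rer n S f).ncard}) ⊆
        ⋃ k ∈ (Finset.univ : Finset (ZMod (2 * n))), (loops n ∩ {f | rot n k f ∈ e n ⁻¹' B}) := by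
      rintro f ⟨hf, hbad⟩
      rw [Set.mem_setOf_eq] at hbad
      push Not at hbad
      obtain ⟨S, hSne, hSu, hlt⟩ := hbad
      obtain ⟨k, hk⟩ : ∃ k, k ∉ S := by
        by_contra hcon
        push Not at hcon
        exact hSu (Set.eq_univ_of_forall hcon)
      rw [Set.mem_iUnion₂]
      refine ⟨k, Finset.mem_univ _, hf, ?_⟩
      show e n (rot n k f) ∈ B
      rw [hB]
      intro hgood
      have h0 : (0 : ZMod (2 * n)) ∉ rs n k S := by
        show ¬ (0 + k ∈ S)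
        rw [zero_add]
        exact hk
      have hrot := rot_mem k hf.2
      have hScard : 0 < S.ncard := (Set.ncard_pos (Set.toFinite _)).2 hSne
      have h6 := hgood (sf n (rs n k S)) (sf_sub _) (by
        rw [← Finset.card_pos, sf_card hn1 h0, rs_card hn1]
        exact hScard)
      rw [fill_e hn1 h0 hrot, Set.ncard_image_of_injective _ (e_inj hn1),
        ← (rer_rot hn1 hk hf.2).2, sf_card hn1 h0, rs_card hn1] at h6
      have h7 : ((swt (2 * n - 1) (sf n (rs n k S))).card : ℝ) ≤ bs n S := by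
        have := swt_sf hn1 h0
        rw [bs_rs hn1] at this
        exact_mod_cast this
      have h8 : (1 : ℝ) ≤ bs n S := by
        have h9 : 1 ≤ (swt (2 * n - 1) (sf n (rs n k S))).card := sw_pos (sf_sub _) (by
          rw [← Finset.card_pos, sf_card hn1 h0, rs_card hn1]
          exact hScard)
        have h10 : (1 : ℝ) ≤ ((swt (2 * n - 1) (sf n (rs n k S))).card : ℝ) := by
          exact_mod_cast h9
        linarith
      refine absurd (le_trans (mul_le_mul_of_nonneg_left (Real.exp_le_exp.2 ?_) (by positivity)) h6)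
        (not_le.2 hlt)
      have h9 : K2 * ((swt (2 * n - 1) (sf n (rs n k S))).card : ℝ) *
          Real.log ((2 * n - 1 : ℕ) : ℝ) ^ 2 ≤ K2 * (bs n S : ℝ) * (4 * Real.log n ^ 2) := by
        gcongr
      have h10 : Real.log (2 * n) ≤ 4 * Real.log n ^ 2 := by
        rw [Real.log_mul (by norm_num) (by linarith)]
        nlinarith
      have h11 : 0 ≤ Real.log n ^ 2 := sq_nonneg _
      have h12 : (Kp + 4) * Real.log n ^ 2 ≤ (Kp + 4) * Real.log n ^ 2 * bs n S :=
        le_mul_of_one_le_right (by positivity) h8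
      have h13 : 0 ≤ (4 * K2 + 4) * Real.log n ^ 2 * bs n S := by positivity
      rw [hx']
      nlinarith
    have hU := Finset.set_ncard_biUnion_le (Finset.univ : Finset (ZMod (2 * n)))
      (fun k => loops n ∩ {f | rot n k f ∈ e n ⁻¹' B})
    have hk : ∀ k : ZMod (2 * n), (loops n ∩ {f | rot n k f ∈ e n ⁻¹' B}).ncard ≤
        (loops n ∩ e n ⁻¹' B).ncard := by
      intro k
      refine Set.ncard_le_ncard_of_injOn (rot n k) ?_ ?_
        ((loops_fin hn1).subset Set.inter_subset_left)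
      · rintro f ⟨hf, hf2⟩
        exact ⟨rot_mem k hf.2, hf2⟩
      · rintro f ⟨hf, -⟩ g ⟨hg, -⟩ h
        rw [← rot_rot k hf.1, ← rot_rot k hg.1, h]
    have hsum : ∑ k ∈ (Finset.univ : Finset (ZMod (2 * n))),
        (loops n ∩ {f | rot n k f ∈ e n ⁻¹' B}).ncard ≤
        2 * n * (loops n ∩ e n ⁻¹' B).ncard := by
      refine (Finset.sum_le_card_nsmul _ _ _ (fun k _ => hk k)).trans ?_
      rw [Finset.card_univ, ZMod.card, smul_eq_mul]
    have hfinU : (⋃ k ∈ (Finset.univ : Finset (ZMod (2 * n))),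
        (loops n ∩ {f | rot n k f ∈ e n ⁻¹' B})).Finite := by
      refine (loops_fin hn1).subset ?_
      intro f hf
      rw [Set.mem_iUnion₂] at hf
      obtain ⟨k, _, hf, _⟩ := hf
      exact hf
    have hall := ((Set.ncard_le_ncard hsub hfinU).trans hU).trans hsum
    have hall' : ((loops n ∩ {f | ¬ ∀ S : Set (ZMod (2 * n)), S.Nonempty → S ≠ Set.univ →
        H981.mu ^ S.ncard *
          Real.exp (-((4 * K2 + 4 * K2 + Kp + 8) * bs n S * Real.log n ^ 2 + x)) ≤
          (rer n S f).ncard}).ncard : ℝ) ≤ 2 * n * (loops n ∩ e n ⁻¹' B).ncard := by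
      exact_mod_cast hall
    refine hall'.trans ?_
    have h6 : (2 * (n : ℝ)) * (loops n ∩ e n ⁻¹' B).ncard ≤
        (2 * (n : ℝ)) * (Real.exp (-x') * (loops n).ncard) :=
      mul_le_mul_of_nonneg_left h5 (by positivity)
    refine h6.trans (le_of_eq ?_)
    rw [hx', neg_add, Real.exp_add, Real.exp_neg (Real.log (2 * n)), Real.exp_log (by positivity)]
    field_simp

end Pool.Agent.N932.FL.Poly
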