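import Pool.Agent.N932.FL.Poly
import Pool.Agent.N932.FL.Dens

/-! # The arcs of a polygon given all the rest -/

set_option autoImplicit false

namespace Pool.Agent.N932.FL.Poly

open scoped Classical

/-- the vertices strictly between `s` and `s + m` -/
def arcS (n : ℕ) (s : ZMod (2 * n)) (m : ℕ) : Set (ZMod (2 * n)) :=
  {i | ∃ j : ℕ, 1 ≤ j ∧ j < m ∧ i = s + j}

/-- the arc from `s` to `s + m`, moved to the origin -/
def arc (n : ℕ) (s : ZMod (2 * n)) (m : ℕ) (f : ZMod (2 * n) → ℤ × ℤ) : Fin (m + 1) → ℤ × ℤ :=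
  fun k => f (s + (k.1 : ZMod (2 * n))) - f s

theorem arcS_not {n : ℕ} {s : ZMod (2 * n)} {m : ℕ} (hm : m < 2 * n) : s ∉ arcS n s m := by
  rintro ⟨j, h1, h2, h3⟩
  have h4 : ((j : ℕ) : ZMod (2 * n)) = ((0 : ℕ) : ZMod (2 * n)) := by
    have h5 : s + 0 = s + (j : ZMod (2 * n)) := by rw [add_zero]; exact h3
    have := add_left_cancel h5
    rw [← this]
    simp
  have := cast_inj (n := n) (by omega) (by omega) h4
  omega

theorem arcS_card {n : ℕ} {s : ZMod (2 * n)} {m : ℕ} (hm : m < 2 * n) :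
    (arcS n s m).ncard = m - 1 := by
  have h1 : arcS n s m = (fun j : ℕ => s + (j : ZMod (2 * n))) '' (Finset.Ico 1 m : Set ℕ) := by
    ext i
    constructor
    · rintro ⟨j, h1, h2, h3⟩
      exact ⟨j, by rw [Finset.coe_Ico]; exact ⟨h1, h2⟩, h3.symm⟩
    · rintro ⟨j, h1, h2⟩
      rw [Finset.coe_Ico] at h1
      exact ⟨j, h1.1, h1.2, h2.symm⟩
  rw [h1, Set.InjOn.ncard_image, Set.ncard_coe_finset, Nat.card_Ico]
  intro a ha b hb hab
  rw [Finset.coe_Ico] at ha hb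
  have h2 : ((a : ℕ) : ZMod (2 * n)) = ((b : ℕ) : ZMod (2 * n)) := add_left_cancel hab
  exact cast_inj (by have := ha.2; omega) (by have := hb.2; omega) h2

theorem arcS_bs {n : ℕ} (hn : 1 ≤ n) (s : ZMod (2 * n)) (m : ℕ) : bs n (arcS n s m) ≤ 2 := by
  have : NeZero (2 * n) := ⟨by omega⟩
  unfold bs
  have hsub : {i : ZMod (2 * n) | ¬ (i ∈ arcS n s m ↔ i - 1 ∈ arcS n s m)} ⊆
      (({s + 1, s + (m : ZMod (2 * n))} : Finset (ZMod (2 * n))) : Set (ZMod (2 * n))) := by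
    intro i hi
    rw [Finset.coe_insert, Finset.coe_singleton, Set.mem_insert_iff, Set.mem_singleton_iff]
    by_contra hcon
    push Not at hcon
    obtain ⟨h1, h2⟩ := hcon
    apply hi
    constructor
    · rintro ⟨j, h3, h4, h5⟩
      refine ⟨j - 1, ?_, by omega, ?_⟩
      · by_contra h6
        have h7 : j = 1 := by omega
        rw [h7] at h5
        exact h1 (by rw [h5]; simp)
      · rw [h5, Nat.cast_sub h3]
        push_cast
        ring
    · rintro ⟨j, h3, h4, h5⟩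
      refine ⟨j + 1, by omega, ?_, ?_⟩
      · by_contra h6
        have h7 : j + 1 = m := by omega
        apply h2
        rw [← h7]
        push_cast
        rw [← add_assoc, ← h5]
        ring
      · push_cast
        rw [← add_assoc, ← h5]
        ring
  refine (Set.ncard_le_ncard hsub (Finset.finite_toSet _)).trans ?_
  rw [Set.ncard_coe_finset]
  exact Finset.card_le_two

theorem arc_mem {n : ℕ} {s : ZMod (2 * n)} {m : ℕ} (hm : m < 2 * n)
    {f : ZMod (2 * n) → ℤ × ℤ} (hf : IsPoly n f) : arc n s m f ∈ sqLat.walks m := by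
  refine ⟨?_, ?_, ?_⟩
  · show f (s + ((0 : ℕ) : ZMod (2 * n))) - f s = 0
    rw [Nat.cast_zero, add_zero, sub_self]
  · intro i j hij
    have h1 : f (s + (i.1 : ZMod (2 * n))) = f (s + (j.1 : ZMod (2 * n))) := sub_left_injective hij
    have h2 := add_left_cancel (hf.1 h1)
    exact Fin.ext (cast_inj (by have := i.2; omega) (by have := j.2; omega) h2)
  · intro i
    have h1 := hf.2 (s + (i.1 : ZMod (2 * n)))
    show |(f (s + (i.1 : ZMod (2 * n))) - f s).1 - (f (s + ((i.1 + 1 : ℕ) : ZMod (2 * n))) - f s).1| +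
      |(f (s + (i.1 : ZMod (2 * n))) - f s).2 - (f (s + ((i.1 + 1 : ℕ) : ZMod (2 * n))) - f s).2| = 1
    rw [Prod.fst_sub, Prod.snd_sub, Prod.fst_sub, Prod.snd_sub, sub_sub_sub_cancel_right,
      sub_sub_sub_cancel_right]
    push_cast
    rw [← add_assoc, abs_sub_comm, abs_sub_comm (f (s + (i.1 : ZMod (2 * n)))).2]
    exact h1

theorem arc_inj {n : ℕ} {s : ZMod (2 * n)} {m : ℕ} (hm : m < 2 * n)
    (f : ZMod (2 * n) → ℤ × ℤ) : Set.InjOn (arc n s m) (rer n (arcS n s m) f) := by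
  intro g hg g' hg' h
  funext i
  by_cases hi : i ∈ arcS n s m
  · obtain ⟨j, h1, h2, h3⟩ := hi
    have h4 := congrFun h ⟨j, by omega⟩
    have h5 : g (s + (j : ZMod (2 * n))) - g s = g' (s + (j : ZMod (2 * n))) - g' s := h4
    rw [hg.2 s (arcS_not hm), hg'.2 s (arcS_not hm)] at h5
    rw [h3]
    exact sub_left_injective h5
  · rw [hg.2 i hi, hg'.2 i hi]

/-- **the arcs given the rest** -/
theorem arc_dens : ∃ K : ℝ, 0 < K ∧ ∀ n : ℕ, 2 ≤ n → ∀ x : ℝ,
    ((loops n ∩ {f | ¬ ∀ (s : ZMod (2 * n)) (m : ℕ), 2 ≤ m → m < 2 * n →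
      ∀ B : Set (Fin (m + 1) → ℤ × ℤ),
        (({g ∈ rer n (arcS n s m) f | arc n s m g ∈ B}).ncard : ℝ) /
          ((rer n (arcS n s m) f).ncard : ℝ) ≤
        Real.exp (K * Real.log n ^ 2 + x) *
          (((sqLat.walks m ∩ B).ncard : ℝ) / (sqLat.walks m).ncard)}).ncard : ℝ) ≤
      Real.exp (-x) * (loops n).ncard := by
  have hμ := H981.one_le_mu
  have hμ0 := H981.mu_pos
  obtain ⟨Ku, hKu, hup⟩ := Pool.Agent.TH508.LT.sq_upper2
  obtain ⟨K, hK, hmain⟩ := main
  obtain ⟨lm, hlm⟩ : ∃ lm : ℝ, lm = Real.log H981.mu := ⟨_, rfl⟩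
  have hlm0 : 0 ≤ lm := by rw [hlm]; exact Real.log_nonneg hμ
  refine ⟨2 * K + 4 * |Ku| + 3 * lm, by positivity, fun n hn x => ?_⟩
  have hn1 : 1 ≤ n := by omega
  refine le_trans ?_ ((hmain n hn).2 x)
  refine Nat.cast_le.2 (Set.ncard_le_ncard ?_ ((loops_fin hn1).subset Set.inter_subset_left))
  rintro f ⟨hf, hbad⟩
  refine ⟨hf, fun hgood => hbad (fun s m hm1 hm2 B => ?_)⟩
  have hn2 : (2 : ℝ) ≤ n := by exact_mod_cast hn
  have hl2 := Real.log_two_gt_d9
  have hlog : Real.log 2 ≤ Real.log n := Real.log_le_log (by norm_num) hn2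
  have hS1 : (arcS n s m).Nonempty := ⟨s + (1 : ℕ), 1, le_rfl, by omega, rfl⟩
  have hS2 : arcS n s m ≠ Set.univ := by
    intro h
    exact arcS_not (n := n) (s := s) hm2 (by rw [h]; trivial)
  have h1 := hgood (arcS n s m) hS1 hS2
  rw [arcS_card hm2] at h1
  have hb : (bs n (arcS n s m) : ℝ) ≤ 2 := by exact_mod_cast arcS_bs hn1 s m
  have hm0 : (2 : ℝ) ≤ m := by exact_mod_cast hm1
  have hmn : Real.log (m : ℝ) ^ 2 ≤ 4 * Real.log n ^ 2 := by
    have h5 : Real.log (m : ℝ) ≤ 2 * Real.log n := by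
      have h6 : (m : ℝ) ≤ n ^ 2 := by
        have h7 : (m : ℝ) ≤ 2 * n := by exact_mod_cast hm2.le
        nlinarith
      have h7 := Real.log_le_log (by linarith) h6
      rwa [Real.log_pow] at h7
    have h6 : 0 ≤ Real.log (m : ℝ) := Real.log_nonneg (by linarith)
    nlinarith
  have hc : ((sqLat.walks m).ncard : ℝ) ≤
      H981.mu ^ (m - 1) * Real.exp ((4 * |Ku| + 3 * lm) * Real.log n ^ 2) := by
    rw [cr_eq]
    refine (hup m hm1).trans ?_
    have h6 : H981.mu ^ m = H981.mu ^ (m - 1) * Real.exp lm := by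
      rw [hlm, Real.exp_log hμ0, ← pow_succ]
      congr 1
      omega
    rw [h6, mul_assoc, ← Real.exp_add]
    refine mul_le_mul_of_nonneg_left (Real.exp_le_exp.2 ?_) (by positivity)
    have h7 : Ku * Real.log (m : ℝ) ^ 2 ≤ |Ku| * (4 * Real.log n ^ 2) := by
      refine (mul_le_mul_of_nonneg_right (le_abs_self Ku) (sq_nonneg _)).trans ?_
      exact mul_le_mul_of_nonneg_left hmn (abs_nonneg _)
    have h8 : 1 ≤ 3 * Real.log (n : ℝ) ^ 2 := by nlinarith
    have h9 : lm * 1 ≤ lm * (3 * Real.log (n : ℝ) ^ 2) := mul_le_mul_of_nonneg_left h8 hlm0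
    nlinarith
  obtain ⟨E, hE⟩ : ∃ E : ℝ, E = (2 * K + 4 * |Ku| + 3 * lm) * Real.log n ^ 2 + x := ⟨_, rfl⟩
  rw [← hE]
  have hlow : Real.exp (-E) * ((sqLat.walks m).ncard : ℝ) ≤ (rer n (arcS n s m) f).ncard := by
    refine le_trans ?_ h1
    refine (mul_le_mul_of_nonneg_left hc (Real.exp_pos _).le).trans ?_
    rw [mul_comm, mul_assoc, ← Real.exp_add]
    refine mul_le_mul_of_nonneg_left (Real.exp_le_exp.2 ?_) (by positivity)
    rw [hE]
    have h9 : K * (bs n (arcS n s m) : ℝ) * Real.log n ^ 2 ≤ K * 2 * Real.log n ^ 2 :=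
      mul_le_mul_of_nonneg_right (mul_le_mul_of_nonneg_left hb hK.le) (sq_nonneg _)
    nlinarith
  have hc0 : (0 : ℝ) < (sqLat.walks m).ncard := sqLat.card0 m
  have hrp : (0 : ℝ) < (rer n (arcS n s m) f).ncard :=
    lt_of_lt_of_le (mul_pos (Real.exp_pos _) hc0) hlow
  have hcount : (({g ∈ rer n (arcS n s m) f | arc n s m g ∈ B}).ncard : ℝ) ≤
      (sqLat.walks m ∩ B).ncard := by
    have h3 := Set.ncard_le_ncard_of_injOn (s := {g ∈ rer n (arcS n s m) f | arc n s m g ∈ B})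
      (t := sqLat.walks m ∩ B) (arc n s m)
      (fun g hg => ⟨arc_mem hm2 hg.1.1, hg.2⟩)
      ((arc_inj hm2 f).mono (fun g hg => hg.1))
      ((sqLat.finite m).subset Set.inter_subset_left)
    exact_mod_cast h3
  rw [div_le_iff₀ hrp]
  calc (({g ∈ rer n (arcS n s m) f | arc n s m g ∈ B}).ncard : ℝ) ≤
        (sqLat.walks m ∩ B).ncard := hcount
    _ = Real.exp E * (((sqLat.walks m ∩ B).ncard : ℝ) / (sqLat.walks m).ncard) *
        (Real.exp (-E) * (sqLat.walks m).ncard) := by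
        rw [Real.exp_neg]
        have := Real.exp_pos E
        field_simp
    _ ≤ _ := mul_le_mul_of_nonneg_left hlow (by positivity)

end Pool.Agent.N932.FL.Poly
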