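import Pool.Agent.N932.FL.Geo

/-! # Erasing the positions at the times in a set, and filling them in again -/

set_option autoImplicit false

namespace Pool.Agent.N932.FL

open scoped Classical

section defs

variable {V : Type} [AddCommGroup V]

/-- the walk with the times in `S` erased -/
noncomputable def er {n : ℕ} (S : Finset ℕ) (ω : Fin (n + 1) → V) : ℕ → V :=
  fun i => if i ∈ S ∨ n < i then 0 else xt ω i

/-- the elements of `A` which agree with `ω` at all the times outside `S` -/
def fill {n : ℕ} (A : Set (Fin (n + 1) → V)) (S : Finset ℕ) (ω : Fin (n + 1) → V) :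
    Set (Fin (n + 1) → V) :=
  {η ∈ A | ∀ i : Fin (n + 1), i.1 ∉ S → η i = ω i}

/-- the switches of `S`: the `i ∈ {1, …, n}` such that exactly one of `i - 1`, `i` is in `S` -/
noncomputable def swt (n : ℕ) (S : Finset ℕ) : Finset ℕ :=
  (Finset.Icc 1 n).filter (fun i => ¬ (i ∈ S ↔ i - 1 ∈ S))

/-- the number of the elements up to `m` -/
noncomputable def sn (m : ℕ) (S : Finset ℕ) : ℕ := (S.filter (fun j => j ≤ m)).card

/-- the number of the ends of runs before `m` -/
noncomputable def kn (m : ℕ) (S : Finset ℕ) : ℕ := (S.filter (fun j => j < m ∧ j + 1 ∉ S)).card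

/-- the number of the starts of runs up to `m` -/
noncomputable def fn (m : ℕ) (S : Finset ℕ) : ℕ := (S.filter (fun j => j ≤ m ∧ j - 1 ∉ S)).card

end defs

/-! ### combinatorics of the sets of times -/

theorem sw_inj {n : ℕ} {S S' : Finset ℕ} (hS : S ⊆ Finset.Icc 1 n) (hS' : S' ⊆ Finset.Icc 1 n)
    (h : swt n S = swt n S') : S = S' := by
  have key : ∀ i, i ≤ n → (i ∈ S ↔ i ∈ S') := by
    intro i
    induction i with
    | zero =>
      intro _
      constructor
      · intro h1
        have := Finset.mem_Icc.1 (hS h1)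
        omega
      · intro h1
        have := Finset.mem_Icc.1 (hS' h1)
        omega
    | succ i ih =>
      intro hi
      have h1 := ih (by omega)
      have h2 : i + 1 ∈ swt n S ↔ i + 1 ∈ swt n S' := by rw [h]
      unfold swt at h2
      rw [Finset.mem_filter, Finset.mem_filter, Finset.mem_Icc, Nat.add_sub_cancel] at h2
      have h3 : 1 ≤ i + 1 ∧ i + 1 ≤ n := ⟨by omega, hi⟩
      tauto
  ext i
  by_cases hi : i ≤ n
  · exact key i hi
  · constructor
    · intro h1
      exact absurd (Finset.mem_Icc.1 (hS h1)).2 hi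
    · intro h1
      exact absurd (Finset.mem_Icc.1 (hS' h1)).2 hi

theorem sum_sw_le (n : ℕ) {y : ℝ} (hy : 0 ≤ y) :
    ∑ S ∈ (Finset.Icc 1 n).powerset, y ^ (swt n S).card ≤ (1 + y) ^ n := by
  have h1 : ∑ S ∈ (Finset.Icc 1 n).powerset, y ^ (swt n S).card =
      ∑ T ∈ ((Finset.Icc 1 n).powerset).image (swt n), y ^ T.card := by
    rw [Finset.sum_image]
    intro S hS S' hS' h
    exact sw_inj (Finset.mem_powerset.1 (Finset.mem_coe.1 hS))
      (Finset.mem_powerset.1 (Finset.mem_coe.1 hS')) h
  rw [h1]
  have h2 : ((Finset.Icc 1 n).powerset).image (swt n) ⊆ (Finset.Icc 1 n).powerset := by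
    intro T hT
    obtain ⟨S, -, rfl⟩ := Finset.mem_image.1 hT
    exact Finset.mem_powerset.2 (Finset.filter_subset _ _)
  refine (Finset.sum_le_sum_of_subset_of_nonneg h2 (fun T _ _ => pow_nonneg hy _)).trans ?_
  have h3 := Finset.sum_pow_mul_eq_add_pow y 1 (Finset.Icc 1 n)
  simp only [one_pow, mul_one] at h3
  rw [h3, Nat.card_Icc, Nat.add_sub_cancel, add_comm]

theorem sum_ne_le {n : ℕ} (hn : 1 ≤ n) :
    ∑ S ∈ ((Finset.Icc 1 n).powerset).erase ∅, (1 / (2 * (n : ℝ))) ^ (swt n S).card ≤ 1 := by
  have hn' : (1 : ℝ) ≤ n := by exact_mod_cast hn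
  have h1 := sum_sw_le n (y := 1 / (2 * (n : ℝ))) (by positivity)
  have h2 : (1 + 1 / (2 * (n : ℝ))) ^ n ≤ 2 := by
    have h3 : 1 + 1 / (2 * (n : ℝ)) ≤ Real.exp (1 / (2 * (n : ℝ))) := by
      rw [add_comm]
      exact Real.add_one_le_exp _
    have h4 : (1 + 1 / (2 * (n : ℝ))) ^ n ≤ Real.exp (1 / (2 * (n : ℝ))) ^ n :=
      pow_le_pow_left₀ (by positivity) h3 n
    refine h4.trans ?_
    rw [← Real.exp_nat_mul]
    have h5 : (n : ℝ) * (1 / (2 * (n : ℝ))) = 1 / 2 := by field_simp
    rw [h5]
    have h6 : Real.exp (1 / 2) ^ 2 = Real.exp 1 := by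
      rw [← Real.exp_nat_mul]
      norm_num
    have h7 := Real.exp_one_lt_d9
    have h8 := Real.exp_pos (1 / 2)
    nlinarith
  have h3 := Finset.add_sum_erase ((Finset.Icc 1 n).powerset)
    (fun S => (1 / (2 * (n : ℝ))) ^ (swt n S).card) (Finset.empty_mem_powerset _)
  have h4 : (swt n ∅).card = 0 := by
    unfold swt
    rw [Finset.card_eq_zero, Finset.filter_eq_empty_iff]
    intro i _
    simp
  simp only [h4, pow_zero] at h3
  linarith

theorem kn_le {n : ℕ} {S : Finset ℕ} : kn n S ≤ (swt n S).card := by
  unfold kn swt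
  refine Finset.card_le_card_of_injOn (fun j => j + 1) ?_ (fun a _ b _ h => by simpa using h)
  intro j hj
  rw [Finset.mem_coe, Finset.mem_filter] at hj
  obtain ⟨h1, h2, h3⟩ := hj
  rw [Finset.mem_coe, Finset.mem_filter, Finset.mem_Icc]
  show (1 ≤ j + 1 ∧ j + 1 ≤ n) ∧ ¬ (j + 1 ∈ S ↔ j + 1 - 1 ∈ S)
  rw [Nat.add_sub_cancel]
  refine ⟨⟨by omega, by omega⟩, ?_⟩
  tauto

theorem fn_le {n : ℕ} {S : Finset ℕ} (hS : S ⊆ Finset.Icc 1 n) : fn n S ≤ (swt n S).card := by
  unfold fn swt
  refine Finset.card_le_card ?_
  intro j hj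
  rw [Finset.mem_filter] at hj
  obtain ⟨h1, h2, h3⟩ := hj
  rw [Finset.mem_filter]
  refine ⟨hS h1, ?_⟩
  tauto

theorem sw_pos {n : ℕ} {S : Finset ℕ} (hS : S ⊆ Finset.Icc 1 n) (hne : S.Nonempty) :
    1 ≤ (swt n S).card := by
  refine le_trans ?_ (fn_le hS)
  unfold fn
  rw [Nat.one_le_iff_ne_zero, Finset.card_ne_zero]
  refine ⟨S.min' hne, ?_⟩
  rw [Finset.mem_filter]
  have h1 := S.min'_mem hne
  have h2 := Finset.mem_Icc.1 (hS h1)
  refine ⟨h1, h2.2, fun h3 => ?_⟩
  have := S.min'_le _ h3
  omega

/-! ### the number of the classes -/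

variable {V : Type} [AddCommGroup V]

theorem xt_tr (L : Lat V) {n m k : ℕ} {ω : Fin (n + 1) → V} (h : ω ∈ L.walks n) (hk : k ≤ m) :
    xt (L.piece 0 m ω) k = xt ω k := by
  have h0 : xt ω 0 = 0 := by
    rw [xt_eq _ (Nat.zero_le _)]
    exact h.1
  rw [xt_piece L ω hk, h0, L.s0, one_smul, sub_zero, zero_add]

theorem er_eq {n : ℕ} {S : Finset ℕ} {ω η : Fin (n + 1) → V} (h : er S η = er S ω)
    (i : Fin (n + 1)) (hi : i.1 ∉ S) : η i = ω i := by
  have h1 := congrFun h i.1
  unfold er at h1
  have h2 : ¬ (i.1 ∈ S ∨ n < i.1) := by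
    have := i.2
    rw [not_or]
    exact ⟨hi, by omega⟩
  have h3 : i.1 ≤ n := by have := i.2; omega
  rw [if_neg h2, if_neg h2, xt_eq _ h3, xt_eq _ h3] at h1
  exact h1

theorem Lat.classes (L : Lat V) {μ D : ℝ} (hμ : 1 ≤ μ) {n : ℕ} {B : Finset V}
    (hB : ∀ m, m ≤ n → ∀ ω ∈ L.walks m, ∀ i, ω i ∈ B)
    (hD : ∀ m, m ≤ n → (B.card : ℝ) * (L.walks m).ncard ≤ μ ^ m * Real.exp D)
    (S : Finset ℕ) (hS : 0 ∉ S) : ∀ m, m ≤ n →
      ((er S '' (L.walks m)).ncard : ℝ) * μ ^ (sn m S) ≤
        μ ^ m * Real.exp (D * (kn m S + 1)) := by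
  have hμ0 : 0 < μ := by linarith
  have hB1 : (1 : ℝ) ≤ B.card := by
    obtain ⟨ω, hω⟩ := L.nonempty 0
    have h1 : 0 < B.card := Finset.card_pos.2 ⟨ω 0, hB 0 (Nat.zero_le _) ω hω 0⟩
    exact_mod_cast h1
  have hD0 : 0 ≤ D := by
    have h1 := hD 0 (Nat.zero_le _)
    have h2 : (1 : ℝ) ≤ (L.walks 0).ncard := by
      have : 0 < (L.walks 0).ncard := (Set.ncard_pos (L.finite 0)).2 (L.nonempty 0)
      exact_mod_cast this
    rw [pow_zero, one_mul] at h1
    have h3 : (1 : ℝ) ≤ Real.exp D := by nlinarith
    exact Real.one_le_exp_iff.1 h3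
  intro m
  induction m using Nat.strong_induction_on with
  | _ m ih =>
    intro hm
    have hc := hD m hm
    have hc0 : (0 : ℝ) ≤ (L.walks m).ncard := Nat.cast_nonneg _
    by_cases hE : ∃ j ∈ S, j ≤ m
    · -- the largest element of `S` up to `m`
      obtain ⟨r, hr⟩ : ∃ r, r = (S.filter (fun j => j ≤ m)).max' (by
        obtain ⟨j, h1, h2⟩ := hE
        exact ⟨j, Finset.mem_filter.2 ⟨h1, h2⟩⟩) := ⟨_, rfl⟩
      have hrm := Finset.mem_filter.1 (hr ▸ Finset.max'_mem (S.filter (fun j => j ≤ m)) _)
      have hmax : ∀ j ∈ S, j ≤ m → j ≤ r := by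
        intro j h1 h2
        rw [hr]
        exact Finset.le_max' _ _ (Finset.mem_filter.2 ⟨h1, h2⟩)
      have hr0 : r ≠ 0 := fun h => hS (h ▸ hrm.1)
      by_cases hrm' : r = m
      · -- the last time is erased
        obtain ⟨k, rfl⟩ : ∃ k, m = k + 1 := ⟨m - 1, by omega⟩
        have hsub : er S '' (L.walks (k + 1)) ⊆ er S '' (L.walks k) := by
          rintro _ ⟨ω, hω, rfl⟩
          refine ⟨L.piece 0 k ω, L.mem hω (by omega), ?_⟩
          funext i
          unfold er
          by_cases hi : i ∈ S
          · rw [if_pos (Or.inl hi), if_pos (Or.inl hi)]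
          · by_cases hi2 : i ≤ k
            · rw [if_neg (by rw [not_or]; exact ⟨hi, by omega⟩),
                if_neg (by rw [not_or]; exact ⟨hi, by omega⟩)]
              exact xt_tr L hω hi2
            · have hi3 : i ≠ k + 1 := fun h => hi (h ▸ hrm' ▸ hrm.1)
              rw [if_pos (Or.inr (by omega)), if_pos (Or.inr (by omega))]
        have h1 : ((er S '' (L.walks (k + 1))).ncard : ℝ) ≤ (er S '' (L.walks k)).ncard := by
          exact_mod_cast Set.ncard_le_ncard hsub ((L.finite k).image _)
        have h2 := ih k (by omega) (by omega)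
        have h3 : sn (k + 1) S = sn k S + 1 := by
          unfold sn
          have : S.filter (fun j => j ≤ k + 1) = insert (k + 1) (S.filter (fun j => j ≤ k)) := by
            ext j
            rw [Finset.mem_insert, Finset.mem_filter, Finset.mem_filter]
            constructor
            · rintro ⟨h4, h5⟩
              by_cases h6 : j = k + 1
              · left; exact h6
              · right; exact ⟨h4, by omega⟩
            · rintro (h4 | ⟨h4, h5⟩)
              · rw [h4]
                exact ⟨hrm' ▸ hrm.1, le_rfl⟩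
              · exact ⟨h4, by omega⟩
          rw [this, Finset.card_insert_of_notMem]
          rw [Finset.mem_filter]
          omega
        have h4 : kn k S ≤ kn (k + 1) S := by
          unfold kn
          refine Finset.card_le_card (fun j hj => ?_)
          rw [Finset.mem_filter] at hj ⊢
          exact ⟨hj.1, by omega, hj.2.2⟩
        have h4' : (kn k S : ℝ) ≤ kn (k + 1) S := by exact_mod_cast h4
        rw [h3, pow_succ, pow_succ]
        calc ((er S '' (L.walks (k + 1))).ncard : ℝ) * (μ ^ (sn k S) * μ)
            ≤ ((er S '' (L.walks k)).ncard : ℝ) * (μ ^ (sn k S) * μ) :=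
              mul_le_mul_of_nonneg_right h1 (by positivity)
          _ = ((er S '' (L.walks k)).ncard : ℝ) * μ ^ (sn k S) * μ := by ring
          _ ≤ μ ^ k * Real.exp (D * (kn k S + 1)) * μ := mul_le_mul_of_nonneg_right h2 hμ0.le
          _ ≤ μ ^ k * Real.exp (D * (kn (k + 1) S + 1)) * μ := by gcongr
          _ = _ := by ring
      · -- a kept run
        have hrlt : r < m := lt_of_le_of_ne hrm.2 hrm'
        have hkeep : ∀ i, r < i → i ≤ m → i ∉ S := by
          intro i h1 h2 h3
          have := hmax i h3 h2
          omega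
        obtain ⟨G, hG⟩ : ∃ G : ((ℕ → V) × V) × (Fin (m - r - 1 + 1) → V) → (ℕ → V),
            G = fun q i => if i ≤ r then q.1.1 i else
              if i ≤ m then q.1.2 + L.s q.1.2 • xt q.2 (i - r - 1) else 0 := ⟨_, rfl⟩
        have hsub : er S '' (L.walks m) ⊆
            G '' (((er S '' (L.walks r)) ×ˢ (B : Set V)) ×ˢ (L.walks (m - r - 1))) := by
          rintro _ ⟨ω, hω, rfl⟩
          refine ⟨((er S (L.piece 0 r ω), xt ω (r + 1)), L.piece (r + 1) (m - r - 1) ω),
            ⟨⟨⟨L.piece 0 r ω, L.mem hω (by omega), rfl⟩, ?_⟩, L.mem hω (by omega)⟩, ?_⟩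
          · rw [Finset.mem_coe]
            exact hB m hm ω hω _
          · rw [hG]
            funext i
            show (if i ≤ r then er S (L.piece 0 r ω) i else
              if i ≤ m then xt ω (r + 1) + L.s (xt ω (r + 1)) •
                xt (L.piece (r + 1) (m - r - 1) ω) (i - r - 1) else 0) = er S ω i
            by_cases hi : i ≤ r
            · rw [if_pos hi]
              unfold er
              by_cases hi2 : i ∈ S
              · rw [if_pos (Or.inl hi2), if_pos (Or.inl hi2)]
              · rw [if_neg (by rw [not_or]; exact ⟨hi2, by omega⟩),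
                  if_neg (by rw [not_or]; exact ⟨hi2, by omega⟩)]
                exact xt_tr L hω hi
            · rw [if_neg hi]
              by_cases hi2 : i ≤ m
              · rw [if_pos hi2, xt_piece L ω (by omega), smul_smul, L.ss, one_smul]
                unfold er
                rw [if_neg (by rw [not_or]; exact ⟨hkeep i (by omega) hi2, by omega⟩)]
                rw [show r + 1 + (i - r - 1) = i by omega]
                abel
              · rw [if_neg hi2]
                unfold er
                rw [if_pos (Or.inr (by omega))]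
        have hfin1 : (er S '' (L.walks r)).Finite := (L.finite r).image _
        have hfin : (((er S '' (L.walks r)) ×ˢ (B : Set V)) ×ˢ (L.walks (m - r - 1))).Finite :=
          (hfin1.prod B.finite_toSet).prod (L.finite _)
        have h1 : ((er S '' (L.walks m)).ncard : ℝ) ≤
            (er S '' (L.walks r)).ncard * B.card * (L.walks (m - r - 1)).ncard := by
          have h2 := (Set.ncard_le_ncard hsub (hfin.image _)).trans (Set.ncard_image_le hfin)
          rw [Set.ncard_prod, Set.ncard_prod, Set.ncard_coe_finset] at h2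
          exact_mod_cast h2
        have h2 := ih r hrlt (by omega)
        have h3 : sn m S = sn r S := by
          unfold sn
          congr 1
          ext j
          rw [Finset.mem_filter, Finset.mem_filter]
          constructor
          · rintro ⟨h4, h5⟩
            exact ⟨h4, hmax j h4 h5⟩
          · rintro ⟨h4, h5⟩
            exact ⟨h4, by omega⟩
        have h4 : kn r S + 1 ≤ kn m S := by
          unfold kn
          have hins : insert r (S.filter (fun j => j < r ∧ j + 1 ∉ S)) ⊆
              S.filter (fun j => j < m ∧ j + 1 ∉ S) := by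
            intro j hj
            rw [Finset.mem_insert, Finset.mem_filter] at hj
            rw [Finset.mem_filter]
            rcases hj with h5 | ⟨h5, h6, h7⟩
            · rw [h5]
              exact ⟨hrm.1, hrlt, hkeep (r + 1) (by omega) (by omega)⟩
            · exact ⟨h5, by omega, h7⟩
          have h5 := Finset.card_le_card hins
          rwa [Finset.card_insert_of_notMem (by rw [Finset.mem_filter]; omega)] at h5
        have h4' : (kn r S : ℝ) + 1 ≤ kn m S := by exact_mod_cast h4
        have h5 := hD (m - r - 1) (by omega)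
        have h6 : μ ^ r * μ ^ (m - r - 1) ≤ μ ^ m := by
          rw [← pow_add]
          exact pow_le_pow_right₀ hμ (by omega)
        rw [h3]
        calc ((er S '' (L.walks m)).ncard : ℝ) * μ ^ (sn r S)
            ≤ ((er S '' (L.walks r)).ncard * B.card * (L.walks (m - r - 1)).ncard) *
              μ ^ (sn r S) := mul_le_mul_of_nonneg_right h1 (by positivity)
          _ = (((er S '' (L.walks r)).ncard : ℝ) * μ ^ (sn r S)) *
              (B.card * (L.walks (m - r - 1)).ncard) := by ring
          _ ≤ (μ ^ r * Real.exp (D * (kn r S + 1))) *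
              (μ ^ (m - r - 1) * Real.exp D) := mul_le_mul h2 h5 (by positivity) (by positivity)
          _ = (μ ^ r * μ ^ (m - r - 1)) * Real.exp (D * (kn r S + 1) + D) := by
              rw [Real.exp_add]; ring
          _ ≤ μ ^ m * Real.exp (D * (kn m S + 1)) := by
              refine mul_le_mul h6 (Real.exp_le_exp.2 ?_) (Real.exp_pos _).le (by positivity)
              nlinarith
    · -- nothing is erased
      push Not at hE
      have h1 : sn m S = 0 := by
        unfold sn
        rw [Finset.card_eq_zero, Finset.filter_eq_empty_iff]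
        intro j hj
        have := hE j hj
        omega
      rw [h1, pow_zero, mul_one]
      have h2 : ((er S '' (L.walks m)).ncard : ℝ) ≤ (L.walks m).ncard := by
        exact_mod_cast Set.ncard_image_le (L.finite m)
      have h3 : (0 : ℝ) ≤ kn m S := Nat.cast_nonneg _
      calc ((er S '' (L.walks m)).ncard : ℝ) ≤ (L.walks m).ncard := h2
        _ ≤ B.card * (L.walks m).ncard := by nlinarith
        _ ≤ μ ^ m * Real.exp D := hc
        _ ≤ μ ^ m * Real.exp (D * (kn m S + 1)) := by
          refine mul_le_mul_of_nonneg_left (Real.exp_le_exp.2 ?_) (by positivity)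
          nlinarith

theorem fiber_le {α β : Type} (A : Finset α) (f : α → β) {θ : ℝ} (hθ : 0 ≤ θ) :
    ((A.filter (fun ω => ((A.filter (fun η => f η = f ω)).card : ℝ) < θ)).card : ℝ) ≤
      (A.image f).card * θ := by
  have h1 : (A.filter (fun ω => ((A.filter (fun η => f η = f ω)).card : ℝ) < θ)).card =
      ∑ v ∈ A.image f, ((A.filter (fun ω =>
        ((A.filter (fun η => f η = f ω)).card : ℝ) < θ)).filter (fun ω => f ω = v)).card := by
    refine Finset.card_eq_sum_card_fiberwise (fun ω hω => ?_)
    rw [Finset.mem_coe, Finset.mem_filter] at hω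
    exact Finset.mem_coe.2 (Finset.mem_image_of_mem f hω.1)
  rw [h1]
  push_cast
  refine (Finset.sum_le_card_nsmul _ _ θ (fun v _ => ?_)).trans (le_of_eq (nsmul_eq_mul _ _))
  rcases Finset.eq_empty_or_nonempty ((A.filter (fun ω =>
        ((A.filter (fun η => f η = f ω)).card : ℝ) < θ)).filter (fun ω => f ω = v)) with h2 | h2
  · rw [h2, Finset.card_empty, Nat.cast_zero]
    exact hθ
  · obtain ⟨ω, hω⟩ := h2
    rw [Finset.mem_filter, Finset.mem_filter] at hω
    obtain ⟨⟨h3, h4⟩, h5⟩ := hω
    refine le_trans ?_ h4.le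
    have h6 : (A.filter (fun ω =>
        ((A.filter (fun η => f η = f ω)).card : ℝ) < θ)).filter (fun ω => f ω = v) ⊆
        A.filter (fun η => f η = f ω) := by
      intro η hη
      rw [Finset.mem_filter, Finset.mem_filter] at hη
      rw [Finset.mem_filter]
      exact ⟨hη.1.1, hη.2.trans h5.symm⟩
    exact_mod_cast Finset.card_le_card h6

/-- **all sets of times at once** -/
theorem Lat.reroute (L : Lat V) {μ D : ℝ} (hμ : 1 ≤ μ) {n : ℕ} (hn : 1 ≤ n) {B : Finset V}
    (hB : ∀ m, m ≤ n → ∀ ω ∈ L.walks m, ∀ i, ω i ∈ B)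
    (hD : ∀ m, m ≤ n → (B.card : ℝ) * (L.walks m).ncard ≤ μ ^ m * Real.exp D)
    {A : Set (Fin (n + 1) → V)} (hA : A ⊆ L.walks n) (hne : A.Nonempty) {E : ℝ}
    (hE : Real.exp (-E) * μ ^ n ≤ A.ncard) (x : ℝ) :
    gprob A {ω | ¬ ∀ S : Finset ℕ, S ⊆ Finset.Icc 1 n → S.Nonempty →
      μ ^ S.card * Real.exp (-((2 * D + Real.log (2 * n)) * (swt n S).card + E + x)) ≤
        (fill A S ω).ncard} ≤ Real.exp (-x) := by
  have hμ0 : 0 < μ := by linarith
  have hn' : (1 : ℝ) ≤ n := by exact_mod_cast hn
  obtain ⟨F, rfl⟩ : ∃ F : Finset (Fin (n + 1) → V), A = (F : Set (Fin (n + 1) → V)) :=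
    ⟨((L.finite n).subset hA).toFinset, ((L.finite n).subset hA).coe_toFinset.symm⟩
  rw [Set.ncard_coe_finset] at hE
  have hF0 : (0 : ℝ) < F.card := by
    have : F.Nonempty := by exact_mod_cast hne
    exact_mod_cast Finset.card_pos.2 this
  have hfill : ∀ (S : Finset ℕ) (ω : Fin (n + 1) → V),
      ((F.filter (fun η => er S η = er S ω)).card : ℝ) ≤ (fill (F : Set _) S ω).ncard := by
    intro S ω
    rw [← Set.ncard_coe_finset]
    have hf : (fill (F : Set (Fin (n + 1) → V)) S ω).Finite :=
      F.finite_toSet.subset (fun η hη => hη.1)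
    have := Set.ncard_le_ncard (s := ((F.filter (fun η => er S η = er S ω) :
      Finset (Fin (n + 1) → V)) : Set (Fin (n + 1) → V))) (t := fill (F : Set _) S ω) (by
        intro η hη
        rw [Finset.mem_coe, Finset.mem_filter] at hη
        exact ⟨hη.1, fun i hi => er_eq hη.2 i hi⟩) hf
    exact_mod_cast this
  obtain ⟨θ, hθ⟩ : ∃ θ : Finset ℕ → ℝ, θ = fun S => Real.exp (-x) *
      (1 / (2 * (n : ℝ))) ^ (swt n S).card * F.card / (F.image (er S)).card := ⟨_, rfl⟩
  have himg : ∀ S, (0 : ℝ) < (F.image (er S)).card := by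
    intro S
    have : (F.image (er S)).Nonempty := by
      rw [Finset.image_nonempty]
      exact_mod_cast hne
    exact_mod_cast Finset.card_pos.2 this
  have hθ0 : ∀ S, 0 ≤ θ S := by
    intro S
    rw [hθ]
    have := himg S
    positivity
  obtain ⟨Q, hQ⟩ : ∃ Q : (Fin (n + 1) → V) → Prop,
    Q = fun ω => ∃ S ∈ ((Finset.Icc 1 n).powerset).erase ∅,
      ((F.filter (fun η => er S η = er S ω)).card : ℝ) < θ S := ⟨_, rfl⟩
  refine gprob_le F _ Q (fun ω hω hbad => ?_) hF0 ?_
  · rw [hQ]
    by_contra hcon
    push Not at hcon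
    apply hbad
    intro S hS hSne
    have h0 : 0 ∉ S := fun h => by
      have := Finset.mem_Icc.1 (hS h)
      omega
    have h1 := hcon S (Finset.mem_erase.2 ⟨hSne.ne_empty, Finset.mem_powerset.2 hS⟩)
    refine le_trans ?_ (h1.trans (hfill S ω))
    -- compare with the threshold
    have h2 := L.classes hμ hB hD S h0 n le_rfl
    have h3 : sn n S = S.card := by
      unfold sn
      congr 1
      rw [Finset.filter_eq_self]
      intro j hj
      exact (Finset.mem_Icc.1 (hS hj)).2
    rw [h3] at h2
    have h4 : ((F.image (er S)).card : ℝ) ≤ (er S '' (L.walks n)).ncard := by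
      have h5 : ((F.image (er S) : Finset (ℕ → V)) : Set (ℕ → V)) ⊆ er S '' (L.walks n) := by
        rw [Finset.coe_image]
        exact Set.image_mono hA
      have h6 := Set.ncard_le_ncard h5 ((L.finite n).image _)
      rw [Set.ncard_coe_finset] at h6
      exact_mod_cast h6
    have h5 : ((F.image (er S)).card : ℝ) * μ ^ S.card ≤
        μ ^ n * Real.exp (D * (kn n S + 1)) :=
      (mul_le_mul_of_nonneg_right h4 (by positivity)).trans h2
    have hD0 : 0 ≤ D := by
      have h1 := hD 0 (Nat.zero_le _)
      have h2 : (1 : ℝ) ≤ (L.walks 0).ncard := by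
        have : 0 < (L.walks 0).ncard := (Set.ncard_pos (L.finite 0)).2 (L.nonempty 0)
        exact_mod_cast this
      have hB1 : (1 : ℝ) ≤ B.card := by
        obtain ⟨ω, hω⟩ := L.nonempty 0
        have h1 : 0 < B.card := Finset.card_pos.2 ⟨ω 0, hB 0 (Nat.zero_le _) ω hω 0⟩
        exact_mod_cast h1
      rw [pow_zero, one_mul] at h1
      have h3 : (1 : ℝ) ≤ Real.exp D := by nlinarith
      exact Real.one_le_exp_iff.1 h3
    have h6 : D * (kn n S + 1) ≤ 2 * D * (swt n S).card := by
      have h7 : (kn n S : ℝ) ≤ (swt n S).card := by exact_mod_cast kn_le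
      have h8 : (1 : ℝ) ≤ (swt n S).card := by exact_mod_cast sw_pos hS hSne
      nlinarith
    have h7 : ((F.image (er S)).card : ℝ) * μ ^ S.card ≤
        μ ^ n * Real.exp (2 * D * (swt n S).card) :=
      h5.trans (mul_le_mul_of_nonneg_left (Real.exp_le_exp.2 h6) (by positivity))
    rw [hθ]
    show _ ≤ Real.exp (-x) * (1 / (2 * (n : ℝ))) ^ (swt n S).card * F.card /
      (F.image (er S)).card
    rw [le_div_iff₀ (himg S)]
    have h8 : (1 / (2 * (n : ℝ))) ^ (swt n S).card =
        Real.exp (-(Real.log (2 * n) * (swt n S).card)) := by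
      rw [one_div, inv_pow, Real.exp_neg, mul_comm (Real.log (2 * (n : ℝ))), Real.exp_nat_mul,
        Real.exp_log (by positivity)]
    rw [h8]
    calc μ ^ S.card * Real.exp (-((2 * D + Real.log (2 * n)) * (swt n S).card + E + x)) *
          (F.image (er S)).card
        = (((F.image (er S)).card : ℝ) * μ ^ S.card) * Real.exp (-(2 * D * (swt n S).card)) *
          (Real.exp (-x) * Real.exp (-(Real.log (2 * n) * (swt n S).card))) * Real.exp (-E) := by
          rw [show -((2 * D + Real.log (2 * n)) * (swt n S).card + E + x) =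
            -(2 * D * (swt n S).card) + (-x + -(Real.log (2 * n) * (swt n S).card)) + -E by ring,
            Real.exp_add, Real.exp_add, Real.exp_add]
          ring
      _ ≤ (μ ^ n * Real.exp (2 * D * (swt n S).card)) * Real.exp (-(2 * D * (swt n S).card)) *
          (Real.exp (-x) * Real.exp (-(Real.log (2 * n) * (swt n S).card))) * Real.exp (-E) := by
          gcongr
      _ = (Real.exp (-x) * Real.exp (-(Real.log (2 * n) * (swt n S).card))) *
          (Real.exp (-E) * μ ^ n) := by
          rw [mul_assoc (μ ^ n), ← Real.exp_add, add_neg_cancel, Real.exp_zero]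
          ring
      _ ≤ (Real.exp (-x) * Real.exp (-(Real.log (2 * n) * (swt n S).card))) * F.card :=
          mul_le_mul_of_nonneg_left hE (by positivity)
  · have h1 : F.filter Q ⊆
        (((Finset.Icc 1 n).powerset).erase ∅).biUnion (fun S => F.filter (fun ω =>
          ((F.filter (fun η => er S η = er S ω)).card : ℝ) < θ S)) := by
      intro ω hω
      rw [Finset.mem_filter, hQ] at hω
      obtain ⟨h2, S, h3, h4⟩ := hω
      rw [Finset.mem_biUnion]
      exact ⟨S, h3, Finset.mem_filter.2 ⟨h2, h4⟩⟩
    have h2 := (Finset.card_le_card h1).trans Finset.card_biUnion_le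
    have h3 : ((F.filter Q).card : ℝ) ≤
        ∑ S ∈ ((Finset.Icc 1 n).powerset).erase ∅, ((F.filter (fun ω =>
          ((F.filter (fun η => er S η = er S ω)).card : ℝ) < θ S)).card : ℝ) := by
      exact_mod_cast h2
    refine h3.trans ?_
    have h4 : ∀ S ∈ ((Finset.Icc 1 n).powerset).erase ∅, ((F.filter (fun ω =>
          ((F.filter (fun η => er S η = er S ω)).card : ℝ) < θ S)).card : ℝ) ≤
          (1 / (2 * (n : ℝ))) ^ (swt n S).card * (Real.exp (-x) * F.card) := by
      intro S _
      refine (fiber_le F (er S) (hθ0 S)).trans (le_of_eq ?_)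
      rw [hθ]
      show ((F.image (er S)).card : ℝ) * (Real.exp (-x) *
        (1 / (2 * (n : ℝ))) ^ (swt n S).card * F.card / (F.image (er S)).card) = _
      rw [mul_div_cancel₀ _ (himg S).ne']
      ring
    refine (Finset.sum_le_sum h4).trans ?_
    rw [← Finset.sum_mul]
    have h5 := mul_le_mul_of_nonneg_right (sum_ne_le hn)
      (show (0 : ℝ) ≤ Real.exp (-x) * F.card by positivity)
    rwa [one_mul] at h5

/-- the deterministic upper bound -/
theorem Lat.fill_le (L : Lat V) {μ D : ℝ} (hμ : 1 ≤ μ) {n : ℕ}
    (hD : ∀ m, m ≤ n → ((L.walks m).ncard : ℝ) ≤ μ ^ m * Real.exp D)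
    (S : Finset ℕ) (hS : 0 ∉ S) : ∀ m, m ≤ n → ∀ ω ∈ L.walks m,
      ((fill (L.walks m) S ω).ncard : ℝ) ≤ μ ^ (sn m S) * Real.exp (D * fn m S) := by
  have hμ0 : 0 < μ := by linarith
  have hffin : ∀ (m : ℕ) (ω : Fin (m + 1) → V), (fill (L.walks m) S ω).Finite := fun m ω =>
    (L.finite m).subset (fun η hη => hη.1)
  intro m
  induction m using Nat.strong_induction_on with
  | _ m ih =>
    intro hm ω hω
    by_cases hmS : m ∈ S
    · -- a free run
      obtain ⟨r, hr⟩ : ∃ r, r = ((Finset.range m).filter (fun j => j ∉ S)).max' (by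
        refine ⟨0, Finset.mem_filter.2 ⟨Finset.mem_range.2 ?_, hS⟩⟩
        exact Nat.pos_of_ne_zero (fun h => hS (h ▸ hmS))) := ⟨_, rfl⟩
      have hrm := Finset.mem_filter.1 (hr ▸ Finset.max'_mem
        ((Finset.range m).filter (fun j => j ∉ S)) _)
      have hrlt := Finset.mem_range.1 hrm.1
      have hfree : ∀ i, r < i → i ≤ m → i ∈ S := by
        intro i h1 h2
        by_contra h3
        have h4 : i < m := lt_of_le_of_ne h2 (fun h => h3 (h ▸ hmS))
        have h5 := Finset.le_max' ((Finset.range m).filter (fun j => j ∉ S)) i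
          (Finset.mem_filter.2 ⟨Finset.mem_range.2 h4, h3⟩)
        rw [← hr] at h5
        omega
      have h1 : ((fill (L.walks m) S ω).ncard : ℝ) ≤
          (fill (L.walks r) S (L.piece 0 r ω)).ncard * (L.walks (m - r)).ncard := by
        have h2 : (fill (L.walks m) S ω).ncard ≤
            ((fill (L.walks r) S (L.piece 0 r ω)) ×ˢ (L.walks (m - r))).ncard := by
          refine Set.ncard_le_ncard_of_injOn (fun η => (L.piece 0 r η, L.piece r (m - r) η))
            ?_ ?_ ((hffin _ _).prod (L.finite _))
          · intro η hη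
            refine ⟨⟨L.mem hη.1 (by omega), fun i hi => ?_⟩, L.mem hη.1 (by omega)⟩
            have hi2 := i.2
            have h3 := xt_tr L hη.1 (m := r) (k := i.1) (by omega)
            have h4 := xt_tr L hω (m := r) (k := i.1) (by omega)
            rw [xt_eq _ (by omega)] at h3 h4
            refine h3.trans (Eq.trans ?_ h4.symm)
            rw [xt_eq _ (by omega), xt_eq _ (by omega)]
            exact hη.2 ⟨i.1, by omega⟩ hi
          · intro η hη η' hη' he
            simp only [Prod.mk.injEq] at he
            exact L.piece_inj hη.1 hη'.1 (show r + (m - r) = m by omega) he.1 he.2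
        rw [Set.ncard_prod] at h2
        exact_mod_cast h2
      have h2 := ih r hrlt (by omega) (L.piece 0 r ω) (L.mem hω (by omega))
      have h3 := hD (m - r) (by omega)
      have h4 : sn m S = sn r S + (m - r) := by
        unfold sn
        have : S.filter (fun j => j ≤ m) = (S.filter (fun j => j ≤ r)) ∪
            (Finset.Icc (r + 1) m) := by
          ext j
          rw [Finset.mem_union, Finset.mem_filter, Finset.mem_filter, Finset.mem_Icc]
          constructor
          · rintro ⟨h5, h6⟩
            by_cases h7 : j ≤ r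
            · left; exact ⟨h5, h7⟩
            · right; omega
          · rintro (⟨h5, h6⟩ | ⟨h5, h6⟩)
            · exact ⟨h5, by omega⟩
            · exact ⟨hfree j (by omega) h6, h6⟩
        rw [this, Finset.card_union_of_disjoint, Nat.card_Icc]
        · omega
        · rw [Finset.disjoint_left]
          intro j h5 h6
          rw [Finset.mem_filter] at h5
          rw [Finset.mem_Icc] at h6
          omega
      have h5 : fn r S + 1 ≤ fn m S := by
        unfold fn
        have hins : insert (r + 1) (S.filter (fun j => j ≤ r ∧ j - 1 ∉ S)) ⊆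
            S.filter (fun j => j ≤ m ∧ j - 1 ∉ S) := by
          intro j hj
          rw [Finset.mem_insert, Finset.mem_filter] at hj
          rw [Finset.mem_filter]
          rcases hj with h5 | ⟨h5, h6, h7⟩
          · rw [h5]
            exact ⟨hfree (r + 1) (by omega) (by omega), by omega, by
              rw [Nat.add_sub_cancel]; exact hrm.2⟩
          · exact ⟨h5, by omega, h7⟩
        have h5 := Finset.card_le_card hins
        rwa [Finset.card_insert_of_notMem (by rw [Finset.mem_filter]; omega)] at h5
      have hD0 : 0 ≤ D := by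
        have h1 := hD 0 (Nat.zero_le _)
        have h2 : (1 : ℝ) ≤ (L.walks 0).ncard := by
          have : 0 < (L.walks 0).ncard := (Set.ncard_pos (L.finite 0)).2 (L.nonempty 0)
          exact_mod_cast this
        rw [pow_zero, one_mul] at h1
        exact Real.one_le_exp_iff.1 (h2.trans h1)
      have h5' : (fn r S : ℝ) + 1 ≤ fn m S := by exact_mod_cast h5
      rw [h4, pow_add]
      calc ((fill (L.walks m) S ω).ncard : ℝ)
          ≤ (fill (L.walks r) S (L.piece 0 r ω)).ncard * (L.walks (m - r)).ncard := h1
        _ ≤ (μ ^ (sn r S) * Real.exp (D * fn r S)) * (μ ^ (m - r) * Real.exp D) :=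
            mul_le_mul h2 h3 (Nat.cast_nonneg _) (by positivity)
        _ = (μ ^ (sn r S) * μ ^ (m - r)) * Real.exp (D * fn r S + D) := by
            rw [Real.exp_add]; ring
        _ ≤ (μ ^ (sn r S) * μ ^ (m - r)) * Real.exp (D * fn m S) := by
            refine mul_le_mul_of_nonneg_left (Real.exp_le_exp.2 ?_) (by positivity)
            nlinarith
    · -- the last time is kept
      rcases Nat.eq_zero_or_pos m with h0 | h0
      · subst h0
        have h1 : (fill (L.walks 0) S ω).ncard ≤ 1 := by
          rw [Set.ncard_le_one (hffin _ _)]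
          intro a ha b hb
          funext i
          have hi : i = 0 := by
            apply Fin.ext
            have := i.2
            simp only [Fin.val_zero]
            omega
          rw [hi, ha.1.1, hb.1.1]
        have h2 : sn 0 S = 0 := by
          unfold sn
          rw [Finset.card_eq_zero, Finset.filter_eq_empty_iff]
          intro j hj h3
          exact hS ((Nat.le_zero.1 h3) ▸ hj)
        have h3 : fn 0 S = 0 := by
          unfold fn
          rw [Finset.card_eq_zero, Finset.filter_eq_empty_iff]
          rintro j hj ⟨h3, -⟩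
          exact hS ((Nat.le_zero.1 h3) ▸ hj)
        rw [h2, h3]
        simp only [pow_zero, Nat.cast_zero, mul_zero, Real.exp_zero, mul_one]
        exact_mod_cast h1
      · obtain ⟨k, rfl⟩ : ∃ k, m = k + 1 := ⟨m - 1, by omega⟩
        have h1 : ((fill (L.walks (k + 1)) S ω).ncard : ℝ) ≤
            (fill (L.walks k) S (L.piece 0 k ω)).ncard := by
          have h2 : (fill (L.walks (k + 1)) S ω).ncard ≤
              (fill (L.walks k) S (L.piece 0 k ω)).ncard := by
            refine Set.ncard_le_ncard_of_injOn (fun η => L.piece 0 k η) ?_ ?_ (hffin _ _)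
            · intro η hη
              refine ⟨L.mem hη.1 (by omega), fun i hi => ?_⟩
              have hi2 := i.2
              have h3 := xt_tr L hη.1 (m := k) (k := i.1) (by omega)
              have h4 := xt_tr L hω (m := k) (k := i.1) (by omega)
              rw [xt_eq _ (by omega)] at h3 h4
              refine h3.trans (Eq.trans ?_ h4.symm)
              rw [xt_eq _ (by omega), xt_eq _ (by omega)]
              exact hη.2 ⟨i.1, by omega⟩ hi
            · intro η hη η' hη' he
              funext i
              have hi2 := i.2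
              by_cases hi : i.1 ≤ k
              · have h3 := xt_tr L hη.1 (m := k) (k := i.1) hi
                have h4 := xt_tr L hη'.1 (m := k) (k := i.1) hi
                have h5 : xt (L.piece 0 k η) i.1 = xt (L.piece 0 k η') i.1 := by
                  rw [show L.piece 0 k η = L.piece 0 k η' from he]
                rw [h3, h4, xt_eq _ (by omega), xt_eq _ (by omega)] at h5
                exact h5
              · have h3 : i.1 = k + 1 := by omega
                rw [hη.2 i (by rw [h3]; exact hmS), hη'.2 i (by rw [h3]; exact hmS)]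
          exact_mod_cast h2
        have h2 := ih k (by omega) (by omega) (L.piece 0 k ω) (L.mem hω (by omega))
        have h3 : sn (k + 1) S = sn k S := by
          unfold sn
          congr 1
          ext j
          rw [Finset.mem_filter, Finset.mem_filter]
          constructor
          · rintro ⟨h4, h5⟩
            have h6 : j ≠ k + 1 := fun h => hmS (h ▸ h4)
            exact ⟨h4, by omega⟩
          · rintro ⟨h4, h5⟩
            exact ⟨h4, by omega⟩
        have h4 : fn (k + 1) S = fn k S := by
          unfold fn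
          congr 1
          ext j
          rw [Finset.mem_filter, Finset.mem_filter]
          constructor
          · rintro ⟨h4, h5, h7⟩
            have h6 : j ≠ k + 1 := fun h => hmS (h ▸ h4)
            exact ⟨h4, by omega, h7⟩
          · rintro ⟨h4, h5, h7⟩
            exact ⟨h4, by omega, h7⟩
        rw [h3, h4]
        exact h1.trans h2

end Pool.Agent.N932.FL
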