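import Pool.Agent.N932.FL.Rer
import Pool.Agent.N932.FL.Three

/-! # Rerouting: planar lattices with `c_n ≤ μ^n exp (K (log n)²)` -/

set_option autoImplicit false

namespace Pool.Agent.N932.FL

open scoped Classical

/-- the box -/
noncomputable def box (n : ℕ) : Finset (ℤ × ℤ) :=
  Finset.Icc (-(n : ℤ)) n ×ˢ Finset.Icc (-(n : ℤ)) n

theorem card_box (n : ℕ) : (box n).card = (2 * n + 1) ^ 2 := by
  unfold box
  rw [Finset.card_product, Int.card_Icc]
  have : ((n : ℤ) + 1 - -(n : ℤ)).toNat = 2 * n + 1 := by omega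
  rw [this, sq]

theorem Lat.in_box (L : Lat (ℤ × ℤ))
    (hb : ∀ x y, L.Adj x y → |y.1 - x.1| ≤ 1 ∧ |y.2 - x.2| ≤ 1) {n m : ℕ} (hm : m ≤ n)
    {ω : Fin (m + 1) → ℤ × ℤ} (hω : ω ∈ L.walks m) (i : Fin (m + 1)) : ω i ∈ box n := by
  have key : ∀ k : ℕ, ∀ hk : k < m + 1, |(ω ⟨k, hk⟩).1| ≤ k ∧ |(ω ⟨k, hk⟩).2| ≤ k := by
    intro k
    induction k with
    | zero =>
      intro hk
      have h0 : ω ⟨0, hk⟩ = 0 := hω.1
      rw [h0]
      simp
    | succ k ih =>
      intro hk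
      obtain ⟨h1, h2⟩ := ih (by omega)
      have h3 : L.Adj (ω ⟨k, by omega⟩) (ω ⟨k + 1, hk⟩) := hω.2.2 ⟨k, by omega⟩
      obtain ⟨h4, h5⟩ := hb _ _ h3
      rw [abs_le] at h1 h2 h4 h5 ⊢
      rw [abs_le]
      push_cast
      omega
  obtain ⟨h1, h2⟩ := key i.1 i.2
  have hi := i.2
  rw [abs_le] at h1 h2
  unfold box
  rw [Finset.mem_product, Finset.mem_Icc, Finset.mem_Icc]
  have h3 : ω ⟨i.1, i.2⟩ = ω i := rfl
  rw [h3] at h1 h2
  omega

theorem gprob_ncard {V : Type} [AddCommGroup V] {n : ℕ} {A : Set (Fin (n + 1) → V)}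
    (hA : A.Finite) (B : Set (Fin (n + 1) → V)) :
    gprob A B = ((A ∩ B).ncard : ℝ) / A.ncard := by
  unfold gprob gmean
  congr 1
  rw [finsum_mem_eq_finite_toFinset_sum _ hA, Finset.sum_boole, ← Set.ncard_coe_finset]
  congr 2
  ext ω
  rw [Finset.mem_coe, Finset.mem_filter, hA.mem_toFinset]
  rfl

/-- **planar lattices: rerouting** -/
theorem Lat.reroute_sq (L : Lat (ℤ × ℤ))
    (hb : ∀ x y, L.Adj x y → |y.1 - x.1| ≤ 1 ∧ |y.2 - x.2| ≤ 1) {μ K : ℝ} (hμ : 1 ≤ μ)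
    (hup : ∀ n, 2 ≤ n → ((L.walks n).ncard : ℝ) ≤ μ ^ n * Real.exp (K * Real.log n ^ 2)) :
    ∃ K2 : ℝ, 0 < K2 ∧ ∀ n : ℕ, 2 ≤ n →
      (∀ ω ∈ L.walks n, ∀ S : Finset ℕ, S ⊆ Finset.Icc 1 n →
        ((fill (L.walks n) S ω).ncard : ℝ) ≤
          μ ^ S.card * Real.exp (K2 * (swt n S).card * Real.log n ^ 2)) ∧
      ∀ A : Set (Fin (n + 1) → ℤ × ℤ), A ⊆ L.walks n → A.Nonempty → ∀ E : ℝ,
        Real.exp (-E) * μ ^ n ≤ A.ncard → ∀ x : ℝ,
        gprob A {ω | ¬ ∀ S : Finset ℕ, S ⊆ Finset.Icc 1 n → S.Nonempty →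
          μ ^ S.card * Real.exp (-(K2 * (swt n S).card * Real.log n ^ 2 + E + x)) ≤
            (fill A S ω).ncard} ≤ Real.exp (-x) := by
  have hμ0 : 0 < μ := by linarith
  have hl2 : (0.69 : ℝ) < Real.log 2 := by
    have := Real.log_two_gt_d9
    linarith
  obtain ⟨c1, hc1⟩ : ∃ c1 : ℝ, c1 = max ((L.walks 0).ncard : ℝ) (L.walks 1).ncard := ⟨_, rfl⟩
  have hc10 : 0 ≤ c1 := by
    rw [hc1]
    exact le_max_of_le_left (Nat.cast_nonneg _)
  obtain ⟨K1, hK1⟩ : ∃ K1 : ℝ, K1 = 4 * c1 := ⟨_, rfl⟩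
  have hK10 : 0 ≤ K1 := by rw [hK1]; linarith
  refine ⟨2 * (|K| + 12 + K1) + 4, by positivity, fun n hn => ?_⟩
  have hn2 : (2 : ℝ) ≤ n := by exact_mod_cast hn
  have hlog : Real.log 2 ≤ Real.log n := Real.log_le_log (by norm_num) hn2
  have hlog0 : 0.69 < Real.log n := by linarith
  have hsq : Real.log n ≤ 2 * Real.log n ^ 2 := by nlinarith
  obtain ⟨D, hD⟩ : ∃ D : ℝ, D = (|K| + 12 + K1) * Real.log n ^ 2 := ⟨_, rfl⟩
  have hD0 : 0 ≤ D := by rw [hD]; positivity
  -- the number of walks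
  have hc : ∀ m, m ≤ n → ((L.walks m).ncard : ℝ) ≤
      μ ^ m * Real.exp ((|K| + K1) * Real.log n ^ 2) := by
    intro m hm
    by_cases h2 : 2 ≤ m
    · refine (hup m h2).trans (mul_le_mul_of_nonneg_left (Real.exp_le_exp.2 ?_) (by positivity))
      have hm2 : (2 : ℝ) ≤ m := by exact_mod_cast h2
      have hlm : 0 ≤ Real.log m := Real.log_nonneg (by linarith)
      have hlmn : Real.log m ≤ Real.log n :=
        Real.log_le_log (by linarith) (by exact_mod_cast hm)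
      have h3 : Real.log m ^ 2 ≤ Real.log n ^ 2 := pow_le_pow_left₀ hlm hlmn 2
      have h4 : K * Real.log m ^ 2 ≤ |K| * Real.log m ^ 2 :=
        mul_le_mul_of_nonneg_right (le_abs_self K) (sq_nonneg _)
      have h5 : |K| * Real.log m ^ 2 ≤ |K| * Real.log n ^ 2 :=
        mul_le_mul_of_nonneg_left h3 (abs_nonneg K)
      nlinarith
    · have h3 : ((L.walks m).ncard : ℝ) ≤ c1 := by
        rw [hc1]
        have : m = 0 ∨ m = 1 := by omega
        rcases this with h | h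
        · rw [h]; exact le_max_left _ _
        · rw [h]; exact le_max_right _ _
      have h4 : c1 ≤ Real.exp ((|K| + K1) * Real.log n ^ 2) := by
        have h5 : c1 ≤ (|K| + K1) * Real.log n ^ 2 := by
          have h6 : (0.47 : ℝ) ≤ Real.log n ^ 2 := by nlinarith
          have h7 := abs_nonneg K
          rw [hK1]
          nlinarith
        have h6 := Real.add_one_le_exp ((|K| + K1) * Real.log n ^ 2)
        linarith
      have h5 : (1 : ℝ) ≤ μ ^ m := one_le_pow₀ hμ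
      have h6 := Real.exp_pos ((|K| + K1) * Real.log n ^ 2)
      nlinarith
  have hbox : ((box n).card : ℝ) ≤ Real.exp (12 * Real.log n ^ 2) := by
    rw [card_box]
    push_cast
    have h1 : (2 * (n : ℝ) + 1) ≤ n ^ 3 := by nlinarith [sq_nonneg ((n : ℝ) - 2)]
    have h2 : (2 * (n : ℝ) + 1) ^ 2 ≤ (n ^ 3) ^ 2 := pow_le_pow_left₀ (by positivity) h1 2
    refine h2.trans ?_
    have h3 : ((n : ℝ) ^ 3) ^ 2 = Real.exp (6 * Real.log n) := by
      rw [show (6 : ℝ) * Real.log n = ((6 : ℕ) : ℝ) * Real.log n by norm_num, Real.exp_nat_mul,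
        Real.exp_log (by linarith)]
      ring
    rw [h3]
    exact Real.exp_le_exp.2 (by nlinarith)
  have hB : ∀ m, m ≤ n → ∀ ω ∈ L.walks m, ∀ i, ω i ∈ box n :=
    fun m hm ω hω i => L.in_box hb hm hω i
  have hDD : ∀ m, m ≤ n → ((box n).card : ℝ) * (L.walks m).ncard ≤ μ ^ m * Real.exp D := by
    intro m hm
    calc ((box n).card : ℝ) * (L.walks m).ncard
        ≤ Real.exp (12 * Real.log n ^ 2) *
          (μ ^ m * Real.exp ((|K| + K1) * Real.log n ^ 2)) :=
          mul_le_mul hbox (hc m hm) (Nat.cast_nonneg _) (Real.exp_pos _).le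
      _ = μ ^ m * Real.exp D := by
          rw [hD, show (|K| + 12 + K1) * Real.log n ^ 2 = 12 * Real.log n ^ 2 +
            (|K| + K1) * Real.log n ^ 2 by ring, Real.exp_add]
          ring
  refine ⟨fun ω hω S hS => ?_, fun A hA hne E hE x => ?_⟩
  · have h0 : 0 ∉ S := fun h => by
      have := Finset.mem_Icc.1 (hS h)
      omega
    have h1 := L.fill_le (D := D) hμ (fun m hm => (hc m hm).trans
      (mul_le_mul_of_nonneg_left (Real.exp_le_exp.2 (by rw [hD]; nlinarith)) (by positivity)))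
      S h0 n le_rfl ω hω
    have h3 : sn n S = S.card := by
      unfold sn
      congr 1
      rw [Finset.filter_eq_self]
      intro j hj
      exact (Finset.mem_Icc.1 (hS hj)).2
    rw [h3] at h1
    refine h1.trans (mul_le_mul_of_nonneg_left (Real.exp_le_exp.2 ?_) (by positivity))
    have h4 : (fn n S : ℝ) ≤ (swt n S).card := by exact_mod_cast fn_le hS
    have h5 : (0 : ℝ) ≤ (swt n S).card := Nat.cast_nonneg _
    calc D * fn n S ≤ D * (swt n S).card := mul_le_mul_of_nonneg_left h4 hD0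
      _ = (|K| + 12 + K1) * (swt n S).card * Real.log n ^ 2 := by rw [hD]; ring
      _ ≤ (2 * (|K| + 12 + K1) + 4) * (swt n S).card * Real.log n ^ 2 := by
          have h6 := abs_nonneg K
          have h7 : (|K| + 12 + K1) ≤ 2 * (|K| + 12 + K1) + 4 := by linarith
          exact mul_le_mul_of_nonneg_right (mul_le_mul_of_nonneg_right h7 h5) (sq_nonneg _)
  · have h1 := L.reroute hμ (by omega) hB hDD hA hne hE x
    have hAf : A.Finite := (L.finite n).subset hA
    refine le_trans ?_ h1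
    unfold gprob gmean
    refine div_le_div_of_nonneg_right ?_ (Nat.cast_nonneg _)
    rw [finsum_mem_eq_finite_toFinset_sum _ hAf, finsum_mem_eq_finite_toFinset_sum _ hAf]
    refine Finset.sum_le_sum (fun ω _ => ?_)
    split_ifs with h2 h3 h3
    · exact le_rfl
    · exfalso
      apply h2
      intro S hS hSne
      refine le_trans (mul_le_mul_of_nonneg_left (Real.exp_le_exp.2 ?_) (by positivity))
        (not_not.1 h3 S hS hSne)
      have h4 : (2 * D + Real.log (2 * n)) * (swt n S).card ≤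
          (2 * (|K| + 12 + K1) + 4) * (swt n S).card * Real.log n ^ 2 := by
        have h5 : Real.log (2 * n) ≤ 4 * Real.log n ^ 2 := by
          rw [Real.log_mul (by norm_num) (by linarith)]
          nlinarith
        have h6 : (0 : ℝ) ≤ (swt n S).card := Nat.cast_nonneg _
        calc (2 * D + Real.log (2 * n)) * (swt n S).card
            ≤ (2 * D + 4 * Real.log n ^ 2) * (swt n S).card :=
              mul_le_mul_of_nonneg_right (by linarith) h6
          _ = _ := by rw [hD]; ring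
      linarith
    · exact zero_le_one
    · exact le_rfl

theorem box_sq (x y : ℤ × ℤ) (h : sqLat.Adj x y) : |y.1 - x.1| ≤ 1 ∧ |y.2 - x.2| ≤ 1 := by
  have h' : |x.1 - y.1| + |x.2 - y.2| = 1 := h
  have h1 := abs_nonneg (x.1 - y.1)
  have h2 := abs_nonneg (x.2 - y.2)
  rw [abs_sub_comm y.1, abs_sub_comm y.2]
  omega

theorem box_tri (x y : ℤ × ℤ) (h : triLat.Adj x y) : |y.1 - x.1| ≤ 1 ∧ |y.2 - x.2| ≤ 1 := by
  have h' : y - x ∈ ({(1, 0), (-1, 0), (0, 1), (0, -1), (1, -1), (-1, 1)} : Set (ℤ × ℤ)) := h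
  simp only [Set.mem_insert_iff, Set.mem_singleton_iff, Prod.ext_iff, Prod.fst_sub,
    Prod.snd_sub] at h'
  rw [abs_le, abs_le]
  omega

theorem box_hex (x y : ℤ × ℤ) (h : hexLat.Adj x y) : |y.1 - x.1| ≤ 1 ∧ |y.2 - x.2| ≤ 1 := by
  have h' : AdjH x y := h
  unfold AdjH at h'
  simp only [Prod.ext_iff, Prod.fst_sub, Prod.snd_sub] at h'
  rw [abs_le, abs_le]
  rcases h' with h | h | ⟨h, -⟩ | ⟨h, -⟩ <;> omega

/-- the constant is at least one -/
theorem Lat.one_le (L : Lat (ℤ × ℤ)) {μ : ℝ} (h : μ = (⨅ n : {n : ℕ // 1 ≤ n},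
    (((L.walks n.1).ncard : ℝ)) ^ ((1 : ℝ) / (n.1 : ℝ)))) : 1 ≤ μ := by
  rw [h]
  have : Nonempty {n : ℕ // 1 ≤ n} := ⟨⟨1, le_rfl⟩⟩
  refine le_ciInf (fun n => ?_)
  refine Real.one_le_rpow ?_ (by positivity)
  have : 0 < (L.walks n.1).ncard := (Set.ncard_pos (L.finite _)).2 (L.nonempty _)
  exact_mod_cast this

end Pool.Agent.N932.FL
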