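import Pool.Agent.N932.FL.Sum

/-! # All scales simultaneously, for conditioned walks (abstract) -/

set_option autoImplicit false

namespace Pool.Agent.N932.FL

open scoped Classical
open Pool.Agent.N932.RP (cl cl2 cl_pos cl_congr cl2_congr cl_ncard cl2_ncard cl2_pos_iff
  cond_pos_iff cl_eq_card cl_eq_one cl_le_of_inj cond_self sum_cl2 sum_cond cond_nonneg avg_fiber
  sum_inv_cl kl tv af tv_nonneg tv_sq_le_af af_nonneg af_le kl_elem tv_sq_le_kl kl_nonneg af_pos
  jensen_log)

variable {P : ℕ → Type} [Sys P]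

open Sys (pc)
variable {mu : ℝ} {F : ℕ → ℝ}

/-- tail bound for the windows of one residue class -/
theorem tail_windows {n r M p v : ℕ} {A : Finset (P n)} (hA : A ⊆ Sys.W (P := P) n) (hne : A.Nonempty)
    {σ : ℕ → ℕ} (hσ : Monotone σ) (h0 : σ 0 = 0) (hp : σ p = M) (hv : r + v * M ≤ n) {lr : ℝ}
    (hlr : Real.log (cnP P r * cnP P M ^ v * cnP P (n - (r + v * M)) / A.card) ≤ lr) (x : ℝ) :
    ((A.filter (fun ω => lr + 4 * x <
      ∑ u ∈ Finset.range v, SB A (r + u * M) M σ p ω)).card : ℝ) ≤ Real.exp (-x) * A.card := by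
  have hcn : (0 : ℝ) < A.card := by exact_mod_cast Finset.card_pos.2 hne
  have hcr := cnP_pos P r
  have hcM := cnP_pos P M
  have hcr' := cnP_pos P (n - (r + v * M))
  obtain ⟨ρ, hρ⟩ : ∃ ρ : ℝ, ρ = cnP P r * cnP P M ^ v * cnP P (n - (r + v * M)) / A.card := ⟨_, rfl⟩
  have hρ0 : 0 < ρ := by rw [hρ]; positivity
  have h1 := exp_windows hA hne hσ h0 hp hv
  rw [← hρ] at h1 hlr
  have h2 : Real.exp (x + 1 / 4 * lr) *
      ((A.filter (fun ω => lr + 4 * x <
      ∑ u ∈ Finset.range v, SB A (r + u * M) M σ p ω)).card : ℝ) ≤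
      ∑ ω ∈ A, Real.exp (1 / 4 * ∑ u ∈ Finset.range v, SB A (r + u * M) M σ p ω) := by
    rw [mul_comm, ← nsmul_eq_mul, ← Finset.sum_const]
    refine (Finset.sum_le_sum (fun ω hω => ?_)).trans
      (Finset.sum_le_sum_of_subset_of_nonneg (Finset.filter_subset _ _)
        (fun ω _ _ => (Real.exp_pos _).le))
    rw [Finset.mem_filter] at hω
    refine Real.exp_le_exp.2 ?_
    linarith [hω.2]
  have h3 : ρ ^ (1 / 4 : ℝ) ≤ Real.exp (1 / 4 * lr) := by
    rw [Real.rpow_def_of_pos hρ0]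
    refine Real.exp_le_exp.2 ?_
    linarith
  have h4 := h2.trans (h1.trans (mul_le_mul_of_nonneg_left h3 hcn.le))
  rw [Real.exp_add, mul_assoc] at h4
  have h5 := Real.exp_pos (1 / 4 * lr)
  have h6 : Real.exp x * ((A.filter (fun ω => lr + 4 * x <
      ∑ u ∈ Finset.range v, SB A (r + u * M) M σ p ω)).card : ℝ) ≤ A.card := by
    by_contra hcon
    push Not at hcon
    have := mul_lt_mul_of_pos_right hcon h5
    linarith
  rw [Real.exp_neg, inv_mul_eq_div, le_div_iff₀ (Real.exp_pos x), mul_comm]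
  exact h6

theorem S_le_SB {n b M L s : ℕ} {A : Finset (P n)} (hs : s ≤ M) (ω : P n) :
    ∑ i ∈ Finset.range ((M - s) / L), TVA A b M (s + i * L) L ω ^ 2 ≤
      SB A b M (sig M L s) ((M - s) / L + 2) ω := by
  unfold SB
  rw [Finset.sum_range_succ', Finset.sum_range_succ]
  have h1 : ∀ i ∈ Finset.range ((M - s) / L),
      TVA A b M (sig M L s (i + 1)) (sig M L s (i + 1 + 1) - sig M L s (i + 1)) ω ^ 2 =
      TVA A b M (s + i * L) L ω ^ 2 := by
    intro i hi
    rw [Finset.mem_range] at hi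
    have h2 : (i + 1) * L ≤ (M - s) / L * L := Nat.mul_le_mul_right _ hi
    have h3 : (M - s) / L * L ≤ M - s := Nat.div_mul_le_self _ _
    have h4 : (i + 1) * L = i * L + L := by ring
    have e1 : sig M L s (i + 1) = s + i * L := by
      show min M (s + i * L) = _
      omega
    have e2 : sig M L s (i + 1 + 1) - sig M L s (i + 1) = L := by
      rw [e1]
      show min M (s + (i + 1) * L) - (s + i * L) = L
      omega
    rw [e2, e1]
  rw [Finset.sum_congr rfl h1]
  have h2 := sq_nonneg (TVA A b M (sig M L s ((M - s) / L + 1))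
    (sig M L s ((M - s) / L + 1 + 1) - sig M L s ((M - s) / L + 1)) ω)
  have h3 := sq_nonneg (TVA A b M (sig M L s 0) (sig M L s (0 + 1) - sig M L s 0) ω)
  linarith

/-- the sum of all squared distances at the scales `L ≤ M` -/
noncomputable def BB {n : ℕ} (A : Finset (P n)) (M L : ℕ) (ω : P n) : ℝ :=
  ∑ b ∈ Finset.range (n + 1 - M), ∑ i ∈ Finset.range (M + 1 - L), TVA A b M i L ω ^ 2

theorem BB_le {n M L : ℕ} {A : Finset (P n)} (hM : 1 ≤ M) (hL : 1 ≤ L) (hLM : L ≤ M) {x : ℝ}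
    {ω : P n} (h : ∀ r < M, ∀ s < L,
      ∑ u ∈ Finset.range ((n - r) / M), SB A (r + u * M) M (sig M L s) ((M - s) / L + 2) ω ≤ x) :
    BB A M L ω ≤ M * (L * x) := by
  unfold BB
  have h1 : ∀ b ∈ Finset.range (n + 1 - M), ∑ i ∈ Finset.range (M + 1 - L),
      TVA A b M i L ω ^ 2 = ∑ s ∈ Finset.range L, ∑ i ∈ Finset.range ((M - s) / L),
        TVA A b M (s + i * L) L ω ^ 2 := fun b _ => sum_residue L M hL _
  rw [Finset.sum_congr rfl h1, sum_residue M n hM]
  have h2 : ∀ r ∈ Finset.range M, ∑ u ∈ Finset.range ((n - r) / M), ∑ s ∈ Finset.range L,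
      ∑ i ∈ Finset.range ((M - s) / L), TVA A (r + u * M) M (s + i * L) L ω ^ 2 ≤ L * x := by
    intro r hr
    rw [Finset.mem_range] at hr
    rw [Finset.sum_comm]
    have h3 : ∀ s ∈ Finset.range L, ∑ u ∈ Finset.range ((n - r) / M),
        ∑ i ∈ Finset.range ((M - s) / L), TVA A (r + u * M) M (s + i * L) L ω ^ 2 ≤ x := by
      intro s hs
      rw [Finset.mem_range] at hs
      exact (Finset.sum_le_sum (fun u _ => S_le_SB (by omega) ω)).trans (h r hr s hs)
    refine (Finset.sum_le_sum h3).trans (le_of_eq ?_)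
    rw [Finset.sum_const, Finset.card_range, nsmul_eq_mul]
  refine (Finset.sum_le_sum h2).trans (le_of_eq ?_)
  rw [Finset.sum_const, Finset.card_range, nsmul_eq_mul]

theorem M_log_le {M n : ℕ} (hM : 2 ≤ M) (hMn : M ≤ n) :
    (M : ℝ) * Real.log n ≤ 3 * (n * Real.log M) := by
  have h1 : (0.69 : ℝ) < Real.log M := by
    have h2 : Real.log 2 ≤ Real.log M := Real.log_le_log (by norm_num) (by exact_mod_cast hM)
    have := Real.log_two_gt_d9
    linarith
  have hM0 : (0 : ℝ) < M := by exact_mod_cast (by omega : 0 < M)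
  have hMn' : (M : ℝ) ≤ n := by exact_mod_cast hMn
  have hn0 : (0 : ℝ) < n := by linarith
  have h2 := Real.log_le_sub_one_of_pos (div_pos hn0 hM0)
  rw [Real.log_div hn0.ne' hM0.ne'] at h2
  have h3 : (M : ℝ) * Real.log n ≤ M * Real.log M + n := by
    have h4 : (M : ℝ) * (Real.log n - Real.log M) ≤ M * (n / M - 1) :=
      mul_le_mul_of_nonneg_left h2 hM0.le
    have h5 : (M : ℝ) * (n / M - 1) = n - M := by field_simp
    rw [h5] at h4
    linarith
  have h4 : (M : ℝ) * Real.log M ≤ n * Real.log M :=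
    mul_le_mul_of_nonneg_right hMn' (by linarith)
  have h5 : (n : ℝ) * 0.69 ≤ n * Real.log M := mul_le_mul_of_nonneg_left h1.le hn0.le
  linarith

/-- **all scales simultaneously** -/
theorem all_scales (hB : Bd P mu F) {n : ℕ} (hn : 2 ≤ n) {A : Finset (P n)} (hA : A ⊆ Sys.W (P := P) n)
    (hne : A.Nonempty) {E : ℝ} (hE0 : 0 ≤ E) (hE : n * Real.log mu - E ≤ Real.log A.card)
    {x : ℝ} (hx : 0 ≤ x) : ((A.filter (fun ω => ¬ ∀ M L : ℕ, 2 ≤ M → M ≤ n → 1 ≤ L → L ≤ M →
      BB A M L ω ≤ 64 * L * (n * (F M + Real.log M) + M * (E + x)))).card : ℝ) ≤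
      Real.exp (-x) * A.card := by
  have hn2 : (2 : ℝ) ≤ n := by exact_mod_cast hn
  have hn0 : (0 : ℝ) < n := by linarith
  have hlog : 0 ≤ Real.log n := Real.log_nonneg (by linarith)
  obtain ⟨y, hy⟩ : ∃ y, y = x + 4 * Real.log n := ⟨_, rfl⟩
  have hcn : (0 : ℝ) < A.card := by exact_mod_cast Finset.card_pos.2 hne
  have hmu := hB.pos
  -- the bound for `log ρ`
  have hlr : ∀ M r : ℕ, 2 ≤ M → M ≤ n → r < M →
      Real.log (cnP P r * cnP P M ^ ((n - r) / M) * cnP P (n - (r + (n - r) / M * M)) / A.card) ≤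
        (n / M + 2) * F M + E := by
    intro M r hM hMn hr
    obtain ⟨κ, hκ⟩ : ∃ κ : ℝ, κ = F M := ⟨_, rfl⟩
    have hκ0 : 0 ≤ κ := by rw [hκ]; exact hB.F0 M
    have hlogc : ∀ j ≤ M, Real.log (cnP P j) ≤ j * Real.log mu + κ := by
      intro j hj
      rw [hκ]
      exact hB.logc hj
    obtain ⟨q, hq⟩ : ∃ q, q = (n - r) / M := ⟨_, rfl⟩
    have hq1 : q * M ≤ n - r := by rw [hq]; exact Nat.div_mul_le_self _ _
    have hq2 : n - r < q * M + M := by
      have h1 : n - r < (q + 1) * M := by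
        rw [hq]
        exact Nat.lt_mul_of_div_lt (Nat.lt_succ_self _) (by omega)
      have h2 : (q + 1) * M = q * M + M := by ring
      omega
    rw [← hq, ← hκ]
    have p1 := cnP_pos P r
    have p2 := cnP_pos P M
    have p3 := cnP_pos P (n - (r + q * M))
    rw [Real.log_div (by positivity) hcn.ne', Real.log_mul (by positivity) p3.ne',
      Real.log_mul p1.ne' (by positivity), Real.log_pow]
    have h5 := hlogc (n - (r + q * M)) (by omega)
    have h6 := hlogc r hr.le
    have h7 : ((n - (r + q * M) : ℕ) : ℝ) = n - (r + q * M) := by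
      rw [Nat.cast_sub (by omega)]
      push_cast
      ring
    rw [h7] at h5
    have h8 : (q : ℝ) * Real.log (cnP P M) ≤ q * (M * Real.log mu + κ) := by
      gcongr
      exact hlogc M le_rfl
    have h10 : (q : ℝ) ≤ n / M := by
      rw [le_div_iff₀ (by exact_mod_cast (by omega : 0 < M))]
      exact_mod_cast (by omega : q * M ≤ n)
    have h12 : ((q : ℝ) + 2) * κ ≤ (n / M + 2) * κ := by gcongr
    linarith
  have hsub : A.filter (fun ω => ¬ ∀ M L : ℕ, 2 ≤ M → M ≤ n → 1 ≤ L → L ≤ M →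
      BB A M L ω ≤ 64 * L * (n * (F M + Real.log M) + M * (E + x))) ⊆
      ((Finset.range n ×ˢ Finset.range n) ×ˢ (Finset.range n ×ˢ Finset.range n)).biUnion (fun p =>
        A.filter (fun ω => 2 ≤ p.1.1 + 1 ∧ p.2.1 < p.1.1 + 1 ∧ p.2.2 < p.1.2 + 1 ∧
          (n / ((p.1.1 + 1 : ℕ) : ℝ) + 2) * F (p.1.1 + 1) + E + 4 * y <
          ∑ u ∈ Finset.range ((n - p.2.1) / (p.1.1 + 1)),
            SB A (p.2.1 + u * (p.1.1 + 1)) (p.1.1 + 1) (sig (p.1.1 + 1) (p.1.2 + 1) p.2.2)
              ((p.1.1 + 1 - p.2.2) / (p.1.2 + 1) + 2) ω)) := by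
    intro ω hω
    rw [Finset.mem_filter] at hω
    obtain ⟨hω, hbad⟩ := hω
    by_contra hcon
    apply hbad
    intro M L hM hMn hL hLM
    have hM0 : (0 : ℝ) < M := by exact_mod_cast (by omega : 0 < M)
    have h1 : BB A M L ω ≤ M * (L * ((n / M + 2) * F M + E + 4 * y)) := by
      refine BB_le (by omega) hL hLM (fun r hr s hs => ?_)
      by_contra h3
      push Not at h3
      apply hcon
      rw [Finset.mem_biUnion]
      refine ⟨((M - 1, L - 1), (r, s)), ?_, ?_⟩
      · rw [Finset.mem_product, Finset.mem_product, Finset.mem_product]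
        simp only [Finset.mem_range]
        omega
      · rw [Finset.mem_filter]
        refine ⟨hω, ?_⟩
        show 2 ≤ M - 1 + 1 ∧ r < M - 1 + 1 ∧ s < L - 1 + 1 ∧
          (n / ((M - 1 + 1 : ℕ) : ℝ) + 2) * F (M - 1 + 1) + E + 4 * y <
          ∑ u ∈ Finset.range ((n - r) / (M - 1 + 1)),
            SB A (r + u * (M - 1 + 1)) (M - 1 + 1) (sig (M - 1 + 1) (L - 1 + 1) s)
              ((M - 1 + 1 - s) / (L - 1 + 1) + 2) ω
        rw [show M - 1 + 1 = M by omega, show L - 1 + 1 = L by omega]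
        exact ⟨hM, hr, hs, h3⟩
    refine h1.trans ?_
    have hMn' : (M : ℝ) ≤ n := by exact_mod_cast hMn
    have hlM : 0 ≤ Real.log (M : ℝ) := Real.log_natCast_nonneg _
    have hFM := hB.F0 M
    have h2 : (M : ℝ) * ((n / M + 2) * F M + E + 4 * y) ≤
        64 * (n * (F M + Real.log M) + M * (E + x)) := by
      have e : (M : ℝ) * ((n / M + 2) * F M + E + 4 * y) =
          (n + 2 * M) * F M + M * E + 4 * (M * x) +
            16 * (M * Real.log n) := by
        rw [hy]
        field_simp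
        ring
      rw [e]
      have h3 := M_log_le hM hMn
      have h4 : (n + 2 * (M : ℝ)) * F M ≤ (3 * n) * F M := by
        gcongr
        linarith
      have h6 : 0 ≤ (M : ℝ) * x := by positivity
      have h8 : 0 ≤ (M : ℝ) * E := by positivity
      have h9 : 0 ≤ (n : ℝ) * F M := by positivity
      have h10 : 0 ≤ (n : ℝ) * Real.log M := by positivity
      linarith
    calc (M : ℝ) * (L * ((n / M + 2) * F M + E + 4 * y))
        = L * (M * ((n / M + 2) * F M + E + 4 * y)) := by ring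
      _ ≤ L * (64 * (n * (F M + Real.log M) + M * (E + x))) := by gcongr
      _ = _ := by ring
  have h1 : ((A.filter (fun ω => ¬ ∀ M L : ℕ, 2 ≤ M → M ≤ n → 1 ≤ L → L ≤ M →
      BB A M L ω ≤ 64 * L * (n * (F M + Real.log M) + M * (E + x)))).card : ℝ) ≤
      ∑ p ∈ ((Finset.range n ×ˢ Finset.range n) ×ˢ (Finset.range n ×ˢ Finset.range n)),
        ((A.filter (fun ω => 2 ≤ p.1.1 + 1 ∧ p.2.1 < p.1.1 + 1 ∧ p.2.2 < p.1.2 + 1 ∧
          (n / ((p.1.1 + 1 : ℕ) : ℝ) + 2) * F (p.1.1 + 1) + E + 4 * y <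
          ∑ u ∈ Finset.range ((n - p.2.1) / (p.1.1 + 1)),
            SB A (p.2.1 + u * (p.1.1 + 1)) (p.1.1 + 1) (sig (p.1.1 + 1) (p.1.2 + 1) p.2.2)
              ((p.1.1 + 1 - p.2.2) / (p.1.2 + 1) + 2) ω)).card : ℝ) := by
    exact_mod_cast (Finset.card_le_card hsub).trans Finset.card_biUnion_le
  refine h1.trans ?_
  have h2 : ∀ p ∈ ((Finset.range n ×ˢ Finset.range n) ×ˢ (Finset.range n ×ˢ Finset.range n)),
      ((A.filter (fun ω => 2 ≤ p.1.1 + 1 ∧ p.2.1 < p.1.1 + 1 ∧ p.2.2 < p.1.2 + 1 ∧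
          (n / ((p.1.1 + 1 : ℕ) : ℝ) + 2) * F (p.1.1 + 1) + E + 4 * y <
          ∑ u ∈ Finset.range ((n - p.2.1) / (p.1.1 + 1)),
            SB A (p.2.1 + u * (p.1.1 + 1)) (p.1.1 + 1) (sig (p.1.1 + 1) (p.1.2 + 1) p.2.2)
              ((p.1.1 + 1 - p.2.2) / (p.1.2 + 1) + 2) ω)).card : ℝ) ≤
        Real.exp (-y) * A.card := by
    rintro ⟨⟨M', L'⟩, ⟨r, s⟩⟩ hp
    rw [Finset.mem_product, Finset.mem_product, Finset.mem_product] at hp
    simp only [Finset.mem_range] at hp
    by_cases hc : 2 ≤ M' + 1 ∧ r < M' + 1 ∧ s < L' + 1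
    · have hv : r + (n - r) / (M' + 1) * (M' + 1) ≤ n := by
        have : (n - r) / (M' + 1) * (M' + 1) ≤ n - r := Nat.div_mul_le_self _ _
        omega
      have h3 := tail_windows hA hne (sig_mono (M' + 1) (L' + 1) s) rfl
        (sig_last (M := M' + 1) (L := L' + 1) (s := s) (by omega)) hv
        (hlr (M' + 1) r hc.1 (by omega) hc.2.1) y
      refine le_trans ?_ h3
      rw [Nat.cast_le]
      refine Finset.card_le_card (fun ω hω => ?_)
      rw [Finset.mem_filter] at hω ⊢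
      exact ⟨hω.1, hω.2.2.2.2⟩
    · rw [Finset.filter_false_of_mem]
      · simp only [Finset.card_empty, Nat.cast_zero]
        positivity
      · intro ω _ h4
        exact hc ⟨h4.1, h4.2.1, h4.2.2.1⟩
  refine (Finset.sum_le_sum h2).trans (le_of_eq ?_)
  rw [Finset.sum_const, Finset.card_product, Finset.card_product, Finset.card_range, nsmul_eq_mul,
    hy, neg_add, Real.exp_add]
  have e : Real.exp (-(4 * Real.log n)) = (((n : ℝ) * n) * (n * n))⁻¹ := by
    rw [Real.exp_neg]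
    congr 1
    rw [show 4 * Real.log (n : ℝ) = Real.log ((n * n) * (n * n) : ℝ) by
      rw [Real.log_mul (by positivity) (by positivity), Real.log_mul hn0.ne' hn0.ne']; ring]
    exact Real.exp_log (by positivity)
  rw [e]
  push_cast
  field_simp

/-- the squared distances to the kernel -/
theorem sum_tv_KQ {n M L : ℕ} {A : Finset (P n)} (hLM : L ≤ M) (hL : 1 ≤ L) (hMn : M ≤ n)
    (ω : P n) :
    ∑ t ∈ Finset.Icc M (n - M), tv (Sys.W (P := P) L) (PA A t L ω) (KQ n M L t ω) ^ 2 ≤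
      BB A M L ω / ((M + 1 - L : ℕ) : ℝ) := by
  have hN : 0 < M + 1 - L := by omega
  have h1 : ∀ t ∈ Finset.Icc M (n - M), tv (Sys.W (P := P) L) (PA A t L ω) (KQ n M L t ω) ^ 2 ≤
      (∑ i ∈ Finset.range (M + 1 - L), TVA A (t - i) M i L ω ^ 2) / ((M + 1 - L : ℕ) : ℝ) := by
    intro t ht
    rw [Finset.mem_Icc] at ht
    refine (tv_avg (Sys.W (P := P) L) (PA A t L ω) (M + 1 - L) hN
      (fun i => GQ n (t - i) M i L ω)).trans (le_of_eq ?_)
    congr 1
    refine Finset.sum_congr rfl (fun i hi => ?_)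
    rw [Finset.mem_range] at hi
    unfold TVA
    rw [show t - i + i = t by omega]
  refine (Finset.sum_le_sum h1).trans ?_
  rw [← Finset.sum_div]
  refine div_le_div_of_nonneg_right ?_ (Nat.cast_nonneg _)
  exact sum_shift hLM hL hMn (fun b i => TVA A b M i L ω ^ 2) (fun _ _ _ _ => sq_nonneg _)

/-- the mean relative entropies with respect to the kernel -/
theorem sum_kl_KQ (hB : Bd P mu F) {n M L : ℕ} (hL : 1 ≤ L) (hLM : 2 * L ≤ M) (hMn : M ≤ n)
    {A : Finset (P n)} (hA : A ⊆ Sys.W (P := P) n) (hne : A.Nonempty) {E : ℝ} (hE0 : 0 ≤ E)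
    (hE : n * Real.log mu - E ≤ Real.log A.card) :
    ∑ t ∈ Finset.Icc M (n - M), ∑ ω ∈ A, kl (Sys.W (P := P) L) (PA A t L ω) (KQ n M L t ω) ≤
      A.card * (6 * (L / M) * (n * F M + M * E)) := by
  have hcn : (0 : ℝ) < A.card := by exact_mod_cast Finset.card_pos.2 hne
  have hN : 0 < M + 1 - L := by omega
  have hN0 : (0 : ℝ) < ((M + 1 - L : ℕ) : ℝ) := by exact_mod_cast hN
  obtain ⟨g, hg⟩ : ∃ g : ℕ → ℕ → ℝ, g = fun b i =>
      ∑ ω ∈ A, kl (Sys.W (P := P) L) (PA A (b + i) L ω) (GQ n b M i L ω) := ⟨_, rfl⟩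
  have h1 : ∀ t ∈ Finset.Icc M (n - M), ∑ ω ∈ A, kl (Sys.W (P := P) L) (PA A t L ω) (KQ n M L t ω) ≤
      (∑ i ∈ Finset.range (M + 1 - L), g (t - i) i) / ((M + 1 - L : ℕ) : ℝ) := by
    intro t ht
    rw [Finset.mem_Icc] at ht
    have h2 : ∀ ω ∈ A, kl (Sys.W (P := P) L) (PA A t L ω) (KQ n M L t ω) ≤
        (∑ i ∈ Finset.range (M + 1 - L), kl (Sys.W (P := P) L) (PA A (t - i + i) L ω)
          (GQ n (t - i) M i L ω)) / ((M + 1 - L : ℕ) : ℝ) := by
      intro ω hω
      refine (kl_avg (Sys.W (P := P) L) (PA A t L ω) (M + 1 - L) hN (fun i => GQ n (t - i) M i L ω)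
        (PA_nonneg _ _ _ _) (fun ζ hζ i hi => ?_)).trans (le_of_eq ?_)
      · refine GQ_posA hA hω (by omega) (by omega) ?_
        rwa [show t - i + i = t by omega]
      · congr 1
        refine Finset.sum_congr rfl (fun i hi => ?_)
        rw [Finset.mem_range] at hi
        rw [show t - i + i = t by omega]
    refine (Finset.sum_le_sum h2).trans (le_of_eq ?_)
    rw [← Finset.sum_div, Finset.sum_comm, hg]
  refine (Finset.sum_le_sum h1).trans ?_
  rw [← Finset.sum_div]
  have h2 := sum_shift (n := n) (M := M) (L := L) (by omega) hL hMn g (by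
    intro b i hb hi
    rw [hg]
    exact Finset.sum_nonneg (fun ω hω => kl_nonnegA hA hω hb hi))
  have h3 : ∑ b ∈ Finset.range (n + 1 - M), ∑ i ∈ Finset.range (M + 1 - L), g b i ≤
      L * (A.card * (3 * n * F M + M * E)) := by
    have h4 : ∀ b ∈ Finset.range (n + 1 - M), ∑ i ∈ Finset.range (M + 1 - L), g b i =
        ∑ s ∈ Finset.range L, ∑ i ∈ Finset.range ((M - s) / L), g b (s + i * L) :=
      fun b _ => sum_residue L M hL _
    rw [Finset.sum_congr rfl h4, Finset.sum_comm]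
    have h5 : ∀ s ∈ Finset.range L, ∑ b ∈ Finset.range (n + 1 - M),
        ∑ i ∈ Finset.range ((M - s) / L), g b (s + i * L) ≤
        A.card * (3 * n * F M + M * E) := by
      intro s hs
      rw [Finset.mem_range] at hs
      have h6 := windows_klA hB (by omega) hMn hA hne hE (sig_mono M L s) rfl
        (sig_last (M := M) (s := s) hL).le
      refine le_trans (Finset.sum_le_sum (fun b hb => ?_)) h6
      rw [Finset.mem_range] at hb
      rw [hg]
      show ∑ i ∈ Finset.range ((M - s) / L), ∑ ω ∈ A,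
        kl (Sys.W (P := P) L) (PA A (b + (s + i * L)) L ω) (GQ n b M (s + i * L) L ω) ≤ _
      rw [Finset.sum_comm]
      refine Finset.sum_le_sum (fun ω hω => ?_)
      rw [Finset.sum_range_succ', Finset.sum_range_succ]
      have hlast := sig_last (M := M) (s := s) hL
      have h7 : ∀ i ∈ Finset.range ((M - s) / L),
          kl (Sys.W (P := P) (sig M L s (i + 1 + 1) - sig M L s (i + 1)))
            (PA A (b + sig M L s (i + 1)) (sig M L s (i + 1 + 1) - sig M L s (i + 1)) ω)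
            (GQ n b M (sig M L s (i + 1)) (sig M L s (i + 1 + 1) - sig M L s (i + 1)) ω) =
          kl (Sys.W (P := P) L) (PA A (b + (s + i * L)) L ω) (GQ n b M (s + i * L) L ω) := by
        intro i hi
        rw [Finset.mem_range] at hi
        have h2 : (i + 1) * L ≤ (M - s) / L * L := Nat.mul_le_mul_right _ hi
        have h3 : (M - s) / L * L ≤ M - s := Nat.div_mul_le_self _ _
        have h4 : (i + 1) * L = i * L + L := by ring
        have e1 : sig M L s (i + 1) = s + i * L := by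
          show min M (s + i * L) = _
          omega
        have e2 : sig M L s (i + 1 + 1) - sig M L s (i + 1) = L := by
          rw [e1]
          show min M (s + (i + 1) * L) - (s + i * L) = L
          omega
        rw [e2, e1]
      rw [Finset.sum_congr rfl h7]
      have hmono := sig_mono M L s
      have h8 : 0 ≤ kl (Sys.W (P := P) (sig M L s ((M - s) / L + 1 + 1) - sig M L s ((M - s) / L + 1)))
          (PA A (b + sig M L s ((M - s) / L + 1))
            (sig M L s ((M - s) / L + 1 + 1) - sig M L s ((M - s) / L + 1)) ω)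
          (GQ n b M (sig M L s ((M - s) / L + 1))
            (sig M L s ((M - s) / L + 1 + 1) - sig M L s ((M - s) / L + 1)) ω) := by
        have h9 : sig M L s ((M - s) / L + 1) ≤ sig M L s ((M - s) / L + 1 + 1) :=
          hmono (Nat.le_succ _)
        have h10 : sig M L s ((M - s) / L + 1 + 1) = M := hlast
        exact kl_nonnegA hA hω (by omega) (by omega)
      have h9 : 0 ≤ kl (Sys.W (P := P) (sig M L s (0 + 1) - sig M L s 0))
          (PA A (b + sig M L s 0) (sig M L s (0 + 1) - sig M L s 0) ω)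
          (GQ n b M (sig M L s 0) (sig M L s (0 + 1) - sig M L s 0) ω) := by
        have h10 : sig M L s (0 + 1) ≤ M := Nat.min_le_left _ _
        have h11 : sig M L s 0 = 0 := rfl
        exact kl_nonnegA hA hω (by omega) (by omega)
      linarith
    refine (Finset.sum_le_sum h5).trans (le_of_eq ?_)
    rw [Finset.sum_const, Finset.card_range, nsmul_eq_mul]
  have hM0 : (0 : ℝ) < M := by exact_mod_cast (by omega : 0 < M)
  have hNM : (M : ℝ) ≤ 2 * ((M + 1 - L : ℕ) : ℝ) := by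
    exact_mod_cast (by omega : M ≤ 2 * (M + 1 - L))
  have hFM := hB.F0 M
  have h4 : 3 * n * F M + M * E ≤ 3 * (n * F M + M * E) := by
    have h6 : 0 ≤ M * E := by positivity
    linarith
  calc (∑ t ∈ Finset.Icc M (n - M), ∑ i ∈ Finset.range (M + 1 - L), g (t - i) i) /
        ((M + 1 - L : ℕ) : ℝ)
      ≤ (L * (A.card * (3 * n * F M + M * E))) / ((M + 1 - L : ℕ) : ℝ) :=
        div_le_div_of_nonneg_right (h2.trans h3) hN0.le
    _ ≤ (L * (A.card * (3 * (n * F M + M * E)))) / ((M + 1 - L : ℕ) : ℝ) := by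
        gcongr
    _ ≤ 2 * (L * (A.card * (3 * (n * F M + M * E)))) / M := by
        rw [div_le_div_iff₀ hN0 hM0]
        have : 0 ≤ (L : ℝ) * (A.card * (3 * (n * F M + M * E))) := by positivity
        nlinarith
    _ = _ := by ring

/-- **the kernel, all scales simultaneously** -/
theorem all_scales_KQ (hB : Bd P mu F) {n : ℕ} (hn : 2 ≤ n) {A : Finset (P n)} (hA : A ⊆ Sys.W (P := P) n)
    (hne : A.Nonempty) {E : ℝ} (hE0 : 0 ≤ E) (hE : n * Real.log mu - E ≤ Real.log A.card)
    {x : ℝ} (hx : 0 ≤ x) : ((A.filter (fun ω => ¬ ∀ M L : ℕ, 1 ≤ L → 2 * L ≤ M → M ≤ n →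
      ∑ t ∈ Finset.Icc M (n - M), tv (Sys.W (P := P) L) (PA A t L ω) (KQ n M L t ω) ^ 2 ≤
        128 * (L / M) * (n * (F M + Real.log M) + M * (E + x)))).card : ℝ) ≤
      Real.exp (-x) * A.card := by
  refine le_trans ?_ (all_scales hB hn hA hne hE0 hE hx)
  rw [Nat.cast_le]
  refine Finset.card_le_card (fun ω hω => ?_)
  rw [Finset.mem_filter] at hω ⊢
  refine ⟨hω.1, fun h1 => hω.2 (fun M L hL hLM hMn => ?_)⟩
  have h2 := h1 M L (by omega) hMn hL (by omega)
  have hM0 : (0 : ℝ) < M := by exact_mod_cast (by omega : 0 < M)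
  have hN0 : (0 : ℝ) < ((M + 1 - L : ℕ) : ℝ) := by exact_mod_cast (by omega : 0 < M + 1 - L)
  have hNM : (M : ℝ) ≤ 2 * ((M + 1 - L : ℕ) : ℝ) := by
    exact_mod_cast (by omega : M ≤ 2 * (M + 1 - L))
  have hFM := hB.F0 M
  have hlM : 0 ≤ Real.log (M : ℝ) := Real.log_natCast_nonneg _
  calc _ ≤ BB A M L ω / ((M + 1 - L : ℕ) : ℝ) := sum_tv_KQ (by omega) hL hMn ω
    _ ≤ (64 * L * (n * (F M + Real.log M) + M * (E + x))) / ((M + 1 - L : ℕ) : ℝ) :=
        div_le_div_of_nonneg_right h2 hN0.le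
    _ ≤ 2 * (64 * L * (n * (F M + Real.log M) + M * (E + x))) / M := by
        rw [div_le_div_iff₀ hN0 hM0]
        have : 0 ≤ 64 * L * (n * (F M + Real.log M) + M * (E + x)) := by positivity
        nlinarith
    _ = _ := by ring

end Pool.Agent.N932.FL
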