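import Pool.Agent.N932.FL.Multi

/-! # Even subgraphs: correlations are at most one, and peeling of a vertex -/

set_option autoImplicit false

namespace Pool.Agent.N932.FL

open scoped Classical

section defs

variable {V : Type}

/-- the edges of the graph on `D` -/
def edg (Adj : V → V → Prop) (D : Set V) : Set (Sym2 V) :=
  {e | ∃ u v, u ∈ D ∧ v ∈ D ∧ Adj u v ∧ e = s(u, v)}

/-- the degree -/
noncomputable def dg (ω : Finset (Sym2 V)) (v : V) : ℕ := (ω.filter (fun e => v ∈ e)).card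

/-- the sets of edges with sources `A` -/
def cfg (Adj : V → V → Prop) (D A : Set V) : Set (Finset (Sym2 V)) :=
  {ω | (∀ e ∈ ω, e ∈ edg Adj D) ∧ ∀ v, (Odd (dg ω v) ↔ v ∈ A)}

/-- the partition function with sources -/
noncomputable def CC (Adj : V → V → Prop) (x : ℝ) (D A : Set V) : ℝ :=
  ∑ᶠ ω ∈ cfg Adj D A, x ^ ω.card

/-- the symmetric difference of two points -/
def src (b u : V) : Set V := {v | ¬ (v = b ↔ v = u)}

end defs

variable {V : Type}

theorem edg_fin {Adj : V → V → Prop} {D : Set V} (hD : D.Finite) : (edg Adj D).Finite := by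
  refine ((hD.prod hD).image (fun z => s(z.1, z.2))).subset ?_
  rintro e ⟨u, v, hu, hv, _, rfl⟩
  exact ⟨(u, v), ⟨hu, hv⟩, rfl⟩

theorem edg_mem {Adj : V → V → Prop} {D : Set V} {e : Sym2 V} (h : e ∈ edg Adj D) {v : V}
    (hv : v ∈ e) : v ∈ D := by
  obtain ⟨u, w, hu, hw, _, rfl⟩ := h
  rw [Sym2.mem_iff] at hv
  rcases hv with rfl | rfl
  · exact hu
  · exact hw

theorem edg_mono {Adj : V → V → Prop} {D D' : Set V} (h : D' ⊆ D) : edg Adj D' ⊆ edg Adj D := by
  rintro e ⟨u, v, hu, hv, h1, rfl⟩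
  exact ⟨u, v, h hu, h hv, h1, rfl⟩

theorem cfg_fin {Adj : V → V → Prop} {D : Set V} (hD : D.Finite) (A : Set V) :
    (cfg Adj D A).Finite := by
  refine ((edg_fin (Adj := Adj) hD).toFinset.powerset.finite_toSet).subset ?_
  intro ω hω
  rw [Finset.mem_coe, Finset.mem_powerset]
  intro e he
  rw [Set.Finite.mem_toFinset]
  exact hω.1 e he

theorem CC_nonneg {Adj : V → V → Prop} {x : ℝ} (hx : 0 ≤ x) {D : Set V} (hD : D.Finite)
    (A : Set V) : 0 ≤ CC Adj x D A := by
  unfold CC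
  rw [finsum_mem_eq_finite_toFinset_sum _ (cfg_fin hD A)]
  exact Finset.sum_nonneg (fun ω _ => by positivity)

theorem CC_mono {Adj : V → V → Prop} {x : ℝ} (hx : 0 ≤ x) {D D' : Set V} (hD : D.Finite)
    (h : D' ⊆ D) (A : Set V) : CC Adj x D' A ≤ CC Adj x D A := by
  unfold CC
  rw [finsum_mem_eq_finite_toFinset_sum _ (cfg_fin hD A),
    finsum_mem_eq_finite_toFinset_sum _ (cfg_fin (hD.subset h) A)]
  refine Finset.sum_le_sum_of_subset_of_nonneg (fun ω hω => ?_) (fun ω _ _ => by positivity)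
  rw [Set.Finite.mem_toFinset] at hω ⊢
  exact ⟨fun e he => edg_mono h (hω.1 e he), hω.2⟩

theorem CC_pos {Adj : V → V → Prop} {x : ℝ} (hx : 0 ≤ x) {D : Set V} (hD : D.Finite) :
    1 ≤ CC Adj x D ∅ := by
  unfold CC
  rw [finsum_mem_eq_finite_toFinset_sum _ (cfg_fin hD ∅)]
  have h : (∅ : Finset (Sym2 V)) ∈ (cfg_fin (Adj := Adj) hD ∅).toFinset := by
    rw [Set.Finite.mem_toFinset]
    refine ⟨fun e he => absurd he (Finset.notMem_empty e), fun v => ?_⟩
    simp [dg]
  have := Finset.single_le_sum (f := fun ω : Finset (Sym2 V) => x ^ ω.card)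
    (fun ω _ => by positivity) h
  simpa using this

/-- the spin expansion -/
theorem spin {E : Finset (Sym2 V)} {Df : Finset V} (x : ℝ) (A : Set V) :
    ∑ S ∈ Df.powerset, (-1 : ℝ) ^ (S.filter (fun v => v ∈ A)).card *
      ∏ e ∈ E, (1 + x * (-1 : ℝ) ^ (S.filter (fun v => v ∈ e)).card) =
    2 ^ Df.card * ∑ ω ∈ E.powerset.filter (fun ω => ∀ v ∈ Df, (Odd (dg ω v) ↔ v ∈ A)),
      x ^ ω.card := by
  have h1 : ∀ S : Finset V, ∏ e ∈ E, (1 + x * (-1 : ℝ) ^ (S.filter (fun v => v ∈ e)).card) =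
      ∑ ω ∈ E.powerset, x ^ ω.card * ∏ e ∈ ω, (-1 : ℝ) ^ (S.filter (fun v => v ∈ e)).card := by
    intro S
    rw [Finset.prod_one_add]
    refine Finset.sum_congr rfl (fun ω _ => ?_)
    rw [Finset.prod_mul_distrib, Finset.prod_const]
  have h2 : ∀ (S : Finset V) (ω : Finset (Sym2 V)),
      (-1 : ℝ) ^ (S.filter (fun v => v ∈ A)).card *
        ∏ e ∈ ω, (-1 : ℝ) ^ (S.filter (fun v => v ∈ e)).card =
      ∏ v ∈ S, (-1 : ℝ) ^ ((if v ∈ A then 1 else 0) + dg ω v) := by
    intro S ω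
    rw [Finset.prod_pow_eq_pow_sum, Finset.prod_pow_eq_pow_sum, ← pow_add]
    congr 1
    rw [Finset.sum_add_distrib, Finset.card_filter]
    congr 1
    simp only [dg, Finset.card_filter]
    exact Finset.sum_comm
  have h3 : ∀ ω : Finset (Sym2 V), ∑ S ∈ Df.powerset,
      ∏ v ∈ S, (-1 : ℝ) ^ ((if v ∈ A then 1 else 0) + dg ω v) =
      if (∀ v ∈ Df, (Odd (dg ω v) ↔ v ∈ A)) then 2 ^ Df.card else 0 := by
    intro ω
    rw [← Finset.prod_one_add]
    have h4 : ∀ v, (1 + (-1 : ℝ) ^ ((if v ∈ A then 1 else 0) + dg ω v)) =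
        if (Odd (dg ω v) ↔ v ∈ A) then 2 else 0 := by
      intro v
      by_cases hv : v ∈ A
      · rw [if_pos hv]
        by_cases ho : Odd (dg ω v)
        · rw [if_pos (iff_of_true ho hv), Even.neg_one_pow (by
            rw [add_comm]
            exact ho.add_one)]
          norm_num
        · rw [if_neg (fun h => ho (h.2 hv)), Odd.neg_one_pow (by
            rw [add_comm]
            exact (Nat.not_odd_iff_even.1 ho).add_one)]
          norm_num
      · rw [if_neg hv, zero_add]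
        by_cases ho : Odd (dg ω v)
        · rw [if_neg (fun h => hv (h.1 ho)), ho.neg_one_pow]
          norm_num
        · rw [if_pos (iff_of_false ho hv), (Nat.not_odd_iff_even.1 ho).neg_one_pow]
          norm_num
    simp only [h4]
    by_cases h5 : ∀ v ∈ Df, (Odd (dg ω v) ↔ v ∈ A)
    · rw [if_pos h5, Finset.prod_congr rfl (fun v hv => if_pos (h5 v hv)), Finset.prod_const]
    · rw [if_neg h5]
      push Not at h5
      obtain ⟨v, hv, h6⟩ := h5
      refine Finset.prod_eq_zero hv (if_neg ?_)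
      intro h7
      rcases h6 with ⟨h8, h9⟩ | ⟨h8, h9⟩
      · exact h9 (h7.1 h8)
      · exact h8 (h7.2 h9)
  calc ∑ S ∈ Df.powerset, (-1 : ℝ) ^ (S.filter (fun v => v ∈ A)).card *
        ∏ e ∈ E, (1 + x * (-1 : ℝ) ^ (S.filter (fun v => v ∈ e)).card)
      = ∑ S ∈ Df.powerset, ∑ ω ∈ E.powerset, x ^ ω.card *
        ∏ v ∈ S, (-1 : ℝ) ^ ((if v ∈ A then 1 else 0) + dg ω v) := by
        refine Finset.sum_congr rfl (fun S _ => ?_)
        rw [h1, Finset.mul_sum]
        refine Finset.sum_congr rfl (fun ω _ => ?_)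
        rw [← h2]
        ring
    _ = ∑ ω ∈ E.powerset, x ^ ω.card * ∑ S ∈ Df.powerset,
        ∏ v ∈ S, (-1 : ℝ) ^ ((if v ∈ A then 1 else 0) + dg ω v) := by
        rw [Finset.sum_comm]
        refine Finset.sum_congr rfl (fun ω _ => ?_)
        rw [Finset.mul_sum]
    _ = ∑ ω ∈ E.powerset, if (∀ v ∈ Df, (Odd (dg ω v) ↔ v ∈ A)) then
        2 ^ Df.card * x ^ ω.card else 0 := by
        refine Finset.sum_congr rfl (fun ω _ => ?_)
        rw [h3]
        split_ifs
        · ring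
        · ring
    _ = _ := by
        rw [← Finset.sum_filter, Finset.mul_sum]

/-- **correlations are at most one** -/
theorem CC_le {Adj : V → V → Prop} {x : ℝ} (hx : 0 ≤ x) (hx1 : x ≤ 1) {D : Set V}
    (hD : D.Finite) (A : Set V) : CC Adj x D A ≤ CC Adj x D ∅ := by
  obtain ⟨B, hB⟩ : ∃ B : Set V, B = ∅ := ⟨_, rfl⟩
  rw [← hB]
  obtain ⟨Df, hDf⟩ : ∃ Df : Finset V, (Df : Set V) = D := ⟨hD.toFinset, hD.coe_toFinset⟩
  obtain ⟨E, hE⟩ : ∃ E : Finset (Sym2 V), (E : Set (Sym2 V)) = edg Adj D :=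
    ⟨(edg_fin hD).toFinset, (edg_fin hD).coe_toFinset⟩
  have hsub : ∀ A : Set V, CC Adj x D A ≤
      ∑ ω ∈ E.powerset.filter (fun ω => ∀ v ∈ Df, (Odd (dg ω v) ↔ v ∈ A)), x ^ ω.card := by
    intro A
    unfold CC
    rw [finsum_mem_eq_finite_toFinset_sum _ (cfg_fin hD A)]
    refine Finset.sum_le_sum_of_subset_of_nonneg (fun ω hω => ?_) (fun ω _ _ => by positivity)
    rw [Set.Finite.mem_toFinset] at hω
    rw [Finset.mem_filter, Finset.mem_powerset]
    refine ⟨fun e he => ?_, fun v _ => hω.2 v⟩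
    rw [← Finset.mem_coe, hE]
    exact hω.1 e he
  have heq : ∑ ω ∈ E.powerset.filter (fun ω => ∀ v ∈ Df, (Odd (dg ω v) ↔ v ∈ B)),
      x ^ ω.card ≤ CC Adj x D B := by
    unfold CC
    rw [finsum_mem_eq_finite_toFinset_sum _ (cfg_fin hD B)]
    refine Finset.sum_le_sum_of_subset_of_nonneg (fun ω hω => ?_) (fun ω _ _ => by positivity)
    rw [Set.Finite.mem_toFinset]
    rw [Finset.mem_filter, Finset.mem_powerset] at hω
    have h1 : ∀ e ∈ ω, e ∈ edg Adj D := by
      intro e he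
      rw [← hE]
      exact hω.1 he
    refine ⟨h1, fun v => ?_⟩
    by_cases hv : v ∈ Df
    · exact hω.2 v hv
    · have h2 : dg ω v = 0 := by
        unfold dg
        rw [Finset.card_eq_zero, Finset.filter_eq_empty_iff]
        intro e he hve
        apply hv
        rw [← Finset.mem_coe, hDf]
        exact edg_mem (h1 e he) hve
      rw [h2, hB]
      simp
  refine (hsub A).trans (le_trans ?_ heq)
  have h2 : (0 : ℝ) < 2 ^ Df.card := by positivity
  refine le_of_mul_le_mul_left ?_ h2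
  rw [← spin, ← spin]
  refine Finset.sum_le_sum (fun S _ => ?_)
  have h3 : 0 ≤ ∏ e ∈ E, (1 + x * (-1 : ℝ) ^ (S.filter (fun v => v ∈ e)).card) := by
    refine Finset.prod_nonneg (fun e _ => ?_)
    rcases neg_one_pow_eq_or ℝ (S.filter (fun v => v ∈ e)).card with h | h <;> rw [h] <;> linarith
  refine mul_le_mul_of_nonneg_right ?_ h3
  have h4 : (S.filter (fun v => v ∈ B)).card = 0 := by
    rw [hB]
    simp
  rw [h4, pow_zero]
  rcases neg_one_pow_eq_or ℝ (S.filter (fun v => v ∈ A)).card with h | h <;> rw [h]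
  norm_num

end Pool.Agent.N932.FL
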