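import Pool.Agent.N932.FL.Win

/-! # Windows: sums over all windows, and the exponential moment, for conditioned walks (abstract) -/

set_option autoImplicit false

namespace Pool.Agent.N932.FL

open scoped Classical
open Pool.Agent.N932.RP (cl cl2 cl_pos cl_congr cl2_congr cl_ncard cl2_ncard cl2_pos_iff
  cond_pos_iff cl_eq_card cl_eq_one cl_le_of_inj cond_self sum_cl2 sum_cond cond_nonneg avg_fiber
  sum_inv_cl kl tv af tv_nonneg tv_sq_le_af af_nonneg af_le kl_elem tv_sq_le_kl kl_nonneg af_pos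
  jensen_log)

variable {P : ℕ → Type} [Sys P]

open Sys (pc)

/-- two-sided bounds for the numbers of paths -/
structure Bd (P : ℕ → Type) [Sys P] (mu : ℝ) (F : ℕ → ℝ) : Prop where
  pos : 0 < mu
  F0 : ∀ n, 0 ≤ F n
  mono : Monotone F
  low : ∀ n, mu ^ n ≤ (cnP P n : ℝ)
  up : ∀ n, (cnP P n : ℝ) ≤ mu ^ n * Real.exp (F n)

variable {mu : ℝ} {F : ℕ → ℝ}

theorem Bd.logc (h : Bd P mu F) {M j : ℕ} (hj : j ≤ M) :
    Real.log (cnP P j) ≤ j * Real.log mu + F M := by
  have hmu := h.pos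
  have h2 := Real.log_le_log (cnP_pos P j) (h.up j)
  rw [Real.log_mul (by positivity) (Real.exp_pos _).ne', Real.log_exp, Real.log_pow] at h2
  have := h.mono hj
  linarith

theorem Bd.logn (h : Bd P mu F) (n : ℕ) : n * Real.log mu ≤ Real.log (cnP P n) := by
  have h1 := Real.log_le_log (pow_pos h.pos n) (h.low n)
  rwa [Real.log_pow] at h1

/-- the mean relative entropies, summed over the windows -/
theorem windows_klA (hB : Bd P mu F) {n M : ℕ} (hM : 2 ≤ M) (hMn : M ≤ n) {A : Finset (P n)}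
    (hA : A ⊆ Sys.W (P := P) n) (hne : A.Nonempty) {E : ℝ} (hE : n * Real.log mu - E ≤ Real.log A.card)
    {p : ℕ} {σ : ℕ → ℕ} (hσ : Monotone σ) (h0 : σ 0 = 0) (hp : σ p ≤ M) :
    ∑ b ∈ Finset.range (n + 1 - M), ∑ ω ∈ A, ∑ i ∈ Finset.range p,
      kl (Sys.W (P := P) (σ (i + 1) - σ i)) (PA A (b + σ i) (σ (i + 1) - σ i) ω)
        (GQ n b M (σ i) (σ (i + 1) - σ i) ω) ≤ A.card * (3 * n * F M + M * E) := by
  have hcn : (0 : ℝ) < A.card := by exact_mod_cast Finset.card_pos.2 hne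
  have hmu := hB.pos
  obtain ⟨κ, hκ⟩ : ∃ κ : ℝ, κ = F M := ⟨_, rfl⟩
  have hκ0 : 0 ≤ κ := by rw [hκ]; exact hB.F0 M
  have hlogc : ∀ j ≤ M, Real.log (cnP P j) ≤ j * Real.log mu + κ := by
    intro j hj
    rw [hκ]
    exact hB.logc hj
  have h1 : ∀ b ∈ Finset.range (n + 1 - M), ∑ ω ∈ A, ∑ i ∈ Finset.range p,
      kl (Sys.W (P := P) (σ (i + 1) - σ i)) (PA A (b + σ i) (σ (i + 1) - σ i) ω)
        (GQ n b M (σ i) (σ (i + 1) - σ i) ω) ≤
      A.card * Real.log (cnP P M) - (EA A (b + M) - EA A b) := by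
    intro b hb
    rw [Finset.mem_range] at hb
    exact window_klA hA hne hσ h0 hp (by omega)
  refine (Finset.sum_le_sum h1).trans ?_
  rw [sum_residue M n (by omega)]
  have h2 : ∀ r ∈ Finset.range M, ∑ u ∈ Finset.range ((n - r) / M),
      (A.card * Real.log (cnP P M) - (EA A (r + u * M + M) - EA A (r + u * M))) ≤
      A.card * ((n / M + 2) * κ + E) := by
    intro r hr
    rw [Finset.mem_range] at hr
    obtain ⟨q, hq⟩ : ∃ q, q = (n - r) / M := ⟨_, rfl⟩
    have hq1 : q * M ≤ n - r := by rw [hq]; exact Nat.div_mul_le_self _ _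
    have hq2 : n - r < q * M + M := by
      have h1 : n - r < (q + 1) * M := by
        rw [hq]
        exact Nat.lt_mul_of_div_lt (Nat.lt_succ_self _) (by omega)
      have h2 : (q + 1) * M = q * M + M := by ring
      omega
    rw [← hq, Finset.sum_sub_distrib, Finset.sum_const, Finset.card_range, nsmul_eq_mul]
    have e1 : ∀ u ∈ Finset.range q, EA A (r + u * M + M) - EA A (r + u * M) =
        EA A (r + (u + 1) * M) - EA A (r + u * M) := by
      intro u _
      rw [show r + u * M + M = r + (u + 1) * M by ring]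
    rw [Finset.sum_congr rfl e1, Finset.sum_range_sub (fun u => EA A (r + u * M)), zero_mul,
      add_zero]
    have h3 := EA_ge (t := r + q * M) hA hne (by omega)
    have h4 := EA_le (t := r) hA hne (by omega)
    have h5 := hlogc (n - (r + q * M)) (by omega)
    have h6 := hlogc r (by omega)
    have h7 : ((n - (r + q * M) : ℕ) : ℝ) = n - (r + q * M) := by
      rw [Nat.cast_sub (by omega)]
      push_cast
      ring
    rw [h7] at h5
    have h8 : A.card * ((r + q * M) * Real.log mu - κ - E) ≤ EA A (r + q * M) := by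
      refine le_trans (mul_le_mul_of_nonneg_left ?_ hcn.le) h3
      linarith
    have h9 : EA A r ≤ A.card * (r * Real.log mu + κ) :=
      h4.trans (mul_le_mul_of_nonneg_left h6 hcn.le)
    have h10 : (q : ℝ) ≤ n / M := by
      rw [le_div_iff₀ (by exact_mod_cast (by omega : 0 < M))]
      exact_mod_cast (by omega : q * M ≤ n)
    have h11 : (q : ℝ) * (A.card * Real.log (cnP P M)) ≤
        q * (A.card * (M * Real.log mu + κ)) := by
      gcongr
      exact hlogc M le_rfl
    have h12 : ((q : ℝ) + 2) * κ + E ≤ (n / M + 2) * κ + E := by gcongr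
    have h13 := mul_le_mul_of_nonneg_left h12 hcn.le
    refine le_trans ?_ h13
    have e : (A.card : ℝ) * (((q : ℝ) + 2) * κ + E) =
        q * (A.card * (M * Real.log mu + κ)) -
        (A.card * ((r + q * M) * Real.log mu - κ - E) -
          A.card * (r * Real.log mu + κ)) := by
      ring
    rw [e]
    linarith
  refine (Finset.sum_le_sum h2).trans ?_
  rw [Finset.sum_const, Finset.card_range, nsmul_eq_mul]
  have hM0 : (0 : ℝ) < M := by exact_mod_cast (by omega : 0 < M)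
  have hMn' : (M : ℝ) ≤ n := by exact_mod_cast hMn
  calc (M : ℝ) * (A.card * ((n / M + 2) * κ + E)) = A.card * ((n + 2 * M) * κ + M * E) := by
        field_simp
    _ ≤ A.card * ((3 * n) * κ + M * E) := by
        gcongr
        linarith
    _ = _ := by rw [hκ]; try ring

/-- the product over a window -/
noncomputable def WZ {n : ℕ} (A : Finset (P n)) (b M : ℕ) (σ : ℕ → ℕ) (p : ℕ) (ω : P n) :
    ℝ :=
  ∏ i ∈ Finset.range p, (Real.sqrt (RA A b M (σ (i + 1)) ω / RA A b M (σ i) ω) /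
    AFA A b M (σ i) (σ (i + 1) - σ i) ω)

/-- the sum of the squared distances over a window -/
noncomputable def SB {n : ℕ} (A : Finset (P n)) (b M : ℕ) (σ : ℕ → ℕ) (p : ℕ) (ω : P n) :
    ℝ :=
  ∑ i ∈ Finset.range p, TVA A b M (σ i) (σ (i + 1) - σ i) ω ^ 2

section

variable {n b M p : ℕ} {A : Finset (P n)} {σ : ℕ → ℕ} {ω η : P n}

theorem WZ_congr (hσ : Monotone σ) (hp : σ p ≤ M) {t : ℕ} (ht : b + σ p ≤ t)
    (h : pc 0 t η = pc 0 t ω) : WZ A b M σ p η = WZ A b M σ p ω := by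
  unfold WZ
  refine Finset.prod_congr rfl (fun i hi => ?_)
  rw [Finset.mem_range] at hi
  have h1 : σ i ≤ σ (i + 1) := hσ (Nat.le_succ i)
  have h2 : σ (i + 1) ≤ σ p := hσ hi
  rw [RA_congr (by omega) (by omega) h, RA_congr (by omega) (by omega) h,
    AFA_congr (by omega) (pc0_mono (by omega) h)]

theorem WZ_nonneg : 0 ≤ WZ A b M σ p ω :=
  Finset.prod_nonneg (fun _ _ => div_nonneg (Real.sqrt_nonneg _) (af_nonneg _ _ _))

end

theorem sum_WZ {n b M : ℕ} {A : Finset (P n)} (hA : A ⊆ Sys.W (P := P) n) {σ : ℕ → ℕ} (hσ : Monotone σ)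
    (hb : b + M ≤ n) (F : P n → ℝ)
    (hF : ∀ ω ∈ A, ∀ η ∈ A, pc 0 b η = pc 0 b ω → F η = F ω) (p : ℕ)
    (hp : σ p ≤ M) : ∑ ω ∈ A, F ω * WZ A b M σ p ω = ∑ ω ∈ A, F ω := by
  induction p with
  | zero =>
    refine Finset.sum_congr rfl (fun ω _ => ?_)
    unfold WZ
    simp
  | succ p ih =>
    have h1 : σ p ≤ σ (p + 1) := hσ (Nat.le_succ p)
    rw [← ih (h1.trans hp)]
    obtain ⟨m, hm⟩ : ∃ m, m = σ (p + 1) - σ p := ⟨_, rfl⟩
    have hm' : σ (p + 1) = σ p + m := by omega
    rw [← stepA (t := b + σ p) (m := m) hA (by omega) (GQ n b M (σ p) m)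
      (fun ω _ η _ e => GQ_congr (by omega) e)
      (fun ω hω ζ hζ => GQ_posA hA hω hb (by omega) hζ)
      (fun ω => F ω * WZ A b M σ p ω) (fun ω hω η hη e => by
        show F η * WZ A b M σ p η = F ω * WZ A b M σ p ω
        rw [hF ω hω η hη (pc0_mono (by omega) e), WZ_congr hσ (h1.trans hp) le_rfl e])]
    refine Finset.sum_congr rfl (fun ω hω => ?_)
    rw [RA_ratio hA hω hb (by omega)]
    have e : WZ A b M σ (p + 1) ω = WZ A b M σ p ω *
        (Real.sqrt (RA A b M (σ p + m) ω / RA A b M (σ p) ω) / AFA A b M (σ p) m ω) := by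
      unfold WZ
      rw [Finset.prod_range_succ, ← hm, hm']
    rw [e]
    unfold AFA
    ring

theorem WZ_ge {n b M p : ℕ} {A : Finset (P n)} (hA : A ⊆ Sys.W (P := P) n) {σ : ℕ → ℕ} (hσ : Monotone σ)
    (h0 : σ 0 = 0) (hp : σ p = M) (hb : b + M ≤ n) {ω : P n} (hω : ω ∈ A) :
    Real.exp (SB A b M σ p ω / 2) * Real.sqrt (NA A b ω / (cnP P M * NA A (b + M) ω)) ≤
      WZ A b M σ p ω := by
  have hpos : ∀ s, 0 < RA A b M s ω := fun s => RA_pos hA hω hb
  have h1 : WZ A b M σ p ω = Real.sqrt (RA A b M M ω / RA A b M 0 ω) *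
      ∏ i ∈ Finset.range p, (1 / AFA A b M (σ i) (σ (i + 1) - σ i) ω) := by
    unfold WZ
    have e : ∀ i ∈ Finset.range p, Real.sqrt (RA A b M (σ (i + 1)) ω / RA A b M (σ i) ω) /
        AFA A b M (σ i) (σ (i + 1) - σ i) ω =
        Real.sqrt (RA A b M (σ (i + 1)) ω / RA A b M (σ i) ω) *
        (1 / AFA A b M (σ i) (σ (i + 1) - σ i) ω) := fun i _ => by ring
    rw [Finset.prod_congr rfl e, Finset.prod_mul_distrib,
      prod_sqrt (fun i => RA A b M (σ (i + 1)) ω / RA A b M (σ i) ω)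
        (fun i => (div_pos (hpos _) (hpos _)).le),
      prod_div_tele (fun i => RA A b M (σ i) ω) (fun i => hpos _), h0, hp]
  have h2 : ∏ i ∈ Finset.range p, Real.exp (TVA A b M (σ i) (σ (i + 1) - σ i) ω ^ 2 / 2) ≤
      ∏ i ∈ Finset.range p, (1 / AFA A b M (σ i) (σ (i + 1) - σ i) ω) := by
    refine Finset.prod_le_prod (fun j _ => (Real.exp_pos _).le) (fun j hj => ?_)
    rw [Finset.mem_range] at hj
    have h4 : σ j ≤ σ (j + 1) := hσ (Nat.le_succ j)
    have h5 : σ (j + 1) ≤ σ p := hσ hj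
    have h6 := AFA_le (s := σ j) (m := σ (j + 1) - σ j) hA hω hb (by omega)
    have h7 := AFA_pos (s := σ j) (m := σ (j + 1) - σ j) hA hω hb (by omega)
    rw [le_div_iff₀ h7]
    calc _ ≤ Real.exp (TVA A b M (σ j) (σ (j + 1) - σ j) ω ^ 2 / 2) *
          Real.exp (-(TVA A b M (σ j) (σ (j + 1) - σ j) ω ^ 2 / 2)) :=
          mul_le_mul_of_nonneg_left h6 (Real.exp_pos _).le
      _ = 1 := by rw [← Real.exp_add, add_neg_cancel, Real.exp_zero]
  have h3 : Real.exp (SB A b M σ p ω / 2) =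
      ∏ i ∈ Finset.range p, Real.exp (TVA A b M (σ i) (σ (i + 1) - σ i) ω ^ 2 / 2) := by
    rw [← Real.exp_sum, ← Finset.sum_div]
    rfl
  have h4 : RA A b M M ω / RA A b M 0 ω = NA A b ω / (cnP P M * NA A (b + M) ω) := by
    unfold RA
    rw [NL_zero, NL_full (hA hω) hb, add_zero]
    have p1 := NA_pos (t := b) hω
    have p2 := NA_pos (t := b + M) hω
    have p3 := cnP_pos P M
    field_simp
  rw [h3, h1, h4, mul_comm]
  exact mul_le_mul_of_nonneg_left h2 (Real.sqrt_nonneg _)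

/-- the product over the windows -/
noncomputable def VZ {n : ℕ} (A : Finset (P n)) (r M : ℕ) (σ : ℕ → ℕ) (p v : ℕ) (ω : P n) :
    ℝ :=
  ∏ u ∈ Finset.range v, WZ A (r + u * M) M σ p ω

theorem sum_VZ {n r M p : ℕ} {A : Finset (P n)} (hA : A ⊆ Sys.W (P := P) n) {σ : ℕ → ℕ} (hσ : Monotone σ)
    (hp : σ p ≤ M) (v : ℕ) (hv : r + v * M ≤ n) : ∑ ω ∈ A, VZ A r M σ p v ω = A.card := by
  induction v with
  | zero =>
    unfold VZ
    simp only [Finset.range_zero, Finset.prod_empty, Finset.sum_const, nsmul_eq_mul, mul_one]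
  | succ v ih =>
    have e : (v + 1) * M = v * M + M := by ring
    rw [e] at hv
    rw [← ih (by omega)]
    unfold VZ
    simp only [Finset.prod_range_succ]
    refine sum_WZ hA hσ (by omega) _ (fun ω _ η _ e => ?_) p hp
    refine Finset.prod_congr rfl (fun u hu => ?_)
    rw [Finset.mem_range] at hu
    have h1 : (u + 1) * M ≤ v * M := Nat.mul_le_mul_right _ hu
    rw [add_mul, one_mul] at h1
    exact WZ_congr hσ hp (by omega) e

theorem VZ_ge {n r M p : ℕ} {A : Finset (P n)} (hA : A ⊆ Sys.W (P := P) n) {σ : ℕ → ℕ} (hσ : Monotone σ)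
    (h0 : σ 0 = 0) (hp : σ p = M) (v : ℕ) (hv : r + v * M ≤ n) {ω : P n} (hω : ω ∈ A) :
    Real.exp ((∑ u ∈ Finset.range v, SB A (r + u * M) M σ p ω) / 2) *
      Real.sqrt (NA A r ω / (cnP P M ^ v * NA A (r + v * M) ω)) ≤ VZ A r M σ p v ω := by
  have hcM := cnP_pos P M
  induction v with
  | zero =>
    unfold VZ
    have p1 := NA_pos (t := r) hω
    simp only [Finset.range_zero, Finset.sum_empty, Finset.prod_empty, zero_div, Real.exp_zero,
      pow_zero, zero_mul, add_zero, one_mul]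
    rw [div_self p1.ne', Real.sqrt_one]
  | succ v ih =>
    have e : (v + 1) * M = v * M + M := by ring
    rw [e] at hv ⊢
    have h1 := ih (by omega)
    have h2 := WZ_ge (b := r + v * M) hA hσ h0 hp (by omega) hω
    have p1 := NA_pos (t := r) hω
    have p2 := NA_pos (t := r + v * M) hω
    have p3 := NA_pos (t := r + v * M + M) hω
    have h3 : VZ A r M σ p (v + 1) ω = VZ A r M σ p v ω * WZ A (r + v * M) M σ p ω := by
      unfold VZ
      rw [Finset.prod_range_succ]
    rw [h3, Finset.sum_range_succ, add_div, Real.exp_add]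
    have h4 : Real.sqrt (NA A r ω / (cnP P M ^ (v + 1) * NA A (r + (v * M + M)) ω)) =
        Real.sqrt (NA A r ω / (cnP P M ^ v * NA A (r + v * M) ω)) *
        Real.sqrt (NA A (r + v * M) ω / (cnP P M * NA A (r + v * M + M) ω)) := by
      rw [← Real.sqrt_mul (by positivity), ← add_assoc, pow_succ]
      congr 1
      field_simp
    rw [h4]
    have h5 := mul_le_mul h1 h2 (by positivity)
      (Finset.prod_nonneg (fun u _ => WZ_nonneg))
    refine le_trans (le_of_eq ?_) h5
    ring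

/-- **the exponential moment for the windows of one residue class** -/
theorem exp_windows {n r M p v : ℕ} {A : Finset (P n)} (hA : A ⊆ Sys.W (P := P) n) (hne : A.Nonempty)
    {σ : ℕ → ℕ} (hσ : Monotone σ) (h0 : σ 0 = 0) (hp : σ p = M) (hv : r + v * M ≤ n) :
    ∑ ω ∈ A, Real.exp (1 / 4 * ∑ u ∈ Finset.range v, SB A (r + u * M) M σ p ω) ≤
      A.card * (cnP P r * cnP P M ^ v * cnP P (n - (r + v * M)) / A.card) ^ (1 / 4 : ℝ) := by
  have hcn : (0 : ℝ) < A.card := by exact_mod_cast Finset.card_pos.2 hne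
  have hcr := cnP_pos P r
  have hcM := cnP_pos P M
  have hcr' := cnP_pos P (n - (r + v * M))
  obtain ⟨ρ, hρ⟩ : ∃ ρ : ℝ, ρ = cnP P r * cnP P M ^ v * cnP P (n - (r + v * M)) / A.card := ⟨_, rfl⟩
  have hρ0 : 0 < ρ := by rw [hρ]; positivity
  obtain ⟨q, hq⟩ : ∃ q : ℝ, q = ρ ^ (1 / 4 : ℝ) := ⟨_, rfl⟩
  have hq0 : 0 < q := by rw [hq]; exact Real.rpow_pos_of_pos hρ0 _
  have hq4 : q ^ 4 = ρ := by
    rw [hq, ← Real.rpow_natCast, ← Real.rpow_mul hρ0.le]
    norm_num
  have h1 : ∀ ω ∈ A,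
      Real.exp (1 / 4 * ∑ u ∈ Finset.range v, SB A (r + u * M) M σ p ω) ≤
      q / 2 * VZ A r M σ p v ω + q / 4 +
        (cnP P M ^ v * cnP P (n - (r + v * M)) / NA A r ω) / (4 * q ^ 3) := by
    intro ω hω
    have p1 := NA_pos (t := r) hω
    have p2 := NA_pos (t := r + v * M) hω
    refine amgm (Finset.prod_nonneg (fun u _ => WZ_nonneg)) (by positivity) hq0 ?_
    have h2 := VZ_ge hA hσ h0 hp v hv hω
    have h3 := NA_le hA (t := r + v * M) hv ω
    have h4 : 1 ≤ Real.sqrt (NA A r ω / (cnP P M ^ v * NA A (r + v * M) ω)) *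
        Real.sqrt (cnP P M ^ v * cnP P (n - (r + v * M)) / NA A r ω) := by
      rw [← Real.sqrt_mul (by positivity)]
      refine Real.one_le_sqrt.2 ?_
      have e : NA A r ω / (cnP P M ^ v * NA A (r + v * M) ω) *
          (cnP P M ^ v * cnP P (n - (r + v * M)) / NA A r ω) =
          cnP P (n - (r + v * M)) / NA A (r + v * M) ω := by field_simp
      rw [e, le_div_iff₀ p2, one_mul]
      exact h3
    have h5 : Real.exp (1 / 4 * ∑ u ∈ Finset.range v, SB A (r + u * M) M σ p ω) ^ 2 =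
        Real.exp ((∑ u ∈ Finset.range v, SB A (r + u * M) M σ p ω) / 2) := by
      rw [← Real.exp_nat_mul]
      congr 1
      push_cast
      ring
    rw [h5]
    calc Real.exp ((∑ u ∈ Finset.range v, SB A (r + u * M) M σ p ω) / 2)
        = Real.exp ((∑ u ∈ Finset.range v, SB A (r + u * M) M σ p ω) / 2) * 1 :=
          (mul_one _).symm
      _ ≤ Real.exp ((∑ u ∈ Finset.range v, SB A (r + u * M) M σ p ω) / 2) *
          (Real.sqrt (NA A r ω / (cnP P M ^ v * NA A (r + v * M) ω)) *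
            Real.sqrt (cnP P M ^ v * cnP P (n - (r + v * M)) / NA A r ω)) :=
          mul_le_mul_of_nonneg_left h4 (Real.exp_pos _).le
      _ = Real.exp ((∑ u ∈ Finset.range v, SB A (r + u * M) M σ p ω) / 2) *
          Real.sqrt (NA A r ω / (cnP P M ^ v * NA A (r + v * M) ω)) *
            Real.sqrt (cnP P M ^ v * cnP P (n - (r + v * M)) / NA A r ω) := by ring
      _ ≤ _ := mul_le_mul_of_nonneg_right h2 (Real.sqrt_nonneg _)
  refine (Finset.sum_le_sum h1).trans ?_
  rw [Finset.sum_add_distrib, Finset.sum_add_distrib, ← Finset.mul_sum,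
    sum_VZ hA hσ hp.le v hv, Finset.sum_const, nsmul_eq_mul, ← Finset.sum_div, ← hρ, ← hq]
  have h2 : (∑ ω ∈ A, cnP P M ^ v * cnP P (n - (r + v * M)) / NA A r ω) / (4 * q ^ 3) ≤
      A.card * (q / 4) := by
    rw [div_le_iff₀ (by positivity)]
    have h3 := sum_inv_cl (S := A) (U := Sys.W (P := P) r) (X := fun η => pc 0 r η)
      (fun η hη => pcW (hA hη) (by omega))
    rw [card_W] at h3
    have h4 : ∑ ω ∈ A, (cnP P M : ℝ) ^ v * cnP P (n - (r + v * M)) / NA A r ω ≤
        (cnP P M ^ v * cnP P (n - (r + v * M))) * cnP P r := by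
      have e : ∀ ω ∈ A, (cnP P M : ℝ) ^ v * cnP P (n - (r + v * M)) / NA A r ω =
          (cnP P M ^ v * cnP P (n - (r + v * M))) * (1 / cl A (fun η => pc 0 r η) ω) := by
        intro ω _
        unfold NA
        ring
      rw [Finset.sum_congr rfl e, ← Finset.mul_sum]
      exact mul_le_mul_of_nonneg_left h3 (by positivity)
    refine h4.trans (le_of_eq ?_)
    have e : (cnP P M : ℝ) ^ v * cnP P (n - (r + v * M)) * cnP P r = A.card * ρ := by
      rw [hρ]
      field_simp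
    rw [e, ← hq4]
    ring
  linarith

end Pool.Agent.N932.FL
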