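import Pool.Agent.N932.RP.Abs

/-! # Systems of finite sets of paths closed under taking pieces -/

set_option autoImplicit false

namespace Pool.Agent.N932.FL

open scoped Classical

/-- finite sets `W n` of paths with `n` steps and the operation `pc i m` (the piece with `m` steps
which starts at time `i`) -/
class Sys (P : ℕ → Type) where
  W : (n : ℕ) → Finset (P n)
  pc : {n : ℕ} → (i m : ℕ) → P n → P m
  pcW : ∀ {n i m : ℕ} {ω : P n}, ω ∈ W n → i + m ≤ n → pc i m ω ∈ W m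
  pc_pc : ∀ {n i m k l : ℕ} (ω : P n), k + l ≤ m → pc k l (pc i m ω) = pc (i + k) l ω
  pc_inj : ∀ {n a b : ℕ} {ω η : P n}, ω ∈ W n → η ∈ W n → a + b = n →
    pc 0 a ω = pc 0 a η → pc a b ω = pc a b η → ω = η
  pc_self : ∀ {n : ℕ} {ω : P n}, ω ∈ W n → pc 0 n ω = ω
  pc00 : ∀ {n m i j : ℕ} (ω : P n) (η : P m), (pc i 0 ω : P 0) = pc j 0 η
  ne : ∀ n, (W n).Nonempty

/-- the number of paths -/
noncomputable def cnP (P : ℕ → Type) [Sys P] (n : ℕ) : ℕ := (Sys.W (P := P) n).card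

section

variable {P : ℕ → Type} [Sys P]

theorem mem_W {n : ℕ} {ω : P n} : ω ∈ Sys.W n ↔ ω ∈ Sys.W n := Iff.rfl

theorem pcW {n i m : ℕ} {ω : P n} (h : ω ∈ Sys.W n) (hi : i + m ≤ n) : Sys.pc i m ω ∈ Sys.W m :=
  Sys.pcW h hi

theorem pc_mem {n i m : ℕ} {ω : P n} (h : ω ∈ Sys.W n) (hi : i + m ≤ n) :
    Sys.pc i m ω ∈ Sys.W m := Sys.pcW h hi

theorem pc_pc {n i m k l : ℕ} (ω : P n) (hk : k + l ≤ m) :
    Sys.pc k l (Sys.pc i m ω) = Sys.pc (i + k) l ω := Sys.pc_pc ω hk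

theorem pc_inj {n a b : ℕ} {ω η : P n} (h : ω ∈ Sys.W n) (h' : η ∈ Sys.W n) (hab : a + b = n)
    (h1 : Sys.pc 0 a ω = Sys.pc 0 a η) (h2 : Sys.pc a b ω = Sys.pc a b η) : ω = η :=
  Sys.pc_inj h h' hab h1 h2

theorem pc_zero_self {n : ℕ} {ω : P n} (h : ω ∈ Sys.W n) : Sys.pc 0 n ω = ω := Sys.pc_self h

theorem pc00 {n m i j : ℕ} (ω : P n) (η : P m) : (Sys.pc i 0 ω : P 0) = Sys.pc j 0 η :=
  Sys.pc00 ω η

theorem card_W (n : ℕ) : (Sys.W (P := P) n).card = cnP P n := rfl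

theorem W_ne (n : ℕ) : (Sys.W (P := P) n).Nonempty := Sys.ne n

end

theorem cnP_pos (P : ℕ → Type) [Sys P] (n : ℕ) : (0 : ℝ) < cnP P n := by
  unfold cnP
  exact_mod_cast Finset.card_pos.2 (Sys.ne n)

theorem cnP_mul_le (P : ℕ → Type) [Sys P] (a b : ℕ) : (cnP P (a + b) : ℝ) ≤ cnP P a * cnP P b := by
  have h : (Sys.W (P := P) (a + b)).card ≤
      ((Sys.W (P := P) a) ×ˢ (Sys.W (P := P) b)).card := by
    refine Finset.card_le_card_of_injOn (fun ω => (Sys.pc 0 a ω, Sys.pc a b ω)) ?_ ?_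
    · intro ω hω
      rw [Finset.mem_coe] at hω
      rw [Finset.mem_coe, Finset.mem_product]
      exact ⟨pcW hω (by omega), pcW hω (by omega)⟩
    · intro ω hω η hη e
      rw [Finset.mem_coe] at hω hη
      simp only [Prod.mk.injEq] at e
      exact pc_inj hω hη rfl e.1 e.2
  rw [Finset.card_product] at h
  unfold cnP
  exact_mod_cast h

noncomputable def rhoP (P : ℕ → Type) [Sys P] (n a : ℕ) : ℝ :=
  cnP P a * cnP P (n - a) / cnP P n

theorem one_le_rhoP (P : ℕ → Type) [Sys P] {n a : ℕ} (ha : a ≤ n) : 1 ≤ rhoP P n a := by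
  unfold rhoP
  rw [le_div_iff₀ (cnP_pos P n), one_mul]
  have := cnP_mul_le P a (n - a)
  rwa [show a + (n - a) = n by omega] at this

end Pool.Agent.N932.FL
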