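import Pool.Agent.N932.FL.Mart

/-! # Influence of the first `a` steps on all windows simultaneously (abstract version) -/

set_option autoImplicit false

namespace Pool.Agent.N932.FL

open scoped Classical
open Pool.Agent.N932.RP (cl cl2 cl_pos cl_congr cl2_congr cl_ncard cl2_ncard cl2_pos_iff
  cond_pos_iff cl_eq_card cl_eq_one cl_le_of_inj cond_self sum_cl2 sum_cond cond_nonneg avg_fiber
  sum_inv_cl kl tv af tv_nonneg tv_sq_le_af af_nonneg af_le kl_elem tv_sq_le_kl kl_nonneg af_pos
  jensen_log)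

variable {P : ℕ → Type} [Sys P]

open Sys (pc)

theorem sum_residue (m n : ℕ) (hm : 1 ≤ m) (f : ℕ → ℝ) :
    ∑ i ∈ Finset.range (n + 1 - m), f i =
      ∑ j ∈ Finset.range m, ∑ k ∈ Finset.range ((n - j) / m), f (j + k * m) := by
  rw [Finset.sum_sigma']
  symm
  refine Finset.sum_nbij' (fun q : (Σ _ : ℕ, ℕ) => q.1 + q.2 * m)
    (fun i => (⟨i % m, i / m⟩ : (Σ _ : ℕ, ℕ))) ?_ ?_ ?_ ?_ ?_
  · rintro ⟨j, k⟩ h
    simp only [Finset.mem_sigma, Finset.mem_range] at h ⊢
    obtain ⟨h1, h2⟩ := h
    have h3 : (k + 1) * m ≤ n - j := by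
      rw [← Nat.le_div_iff_mul_le hm]
      omega
    rw [add_mul, one_mul] at h3
    omega
  · intro i hi
    simp only [Finset.mem_sigma, Finset.mem_range] at hi ⊢
    refine ⟨Nat.mod_lt _ hm, ?_⟩
    have h1 := Nat.mod_add_div i m
    have h2 : (i / m + 1) * m ≤ n - i % m := by
      rw [add_mul, one_mul, mul_comm]
      omega
    have := (Nat.le_div_iff_mul_le hm).2 h2
    omega
  · rintro ⟨j, k⟩ h
    simp only [Finset.mem_sigma, Finset.mem_range] at h
    obtain ⟨h1, h2⟩ := h
    have e1 : (j + k * m) % m = j := by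
      rw [Nat.add_mul_mod_self_right, Nat.mod_eq_of_lt h1]
    have e2 : (j + k * m) / m = k := by
      rw [Nat.add_mul_div_right _ _ hm, Nat.div_eq_of_lt h1, zero_add]
    simp only [e1, e2]
  · intro i hi
    simp only
    have h1 := Nat.mod_add_div i m
    rw [mul_comm] at h1
    exact h1
  · rintro ⟨j, k⟩ h
    rfl


/-- tail bound for one partition -/
theorem tail_one {n a r : ℕ} {τ : ℕ → ℕ} (hτ : Monotone τ) (h0 : τ 0 = a) (hr : τ r ≤ n)
    (x : ℝ) : (((Sys.W (P := P) n).filter (fun ω => Real.log (rhoP P n a) + 4 * x <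
      ∑ j ∈ Finset.range r, TT n a (τ j) (τ (j + 1) - τ j) ω ^ 2)).card : ℝ) ≤
      Real.exp (-x) * cnP P n := by
  have ha : a ≤ n := by
    have := hτ (Nat.zero_le r)
    omega
  have hρ := one_le_rhoP P ha
  have hρ0 : 0 < rhoP P n a := by linarith
  have h1 := exp_moment (P := P) hτ h0 hr
  have h2 : Real.exp (x + 1 / 4 * Real.log (rhoP P n a)) *
      (((Sys.W (P := P) n).filter (fun ω => Real.log (rhoP P n a) + 4 * x <
      ∑ j ∈ Finset.range r, TT n a (τ j) (τ (j + 1) - τ j) ω ^ 2)).card : ℝ) ≤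
      ∑ ω ∈ Sys.W (P := P) n, Real.exp (1 / 4 * ∑ j ∈ Finset.range r,
        TT n a (τ j) (τ (j + 1) - τ j) ω ^ 2) := by
    rw [mul_comm, ← nsmul_eq_mul, ← Finset.sum_const]
    refine (Finset.sum_le_sum (fun ω hω => ?_)).trans
      (Finset.sum_le_sum_of_subset_of_nonneg (Finset.filter_subset _ _)
        (fun ω _ _ => (Real.exp_pos _).le))
    rw [Finset.mem_filter] at hω
    refine Real.exp_le_exp.2 ?_
    linarith [hω.2]
  have h3 : (cnP P a * cnP P (n - a) / cnP P n : ℝ) ^ (1 / 4 : ℝ) =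
      Real.exp (1 / 4 * Real.log (rhoP P n a)) := by
    rw [show (cnP P a * cnP P (n - a) / cnP P n : ℝ) = rhoP P n a from rfl, Real.rpow_def_of_pos hρ0]
    ring_nf
  rw [h3] at h1
  have h4 := h2.trans h1
  rw [Real.exp_add, mul_assoc] at h4
  have h5 := Real.exp_pos (1 / 4 * Real.log (rhoP P n a))
  have h6 : Real.exp x * (((Sys.W (P := P) n).filter (fun ω => Real.log (rhoP P n a) + 4 * x <
      ∑ j ∈ Finset.range r, TT n a (τ j) (τ (j + 1) - τ j) ω ^ 2)).card : ℝ) ≤ cnP P n := by
    by_contra hcon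
    push Not at hcon
    have := mul_lt_mul_of_pos_right hcon h5
    linarith
  rw [Real.exp_neg, inv_mul_eq_div, le_div_iff₀ (Real.exp_pos x), mul_comm]
  exact h6

/-- the windows of length `L` in a residue class -/
def tau (a L r : ℕ) : ℕ → ℕ
  | 0 => a
  | j + 1 => a + r + j * L

theorem tau_mono (a L r : ℕ) : Monotone (tau a L r) := by
  refine monotone_nat_of_le_succ (fun j => ?_)
  cases j with
  | zero => show a ≤ a + r + 0 * L; omega
  | succ j =>
    show a + r + j * L ≤ a + r + (j + 1) * L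
    have : j * L ≤ (j + 1) * L := Nat.mul_le_mul_right _ (Nat.le_succ j)
    omega

noncomputable def S3 (n a L r : ℕ) (ω : P n) : ℝ :=
  ∑ j ∈ Finset.range ((n - a - r) / L), TT n a (a + (r + j * L)) L ω ^ 2

theorem S3_nonneg (n a L r : ℕ) (ω : P n) : 0 ≤ S3 n a L r ω :=
  Finset.sum_nonneg (fun _ _ => sq_nonneg _)

/-- a walk outside of the bad sets -/
theorem tail_S3 {n a L r : ℕ} (ha : a ≤ n) (x : ℝ) (hx : 0 ≤ x) :
    (((Sys.W (P := P) n).filter (fun ω => Real.log (rhoP P n a) + 4 * x < S3 n a L r ω)).card : ℝ) ≤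
      Real.exp (-x) * cnP P n := by
  by_cases h : a + r ≤ n ∧ 0 < L
  · obtain ⟨h, hL⟩ := h
    have hq : (n - a - r) / L * L ≤ n - a - r := Nat.div_mul_le_self _ _
    have h1 := tail_one (P := P) (tau_mono a L r) (show tau a L r 0 = a from rfl)
      (r := (n - a - r) / L + 1) (n := n) (by
        show a + r + (n - a - r) / L * L ≤ n
        omega) x
    refine le_trans ?_ h1
    rw [Nat.cast_le]
    refine Finset.card_le_card (fun ω hω => ?_)
    rw [Finset.mem_filter] at hω ⊢
    refine ⟨hω.1, hω.2.trans_le ?_⟩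
    rw [Finset.sum_range_succ']
    have h2 : ∀ j ∈ Finset.range ((n - a - r) / L),
        TT n a (tau a L r (j + 1)) (tau a L r (j + 1 + 1) - tau a L r (j + 1)) ω ^ 2 =
        TT n a (a + (r + j * L)) L ω ^ 2 := by
      intro j _
      have e1 : tau a L r (j + 1) = a + (r + j * L) := by
        show a + r + j * L = _
        omega
      have e2 : tau a L r (j + 1 + 1) - tau a L r (j + 1) = L := by
        show a + r + (j + 1) * L - (a + r + j * L) = L
        rw [add_mul, one_mul]
        omega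
      rw [e2, e1]
    rw [Finset.sum_congr rfl h2]
    unfold S3
    have := sq_nonneg (TT n a (tau a L r 0) (tau a L r (0 + 1) - tau a L r 0) ω)
    linarith
  · have h0 : (n - a - r) / L = 0 := by
      rcases Nat.eq_zero_or_pos L with h1 | h1
      · rw [h1, Nat.div_zero]
      · have h2 : n - a - r = 0 := by
          by_contra hcon
          exact h ⟨by omega, h1⟩
        rw [h2, Nat.zero_div]
    have hρ := Real.log_nonneg (one_le_rhoP P ha)
    rw [Finset.filter_false_of_mem]
    · simp only [Finset.card_empty, Nat.cast_zero]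
      have := cnP_pos P n
      positivity
    · intro ω _
      unfold S3
      rw [h0]
      simp only [Finset.range_zero, Finset.sum_empty, not_lt]
      positivity

theorem sum_TT {n a L : ℕ} (hL : 1 ≤ L) (h : a + L ≤ n) (ω : P n) :
    ∑ t ∈ Finset.Icc a (n - L), TT n a t L ω ^ 2 = ∑ r ∈ Finset.range L, S3 n a L r ω := by
  have h1 := sum_residue L (n - a) hL (fun i => TT n a (a + i) L ω ^ 2)
  unfold S3
  rw [← h1]
  symm
  refine Finset.sum_nbij' (fun i => a + i) (fun t => t - a) ?_ ?_ ?_ ?_ ?_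
  · intro i hi
    rw [Finset.mem_range] at hi
    rw [Finset.mem_Icc]
    omega
  · intro t ht
    rw [Finset.mem_Icc] at ht
    rw [Finset.mem_range]
    omega
  · intro i _
    show a + i - a = i
    omega
  · intro t ht
    rw [Finset.mem_Icc] at ht
    show a + (t - a) = t
    omega
  · intro i _
    rfl

/-- **all windows simultaneously** -/
theorem all_windows {n : ℕ} (hn : 2 ≤ n) {R : ℝ} (hR : ∀ a, a ≤ n → Real.log (rhoP P n a) ≤ R)
    (x : ℝ) (hx : 0 ≤ x) :
    (((Sys.W (P := P) n).filter (fun ω => ¬ ∀ a L : ℕ, 1 ≤ L → a + L ≤ n →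
      ∑ t ∈ Finset.Icc a (n - L), TT n a t L ω ^ 2 ≤
        L * (R + 12 * Real.log n + 4 * x))).card : ℝ) ≤
      Real.exp (-x) * cnP P n := by
  have hn2 : (2 : ℝ) ≤ n := by exact_mod_cast hn
  have hn0 : (0 : ℝ) < n := by linarith
  have hlog : 0 ≤ Real.log n := Real.log_nonneg (by linarith)
  obtain ⟨y, hy⟩ : ∃ y, y = x + 3 * Real.log n := ⟨_, rfl⟩
  have hy0 : 0 ≤ y := by rw [hy]; linarith
  have hcn := cnP_pos P n
  have hsub : (Sys.W (P := P) n).filter (fun ω => ¬ ∀ a L : ℕ, 1 ≤ L → a + L ≤ n →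
      ∑ t ∈ Finset.Icc a (n - L), TT n a t L ω ^ 2 ≤
        L * (R + 12 * Real.log n + 4 * x)) ⊆
      (Finset.range n ×ˢ (Finset.range n ×ˢ Finset.range n)).biUnion (fun p =>
        (Sys.W (P := P) n).filter (fun ω => Real.log (rhoP P n p.1) + 4 * y < S3 n p.1 (p.2.1 + 1) p.2.2 ω)) := by
    intro ω hω
    rw [Finset.mem_filter] at hω
    obtain ⟨hω, hbad⟩ := hω
    by_contra hcon
    apply hbad
    intro a L hL haL
    rw [sum_TT hL haL]
    have h1 : ∀ r ∈ Finset.range L, S3 n a L r ω ≤ R + 12 * Real.log n + 4 * x := by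
      intro r hr
      rw [Finset.mem_range] at hr
      have h2 : ¬ (Real.log (rhoP P n a) + 4 * y < S3 n a L r ω) := by
        intro h3
        apply hcon
        rw [Finset.mem_biUnion]
        refine ⟨(a, (L - 1, r)), ?_, ?_⟩
        · rw [Finset.mem_product, Finset.mem_product]
          simp only [Finset.mem_range]
          omega
        · rw [Finset.mem_filter]
          refine ⟨hω, ?_⟩
          show Real.log (rhoP P n a) + 4 * y < S3 n a (L - 1 + 1) r ω
          rw [show L - 1 + 1 = L by omega]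
          exact h3
      have h4 := hR a (by omega)
      have h5 := not_lt.1 h2
      rw [hy] at h5
      linarith
    refine (Finset.sum_le_sum h1).trans (le_of_eq ?_)
    rw [Finset.sum_const, Finset.card_range, nsmul_eq_mul]
  have h1 : (((Sys.W (P := P) n).filter (fun ω => ¬ ∀ a L : ℕ, 1 ≤ L → a + L ≤ n →
      ∑ t ∈ Finset.Icc a (n - L), TT n a t L ω ^ 2 ≤
        L * (R + 12 * Real.log n + 4 * x))).card : ℝ) ≤
      ∑ p ∈ (Finset.range n ×ˢ (Finset.range n ×ˢ Finset.range n)),
        (((Sys.W (P := P) n).filter (fun ω => Real.log (rhoP P n p.1) + 4 * y <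
          S3 n p.1 (p.2.1 + 1) p.2.2 ω)).card : ℝ) := by
    exact_mod_cast (Finset.card_le_card hsub).trans Finset.card_biUnion_le
  refine h1.trans ?_
  have h2 : ∀ p ∈ (Finset.range n ×ˢ (Finset.range n ×ˢ Finset.range n)),
      (((Sys.W (P := P) n).filter (fun ω => Real.log (rhoP P n p.1) + 4 * y <
          S3 n p.1 (p.2.1 + 1) p.2.2 ω)).card : ℝ) ≤ Real.exp (-y) * cnP P n := by
    intro p hp
    rw [Finset.mem_product, Finset.mem_range] at hp
    exact tail_S3 hp.1.le y hy0
  refine (Finset.sum_le_sum h2).trans (le_of_eq ?_)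
  rw [Finset.sum_const, Finset.card_product, Finset.card_product, Finset.card_range, nsmul_eq_mul,
    hy, neg_add, Real.exp_add]
  have e : Real.exp (-(3 * Real.log n)) = ((n : ℝ) * (n * n))⁻¹ := by
    rw [Real.exp_neg]
    congr 1
    rw [show 3 * Real.log (n : ℝ) = Real.log (n * (n * n) : ℝ) by
      rw [Real.log_mul hn0.ne' (by positivity), Real.log_mul hn0.ne' hn0.ne']; ring]
    exact Real.exp_log (by positivity)
  rw [e]
  push_cast
  field_simp

end Pool.Agent.N932.FL
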