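import Pool.Agent.N932.FL.Sys

/-! # Growth laws, with and without the first `a` steps (abstract version of `RP.Walk`) -/

set_option autoImplicit false

namespace Pool.Agent.N932.FL

open scoped Classical
open Pool.Agent.N932.RP (cl cl2 cl_pos cl_congr cl2_congr cl_ncard cl2_ncard cl2_pos_iff
  cond_pos_iff cl_eq_card cl_eq_one cl_le_of_inj cond_self sum_cl2 sum_cond cond_nonneg avg_fiber
  sum_inv_cl kl tv af tv_nonneg tv_sq_le_af af_nonneg af_le kl_elem tv_sq_le_kl kl_nonneg af_pos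
  jensen_log)

variable {P : ℕ → Type} [Sys P]

open Sys (pc)

/-- the number of walks which agree with `ω` up to time `t` -/
noncomputable def N0 (n t : ℕ) (ω : P n) : ℝ := cl (Sys.W (P := P) n) (fun η => pc 0 t η) ω

/-- the law of the next `m` steps given the walk up to time `t` -/
noncomputable def G0 (n t m : ℕ) (ω : P n) (ζ : P m) : ℝ :=
  Pool.Agent.N932.RP.cond (Sys.W (P := P) n) (fun η => pc 0 t η) (fun η => pc t m η) ω ζ

noncomputable def NN (n a t : ℕ) (ω : P n) : ℝ := N0 (n - a) (t - a) (pc a (n - a) ω)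

noncomputable def GG (n a t m : ℕ) (ω : P n) (ζ : P m) : ℝ :=
  G0 (n - a) (t - a) m (pc a (n - a) ω) ζ

/-- two walks agree on `[i, i+u+m]` iff they agree on both parts -/
theorem pc_split {n i u m : ℕ} {ω η : P n} (hω : ω ∈ Sys.W (P := P) n) (hη : η ∈ Sys.W (P := P) n)
    (h : i + u + m ≤ n) :
    pc i (u + m) η = pc i (u + m) ω ↔ (pc i u η = pc i u ω ∧ pc (i + u) m η = pc (i + u) m ω) := by
  constructor
  · intro e
    refine ⟨?_, ?_⟩
    · have h1 := pc_pc (i := i) (m := u + m) (k := 0) (l := u) η (by omega)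
      have h2 := pc_pc (i := i) (m := u + m) (k := 0) (l := u) ω (by omega)
      rw [e, h2] at h1
      simpa using h1.symm
    · have h1 := pc_pc (i := i) (m := u + m) (k := u) (l := m) η le_rfl
      have h2 := pc_pc (i := i) (m := u + m) (k := u) (l := m) ω le_rfl
      rw [e, h2] at h1
      exact h1.symm
  · rintro ⟨e1, e2⟩
    refine pc_inj (a := u) (b := m) (pc_mem (mem_W.1 hη) (by omega))
      (pc_mem (mem_W.1 hω) (by omega)) rfl ?_ ?_
    · rw [pc_pc η (by omega), pc_pc ω (by omega)]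
      simpa using e1
    · rw [pc_pc η le_rfl, pc_pc ω le_rfl]
      exact e2

theorem pc0_split {n u m : ℕ} {ω η : P n} (hω : ω ∈ Sys.W (P := P) n) (hη : η ∈ Sys.W (P := P) n)
    (h : u + m ≤ n) :
    pc 0 (u + m) η = pc 0 (u + m) ω ↔ (pc 0 u η = pc 0 u ω ∧ pc u m η = pc u m ω) := by
  have := pc_split (i := 0) (u := u) (m := m) hω hη (by omega)
  rwa [zero_add] at this

theorem N0_pos {n t : ℕ} {ω : P n} (h : ω ∈ Sys.W (P := P) n) : 0 < N0 n t ω := cl_pos h

theorem NN_pos {n a t : ℕ} {ω : P n} (h : ω ∈ Sys.W (P := P) n) (ha : a ≤ n) : 0 < NN n a t ω :=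
  N0_pos (pcW h (by omega))

theorem G0_nonneg (n t m : ℕ) (ω : P n) (ζ : P m) : 0 ≤ G0 n t m ω ζ := cond_nonneg _ _ _ _ _

theorem GG_nonneg (n a t m : ℕ) (ω : P n) (ζ : P m) : 0 ≤ GG n a t m ω ζ :=
  G0_nonneg _ _ _ _ _

theorem G0_sum {n t m : ℕ} {ω : P n} (h : ω ∈ Sys.W (P := P) n) (ht : t + m ≤ n) :
    ∑ ζ ∈ Sys.W (P := P) m, G0 n t m ω ζ = 1 :=
  sum_cond (fun _ hη => pcW hη ht) (cl_pos h)

theorem GG_sum {n a t m : ℕ} {ω : P n} (h : ω ∈ Sys.W (P := P) n) (ha : a ≤ t) (ht : t + m ≤ n) :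
    ∑ ζ ∈ Sys.W (P := P) m, GG n a t m ω ζ = 1 :=
  G0_sum (pcW h (by omega)) (by omega)

/-- the growth law at the actual next steps -/
theorem G0_self {n t m : ℕ} {ω : P n} (h : ω ∈ Sys.W (P := P) n) (ht : t + m ≤ n) :
    G0 n t m ω (pc t m ω) = N0 n (t + m) ω / N0 n t ω :=
  cond_self (S := Sys.W (P := P) n) (X := fun η => pc 0 t η) (Y := fun η => pc t m η)
    (Z := fun η => pc 0 (t + m) η) (fun _ h1 => pc0_split h h1 ht)

theorem GG_self {n a t m : ℕ} {ω : P n} (h : ω ∈ Sys.W (P := P) n) (ha : a ≤ t) (ht : t + m ≤ n) :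
    GG n a t m ω (pc t m ω) = NN n a (t + m) ω / NN n a t ω := by
  have h1 := G0_self (n := n - a) (t := t - a) (m := m) (ω := pc a (n - a) ω)
    (pcW h (by omega)) (by omega)
  rw [pc_pc ω (by omega), show a + (t - a) = t by omega] at h1
  unfold GG NN
  rw [h1, show t + m - a = t - a + m by omega]

/-- the growth law depends on the past only -/
theorem N0_congr {n t s : ℕ} {ω η : P n} (hs : s ≤ t) (h : pc 0 t η = pc 0 t ω) :
    N0 n s η = N0 n s ω := by
  unfold N0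
  refine cl_congr ?_
  have h1 := pc_pc (i := 0) (m := t) (k := 0) (l := s) η (by omega)
  have h2 := pc_pc (i := 0) (m := t) (k := 0) (l := s) ω (by omega)
  rw [h, h2] at h1
  exact h1.symm

theorem G0_congr {n t m : ℕ} {ω η : P n} (h : pc 0 t η = pc 0 t ω) :
    G0 n t m η = G0 n t m ω := by
  funext ζ
  unfold G0 Pool.Agent.N932.RP.cond
  rw [cl2_congr (X := fun η => pc 0 t η) h, cl_congr (X := fun η => pc 0 t η) h]

theorem piece_congr {n a t : ℕ} {ω η : P n} (ha : a ≤ t) (ht : t ≤ n)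
    (h : pc 0 t η = pc 0 t ω) :
    pc 0 (t - a) (pc a (n - a) η) = pc 0 (t - a) (pc a (n - a) ω) := by
  rw [pc_pc η (by omega), pc_pc ω (by omega), add_zero]
  have h1 := pc_pc (i := 0) (m := t) (k := a) (l := t - a) η (by omega)
  have h2 := pc_pc (i := 0) (m := t) (k := a) (l := t - a) ω (by omega)
  rw [h, h2, zero_add] at h1
  exact h1.symm

theorem GG_congr {n a t m : ℕ} {ω η : P n} (ha : a ≤ t) (ht : t ≤ n)
    (h : pc 0 t η = pc 0 t ω) : GG n a t m η = GG n a t m ω := by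
  funext ζ
  unfold GG
  rw [G0_congr (piece_congr ha ht h)]

/-- erasing the beginning does not decrease the number of continuations -/
theorem N0_le_NN {n a t : ℕ} {ω : P n} (h : ω ∈ Sys.W (P := P) n) (ha : a ≤ t) (ht : t ≤ n) :
    N0 n t ω ≤ NN n a t ω := by
  unfold NN N0
  refine cl_le_of_inj (fun η => pc a (n - a) η) ?_ ?_
  · intro η hη e
    exact ⟨pcW hη (by omega), piece_congr ha ht e⟩
  · intro η hη e1 η' hη' e2 e
    refine pc_inj (a := a) (b := n - a) (mem_W.1 hη) (mem_W.1 hη') (by omega) ?_ e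
    have h1 := pc_pc (i := 0) (m := t) (k := 0) (l := a) η (by omega)
    have h2 := pc_pc (i := 0) (m := t) (k := 0) (l := a) η' (by omega)
    rw [e1, ← e2, h2] at h1
    simpa using h1.symm

/-- absolute continuity -/
theorem GG_pos {n a t m : ℕ} {ω : P n} (h : ω ∈ Sys.W (P := P) n) (ha : a ≤ t) (ht : t + m ≤ n)
    {ζ : P m} (hζ : 0 < G0 n t m ω ζ) : 0 < GG n a t m ω ζ := by
  obtain ⟨η, hη, e1, e2⟩ := (cond_pos_iff h).1 hζ
  refine (cond_pos_iff (pcW h (by omega))).2 ⟨pc a (n - a) η, pcW hη (by omega),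
    piece_congr ha (by omega) e1, ?_⟩
  show pc (t - a) m (pc a (n - a) η) = ζ
  rw [pc_pc η (by omega), show a + (t - a) = t by omega]
  exact e2

theorem NN_self {n a : ℕ} {ω : P n} :
    NN n a a ω = cnP P (n - a) := by
  unfold NN N0
  rw [← card_W (n - a)]
  refine cl_eq_card (fun η _ => ?_)
  show pc 0 (a - a) η = pc 0 (a - a) (pc a (n - a) ω)
  rw [Nat.sub_self]
  exact pc00 _ _

/-- the ratio of the numbers of continuations -/
noncomputable def RR (n a t : ℕ) (ω : P n) : ℝ := NN n a t ω / N0 n t ω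

theorem one_le_RR {n a t : ℕ} {ω : P n} (h : ω ∈ Sys.W (P := P) n) (ha : a ≤ t) (ht : t ≤ n) :
    1 ≤ RR n a t ω := by
  unfold RR
  rw [le_div_iff₀ (N0_pos h), one_mul]
  exact N0_le_NN h ha ht

theorem RR_pos {n a t : ℕ} {ω : P n} (h : ω ∈ Sys.W (P := P) n) (ha : a ≤ n) : 0 < RR n a t ω :=
  div_pos (NN_pos h ha) (N0_pos h)

theorem ratio_self {n a t m : ℕ} {ω : P n} (h : ω ∈ Sys.W (P := P) n) (ha : a ≤ t) (ht : t + m ≤ n) :
    G0 n t m ω (pc t m ω) / GG n a t m ω (pc t m ω) = RR n a t ω / RR n a (t + m) ω := by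
  rw [G0_self h ht, GG_self h ha ht]
  unfold RR
  have h1 := N0_pos (t := t) h
  have h2 := N0_pos (t := t + m) h
  have h3 := NN_pos (a := a) (t := t) h (by omega)
  have h4 := NN_pos (a := a) (t := t + m) h (by omega)
  field_simp

/-- the sum of the relative entropies -/
theorem sum_kl {n a t m : ℕ} (ha : a ≤ t) (ht : t + m ≤ n) :
    ∑ ω ∈ Sys.W (P := P) n, kl (Sys.W (P := P) m) (G0 n t m ω) (GG n a t m ω) =
      ∑ ω ∈ Sys.W (P := P) n, (Real.log (RR n a t ω) - Real.log (RR n a (t + m) ω)) := by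
  have h1 := avg_fiber (S := Sys.W (P := P) n) (T := Sys.W (P := P) m) (X := fun η => pc 0 t η) (Y := fun η => pc t m η)
    (fun η hη => pcW hη ht) (fun ω ζ => Real.log (G0 n t m ω ζ / GG n a t m ω ζ)) (by
      intro ω _ η _ e ζ
      rw [G0_congr (m := m) e, GG_congr (m := m) ha (by omega) e])
  have h2 : ∀ ω ∈ Sys.W (P := P) n, Real.log (G0 n t m ω (pc t m ω) / GG n a t m ω (pc t m ω)) =
      Real.log (RR n a t ω) - Real.log (RR n a (t + m) ω) := by
    intro ω hω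
    rw [ratio_self hω ha ht, Real.log_div (RR_pos hω (by omega)).ne' (RR_pos hω (by omega)).ne']
  rw [← Finset.sum_congr rfl h2, ← h1]
  rfl

/-- the inverse numbers of continuations -/
theorem sum_RR {n a : ℕ} (ha : a ≤ n) :
    ∑ ω ∈ Sys.W (P := P) n, RR n a a ω ≤ cnP P (n - a) * cnP P a := by
  have h1 := sum_inv_cl (S := Sys.W (P := P) n) (U := Sys.W (P := P) a) (X := fun η => pc 0 a η)
    (fun η hη => pcW hη (by omega))
  rw [card_W] at h1
  have h2 : ∀ ω ∈ Sys.W (P := P) n, RR n a a ω = cnP P (n - a) * (1 / cl (Sys.W (P := P) n) (fun η => pc 0 a η) ω) := by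
    intro ω hω
    unfold RR
    rw [NN_self]
    unfold N0
    ring
  rw [Finset.sum_congr rfl h2, ← Finset.mul_sum]
  exact mul_le_mul_of_nonneg_left h1 (Nat.cast_nonneg _)

theorem kl_G_nonneg {n a t m : ℕ} {ω : P n} (h : ω ∈ Sys.W (P := P) n) (ha : a ≤ t) (ht : t + m ≤ n) :
    0 ≤ kl (Sys.W (P := P) m) (G0 n t m ω) (GG n a t m ω) :=
  kl_nonneg (G0_nonneg _ _ _ _) (GG_nonneg _ _ _ _ _) (fun _ => GG_pos h ha ht) (G0_sum h ht)
    (GG_sum h ha ht)

/-- **the total relative entropy** -/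
theorem total_kl {n a r : ℕ} {τ : ℕ → ℕ} (hτ : Monotone τ) (h0 : τ 0 = a) (hr : τ r ≤ n) :
    ∑ ω ∈ Sys.W (P := P) n, ∑ j ∈ Finset.range r,
      kl (Sys.W (P := P) (τ (j + 1) - τ j)) (G0 n (τ j) (τ (j + 1) - τ j) ω)
        (GG n a (τ j) (τ (j + 1) - τ j) ω) ≤
      cnP P n * Real.log (cnP P a * cnP P (n - a) / cnP P n) := by
  have ha : a ≤ n := by
    have := hτ (Nat.zero_le r)
    omega
  rw [Finset.sum_comm]
  have h1 : ∀ j ∈ Finset.range r, ∑ ω ∈ Sys.W (P := P) n,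
      kl (Sys.W (P := P) (τ (j + 1) - τ j)) (G0 n (τ j) (τ (j + 1) - τ j) ω)
        (GG n a (τ j) (τ (j + 1) - τ j) ω) =
      ∑ ω ∈ Sys.W (P := P) n, (Real.log (RR n a (τ j) ω) - Real.log (RR n a (τ (j + 1)) ω)) := by
    intro j hj
    rw [Finset.mem_range] at hj
    have h2 : a ≤ τ j := by
      rw [← h0]
      exact hτ (Nat.zero_le j)
    have h3 : τ j ≤ τ (j + 1) := hτ (Nat.le_succ j)
    have h4 : τ (j + 1) ≤ τ r := hτ hj
    rw [sum_kl h2 (by omega), show τ j + (τ (j + 1) - τ j) = τ (j + 1) by omega]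
  rw [Finset.sum_congr rfl h1, Finset.sum_comm]
  have h2 : ∀ ω ∈ Sys.W (P := P) n, ∑ j ∈ Finset.range r,
      (Real.log (RR n a (τ j) ω) - Real.log (RR n a (τ (j + 1)) ω)) ≤ Real.log (RR n a a ω) := by
    intro ω hω
    rw [Finset.sum_range_sub' (fun j => Real.log (RR n a (τ j) ω)), h0]
    have h5 : a ≤ τ r := by
      rw [← h0]
      exact hτ (Nat.zero_le r)
    have := Real.log_nonneg (one_le_RR hω h5 hr)
    linarith
  refine (Finset.sum_le_sum h2).trans ?_
  have h3 := jensen_log (Sys.W (P := P) n) (W_ne n) (fun ω => RR n a a ω) (fun ω hω => RR_pos hω ha)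
    (sum_RR ha)
  rw [card_W] at h3
  rwa [mul_comm (cnP P a : ℝ)]

end Pool.Agent.N932.FL
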