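import Pool.Agent.N932.FL.Tail

/-! # Windows: growth of conditioned walks against walks with `M` steps (abstract version) -/

set_option autoImplicit false

namespace Pool.Agent.N932.FL

open scoped Classical
open Pool.Agent.N932.RP (cl cl2 cl_pos cl_congr cl2_congr cl_ncard cl2_ncard cl2_pos_iff
  cond_pos_iff cl_eq_card cl_eq_one cl_le_of_inj cond_self sum_cl2 sum_cond cond_nonneg avg_fiber
  sum_inv_cl kl tv af tv_nonneg tv_sq_le_af af_nonneg af_le kl_elem tv_sq_le_kl kl_nonneg af_pos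
  jensen_log)

variable {P : ℕ → Type} [Sys P]

open Sys (pc)

/-- the number of `M`-step walks which begin as `ω` between `b` and `b + s` -/
noncomputable def NL (n b M s : ℕ) (ω : P n) : ℝ := N0 M s (pc b M ω)

/-- the law of the next `m` steps of a uniform walk with `M` steps which begins as `ω` between `b`
and `b + s` -/
noncomputable def GQ (n b M s m : ℕ) (ω : P n) (ζ : P m) : ℝ := G0 M s m (pc b M ω) ζ

section

variable {n b M s m : ℕ} {ω η : P n}

theorem NL_pos (h : ω ∈ Sys.W (P := P) n) (hb : b + M ≤ n) : 0 < NL n b M s ω := N0_pos (pcW h hb)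

theorem GQ_nonneg (n b M s m : ℕ) (ω : P n) (ζ : P m) : 0 ≤ GQ n b M s m ω ζ :=
  G0_nonneg _ _ _ _ _

theorem GQ_sum (h : ω ∈ Sys.W (P := P) n) (hb : b + M ≤ n) (hs : s + m ≤ M) :
    ∑ ζ ∈ Sys.W (P := P) m, GQ n b M s m ω ζ = 1 := G0_sum (pcW h hb) hs

theorem GQ_self (h : ω ∈ Sys.W (P := P) n) (hb : b + M ≤ n) (hs : s + m ≤ M) :
    GQ n b M s m ω (pc (b + s) m ω) = NL n b M (s + m) ω / NL n b M s ω := by
  have h1 := G0_self (n := M) (t := s) (m := m) (ω := pc b M ω) (pcW h hb) hs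
  rw [pc_pc ω hs] at h1
  exact h1

theorem pcb_congr (hs : s ≤ M) (h : pc 0 (b + s) η = pc 0 (b + s) ω) :
    pc 0 s (pc b M η) = pc 0 s (pc b M ω) := by
  rw [pc_pc η (by omega), pc_pc ω (by omega), add_zero]
  have h1 := pc_pc (i := 0) (m := b + s) (k := b) (l := s) η (by omega)
  have h2 := pc_pc (i := 0) (m := b + s) (k := b) (l := s) ω (by omega)
  rw [h, h2, zero_add] at h1
  exact h1.symm

theorem GQ_congr (hs : s ≤ M) (h : pc 0 (b + s) η = pc 0 (b + s) ω) :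
    GQ n b M s m η = GQ n b M s m ω := by
  funext ζ
  unfold GQ
  rw [G0_congr (pcb_congr hs h)]

theorem NL_congr {t : ℕ} (hs : s ≤ M) (ht : b + s ≤ t) (h : pc 0 t η = pc 0 t ω) :
    NL n b M s η = NL n b M s ω := by
  unfold NL
  exact N0_congr le_rfl (pcb_congr hs (pc0_mono ht h))

theorem GQ_pos (h : ω ∈ Sys.W (P := P) n) (hb : b + M ≤ n) (hs : s + m ≤ M) {ζ : P m}
    (hζ : 0 < G0 n (b + s) m ω ζ) : 0 < GQ n b M s m ω ζ := by
  obtain ⟨η, hη, e1, e2⟩ := (cond_pos_iff h).1 hζ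
  refine (cond_pos_iff (pcW h hb)).2 ⟨pc b M η, pcW hη hb, pcb_congr (by omega) e1, ?_⟩
  show pc s m (pc b M η) = ζ
  rw [pc_pc η hs]
  exact e2

theorem NL_zero : NL n b M 0 ω = cnP P M := by
  unfold NL N0
  rw [← card_W M]
  refine cl_eq_card (fun η _ => ?_)
  exact pc00 _ _

theorem NL_full (h : ω ∈ Sys.W (P := P) n) (hb : b + M ≤ n) : NL n b M M ω = 1 := by
  unfold NL N0
  refine cl_eq_one (pcW h hb) (fun η hη e => ?_)
  have e' : pc 0 M η = pc 0 M (pc b M ω) := e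
  rwa [pc_zero_self (mem_W.1 hη), pc_zero_self (pc_mem (mem_W.1 h) hb)] at e'

end

/-- the blocks of length `L` in a window, for one residue class -/
def sig (M L s : ℕ) : ℕ → ℕ
  | 0 => 0
  | i + 1 => min M (s + i * L)

theorem sig_mono (M L s : ℕ) : Monotone (sig M L s) := by
  refine monotone_nat_of_le_succ (fun i => ?_)
  cases i with
  | zero => exact Nat.zero_le _
  | succ i =>
    show min M (s + i * L) ≤ min M (s + (i + 1) * L)
    have : i * L ≤ (i + 1) * L := Nat.mul_le_mul_right _ (Nat.le_succ i)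
    omega

theorem sig_last {M L s : ℕ} (hL : 1 ≤ L) : sig M L s ((M - s) / L + 2) = M := by
  show min M (s + ((M - s) / L + 1) * L) = M
  have h1 : M - s < ((M - s) / L + 1) * L := Nat.lt_mul_of_div_lt (Nat.lt_succ_self _) hL
  omega

theorem tv_avg {β : Type*} (T : Finset β) (p : β → ℝ) (N : ℕ) (hN : 0 < N) (q : ℕ → β → ℝ) :
    tv T p (fun ζ => (∑ i ∈ Finset.range N, q i ζ) / N) ^ 2 ≤
      (∑ i ∈ Finset.range N, tv T p (q i) ^ 2) / N := by
  have hN0 : (0 : ℝ) < N := by exact_mod_cast hN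
  have h1 : tv T p (fun ζ => (∑ i ∈ Finset.range N, q i ζ) / N) ≤
      (∑ i ∈ Finset.range N, tv T p (q i)) / N := by
    unfold tv
    rw [← Finset.mul_sum, mul_div_assoc]
    refine mul_le_mul_of_nonneg_left ?_ (by norm_num)
    rw [Finset.sum_comm, Finset.sum_div]
    refine Finset.sum_le_sum (fun ζ _ => ?_)
    have e : p ζ - (∑ i ∈ Finset.range N, q i ζ) / N =
        (∑ i ∈ Finset.range N, (p ζ - q i ζ)) / N := by
      rw [Finset.sum_sub_distrib, Finset.sum_const, Finset.card_range, nsmul_eq_mul]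
      field_simp
    rw [e, abs_div, abs_of_pos hN0]
    exact div_le_div_of_nonneg_right (Finset.abs_sum_le_sum_abs _ _) hN0.le
  have h2 : (∑ i ∈ Finset.range N, tv T p (q i)) ^ 2 ≤
      N * ∑ i ∈ Finset.range N, tv T p (q i) ^ 2 := by
    have := sq_sum_le_card_mul_sum_sq (s := Finset.range N) (f := fun i => tv T p (q i))
    rwa [Finset.card_range] at this
  calc _ ≤ ((∑ i ∈ Finset.range N, tv T p (q i)) / N) ^ 2 :=
        pow_le_pow_left₀ (tv_nonneg _ _ _) h1 2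
    _ = (∑ i ∈ Finset.range N, tv T p (q i)) ^ 2 / N ^ 2 := by rw [div_pow]
    _ ≤ (N * ∑ i ∈ Finset.range N, tv T p (q i) ^ 2) / N ^ 2 :=
        div_le_div_of_nonneg_right h2 (by positivity)
    _ = _ := by field_simp

theorem kl_avg {β : Type*} (T : Finset β) (p : β → ℝ) (N : ℕ) (hN : 0 < N) (q : ℕ → β → ℝ)
    (hp : ∀ ζ, 0 ≤ p ζ) (hpq : ∀ ζ, 0 < p ζ → ∀ i < N, 0 < q i ζ) :
    kl T p (fun ζ => (∑ i ∈ Finset.range N, q i ζ) / N) ≤
      (∑ i ∈ Finset.range N, kl T p (q i)) / N := by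
  have hN0 : (0 : ℝ) < N := by exact_mod_cast hN
  unfold kl
  rw [Finset.sum_comm, Finset.sum_div]
  refine Finset.sum_le_sum (fun ζ _ => ?_)
  rcases (hp ζ).eq_or_lt with h | h
  · rw [← h]; simp
  · have hq := hpq ζ h
    have hs : 0 < ∑ i ∈ Finset.range N, q i ζ :=
      Finset.sum_pos (fun i hi => hq i (Finset.mem_range.1 hi)) ⟨0, Finset.mem_range.2 hN⟩
    have h1 := jensen_log (Finset.range N) ⟨0, Finset.mem_range.2 hN⟩ (fun i => q i ζ)
      (fun i hi => hq i (Finset.mem_range.1 hi)) le_rfl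
    rw [Finset.card_range] at h1
    have h2 : ∑ i ∈ Finset.range N, p ζ * Real.log (p ζ / q i ζ) =
        p ζ * (N * Real.log (p ζ) - ∑ i ∈ Finset.range N, Real.log (q i ζ)) := by
      have : ∀ i ∈ Finset.range N, p ζ * Real.log (p ζ / q i ζ) =
          p ζ * Real.log (p ζ) - p ζ * Real.log (q i ζ) := by
        intro i hi
        rw [Real.log_div h.ne' (hq i (Finset.mem_range.1 hi)).ne']
        ring
      rw [Finset.sum_congr rfl this, Finset.sum_sub_distrib, Finset.sum_const, Finset.card_range,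
        nsmul_eq_mul, ← Finset.mul_sum]
      ring
    rw [h2, Real.log_div h.ne' (div_pos hs hN0).ne', mul_div_assoc]
    refine mul_le_mul_of_nonneg_left ?_ h.le
    rw [le_div_iff₀ hN0]
    linarith

/-- the kernel with finite memory -/
noncomputable def KQ (n M L t : ℕ) (ω : P n) (ζ : P L) : ℝ :=
  (∑ i ∈ Finset.range (M + 1 - L), GQ n (t - i) M i L ω ζ) / ((M + 1 - L : ℕ) : ℝ)

/-- summation over the times -/
theorem sum_shift {n M L : ℕ} (hLM : L ≤ M) (hL : 1 ≤ L) (hMn : M ≤ n) (g : ℕ → ℕ → ℝ)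
    (hg : ∀ b i, b + M ≤ n → i + L ≤ M → 0 ≤ g b i) :
    ∑ t ∈ Finset.Icc M (n - M), ∑ i ∈ Finset.range (M + 1 - L), g (t - i) i ≤
      ∑ b ∈ Finset.range (n + 1 - M), ∑ i ∈ Finset.range (M + 1 - L), g b i := by
  rw [Finset.sum_comm, Finset.sum_comm (s := Finset.range (n + 1 - M))]
  refine Finset.sum_le_sum (fun i hi => ?_)
  rw [Finset.mem_range] at hi
  have hinj : Set.InjOn (fun t : ℕ => t - i) (Finset.Icc M (n - M)) := by
    intro t ht t' ht' e
    rw [Finset.mem_coe, Finset.mem_Icc] at ht ht'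
    simp only at e
    omega
  have h1 : ∑ t ∈ Finset.Icc M (n - M), g (t - i) i =
      ∑ b ∈ (Finset.Icc M (n - M)).image (fun t => t - i), g b i := by
    rw [Finset.sum_image hinj]
  rw [h1]
  refine Finset.sum_le_sum_of_subset_of_nonneg ?_ (fun b hb _ => hg b i ?_ (by omega))
  · intro b hb
    rw [Finset.mem_image] at hb
    obtain ⟨t, ht, rfl⟩ := hb
    rw [Finset.mem_Icc] at ht
    rw [Finset.mem_range]
    omega
  · rw [Finset.mem_range] at hb
    omega

/-- the number of walks of `A` which agree with `ω` up to time `t` -/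
noncomputable def NA {n : ℕ} (A : Finset (P n)) (t : ℕ) (ω : P n) : ℝ :=
  cl A (fun η => pc 0 t η) ω

/-- the law of the next `m` steps given the walk up to time `t`, under the uniform law on `A` -/
noncomputable def PA {n : ℕ} (A : Finset (P n)) (t m : ℕ) (ω : P n) (ζ : P m) : ℝ :=
  Pool.Agent.N932.RP.cond A (fun η => pc 0 t η) (fun η => pc t m η) ω ζ

section

variable {n b M s m t : ℕ} {A : Finset (P n)} {ω η : P n}

theorem NA_pos (h : ω ∈ A) : 0 < NA A t ω := cl_pos h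

theorem PA_nonneg (A : Finset (P n)) (t m : ℕ) (ω : P n) (ζ : P m) :
    0 ≤ PA A t m ω ζ := cond_nonneg _ _ _ _ _

theorem PA_sum (hA : A ⊆ Sys.W (P := P) n) (h : ω ∈ A) (ht : t + m ≤ n) : ∑ ζ ∈ Sys.W (P := P) m, PA A t m ω ζ = 1 :=
  sum_cond (fun _ hη => pcW (hA hη) ht) (cl_pos h)

theorem PA_self (hA : A ⊆ Sys.W (P := P) n) (h : ω ∈ A) (ht : t + m ≤ n) :
    PA A t m ω (pc t m ω) = NA A (t + m) ω / NA A t ω :=
  cond_self (S := A) (X := fun η => pc 0 t η) (Y := fun η => pc t m η)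
    (Z := fun η => pc 0 (t + m) η) (fun _ h1 => pc0_split (hA h) (hA h1) ht)

theorem NA_congr (hs : s ≤ t) (h : pc 0 t η = pc 0 t ω) : NA A s η = NA A s ω :=
  cl_congr (pc0_mono hs h)

theorem PA_congr (h : pc 0 t η = pc 0 t ω) : PA A t m η = PA A t m ω := by
  funext ζ
  unfold PA Pool.Agent.N932.RP.cond
  rw [cl2_congr (X := fun η => pc 0 t η) h, cl_congr (X := fun η => pc 0 t η) h]

theorem GQ_posA (hA : A ⊆ Sys.W (P := P) n) (h : ω ∈ A) (hb : b + M ≤ n) (hs : s + m ≤ M) {ζ : P m}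
    (hζ : 0 < PA A (b + s) m ω ζ) : 0 < GQ n b M s m ω ζ := by
  obtain ⟨η, hη, e1, e2⟩ := (cond_pos_iff h).1 hζ
  refine (cond_pos_iff (pcW (hA h) hb)).2 ⟨pc b M η, pcW (hA hη) hb, pcb_congr (by omega) e1, ?_⟩
  show pc s m (pc b M η) = ζ
  rw [pc_pc η hs]
  exact e2

/-- the ratio of the numbers of continuations -/
noncomputable def RA (A : Finset (P n)) (b M s : ℕ) (ω : P n) : ℝ :=
  NL n b M s ω / NA A (b + s) ω

theorem RA_pos (hA : A ⊆ Sys.W (P := P) n) (h : ω ∈ A) (hb : b + M ≤ n) : 0 < RA A b M s ω :=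
  div_pos (NL_pos (hA h) hb) (NA_pos h)

theorem RA_ratio (hA : A ⊆ Sys.W (P := P) n) (h : ω ∈ A) (hb : b + M ≤ n) (hs : s + m ≤ M) :
    GQ n b M s m ω (pc (b + s) m ω) / PA A (b + s) m ω (pc (b + s) m ω) =
      RA A b M (s + m) ω / RA A b M s ω := by
  rw [GQ_self (hA h) hb hs, PA_self hA h (by omega)]
  unfold RA
  have h1 := NA_pos (t := b + s) h
  have h2 := NA_pos (t := b + s + m) h
  have h3 := NL_pos (s := s) (hA h) hb
  have h4 := NL_pos (s := s + m) (hA h) hb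
  rw [← add_assoc]
  field_simp

theorem RA_congr (hs : s ≤ M) (ht : b + s ≤ t) (h : pc 0 t η = pc 0 t ω) :
    RA A b M s η = RA A b M s ω := by
  unfold RA
  rw [NL_congr hs ht h, NA_congr ht h]

/-- affinity and total variation distance -/
noncomputable def AFA (A : Finset (P n)) (b M s m : ℕ) (ω : P n) : ℝ :=
  af (Sys.W (P := P) m) (PA A (b + s) m ω) (GQ n b M s m ω)

noncomputable def TVA (A : Finset (P n)) (b M s m : ℕ) (ω : P n) : ℝ :=
  tv (Sys.W (P := P) m) (PA A (b + s) m ω) (GQ n b M s m ω)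

theorem AFA_pos (hA : A ⊆ Sys.W (P := P) n) (h : ω ∈ A) (hb : b + M ≤ n) (hs : s + m ≤ M) :
    0 < AFA A b M s m ω :=
  af_pos (fun _ => GQ_posA hA h hb hs) (PA_sum hA h (by omega))

theorem AFA_le (hA : A ⊆ Sys.W (P := P) n) (h : ω ∈ A) (hb : b + M ≤ n) (hs : s + m ≤ M) :
    AFA A b M s m ω ≤ Real.exp (-(TVA A b M s m ω ^ 2 / 2)) :=
  af_le (PA_nonneg _ _ _ _) (GQ_nonneg _ _ _ _ _ _) (PA_sum hA h (by omega))
    (GQ_sum (hA h) hb hs)

theorem AFA_congr (hs : s + m ≤ M) (h : pc 0 (b + s) η = pc 0 (b + s) ω) :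
    AFA A b M s m η = AFA A b M s m ω := by
  unfold AFA
  rw [PA_congr h, GQ_congr (by omega) h]

theorem kl_nonnegA (hA : A ⊆ Sys.W (P := P) n) (h : ω ∈ A) (hb : b + M ≤ n) (hs : s + m ≤ M) :
    0 ≤ kl (Sys.W (P := P) m) (PA A (b + s) m ω) (GQ n b M s m ω) :=
  kl_nonneg (PA_nonneg _ _ _ _) (GQ_nonneg _ _ _ _ _ _) (fun _ => GQ_posA hA h hb hs)
    (PA_sum hA h (by omega)) (GQ_sum (hA h) hb hs)

theorem sum_klA (hA : A ⊆ Sys.W (P := P) n) (hb : b + M ≤ n) (hs : s + m ≤ M) :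
    ∑ ω ∈ A, kl (Sys.W (P := P) m) (PA A (b + s) m ω) (GQ n b M s m ω) =
      ∑ ω ∈ A, (Real.log (RA A b M s ω) - Real.log (RA A b M (s + m) ω)) := by
  have h1 := avg_fiber (S := A) (T := Sys.W (P := P) m) (X := fun η => pc 0 (b + s) η)
    (Y := fun η => pc (b + s) m η)
    (fun η hη => pcW (hA hη) (by omega)) (fun ω ζ => Real.log (PA A (b + s) m ω ζ /
      GQ n b M s m ω ζ)) (by
      intro ω _ η _ e ζ
      rw [PA_congr (m := m) e, GQ_congr (m := m) (by omega) e])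
  have h2 : ∀ ω ∈ A, Real.log (PA A (b + s) m ω (pc (b + s) m ω) /
      GQ n b M s m ω (pc (b + s) m ω)) =
      Real.log (RA A b M s ω) - Real.log (RA A b M (s + m) ω) := by
    intro ω hω
    rw [← inv_div, RA_ratio hA hω hb hs, inv_div,
      Real.log_div (RA_pos hA hω hb).ne' (RA_pos hA hω hb).ne']
  rw [← Finset.sum_congr rfl h2, ← h1]
  rfl

/-- `|A|` times the entropy of the walk up to time `t` -/
noncomputable def EA (A : Finset (P n)) (t : ℕ) : ℝ :=
  ∑ ω ∈ A, Real.log (A.card / NA A t ω)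

theorem EA_le (hA : A ⊆ Sys.W (P := P) n) (hne : A.Nonempty) (ht : t ≤ n) :
    EA A t ≤ A.card * Real.log (cnP P t) := by
  have h1 := sum_inv_cl (S := A) (U := Sys.W (P := P) t) (X := fun η => pc 0 t η)
    (fun η hη => pcW (hA hη) (by omega))
  rw [card_W] at h1
  have hc : (0 : ℝ) < A.card := by exact_mod_cast Finset.card_pos.2 hne
  have h2 := jensen_log A hne (fun ω => A.card / NA A t ω)
    (fun ω hω => div_pos hc (NA_pos hω)) (Z := A.card * cnP P t) (by
      have : ∀ ω ∈ A, (A.card : ℝ) / NA A t ω =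
          A.card * (1 / cl A (fun η => pc 0 t η) ω) := by
        intro ω _
        unfold NA
        ring
      rw [Finset.sum_congr rfl this, ← Finset.mul_sum]
      exact mul_le_mul_of_nonneg_left h1 hc.le)
  have e : (A.card : ℝ) * cnP P t / A.card = cnP P t := by field_simp
  rw [e] at h2
  exact h2

theorem NA_le (hA : A ⊆ Sys.W (P := P) n) (ht : t ≤ n) (ω : P n) : NA A t ω ≤ cnP P (n - t) := by
  have h3 : NA A t ω ≤ cl (Sys.W (P := P) (n - t)) (fun _ => (0 : ℕ)) (pc t (n - t) ω) := by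
    unfold NA
    refine cl_le_of_inj (fun η => pc t (n - t) η) ?_ ?_
    · intro η hη _
      exact ⟨pcW (hA hη) (by omega), rfl⟩
    · intro η hη e1 η' hη' e2 e
      refine pc_inj (a := t) (b := n - t) (mem_W.1 (hA hη)) (mem_W.1 (hA hη')) (by omega) ?_ e
      exact e1.trans e2.symm
  rwa [cl_eq_card (fun _ _ => rfl), card_W] at h3

theorem EA_ge (hA : A ⊆ Sys.W (P := P) n) (hne : A.Nonempty) (ht : t ≤ n) :
    A.card * (Real.log A.card - Real.log (cnP P (n - t))) ≤ EA A t := by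
  have hc : (0 : ℝ) < A.card := by exact_mod_cast Finset.card_pos.2 hne
  have h1 : ∀ ω ∈ A, Real.log A.card - Real.log (cnP P (n - t)) ≤
      Real.log (A.card / NA A t ω) := by
    intro ω hω
    have p1 := NA_pos (t := t) hω
    rw [Real.log_div hc.ne' p1.ne']
    have := Real.log_le_log p1 (NA_le hA ht ω)
    linarith
  calc _ = ∑ _ω ∈ A, (Real.log A.card - Real.log (cnP P (n - t))) := by
        rw [Finset.sum_const, nsmul_eq_mul]
    _ ≤ _ := Finset.sum_le_sum h1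

/-- one step of the supermartingale -/
theorem stepA (hA : A ⊆ Sys.W (P := P) n) (ht : t + m ≤ n) (Q : P n → P m → ℝ)
    (hQc : ∀ ω ∈ A, ∀ η ∈ A, pc 0 t η = pc 0 t ω → Q η = Q ω)
    (hQp : ∀ ω ∈ A, ∀ ζ, 0 < PA A t m ω ζ → 0 < Q ω ζ) (F : P n → ℝ)
    (hF : ∀ ω ∈ A, ∀ η ∈ A, pc 0 t η = pc 0 t ω → F η = F ω) :
    ∑ ω ∈ A, F ω * (Real.sqrt (Q ω (pc t m ω) / PA A t m ω (pc t m ω)) /
      af (Sys.W (P := P) m) (PA A t m ω) (Q ω)) = ∑ ω ∈ A, F ω := by
  have h3 := avg_fiber (S := A) (T := Sys.W (P := P) m) (X := fun η => pc 0 t η)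
    (Y := fun η => pc t m η) (fun η hη => pcW (hA hη) ht)
    (fun ω ζ => F ω / af (Sys.W (P := P) m) (PA A t m ω) (Q ω) * Real.sqrt (Q ω ζ / PA A t m ω ζ)) (by
      intro ω hω η hη e ζ
      have e' : pc 0 t η = pc 0 t ω := e
      show F η / af (Sys.W (P := P) m) (PA A t m η) (Q η) * Real.sqrt (Q η ζ / PA A t m η ζ) = _
      rw [hF ω hω η hη e', PA_congr e', hQc ω hω η hη e'])
  have h4 : ∀ ω ∈ A, F ω * (Real.sqrt (Q ω (pc t m ω) / PA A t m ω (pc t m ω)) /
      af (Sys.W (P := P) m) (PA A t m ω) (Q ω)) = F ω / af (Sys.W (P := P) m) (PA A t m ω) (Q ω) *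
        Real.sqrt (Q ω (pc t m ω) / PA A t m ω (pc t m ω)) := fun ω _ => by ring
  rw [Finset.sum_congr rfl h4, ← h3]
  refine Finset.sum_congr rfl (fun ω hω => ?_)
  have h5 : ∀ ζ ∈ Sys.W (P := P) m, Pool.Agent.N932.RP.cond A (fun η => pc 0 t η) (fun η => pc t m η) ω ζ *
      (F ω / af (Sys.W (P := P) m) (PA A t m ω) (Q ω) * Real.sqrt (Q ω ζ / PA A t m ω ζ)) =
      F ω / af (Sys.W (P := P) m) (PA A t m ω) (Q ω) * Real.sqrt (PA A t m ω ζ * Q ω ζ) := by
    intro ζ _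
    rw [← mul_sqrt_div (PA_nonneg A t m ω ζ)]
    unfold PA
    ring
  rw [Finset.sum_congr rfl h5, ← Finset.mul_sum]
  have h6 : ∑ ζ ∈ Sys.W (P := P) m, Real.sqrt (PA A t m ω ζ * Q ω ζ) = af (Sys.W (P := P) m) (PA A t m ω) (Q ω) := rfl
  rw [h6]
  have h7 := af_pos (fun ζ => hQp ω hω ζ) (PA_sum hA hω ht)
  field_simp

end

/-- the relative entropies in one window -/
theorem window_klA {n b M p : ℕ} {A : Finset (P n)} (hA : A ⊆ Sys.W (P := P) n) (hne : A.Nonempty)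
    {σ : ℕ → ℕ} (hσ : Monotone σ) (h0 : σ 0 = 0) (hp : σ p ≤ M) (hb : b + M ≤ n) :
    ∑ ω ∈ A, ∑ i ∈ Finset.range p, kl (Sys.W (P := P) (σ (i + 1) - σ i))
      (PA A (b + σ i) (σ (i + 1) - σ i) ω) (GQ n b M (σ i) (σ (i + 1) - σ i) ω) ≤
      A.card * Real.log (cnP P M) - (EA A (b + M) - EA A b) := by
  have hc : (0 : ℝ) < A.card := by exact_mod_cast Finset.card_pos.2 hne
  rw [Finset.sum_comm]
  have h1 : ∀ i ∈ Finset.range p, ∑ ω ∈ A, kl (Sys.W (P := P) (σ (i + 1) - σ i))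
      (PA A (b + σ i) (σ (i + 1) - σ i) ω) (GQ n b M (σ i) (σ (i + 1) - σ i) ω) =
      ∑ ω ∈ A, (Real.log (RA A b M (σ i) ω) - Real.log (RA A b M (σ (i + 1)) ω)) := by
    intro i hi
    rw [Finset.mem_range] at hi
    have h3 : σ i ≤ σ (i + 1) := hσ (Nat.le_succ i)
    have h4 : σ (i + 1) ≤ σ p := hσ hi
    rw [sum_klA hA hb (by omega), show σ i + (σ (i + 1) - σ i) = σ (i + 1) by omega]
  rw [Finset.sum_congr rfl h1, Finset.sum_comm]
  have h2 : ∀ ω ∈ A, ∑ i ∈ Finset.range p,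
      (Real.log (RA A b M (σ i) ω) - Real.log (RA A b M (σ (i + 1)) ω)) =
      Real.log (RA A b M 0 ω) - Real.log (RA A b M (σ p) ω) := by
    intro ω _
    rw [Finset.sum_range_sub' (fun i => Real.log (RA A b M (σ i) ω)), h0]
  rw [Finset.sum_congr rfl h2]
  have h3 := sum_klA (b := b) (M := M) (s := σ p) (m := M - σ p) hA hb (by omega)
  have h4 : 0 ≤ ∑ ω ∈ A, kl (Sys.W (P := P) (M - σ p)) (PA A (b + σ p) (M - σ p) ω)
      (GQ n b M (σ p) (M - σ p) ω) :=
    Finset.sum_nonneg (fun ω hω => kl_nonnegA hA hω hb (by omega))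
  rw [h3, show σ p + (M - σ p) = M by omega, Finset.sum_sub_distrib] at h4
  have h5 : ∑ ω ∈ A, (Real.log (RA A b M 0 ω) - Real.log (RA A b M M ω)) =
      A.card * Real.log (cnP P M) - (EA A (b + M) - EA A b) := by
    have h6 : ∀ ω ∈ A, Real.log (RA A b M 0 ω) - Real.log (RA A b M M ω) =
        Real.log (cnP P M) - (Real.log (A.card / NA A (b + M) ω) - Real.log (A.card / NA A b ω)) := by
      intro ω hω
      have p1 := NA_pos (t := b + M) hω
      have p2 := NA_pos (t := b) hω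
      unfold RA
      rw [NL_zero, NL_full (hA hω) hb, add_zero, Real.log_div (cnP_pos P M).ne' p2.ne',
        Real.log_div one_ne_zero p1.ne', Real.log_div hc.ne' p1.ne', Real.log_div hc.ne' p2.ne',
        Real.log_one]
      ring
    rw [Finset.sum_congr rfl h6, Finset.sum_sub_distrib, Finset.sum_const, nsmul_eq_mul,
      Finset.sum_sub_distrib]
    rfl
  rw [Finset.sum_sub_distrib] at h5 ⊢
  linarith

end Pool.Agent.N932.FL
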