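import Pool.Agent.N932.FL.ZLat
import Pool.Agent.N932.FL.Rer2
import Pool.Agent.N932.FL.Fam
import Pool.Agent.TH232.S3.Iter
import Pool.Agent.H46R2.K3.EQ

/-! # Rerouting in `ℤ³` -/

set_option autoImplicit false

namespace Pool.Agent.N932.FL

open scoped Classical

/-- `ℤ³` -/
noncomputable def z3 : Lat (Fin 3 → ℤ) := zLat 3 (by norm_num)

theorem z3_card (n : ℕ) : (z3.walks n).ncard = Pool.Agent.H46R2.K3.c n := by
  rw [← Pool.Agent.H46R2.K3.P.card_eq, ← Nat.card_coe_set_eq]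
  rfl

/-- the cost of `b` switches -/
noncomputable def cost3 (K : ℝ) (n : ℕ) (b : ℝ) : ℝ :=
  K * (b * Real.log n + Real.exp (K * Real.log (Real.log n) ^ 2) *
    (b ^ (2 / 3 : ℝ) * (n : ℝ) ^ (1 / 3 : ℝ)))

theorem loglog {m n : ℕ} (hm : 3 ≤ m) (hn : m ≤ n) :
    Real.log (Real.log m) ^ 2 ≤ Real.log (Real.log n) ^ 2 := by
  have hm3 : (3 : ℝ) ≤ m := by exact_mod_cast hm
  have hmn : (m : ℝ) ≤ n := by exact_mod_cast hn
  have h1 : (1 : ℝ) ≤ Real.log m := by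
    have h2 : Real.log (Real.exp 1) ≤ Real.log m :=
      Real.log_le_log (Real.exp_pos 1) (by have := Real.exp_one_lt_d9; linarith)
    rwa [Real.log_exp] at h2
  have h2 : Real.log m ≤ Real.log n := Real.log_le_log (by linarith) hmn
  have h3 : 0 ≤ Real.log (Real.log m) := Real.log_nonneg h1
  have h4 : Real.log (Real.log m) ≤ Real.log (Real.log n) := Real.log_le_log (by linarith) h2
  exact pow_le_pow_left₀ h3 h4 2

theorem z3_up : ∃ K : ℝ, 1 ≤ K ∧ ∀ n : ℕ, 3 ≤ n → ∀ m : ℕ, m ≤ n →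
    ((z3.walks m).ncard : ℝ) ≤ Pool.Agent.H46R2.K3.mu ^ m *
      Real.exp ((K * Real.exp (K * Real.log (Real.log n) ^ 2)) * (m : ℝ) ^ (1 / 3 : ℝ)) := by
  obtain ⟨K0, h0⟩ := Pool.Agent.TH232.S3.c_bound
  have hμ := Pool.Agent.H46R2.K3.P.one_le_mu
  obtain ⟨K1, hK1⟩ : ∃ K1 : ℝ, K1 = |K0| + (Pool.Agent.H46R2.K3.c 1 : ℝ) +
    (Pool.Agent.H46R2.K3.c 2 : ℝ) + 1 := ⟨_, rfl⟩
  have a0 := abs_nonneg K0
  have a1 : (0 : ℝ) ≤ (Pool.Agent.H46R2.K3.c 1 : ℝ) := Nat.cast_nonneg _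
  have a2 : (0 : ℝ) ≤ (Pool.Agent.H46R2.K3.c 2 : ℝ) := Nat.cast_nonneg _
  have hK11 : 1 ≤ K1 := by rw [hK1]; linarith
  refine ⟨K1, hK11, fun n hn m hm => ?_⟩
  rw [z3_card]
  have he : 1 ≤ Real.exp (K1 * Real.log (Real.log n) ^ 2) :=
    Real.one_le_exp (mul_nonneg (by linarith) (sq_nonneg _))
  have hκ : K1 ≤ K1 * Real.exp (K1 * Real.log (Real.log n) ^ 2) :=
    le_mul_of_one_le_right (by linarith) he
  have hκ0 : 0 ≤ K1 * Real.exp (K1 * Real.log (Real.log n) ^ 2) := by linarith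
  rcases Nat.lt_or_ge m 3 with h3 | h3
  · rcases Nat.eq_zero_or_pos m with h4 | h4
    · subst h4
      have h5 : ((z3.walks 0).ncard : ℝ) = 1 := by
        rw [← z3.card, @cn_zero (SP (Fin 3 → ℤ)) z3.sys]
        exact Nat.cast_one
      rw [← z3_card, h5, pow_zero, one_mul]
      exact Real.one_le_exp (mul_nonneg hκ0 (Real.rpow_nonneg (Nat.cast_nonneg _) _))
    · have h5 : (Pool.Agent.H46R2.K3.c m : ℝ) ≤ K1 := by
        have : m = 1 ∨ m = 2 := by omega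
        rcases this with h | h
        · rw [h, hK1]; linarith
        · rw [h, hK1]; linarith
      have h6 : (1 : ℝ) ≤ (m : ℝ) ^ (1 / 3 : ℝ) :=
        Real.one_le_rpow (by exact_mod_cast h4) (by norm_num)
      have h7 : K1 ≤ (K1 * Real.exp (K1 * Real.log (Real.log n) ^ 2)) * (m : ℝ) ^ (1 / 3 : ℝ) :=
        hκ.trans (le_mul_of_one_le_right hκ0 h6)
      have h8 := Real.add_one_le_exp
        ((K1 * Real.exp (K1 * Real.log (Real.log n) ^ 2)) * (m : ℝ) ^ (1 / 3 : ℝ))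
      have h9 : (1 : ℝ) ≤ Pool.Agent.H46R2.K3.mu ^ m := one_le_pow₀ hμ
      have h10 := Real.exp_pos
        ((K1 * Real.exp (K1 * Real.log (Real.log n) ^ 2)) * (m : ℝ) ^ (1 / 3 : ℝ))
      nlinarith
  · refine (h0 m h3).trans (mul_le_mul_of_nonneg_left (Real.exp_le_exp.2 ?_) (by positivity))
    have h4 : (0 : ℝ) ≤ (m : ℝ) ^ (1 / 3 : ℝ) := Real.rpow_nonneg (Nat.cast_nonneg _) _
    have h5 : K0 ≤ K1 := by
      have := le_abs_self K0
      rw [hK1]; linarith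
    have h6 : K0 * Real.log (Real.log m) ^ 2 ≤ K1 * Real.log (Real.log n) ^ 2 :=
      (mul_le_mul_of_nonneg_right h5 (sq_nonneg _)).trans
        (mul_le_mul_of_nonneg_left (loglog h3 hm) (by linarith))
    have h7 := Real.exp_le_exp.2 h6
    have h8 := Real.exp_pos (K0 * Real.log (Real.log m) ^ 2)
    calc K0 * (m : ℝ) ^ (1 / 3 : ℝ) * Real.exp (K0 * Real.log (Real.log m) ^ 2)
        ≤ K1 * (m : ℝ) ^ (1 / 3 : ℝ) * Real.exp (K0 * Real.log (Real.log m) ^ 2) :=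
          mul_le_mul_of_nonneg_right (mul_le_mul_of_nonneg_right h5 h4) h8.le
      _ ≤ K1 * (m : ℝ) ^ (1 / 3 : ℝ) * Real.exp (K1 * Real.log (Real.log n) ^ 2) :=
          mul_le_mul_of_nonneg_left h7 (by positivity)
      _ = _ := by ring

theorem z3_main : ∃ K : ℝ, 0 < K ∧ ∀ n : ℕ, 3 ≤ n →
    (∀ ω ∈ z3.walks n, ∀ S : Finset ℕ, S ⊆ Finset.Icc 1 n →
      ((fill (z3.walks n) S ω).ncard : ℝ) ≤
        Pool.Agent.H46R2.K3.mu ^ S.card * Real.exp (cost3 K n (swt n S).card)) ∧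
    ∀ x : ℝ, gprob (z3.walks n) {ω | ¬ ∀ S : Finset ℕ, S ⊆ Finset.Icc 1 n → S.Nonempty →
      Pool.Agent.H46R2.K3.mu ^ S.card * Real.exp (-(cost3 K n (swt n S).card + x)) ≤
        (fill (z3.walks n) S ω).ncard} ≤ Real.exp (-x) := by
  obtain ⟨K1, hK1, h1⟩ := z3_up
  have hμ := Pool.Agent.H46R2.K3.P.one_le_mu
  have hμ0 : 0 < Pool.Agent.H46R2.K3.mu := by linarith
  refine ⟨20 + 2 * K1, by linarith, fun n hn => ?_⟩
  have hn3 : (3 : ℝ) ≤ n := by exact_mod_cast hn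
  have hlog1 : (1 : ℝ) ≤ Real.log n := by
    have h2 : Real.log (Real.exp 1) ≤ Real.log n :=
      Real.log_le_log (Real.exp_pos 1) (by have := Real.exp_one_lt_d9; linarith)
    rwa [Real.log_exp] at h2
  obtain ⟨β, hβ⟩ : ∃ β : ℝ, β = 9 * Real.log n := ⟨_, rfl⟩
  obtain ⟨κ, hκ⟩ : ∃ κ : ℝ, κ = K1 * Real.exp (K1 * Real.log (Real.log n) ^ 2) := ⟨_, rfl⟩
  have hκ0 : 0 ≤ κ := by
    rw [hκ]
    have := Real.exp_pos (K1 * Real.log (Real.log n) ^ 2)
    nlinarith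
  have hβ0 : 0 ≤ β := by rw [hβ]; linarith
  have hκ2 : 2 * κ ≤ (20 + 2 * K1) * Real.exp ((20 + 2 * K1) * Real.log (Real.log n) ^ 2) := by
    have h2 : Real.exp (K1 * Real.log (Real.log n) ^ 2) ≤
        Real.exp ((20 + 2 * K1) * Real.log (Real.log n) ^ 2) :=
      Real.exp_le_exp.2 (mul_le_mul_of_nonneg_right (by linarith) (sq_nonneg _))
    have h3 := Real.exp_pos (K1 * Real.log (Real.log n) ^ 2)
    rw [hκ]
    nlinarith
  have hB : ((zbox 3 n).card : ℝ) ≤ Real.exp β := by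
    rw [card_zbox, hβ]
    push_cast
    have h2 : (2 * (n : ℝ) + 1) ≤ n ^ 3 := by nlinarith [sq_nonneg ((n : ℝ) - 2)]
    have h3 : (2 * (n : ℝ) + 1) ^ 3 ≤ (n ^ 3) ^ 3 := pow_le_pow_left₀ (by positivity) h2 3
    refine h3.trans (le_of_eq ?_)
    rw [show (9 : ℝ) * Real.log n = ((9 : ℕ) : ℝ) * Real.log n by norm_num, Real.exp_nat_mul,
      Real.exp_log (by linarith)]
    ring
  have C : Cost z3 Pool.Agent.H46R2.K3.mu (zbox 3 n) n (pw (1 / 3) β κ) :=
    cost_pw (by norm_num) (by norm_num) hβ0 hκ0 hB (fun m hm => by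
      rw [hκ]
      exact h1 n hn m hm)
  have hin : ∀ m, m ≤ n → ∀ ω ∈ z3.walks m, ∀ i, ω i ∈ zbox 3 n :=
    fun m hm ω hω i => in_zbox (by norm_num) hm hω i
  have hBne : (zbox 3 n).Nonempty := by
    rw [← Finset.card_pos, card_zbox]
    positivity
  have hpw : ∀ k : ℕ, pw (1 / 3) β κ k n = β * k + κ * ((k : ℝ) ^ (2 / 3 : ℝ) *
      (n : ℝ) ^ (1 / 3 : ℝ)) := by
    intro k
    unfold pw
    rw [show (1 - 1 / 3 : ℝ) = 2 / 3 by norm_num]
  have hn13 : (0 : ℝ) ≤ (n : ℝ) ^ (1 / 3 : ℝ) := Real.rpow_nonneg (Nat.cast_nonneg _) _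
  refine ⟨fun ω hω S hS => ?_, fun x => ?_⟩
  · have h0 : 0 ∉ S := fun h => by
      have := Finset.mem_Icc.1 (hS h)
      omega
    have h2 := Cost.fill_le hμ hBne C S h0 n le_rfl ω hω
    have h3 : sn n S = S.card := by
      unfold sn
      congr 1
      rw [Finset.filter_eq_self]
      intro j hj
      exact (Finset.mem_Icc.1 (hS hj)).2
    rw [h3] at h2
    refine h2.trans (mul_le_mul_of_nonneg_left (Real.exp_le_exp.2 ?_) (by positivity))
    refine (C.mono _ _ _ _ (fn_le hS) le_rfl).trans ?_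
    rw [hpw]
    unfold cost3
    have h4 : (0 : ℝ) ≤ ((swt n S).card : ℝ) := Nat.cast_nonneg _
    have h5 : (0 : ℝ) ≤ ((swt n S).card : ℝ) ^ (2 / 3 : ℝ) * (n : ℝ) ^ (1 / 3 : ℝ) :=
      mul_nonneg (Real.rpow_nonneg h4 _) hn13
    have h6 : κ * (((swt n S).card : ℝ) ^ (2 / 3 : ℝ) * (n : ℝ) ^ (1 / 3 : ℝ)) ≤
        ((20 + 2 * K1) * Real.exp ((20 + 2 * K1) * Real.log (Real.log n) ^ 2)) *
        (((swt n S).card : ℝ) ^ (2 / 3 : ℝ) * (n : ℝ) ^ (1 / 3 : ℝ)) :=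
      mul_le_mul_of_nonneg_right (by linarith) h5
    have h7 : β * ((swt n S).card : ℝ) ≤ (20 + 2 * K1) * (((swt n S).card : ℝ) * Real.log n) := by
      rw [hβ]
      have h8 : 0 ≤ ((swt n S).card : ℝ) * Real.log n := by positivity
      nlinarith
    nlinarith
  · have hlow : Real.exp (-0) * Pool.Agent.H46R2.K3.mu ^ n ≤ (z3.walks n).ncard := by
      rw [neg_zero, Real.exp_zero, one_mul, z3_card]
      exact Pool.Agent.H46R2.K3.P.mu_pow_le n
    have h2 := Cost.reroute hμ (by omega : 1 ≤ n) hin C (A := z3.walks n) le_rfl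
      (z3.nonempty n) hlow x
    refine le_trans ?_ h2
    rw [gprob_ncard (z3.finite n), gprob_ncard (z3.finite n)]
    refine div_le_div_of_nonneg_right ?_ (Nat.cast_nonneg _)
    have hsub : z3.walks n ∩ {ω | ¬ ∀ S : Finset ℕ, S ⊆ Finset.Icc 1 n → S.Nonempty →
        Pool.Agent.H46R2.K3.mu ^ S.card *
          Real.exp (-(cost3 (20 + 2 * K1) n (swt n S).card + x)) ≤
          (fill (z3.walks n) S ω).ncard} ⊆
        z3.walks n ∩ {ω | ¬ ∀ S : Finset ℕ, S ⊆ Finset.Icc 1 n → S.Nonempty →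
        Pool.Agent.H46R2.K3.mu ^ S.card *
          Real.exp (-(pw (1 / 3) β κ ((swt n S).card + 1) n +
            Real.log (2 * n) * (swt n S).card + 0 + x)) ≤
          (fill (z3.walks n) S ω).ncard} := by
      rintro ω ⟨hω, hbad⟩
      refine ⟨hω, fun hgood => hbad (fun S hS hSne => ?_)⟩
      refine le_trans (mul_le_mul_of_nonneg_left (Real.exp_le_exp.2 (neg_le_neg ?_))
        (by positivity)) (hgood S hS hSne)
      rw [hpw]
      unfold cost3
      have hb1 : (1 : ℝ) ≤ ((swt n S).card : ℝ) := by exact_mod_cast sw_pos hS hSne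
      have hb0 : (0 : ℝ) ≤ ((swt n S).card : ℝ) := by linarith
      have h4 : (((swt n S).card + 1 : ℕ) : ℝ) ^ (2 / 3 : ℝ) ≤
          2 * ((swt n S).card : ℝ) ^ (2 / 3 : ℝ) := by
        have h5 : (((swt n S).card + 1 : ℕ) : ℝ) ≤ 2 * ((swt n S).card : ℝ) := by
          push_cast
          linarith
        have h6 := Real.rpow_le_rpow (Nat.cast_nonneg _) h5 (show (0 : ℝ) ≤ 2 / 3 by norm_num)
        rw [Real.mul_rpow (by norm_num) hb0] at h6
        have h7 : (2 : ℝ) ^ (2 / 3 : ℝ) ≤ 2 := by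
          have := Real.rpow_le_rpow_of_exponent_le (x := 2) (by norm_num)
            (show (2 / 3 : ℝ) ≤ 1 by norm_num)
          rwa [Real.rpow_one] at this
        exact h6.trans (mul_le_mul_of_nonneg_right h7 (Real.rpow_nonneg hb0 _))
      have h5 : κ * ((((swt n S).card + 1 : ℕ) : ℝ) ^ (2 / 3 : ℝ) * (n : ℝ) ^ (1 / 3 : ℝ)) ≤
          (2 * κ) * (((swt n S).card : ℝ) ^ (2 / 3 : ℝ) * (n : ℝ) ^ (1 / 3 : ℝ)) := by
        have h6 := mul_le_mul_of_nonneg_right h4 hn13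
        have h7 := mul_le_mul_of_nonneg_left h6 hκ0
        linarith
      have h6 : (2 * κ) * (((swt n S).card : ℝ) ^ (2 / 3 : ℝ) * (n : ℝ) ^ (1 / 3 : ℝ)) ≤
          ((20 + 2 * K1) * Real.exp ((20 + 2 * K1) * Real.log (Real.log n) ^ 2)) *
          (((swt n S).card : ℝ) ^ (2 / 3 : ℝ) * (n : ℝ) ^ (1 / 3 : ℝ)) :=
        mul_le_mul_of_nonneg_right hκ2 (mul_nonneg (Real.rpow_nonneg hb0 _) hn13)
      have h7 : Real.log (2 * n) ≤ 2 * Real.log n := by
        rw [Real.log_mul (by norm_num) (by linarith)]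
        have := Real.log_two_lt_d9
        linarith
      have h8 : Real.log (2 * n) * ((swt n S).card : ℝ) ≤
          2 * Real.log n * ((swt n S).card : ℝ) := mul_le_mul_of_nonneg_right h7 hb0
      have h9 : β * (((swt n S).card + 1 : ℕ) : ℝ) ≤ 18 * (((swt n S).card : ℝ) * Real.log n) := by
        rw [hβ]
        push_cast
        nlinarith
      have h10 : 20 * (((swt n S).card : ℝ) * Real.log n) ≤
          (20 + 2 * K1) * (((swt n S).card : ℝ) * Real.log n) :=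
        mul_le_mul_of_nonneg_right (by linarith) (by positivity)
      nlinarith
    exact_mod_cast Set.ncard_le_ncard hsub ((z3.finite n).subset Set.inter_subset_left)

end Pool.Agent.N932.FL
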