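import Pool.Agent.N932.FL.Cost

/-! # The lattice `ℤ^d` and power costs -/

set_option autoImplicit false

namespace Pool.Agent.N932.FL

open scoped Classical

/-- the lattice `ℤ^d` -/
noncomputable def zLat (d : ℕ) (hd : 0 < d) : Lat (Fin d → ℤ) where
  Adj := fun x y => ∑ j, |y j - x j| = 1
  s := fun _ => 1
  s0 := rfl
  ss := fun _ => rfl
  sw := fun _ _ => rfl
  adj := by
    intro v x y h
    simp only [one_smul, Pi.sub_apply, sub_sub_sub_cancel_right]
    exact h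
  fin := by
    intro v
    have h1 : (Set.univ.pi (fun j : Fin d => (Set.Icc (v j - 1) (v j + 1) : Set ℤ))).Finite :=
      Set.Finite.pi (fun j => Set.finite_Icc _ _)
    refine h1.subset (fun x hx j _ => ?_)
    have hx' : ∑ j, |x j - v j| = 1 := hx
    have h2 : |x j - v j| ≤ ∑ j, |x j - v j| :=
      Finset.single_le_sum (fun i _ => abs_nonneg (x i - v i)) (Finset.mem_univ j)
    rw [hx', abs_le] at h2
    have h3 : v j - 1 ≤ x j := by linarith [h2.1]
    have h4 : x j ≤ v j + 1 := by linarith [h2.2]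
    exact Set.mem_Icc.2 ⟨h3, h4⟩
  line := fun k => fun j => if j = ⟨0, hd⟩ then (k : ℤ) else 0
  line0 := by
    funext j
    simp
  lineInj := by
    intro a b h
    have h1 := congrFun h ⟨0, hd⟩
    simpa using h1
  lineAdj := by
    intro k
    show ∑ j : Fin d, |(if j = ⟨0, hd⟩ then ((k + 1 : ℕ) : ℤ) else 0) -
      (if j = ⟨0, hd⟩ then (k : ℤ) else 0)| = 1
    rw [Finset.sum_eq_single (⟨0, hd⟩ : Fin d)]
    · simp
    · intro j _ hj
      rw [if_neg hj, if_neg hj]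
      simp
    · intro h
      exact absurd (Finset.mem_univ _) h

/-- the box -/
noncomputable def zbox (d n : ℕ) : Finset (Fin d → ℤ) :=
  Fintype.piFinset (fun _ : Fin d => Finset.Icc (-(n : ℤ)) n)

theorem card_zbox (d n : ℕ) : (zbox d n).card = (2 * n + 1) ^ d := by
  unfold zbox
  rw [Fintype.card_piFinset]
  have : (Finset.Icc (-(n : ℤ)) n).card = 2 * n + 1 := by
    rw [Int.card_Icc]
    omega
  simp only [this, Finset.prod_const, Finset.card_univ, Fintype.card_fin]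

theorem in_zbox {d : ℕ} (hd : 0 < d) {n m : ℕ} (hm : m ≤ n)
    {ω : Fin (m + 1) → (Fin d → ℤ)} (hω : ω ∈ (zLat d hd).walks m) (i : Fin (m + 1)) :
    ω i ∈ zbox d n := by
  have key : ∀ k : ℕ, ∀ hk : k < m + 1, ∀ j, |(ω ⟨k, hk⟩) j| ≤ k := by
    intro k
    induction k with
    | zero =>
      intro hk j
      have h0 : ω ⟨0, hk⟩ = 0 := hω.1
      rw [h0]
      simp
    | succ k ih =>
      intro hk j
      have h1 := ih (by omega) j
      have h3 : ∑ j, |(ω ⟨k + 1, hk⟩) j - (ω ⟨k, by omega⟩) j| = 1 := hω.2.2 ⟨k, by omega⟩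
      have h4 : |(ω ⟨k + 1, hk⟩) j - (ω ⟨k, by omega⟩) j| ≤
          ∑ j, |(ω ⟨k + 1, hk⟩) j - (ω ⟨k, by omega⟩) j| :=
        Finset.single_le_sum (fun i _ => abs_nonneg ((ω ⟨k + 1, hk⟩) i - (ω ⟨k, by omega⟩) i))
          (Finset.mem_univ j)
      rw [h3] at h4
      rw [abs_le] at h1 h4 ⊢
      push_cast
      omega
  unfold zbox
  rw [Fintype.mem_piFinset]
  intro j
  have h1 := key i.1 i.2 j
  have hi := i.2
  have h3 : ω ⟨i.1, i.2⟩ = ω i := rfl
  rw [h3, abs_le] at h1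
  rw [Finset.mem_Icc]
  omega

/-- Hölder for two terms -/
theorem hol {α a b c d : ℝ} (hα0 : 0 < α) (hα1 : α < 1) (ha : 0 ≤ a) (hb : 0 ≤ b) (hc : 0 < c)
    (hd : 0 ≤ d) : a ^ (1 - α) * b ^ α + c ^ (1 - α) * d ^ α ≤ (a + c) ^ (1 - α) * (b + d) ^ α := by
  rcases (add_nonneg hb hd).eq_or_lt with h0 | h0
  · have h1 : b = 0 := by linarith
    have h2 : d = 0 := by linarith
    rw [h1, h2, add_zero, Real.zero_rpow hα0.ne', mul_zero, mul_zero, mul_zero, add_zero]
  · have hac : 0 < a + c := by linarith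
    have g1 := Real.geom_mean_le_arith_mean2_weighted (show (0 : ℝ) ≤ 1 - α by linarith) hα0.le
      (div_nonneg ha hac.le) (div_nonneg hb h0.le) (by ring)
    have g2 := Real.geom_mean_le_arith_mean2_weighted (show (0 : ℝ) ≤ 1 - α by linarith) hα0.le
      (div_nonneg hc.le hac.le) (div_nonneg hd h0.le) (by ring)
    rw [Real.div_rpow ha hac.le, Real.div_rpow hb h0.le] at g1
    rw [Real.div_rpow hc.le hac.le, Real.div_rpow hd h0.le] at g2
    have hp : 0 < (a + c) ^ (1 - α) := Real.rpow_pos_of_pos hac _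
    have hq : 0 < (b + d) ^ α := Real.rpow_pos_of_pos h0 _
    have h3 : (1 - α) * (a / (a + c)) + α * (b / (b + d)) +
        ((1 - α) * (c / (a + c)) + α * (d / (b + d))) = 1 := by
      field_simp
      ring
    have h4 : a ^ (1 - α) / (a + c) ^ (1 - α) * (b ^ α / (b + d) ^ α) +
        c ^ (1 - α) / (a + c) ^ (1 - α) * (d ^ α / (b + d) ^ α) ≤ 1 := by linarith
    have h5 : a ^ (1 - α) / (a + c) ^ (1 - α) * (b ^ α / (b + d) ^ α) +
        c ^ (1 - α) / (a + c) ^ (1 - α) * (d ^ α / (b + d) ^ α) =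
        (a ^ (1 - α) * b ^ α + c ^ (1 - α) * d ^ α) / ((a + c) ^ (1 - α) * (b + d) ^ α) := by
      field_simp
    rw [h5, div_le_one (mul_pos hp hq)] at h4
    exact h4

/-- the power cost -/
noncomputable def pw (α β κ : ℝ) (k m : ℕ) : ℝ := β * k + κ * ((k : ℝ) ^ (1 - α) * (m : ℝ) ^ α)

theorem cost_pw {V : Type} [AddCommGroup V] {L : Lat V} {μ : ℝ} {B : Finset V} {n : ℕ}
    {α β κ : ℝ} (hα0 : 0 < α) (hα1 : α < 1) (hβ : 0 ≤ β) (hκ : 0 ≤ κ)
    (hB : (B.card : ℝ) ≤ Real.exp β)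
    (h : ∀ m, m ≤ n → ((L.walks m).ncard : ℝ) ≤ μ ^ m * Real.exp (κ * (m : ℝ) ^ α)) :
    Cost L μ B n (pw α β κ) where
  one := by
    intro m hm
    unfold pw
    rw [Nat.cast_one, mul_one, Real.one_rpow, one_mul, Real.exp_add]
    have h1 := h m hm
    calc (B.card : ℝ) * (L.walks m).ncard ≤ Real.exp β * (μ ^ m * Real.exp (κ * (m : ℝ) ^ α)) :=
          mul_le_mul hB h1 (Nat.cast_nonneg _) (Real.exp_pos _).le
      _ = _ := by ring
  mono := by
    intro k k' m m' hk hm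
    unfold pw
    have h1 : (k : ℝ) ≤ k' := by exact_mod_cast hk
    have h2 : (m : ℝ) ≤ m' := by exact_mod_cast hm
    have h3 : (k : ℝ) ^ (1 - α) ≤ (k' : ℝ) ^ (1 - α) :=
      Real.rpow_le_rpow (Nat.cast_nonneg _) h1 (by linarith)
    have h4 : (m : ℝ) ^ α ≤ (m' : ℝ) ^ α := Real.rpow_le_rpow (Nat.cast_nonneg _) h2 hα0.le
    have h5 : (0 : ℝ) ≤ (m : ℝ) ^ α := Real.rpow_nonneg (Nat.cast_nonneg _) _
    have h6 : (0 : ℝ) ≤ (k' : ℝ) ^ (1 - α) := Real.rpow_nonneg (Nat.cast_nonneg _) _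
    exact add_le_add (mul_le_mul_of_nonneg_left h1 hβ)
      (mul_le_mul_of_nonneg_left (mul_le_mul h3 h4 h5 h6) hκ)
  add := by
    intro k r l m hm
    unfold pw
    have h1 := hol hα0 hα1 (Nat.cast_nonneg k) (Nat.cast_nonneg r) one_pos (Nat.cast_nonneg l)
    have h2 : ((r : ℝ) + l) ^ α ≤ (m : ℝ) ^ α :=
      Real.rpow_le_rpow (by positivity) (by exact_mod_cast hm) hα0.le
    have h3 : (0 : ℝ) ≤ ((k : ℝ) + 1) ^ (1 - α) := Real.rpow_nonneg (by positivity) _
    have h4 := mul_le_mul_of_nonneg_left (h1.trans (mul_le_mul_of_nonneg_left h2 h3)) hκ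
    rw [Real.one_rpow, one_mul] at h4
    push_cast
    rw [Real.one_rpow, one_mul]
    nlinarith
  zero := by
    unfold pw
    rw [Nat.cast_zero, mul_zero, zero_add, Real.zero_rpow hα0.ne', mul_zero, mul_zero]

end Pool.Agent.N932.FL
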